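import Mathlib
import Pool.Agent.H985.CH.Stm

/-!
# Maynard-Tao with parity over `F_q[X]`, `q` even (helper251): the engine with class-dependent weights

Generalisation of `Pool/Agent/H985/CH` (helper985 and co-authors): the coefficients `lam E f` of the
weights may depend on the residue class of `f` modulo `E`, and the level `θ n` of the weights does
not depend on the number `k` of the forms nor on the exponent of the logarithmic saving.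
-/

namespace Pool.Agent.H251.MY

open Polynomial Finset
open scoped Classical
open Pool.Agent.H985.Chow (mob)
open Pool.Agent.H985.KP (PA)
open Pool.Agent.H694.Typ (Mn Irn PU)
open Pool.Agent.H251.SP (Rgh Smo bw cf S_fb S_bf S_wm S_mob S_ps S_comb)
open Pool.Agent.H985.CH (Hh SqM Shf Bdd Exc S_momw S_tailw S_buchw S_sqw)

/-- The coefficients `lam E f` are bounded by 1 and depend only on `f` modulo `E`. -/
def Bd2 {K : Type} [Field K] (lam : K[X] → K[X] → ℝ) : Prop :=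
  (∀ E f, |lam E f| ≤ 1) ∧ ∀ E f g, E ∣ f - g → lam E f = lam E g

/-- The weight of level `y` with the class-dependent coefficients `lam`. -/
noncomputable def Wc {K : Type} [Field K] [Fintype K] {k : ℕ} (h : Fin k → K[X])
    (lam : K[X] → K[X] → ℝ) (y : ℕ) (f : K[X]) : ℝ :=
  ∑ E ∈ (SqM K y).filter (fun E => E ∣ Hh h f), lam E f

/-- **Task TIIC.**  Type II sums with the weights. -/
def S_tiic : Prop :=
  ∀ (K : Type) [Field K] [Fintype K] [CharP K 2] (ε : ℝ), 0 < ε →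
    ∃ c θ : ℝ, 0 < c ∧ 0 < θ ∧ ∀ k : ℕ, ∃ C n₀ : ℕ, ∀ n : ℕ, n₀ ≤ n →
    ∀ (j y : ℕ) (h : Fin k → K[X]) (i₀ : Fin k) (lam : K[X] → K[X] → ℝ) (α β : K[X] → ℝ),
      1 ≤ j → (j : ℝ) ≤ (1 / 4 - ε) * n → (y : ℝ) ≤ θ * n → Shf n h → Bd2 lam →
      Bdd α → Bdd β →
      |∑ p ∈ Irn K j, ∑ B ∈ Mn K (n - j),
        α p * β B * (Wc h lam y (p * B) * (mob (p * B + h i₀) : ℝ))| ≤
        (n : ℝ) ^ C * (Fintype.card K : ℝ) ^ n *
          ((Fintype.card K : ℝ) ^ (-(j : ℝ) / 64) + (Fintype.card K : ℝ) ^ (-c * n))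

/-- The proof to be given for TIIC. -/
def S_ttiic : Prop := S_fb → S_bf → S_wm → S_momw → S_tiic

/-- **Task TIC.**  Type I sums with the weights. -/
def S_tic : Prop :=
  ∀ (K : Type) [Field K] [Fintype K] [CharP K 2] (δ : ℝ), 0 < δ →
    ∃ θ : ℝ, 0 < θ ∧ ∀ k A₀ : ℕ, ∃ n₀ : ℕ, ∀ n : ℕ, n₀ ≤ n →
    ∀ (z y : ℕ) (D : K[X]) (h : Fin k → K[X]) (i₀ : Fin k) (lam : K[X] → K[X] → ℝ),
      z ≤ A₀ * Nat.log 2 n → D.Monic → Squarefree D →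
      2 * (D.natDegree : ℝ) ≤ (1 - δ) * n → (∀ i, IsCoprime D (h i)) → (y : ℝ) ≤ θ * n →
      Shf n h → Bd2 lam →
      |∑ B ∈ (Mn K (n - D.natDegree)).filter (Rgh z),
        Wc h lam y (D * B) * (mob (D * B + h i₀) : ℝ)| ≤
          (Fintype.card K : ℝ) ^ (n - D.natDegree) / (n : ℝ) ^ A₀

def S_ttic : Prop := S_mob → S_tailw → S_momw → S_tic

/-- **Task TWC.**  Type I sums twisted by the Moebius function, with the weights. -/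
def S_twc : Prop :=
  ∀ (K : Type) [Field K] [Fintype K] [CharP K 2], ∃ θ : ℝ, 0 < θ ∧ ∀ k A₀ : ℕ, ∃ n₀ : ℕ,
    ∀ n : ℕ, n₀ ≤ n → ∀ (z y : ℕ) (h : Fin k → K[X]) (i₀ : Fin k) (lam : K[X] → K[X] → ℝ),
      z ≤ A₀ * Nat.log 2 n → (y : ℝ) ≤ θ * n → Shf n h → Bd2 lam →
      |∑ f ∈ (Mn K n).filter (Rgh z),
        Wc h lam y f * ((mob f : ℝ) * (mob (f + h i₀) : ℝ))| ≤
          (Fintype.card K : ℝ) ^ n / (n : ℝ) ^ A₀

def S_ttwc : Prop := S_ps → S_tailw → S_momw → S_twc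

/-- **Task MAINAC.** -/
def S_mainac : Prop :=
  ∀ (K : Type) [Field K] [Fintype K] [CharP K 2] (ε : ℝ), 0 < ε → ε ≤ 1 / 100 →
    ∃ θ : ℝ, 0 < θ ∧ ∀ k A₁ : ℕ, ∃ n₀ : ℕ, ∀ n : ℕ, n₀ ≤ n →
    ∀ (l y : ℕ) (h : Fin k → K[X]) (i₀ : Fin k) (lam : K[X] → K[X] → ℝ), (1 / 4 - ε) * n ≤ l →
      (l : ℝ) ≤ (1 / 4 - ε) * n + 1 → (y : ℝ) ≤ θ * n → Shf n h → Bd2 lam →
      |∑ f ∈ (Mn K n).filter (Rgh l), Wc h lam y f * (mob (f + h i₀) : ℝ) * (mob f : ℝ)| ≤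
        (Fintype.card K : ℝ) ^ n / (n : ℝ) ^ A₁

def S_tmainac : Prop := S_tiic → S_twc → S_buchw → S_sqw → S_mainac

/-- **Task MAINBC.** -/
def S_mainbc : Prop :=
  ∀ (K : Type) [Field K] [Fintype K] [CharP K 2] (ε δ : ℝ), 0 < ε → ε ≤ 1 / 100 →
    0 < δ → ∃ θ : ℝ, 0 < θ ∧ ∀ k A₁ : ℕ, ∃ n₀ : ℕ, ∀ n : ℕ, n₀ ≤ n →
    ∀ (l y : ℕ) (h : Fin k → K[X]) (i₀ : Fin k) (lam : K[X] → K[X] → ℝ), (1 / 4 - ε) * n ≤ l →
      (l : ℝ) ≤ (1 / 4 - ε) * n + 1 → (y : ℝ) ≤ θ * n → Shf n h → Bd2 lam →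
      |∑ f ∈ (Mn K n).filter (Rgh l), Wc h lam y f * (mob (f + h i₀) : ℝ) *
        ∑ i ∈ range (n + 1), ∑ D ∈ (Mn K i).filter (fun D => D ∣ f),
          (if 2 * (i : ℝ) ≤ (1 - δ) * n then cf D else 0)| ≤
        (Fintype.card K : ℝ) ^ n / (n : ℝ) ^ A₁

def S_tmainbc : Prop := S_tiic → S_tic → S_buchw → S_sqw → S_momw → S_mainbc

/-- `W` has at most the average `X₀` over the `D p`, `p` irreducible, for the `D` without prime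
factors of degree less than `n / 5`. -/
def Avg {K : Type} [Field K] [Fintype K] (n : ℕ) (W : K[X] → ℝ) (X₀ : ℝ) : Prop :=
  ∀ (N : ℕ) (D : K[X]), n ≤ 5 * N → D.natDegree + N = n → D.Monic →
    (∀ P : K[X], P.Monic → Irreducible P → P ∣ D → n ≤ 5 * P.natDegree) →
    ∑ p ∈ Irn K N, W (D * p) ≤ X₀ * (Fintype.card K : ℝ) ^ N / N

/-- **Task FEWC.**  The exceptional `f`, with a nonnegative weight `W`. -/
def S_fewc : Prop :=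
  ∀ (K : Type) [Field K] [Fintype K], ∃ C : ℝ, 0 < C ∧ ∀ ε δ : ℝ, 0 < ε →
    ε ≤ 1 / 100 → 0 < δ → δ ≤ 1 / 10 → ∃ n₀ : ℕ, ∀ n : ℕ, n₀ ≤ n →
    ∀ (l : ℕ) (W : K[X] → ℝ) (X₀ : ℝ), (1 / 4 - ε) * n ≤ l → 0 ≤ X₀ → (∀ f, 0 ≤ W f) →
      (∀ f, W f ≤ (Fintype.card K : ℝ) ^ ((n : ℝ) / 8)) → Avg n W X₀ →
      ∑ f ∈ (Mn K n).filter (fun f => Rgh l f ∧ Exc n δ f), W f ≤
        C * (ε ^ 3 + δ) * (X₀ * (Fintype.card K : ℝ) ^ n / n) +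
          (Fintype.card K : ℝ) ^ ((19 / 20 : ℝ) * n)

/-- **Task PARC.**  The parity of `p + h i₀`, with weights `Wc` which have a majorant `W`. -/
def S_parc : Prop :=
  ∀ (K : Type) [Field K] [Fintype K] [CharP K 2] (ε₀ : ℝ), 0 < ε₀ →
    ∃ θ : ℝ, 0 < θ ∧ ∀ k A₁ : ℕ, ∃ n₀ : ℕ, ∀ n : ℕ, n₀ ≤ n →
    ∀ (y : ℕ) (h : Fin k → K[X]) (i₀ : Fin k) (lam : K[X] → K[X] → ℝ) (W : K[X] → ℝ) (X₀ B : ℝ),
      (y : ℝ) ≤ θ * n → Shf n h → Bd2 lam → 0 ≤ X₀ → 0 ≤ B →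
      (∀ f, B * |Wc h lam y f| ≤ W f) → (∀ f, W f ≤ (Fintype.card K : ℝ) ^ ((n : ℝ) / 8)) →
      Avg n W X₀ →
      B * |∑ p ∈ Irn K n, Wc h lam y p * (mob (p + h i₀) : ℝ)| ≤
        ε₀ * (X₀ * (Fintype.card K : ℝ) ^ n / n) + (B + 1) * (Fintype.card K : ℝ) ^ n / (n : ℝ) ^ A₁

def S_tparc : Prop := S_comb → S_mainac → S_mainbc → S_fewc → S_parc

end Pool.Agent.H251.MY
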