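import Mathlib
import Pool.Agent.H251.MY.StmE
import Pool.Agent.H524.MT.StmX

/-!
# Maynard-Tao with parity over `F_q[X]`, `q` even (helper251): Maynard's sieve

The Maynard part follows `Pool/Agent/H524/MT` (helper524 and co-authors).  `S` is the finite set of
all the shifts; no `f + s`, `s ∈ S`, will have a small prime factor.
-/

namespace Pool.Agent.H251.MY

open Polynomial Finset
open scoped Classical
open Pool.Agent.H985.Chow (mob)
open Pool.Agent.H985.KP (PA)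
open Pool.Agent.H694.Typ (Mn Irn PU)
open Pool.Agent.H985.CH (Hh SqM Shf Bdd Exc)
open Pool.Agent.H524.MT (Ac Pm GW BH PS Loc sw rwt RW QQ VR er Rz ph lam dia wV yr S_one S_bhk S_resg
  S_rwmx S_mert S_opt)

/-- The main term of the weights `V`. -/
noncomputable def GV {K : Type} [Field K] [Fintype K] (M : K[X]) (z : ℕ) (r : K[X] → ℕ)
    (V : Finset K[X] → ℝ) : ℝ :=
  ∑ T ∈ (PS K M z).powerset, V T * ∏ P ∈ T, ((r P : ℝ) / ((Fintype.card K : ℝ) ^ P.natDegree - 1))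

/-- **Task GVB.** -/
def S_gvb : Prop :=
  ∀ (K : Type) [Field K] [Fintype K] (κ z A : ℕ) (M : K[X]) (Rt : K[X] → K[X] → Prop)
    (r : K[X] → ℕ) (Vm Vp : Finset K[X] → ℝ), Loc M Rt r κ → BH K (κ + 2) z A Vm Vp →
    0 < VR M z r ∧ VR M z r ≤ 1 ∧ VR M z r / 4 ≤ GV M z r Vm ∧ GV M z r Vp ≤ 2 * VR M z r

/-- **Task LIN.**  The irreducible polynomials `p` with `f = D p - g₀` in a residue class, with all
the weights. -/
def S_lin : Prop :=
  ∀ (K : Type) [Field K] [Fintype K], ∃ θ : ℝ, 0 < θ ∧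
    ∀ (κ : ℕ) (η : ℝ) (g₀ M : K[X]) (Rt : K[X] → K[X] → Prop) (r : K[X] → ℕ),
      0 < η → M.Monic → Loc M Rt r κ →
      (∀ P : K[X], P.Monic → Irreducible P → ¬ P ∣ M → ∀ a, Rt P a → ¬ P ∣ a + g₀) →
      ∃ n₀ : ℕ, ∀ (a₀ D : K[X]) (n N z A D₀ : ℕ) (B : ℝ) (V : Finset K[X] → ℝ)
        (ι : Type) (I : Finset ι) (E cc : ι → K[X]) (φ : ι → ℝ),
        IsCoprime (a₀ + g₀) M → n₀ ≤ n → 1 ≤ A → GW K z (A * z) V → η * n ≤ z →
        ((A * z + D₀ : ℕ) : ℝ) ≤ θ * n → RW z D₀ B I E cc φ →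
        (∀ x ∈ I, IsCoprime (cc x + g₀) (E x)) →
        n ≤ 5 * N → D.natDegree + N = n → D.Monic →
        (∀ P : K[X], P.Monic → Irreducible P → P ∣ D → n ≤ 5 * P.natDegree) →
        |(N : ℝ) * ∑ p ∈ (Irn K N).filter (fun p => M ∣ D * p - g₀ - a₀),
            sw M Rt z V (D * p - g₀) * rwt I E cc φ (D * p - g₀) -
          (Fintype.card K : ℝ) ^ N / ((Fintype.card K : ℝ) ^ M.natDegree * Pm M) *
            (GV M z r V * QQ I E φ)| ≤
          (Fintype.card K : ℝ) ^ N / ((Fintype.card K : ℝ) ^ M.natDegree * Pm M) *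
            ((B + 1) * er K z)

/-- The modulus `M` contains the small primes and the primes dividing a difference. -/
structure Adm {K : Type} [Field K] [Fintype K] (S : Finset K[X]) (M : K[X]) : Prop where
  mon : M.Monic
  pos : 0 < M.natDegree
  sq : Squarefree M
  dif : ∀ P : K[X], Irreducible P → ∀ s ∈ S, ∀ t ∈ S, s ≠ t → P ∣ s - t → P ∣ M
  big : ∀ P : K[X], P.Monic → Irreducible P → ¬ P ∣ M →
    16 * (S.card + 2) ≤ Fintype.card K ^ P.natDegree

/-- The sifted classes for the prime `f + s₀`. -/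
def Rs {K : Type} [Field K] (S : Finset K[X]) (s₀ : K[X]) (P a : K[X]) : Prop :=
  ∃ s ∈ S, s ≠ s₀ ∧ P ∣ a + s

/-- The sifted classes. -/
def Ra {K : Type} [Field K] (S : Finset K[X]) (P a : K[X]) : Prop := ∃ s ∈ S, P ∣ a + s

/-- The hypotheses on Maynard's weights: `z ≥ η n`, level `T`. -/
structure Wd {K : Type} [Field K] [Fintype K] {k : ℕ} (z T : ℕ) (R : Fin k → Finset K[X])
    (y : (Fin k → K[X]) → ℝ) : Prop where
  zT : z ≤ T
  Rj : ∀ j, R j = Rz K z T ∨ R j = {1}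
  yb : ∀ r ∈ Fintype.piFinset R, |y r| ≤ 2 * (T + 1)
  y0 : ∀ r ∈ Fintype.piFinset R, T < ∑ j, (r j).natDegree → y r = 0

/-- **Task REPR.**  The weights as class-dependent weights of the variable `p = f + g i`. -/
def S_repr : Prop :=
  ∀ (K : Type) [Field K] [Fintype K] [CharP K 2] (S : Finset K[X]) (k : ℕ) (g : Fin k → K[X])
    (i : Fin k) (M : K[X]) (η : ℝ), 0 < η → Function.Injective g → (∀ j, g j ∈ S) → Adm S M →
    ∃ C n₀ : ℕ, ∀ (n z A T : ℕ) (V : Finset K[X] → ℝ) (R : Fin k → Finset K[X])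
      (y : (Fin k → K[X]) → ℝ) (a₀ : K[X]) (h : Fin S.card → K[X]),
      n₀ ≤ n → η * n ≤ z → A * z + 3 * T ≤ n → GW K z (A * z) V → Wd z T R y → R i = {1} →
      (∀ s ∈ S, s ≠ g i → ∃ t, h t = s - g i) → (∃ t, h t = -(g i + a₀)) →
      ∃ la : K[X] → K[X] → ℝ, Bd2 la ∧ ∀ p : K[X],
        (if M ∣ p - g i - a₀ then sw M (Rs S (g i)) z V (p - g i) *
          wV R y (fun j => p - g i + g j) else 0) =
          (n : ℝ) ^ C * Wc h la (M.natDegree + A * z + 3 * T) p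

/-- **Task MASP.  The main estimate with parity.**  `θ` depends only on `K`. -/
def S_masp : Prop :=
  ∀ (K : Type) [Field K] [Fintype K] [CharP K 2], ∃ θ : ℝ, 0 < θ ∧
    ∀ (S : Finset K[X]) (k : ℕ) (g : Fin k → K[X]) (i : Fin k) (b M : K[X]) (η : ℝ) (A₁ : ℕ),
      0 < η → Function.Injective g → (∀ j, g j ∈ S) → b ∈ S → b ≠ g i → Adm S M →
      ∃ n₀ : ℕ, ∀ (a₀ : K[X]) (n z A T : ℕ) (σ : ℤ) (Vm Vp : Finset K[X] → ℝ)
        (R : Fin k → Finset K[X]) (y : (Fin k → K[X]) → ℝ),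
        (∀ s ∈ S, IsCoprime (a₀ + s) M) → n₀ ≤ n → 1 ≤ A → BH K (S.card + 2) z A Vm Vp →
        η * n ≤ z → ((A * z + 3 * T : ℕ) : ℝ) ≤ θ * n → Wd z T R y → R i = {1} →
        (σ = 1 ∨ σ = -1) →
        (Fintype.card K : ℝ) ^ n / ((Fintype.card K : ℝ) ^ M.natDegree * Pm M) *
            (VR M z (fun _ => S.card - 1) * dia R y / 16) - (Fintype.card K : ℝ) ^ n / (n : ℝ) ^ A₁ ≤
          (n : ℝ) * ∑ f ∈ (Ac K n M a₀).filter
            (fun f => Irreducible (f + g i) ∧ mob (f + b) = σ ∧ ∀ P ∈ PS K M z, ¬ Ra S P f),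
              wV R y (fun j => f + g j)

def S_tmasp : Prop := S_parc → S_lin → S_gvb → S_repr → S_rwmx → S_masp

/-- **Task UPP.**  The upper bound without primes. -/
def S_upp : Prop :=
  ∀ (K : Type) [Field K] [Fintype K] [CharP K 2], ∃ θ : ℝ, 0 < θ ∧
    ∀ (S : Finset K[X]) (k : ℕ) (g : Fin k → K[X]) (M : K[X]) (η : ℝ) (A₁ : ℕ),
      0 < η → Function.Injective g → (∀ j, g j ∈ S) → Adm S M →
      ∃ n₀ : ℕ, ∀ (a₀ : K[X]) (n z A T : ℕ) (Vm Vp : Finset K[X] → ℝ)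
        (R : Fin k → Finset K[X]) (y : (Fin k → K[X]) → ℝ),
        (∀ s ∈ S, IsCoprime (a₀ + s) M) → n₀ ≤ n → 1 ≤ A → BH K (S.card + 2) z A Vm Vp →
        η * n ≤ z → ((A * z + 3 * T : ℕ) : ℝ) ≤ θ * n → Wd z T R y →
        ∑ f ∈ (Ac K n M a₀).filter (fun f => ∀ P ∈ PS K M z, ¬ Ra S P f),
            wV R y (fun j => f + g j) ≤
          (Fintype.card K : ℝ) ^ n / (Fintype.card K : ℝ) ^ M.natDegree *
            (2 * VR M z (fun _ => S.card) * dia R y) + (Fintype.card K : ℝ) ^ n / (n : ℝ) ^ A₁ ∧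
        ∀ f ∈ Mn K n, wV R y (fun j => f + g j) ≤ (n : ℝ) ^ (5 * k + 5)

def S_tupp : Prop := S_one → S_rwmx → S_upp

/-- **Maynard-Tao with parity.**  For every `m` there is a `k` such that, for all different
`g_1, ..., g_k` and all `b_j ≠ g_j` in a finite admissible set `S` of polynomials and all signs
`σ_j`, there are, for large `n`, at least `q ^ n / n ^ C` monic `f` of degree `n` such that `f + g_j`
is irreducible and `μ (f + b_j) = σ_j` for at least `m` of the `j`, and no `f + s`, `s ∈ S`, has a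
prime factor of degree less than `δ n`. -/
def S_mayp : Prop :=
  ∀ (K : Type) [Field K] [Fintype K] [CharP K 2] (m : ℕ), ∃ k : ℕ, 1 ≤ k ∧
    ∀ (S : Finset K[X]) (g b : Fin k → K[X]), Function.Injective g →
      (∀ j, g j ∈ S ∧ b j ∈ S ∧ b j ≠ g j) →
      (∀ P : K[X], Irreducible P → ∃ f : K[X], ∀ s ∈ S, ¬ P ∣ f + s) →
      ∃ (δ : ℝ) (C n₀ : ℕ), 0 < δ ∧ ∀ n : ℕ, n₀ ≤ n → ∀ σ : Fin k → ℤ,
        (∀ j, σ j = 1 ∨ σ j = -1) →
        (Fintype.card K : ℝ) ^ n / (n : ℝ) ^ C ≤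
          (((Mn K n).filter (fun f =>
            m ≤ (Finset.univ.filter (fun j => Irreducible (f + g j) ∧ mob (f + b j) = σ j)).card ∧
            ∀ s ∈ S, ∀ P : K[X], Irreducible P → P ∣ f + s → δ * n ≤ P.natDegree)).card : ℝ)

/-- **Task MAYP.**  The assembly. -/
def S_tmayp : Prop := S_masp → S_upp → S_bhk → S_resg → S_mert → S_opt → S_mayp

end Pool.Agent.H251.MY
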