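import Mathlib
import Pool.Agent.H251.MY.StmM

/-!
# Maynard-Tao with parity over `F_q[X]`, `q` even (helper251): the sharp form and corollaries
-/

namespace Pool.Agent.H251.MY

open Polynomial Finset
open scoped Classical
open Pool.Agent.H985.Chow (mob)
open Pool.Agent.H694.Typ (Mn Irn PU)
open Pool.Agent.H524.MT (VR S_bhk S_resg S_mert S_opt)

/-- **Task VRL.**  The lower bound of the right order for the product of the densities. -/
def S_vrl : Prop :=
  ∀ (K : Type) [Field K] [Fintype K] (s : ℕ) (M : K[X]), M.Monic →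
    (∀ P : K[X], P.Monic → Irreducible P → ¬ P ∣ M →
      16 * (s + 2) ≤ Fintype.card K ^ P.natDegree) →
    ∃ c : ℝ, 0 < c ∧ ∀ z : ℕ, 1 ≤ z → c / (z : ℝ) ^ s ≤ VR M z (fun _ => s)

/-- **Maynard-Tao with parity.**  For every `m` there is a `k` such that, for all different
`g_1, ..., g_k` and all `b_j ≠ g_j` in a finite admissible set `S` of polynomials, there are, for
large `n` and all signs `σ_j`, at least `c q ^ n / n ^ |S|` monic `f` of degree `n` such that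
`f + g_j` is irreducible and `μ (f + b_j) = σ_j` for at least `m` of the `j`, and no `f + s`,
`s ∈ S`, has a prime factor of degree less than `δ n`. -/
def S_mayq : Prop :=
  ∀ (K : Type) [Field K] [Fintype K] [CharP K 2] (m : ℕ), ∃ k : ℕ, 1 ≤ k ∧
    ∀ (S : Finset K[X]) (g b : Fin k → K[X]), Function.Injective g →
      (∀ j, g j ∈ S ∧ b j ∈ S ∧ b j ≠ g j) →
      (∀ P : K[X], Irreducible P → ∃ f : K[X], ∀ s ∈ S, ¬ P ∣ f + s) →
      ∃ (δ c : ℝ) (n₀ : ℕ), 0 < δ ∧ 0 < c ∧ ∀ n : ℕ, n₀ ≤ n → ∀ σ : Fin k → ℤ,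
        (∀ j, σ j = 1 ∨ σ j = -1) →
        c * (Fintype.card K : ℝ) ^ n / (n : ℝ) ^ S.card ≤
          (((Mn K n).filter (fun f =>
            m ≤ (Finset.univ.filter (fun j => Irreducible (f + g j) ∧ mob (f + b j) = σ j)).card ∧
            ∀ s ∈ S, ∀ P : K[X], Irreducible P → P ∣ f + s → δ * n ≤ P.natDegree)).card : ℝ)

/-- **Task MAYQ.**  The assembly (adapt `Pool/Agent/H524/MT/MxS.lean`). -/
def S_tmayq : Prop := S_masp → S_upp → S_bhk → S_resg → S_mert → S_opt → S_vrl → S_mayq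

/-- **Task GAPQ.**  Bounded gaps between primes whose neighbours have prescribed parity.  `B`
depends only on `K` and `m`. -/
def S_gapq : Prop :=
  ∀ (K : Type) [Field K] [Fintype K] [CharP K 2] (m : ℕ), ∃ B : ℕ, ∀ a : K[X], a ≠ 0 →
    (∀ P : K[X], Irreducible P → ∃ x : K[X], ¬ P ∣ x ∧ ¬ P ∣ x + a) →
    ∃ (δ : ℝ) (n₀ : ℕ), 0 < δ ∧ ∀ n : ℕ, n₀ ≤ n → ∀ σ : ℤ, (σ = 1 ∨ σ = -1) →
      ∃ f : K[X], f.Monic ∧ f.natDegree = n ∧
        m ≤ {h : K[X] | h.natDegree ≤ B ∧ Irreducible (f + h) ∧ mob (f + h + a) = σ ∧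
          ∀ P : K[X], Irreducible P → P ∣ f + h + a → δ * n ≤ P.natDegree}.ncard

def S_tgapq : Prop := S_mayq → S_gapq

/-- **Task PROPQ.**  A positive proportion of the `m`-tuples `c_1, ..., c_m`: there are infinitely
many `f` such that all `f + c_i` are irreducible and all `μ (f + c_i + a) = σ`. -/
def S_propq : Prop :=
  ∀ (K : Type) [Field K] [Fintype K] [CharP K 2] (m : ℕ), ∃ δ : ℝ, 0 < δ ∧
    ∀ a : K[X], a ≠ 0 → (∀ P : K[X], Irreducible P → ∃ x : K[X], ¬ P ∣ x ∧ ¬ P ∣ x + a) →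
    ∃ n₀ : ℕ, ∀ n : ℕ, n₀ ≤ n → ∀ σ : ℤ, (σ = 1 ∨ σ = -1) →
      δ * ((Fintype.card K : ℝ) ^ n) ^ m ≤
      ({c : Fin m → K[X] | (∀ i, (c i).degree < (n : WithBot ℕ)) ∧ Function.Injective c ∧
        {f : K[X] | ∀ i, Irreducible (f + c i) ∧ mob (f + c i + a) = σ}.Infinite}.ncard : ℝ)

def S_tpropq : Prop := S_mayq → S_propq

end Pool.Agent.H251.MY
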