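import Mathlib
import Pool.Agent.H251.MY.StmQ
import Pool.Agent.H524.MT.Gap

/-!
# Bounded gaps between primes whose neighbours have prescribed parity, from `S_mayq`

The pattern is `Pool/Agent/H524/MT/Gap.lean` (helper524); helper225.
-/

set_option autoImplicit false

namespace Pool.Agent.H251.MY

open Polynomial
open scoped Classical
open Pool.Agent.H985.Chow (mob)
open Pool.Agent.H694.Typ (Mn PU mem_Mn mem_PU)
open Pool.Agent.H524.MT.GapA (WW WW_monic)
open Pool.Agent.H524.MT.May (fin_deg)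

namespace GapQ

variable {K : Type} [Field K] [Fintype K]

theorem dvd_WW {k : ℕ} {P : K[X]} (hI : Irreducible P) (hd : P.natDegree ≤ k) : P ∣ WW K k := by
  have h1 : (normalize P).Monic := monic_normalize hI.ne_zero
  have h3 : Irreducible (normalize P) := (normalize_associated P).symm.irreducible hI
  have h4 : (normalize P).natDegree = P.natDegree :=
    natDegree_eq_of_degree_eq (degree_eq_degree_of_associated (normalize_associated P))
  refine (dvd_normalize_iff.2 dvd_rfl : P ∣ normalize P).trans ?_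
  exact Finset.dvd_prod_of_mem (fun P => P) (mem_PU.2 ⟨h1, h3, by rw [h4]; exact hd⟩)

/-- The set of the shifts is admissible. -/
theorem adm {k : ℕ} (S : Finset K[X]) (g : Fin k → K[X]) (a : K[X])
    (hS : ∀ s ∈ S, ∃ j, s = g j ∨ s = g j + a) (hcard : S.card ≤ 2 * k)
    (hg : ∀ j, WW K (2 * k) ∣ g j) (P : K[X]) (hI : Irreducible P)
    (hx : ∃ x : K[X], ¬ P ∣ x ∧ ¬ P ∣ x + a) : ∃ f : K[X], ∀ s ∈ S, ¬ P ∣ f + s := by
  by_cases hd : P.natDegree ≤ 2 * k
  · obtain ⟨x, h1, h2⟩ := hx
    refine ⟨x, fun s hs hP => ?_⟩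
    obtain ⟨j, hj⟩ := hS s hs
    have h3 : P ∣ g j := (dvd_WW hI hd).trans (hg j)
    rcases hj with rfl | rfl
    · exact h1 ((dvd_add_left h3).1 hP)
    · apply h2
      have e : x + (g j + a) = x + a + g j := by ring
      rw [e] at hP
      exact (dvd_add_left h3).1 hP
  · by_contra hcon
    push Not at hcon hd
    choose t ht1 ht2 using fun i : Fin (2 * k + 1) => hcon (X ^ (i : ℕ))
    obtain ⟨i, -, i', -, hne, hij⟩ := Finset.exists_ne_map_eq_of_card_lt_of_maps_to
      (s := (Finset.univ : Finset (Fin (2 * k + 1)))) (t := S) (f := t) (by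
        rw [Finset.card_univ, Fintype.card_fin]; omega) (fun i _ => ht1 i)
    apply hne
    have h3 := dvd_sub (ht2 i) (ht2 i')
    rw [hij] at h3
    have h4 : (X ^ (i : ℕ) : K[X]) + t i' - (X ^ (i' : ℕ) + t i') =
        X ^ (i : ℕ) - X ^ (i' : ℕ) := by ring
    rw [h4] at h3
    have h6 : (X ^ (i : ℕ) - X ^ (i' : ℕ) : K[X]) = 0 := by
      by_contra h7
      have h8 := natDegree_le_of_dvd h3 h7
      have h9 : (X ^ (i : ℕ) - X ^ (i' : ℕ) : K[X]).natDegree ≤ 2 * k := by
        refine (natDegree_sub_le _ _).trans ?_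
        rw [natDegree_X_pow, natDegree_X_pow]
        have := i.2
        have := i'.2
        omega
      omega
    have h7 := congrArg natDegree (sub_eq_zero.1 h6)
    rw [natDegree_X_pow, natDegree_X_pow] at h7
    exact Fin.ext h7

end GapQ

open GapQ in
/-- **Task GAPQ.** -/
theorem gapq : S_tgapq := by
  intro hM K _ _ _ m
  obtain ⟨k, hk, H⟩ := hM K m
  obtain ⟨g, hg⟩ : ∃ g : Fin k → K[X], ∀ j, g j = WW K (2 * k) * X ^ (j : ℕ) :=
    ⟨fun j => WW K (2 * k) * X ^ (j : ℕ), fun _ => rfl⟩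
  have hW0 : WW K (2 * k) ≠ 0 := (WW_monic (2 * k)).ne_zero
  have hinj : Function.Injective g := by
    intro i j hij
    rw [hg, hg] at hij
    have h1 := mul_left_cancel₀ hW0 hij
    have h2 := congrArg natDegree h1
    rw [natDegree_X_pow, natDegree_X_pow] at h2
    exact Fin.ext h2
  have hdeg : ∀ j, (g j).natDegree ≤ (WW K (2 * k)).natDegree + k := by
    intro j
    rw [hg]
    refine natDegree_mul_le.trans ?_
    rw [natDegree_X_pow]
    have := j.2
    omega
  refine ⟨(WW K (2 * k)).natDegree + k, fun a ha hadm => ?_⟩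
  obtain ⟨S, hSd⟩ : ∃ S : Finset K[X], S = Finset.univ.image g ∪
      Finset.univ.image (fun j => g j + a) := ⟨_, rfl⟩
  have hcard : S.card ≤ 2 * k := by
    rw [hSd]
    refine (Finset.card_union_le _ _).trans ?_
    have h1 := Finset.card_image_le (s := (Finset.univ : Finset (Fin k))) (f := g)
    have h2 := Finset.card_image_le (s := (Finset.univ : Finset (Fin k))) (f := fun j => g j + a)
    rw [Finset.card_univ, Fintype.card_fin] at h1 h2
    omega
  have hS : ∀ s ∈ S, ∃ j, s = g j ∨ s = g j + a := by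
    intro s hs
    rw [hSd, Finset.mem_union, Finset.mem_image, Finset.mem_image] at hs
    rcases hs with ⟨j, -, hj⟩ | ⟨j, -, hj⟩
    · exact ⟨j, Or.inl hj.symm⟩
    · exact ⟨j, Or.inr hj.symm⟩
  have hS1 : ∀ j, g j ∈ S := fun j => by
    rw [hSd]
    exact Finset.mem_union_left _ (Finset.mem_image_of_mem _ (Finset.mem_univ _))
  have hS2 : ∀ j, g j + a ∈ S := fun j => by
    rw [hSd]
    exact Finset.mem_union_right _ (Finset.mem_image.2 ⟨j, Finset.mem_univ _, rfl⟩)
  obtain ⟨δ, c, n₀, hδ, hc, H1⟩ := H S g (fun j => g j + a) hinj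
    (fun j => ⟨hS1 j, hS2 j, fun h => ha (by simpa using h)⟩)
    (fun P hP => adm S g a hS hcard (fun j => by rw [hg]; exact dvd_mul_right _ _) P hP
      (hadm P hP))
  refine ⟨δ, max n₀ 1, hδ, fun n hn σ hσ => ?_⟩
  have h1 := H1 n ((le_max_left _ _).trans hn) (fun _ => σ) (fun _ => hσ)
  have hn0 : (0 : ℝ) < n := by
    have : 1 ≤ n := (le_max_right _ _).trans hn
    exact_mod_cast this
  have hq0 : (0 : ℝ) < (Fintype.card K : ℝ) := by
    exact_mod_cast (Fintype.card_pos (α := K))
  have h2 : (0 : ℝ) < c * (Fintype.card K : ℝ) ^ n / (n : ℝ) ^ S.card := by positivity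
  have h3 := h2.trans_le h1
  have h4 := Finset.card_pos.1 (by exact_mod_cast h3)
  obtain ⟨f, hf⟩ := h4
  rw [Finset.mem_filter, mem_Mn] at hf
  refine ⟨f, hf.1.1, hf.1.2, hf.2.1.trans ?_⟩
  have hfin : {h : K[X] | h.natDegree ≤ (WW K (2 * k)).natDegree + k ∧ Irreducible (f + h) ∧
      mob (f + h + a) = σ ∧ ∀ P : K[X], Irreducible P → P ∣ f + h + a →
        δ * n ≤ P.natDegree}.Finite := by
    refine (fin_deg (K := K) ((WW K (2 * k)).natDegree + k + 1)).subset fun h hh => ?_
    refine lt_of_le_of_lt degree_le_natDegree ?_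
    have := hh.1
    exact_mod_cast Nat.lt_succ_of_le this
  rw [← Finset.card_image_of_injective _ hinj, ← Set.ncard_coe_finset]
  refine Set.ncard_le_ncard ?_ hfin
  intro h hh
  rw [Finset.mem_coe, Finset.mem_image] at hh
  obtain ⟨j, hj, rfl⟩ := hh
  have h5 := (Finset.mem_filter.1 hj).2
  refine ⟨hdeg j, h5.1, ?_, fun P hP hPd => ?_⟩
  · rw [add_assoc]
    exact h5.2
  · rw [add_assoc] at hPd
    exact hf.2.2 _ (hS2 j) P hP hPd

end Pool.Agent.H251.MY
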