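import Mathlib
import Pool.Agent.H251.MY.StmQ

/-!
# Maynard-Tao with parity over `F_q[X]`, `q` even (helper251): the uniform version

The `g j` are fixed, the other elements of the finite set `S` may have any degree less than `n`.
All `n₀` depend only on `K`, `g`, `M`, `η` and the bound `κ` for the number of the elements of `S`.
-/

namespace Pool.Agent.H251.MY

open Polynomial Finset
open scoped Classical
open Pool.Agent.H985.Chow (mob)
open Pool.Agent.H985.KP (PA)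
open Pool.Agent.H694.Typ (Mn Irn PU)
open Pool.Agent.H985.CH (Hh SqM Shf Bdd Exc)
open Pool.Agent.H524.MT (Ac Pm GW BH PS Loc sw rwt RW QQ VR er Rz ph lam dia wV yr S_one S_bhk S_resg
  S_rwmx S_mert S_opt)

/-- **Task LINU.**  `S_lin`, uniformly in the local data. -/
def S_linu : Prop :=
  ∀ (K : Type) [Field K] [Fintype K], ∃ θ : ℝ, 0 < θ ∧
    ∀ (κ : ℕ) (η : ℝ) (g₀ M : K[X]), 0 < η → M.Monic →
      ∃ n₀ : ℕ, ∀ (Rt : K[X] → K[X] → Prop) (r : K[X] → ℕ), Loc M Rt r κ →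
      (∀ P : K[X], P.Monic → Irreducible P → ¬ P ∣ M → ∀ a, Rt P a → ¬ P ∣ a + g₀) →
      ∀ (a₀ D : K[X]) (n N z A D₀ : ℕ) (B : ℝ) (V : Finset K[X] → ℝ)
        (ι : Type) (I : Finset ι) (E cc : ι → K[X]) (φ : ι → ℝ),
        IsCoprime (a₀ + g₀) M → n₀ ≤ n → 1 ≤ A → GW K z (A * z) V → η * n ≤ z →
        ((A * z + D₀ : ℕ) : ℝ) ≤ θ * n → RW z D₀ B I E cc φ →
        (∀ x ∈ I, IsCoprime (cc x + g₀) (E x)) →
        n ≤ 5 * N → D.natDegree + N = n → D.Monic →
        (∀ P : K[X], P.Monic → Irreducible P → P ∣ D → n ≤ 5 * P.natDegree) →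
        |(N : ℝ) * ∑ p ∈ (Irn K N).filter (fun p => M ∣ D * p - g₀ - a₀),
            sw M Rt z V (D * p - g₀) * rwt I E cc φ (D * p - g₀) -
          (Fintype.card K : ℝ) ^ N / ((Fintype.card K : ℝ) ^ M.natDegree * Pm M) *
            (GV M z r V * QQ I E φ)| ≤
          (Fintype.card K : ℝ) ^ N / ((Fintype.card K : ℝ) ^ M.natDegree * Pm M) *
            ((B + 1) * er K z)

/-- The modulus `M` contains the small primes and the primes dividing a difference of the `g j`. -/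
structure Adu {K : Type} [Field K] [Fintype K] {k : ℕ} (κ : ℕ) (g : Fin k → K[X]) (M : K[X]) :
    Prop where
  mon : M.Monic
  pos : 0 < M.natDegree
  sq : Squarefree M
  dif : ∀ P : K[X], Irreducible P → ∀ i j, i ≠ j → P ∣ g i - g j → P ∣ M
  big : ∀ P : K[X], P.Monic → Irreducible P → ¬ P ∣ M → 16 * (κ + 2) ≤ Fintype.card K ^ P.natDegree

/-- The sifted classes for the prime `f + s₀`. -/
def Ru {K : Type} [Field K] (S : Finset K[X]) (s₀ : K[X]) (P a : K[X]) : Prop :=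
  Ra S P a ∧ ¬ P ∣ a + s₀

/-- The number of the classes of the `- s` modulo `P`. -/
noncomputable def nu {K : Type} [Field K] (S : Finset K[X]) (P : K[X]) : ℕ :=
  {c : K[X] | c.degree < P.degree ∧ Ra S P c}.ncard

/-- The number of the sifted classes: `nu S P`, cut at the cardinality for degenerate `P`. -/
noncomputable def nr {K : Type} [Field K] (S : Finset K[X]) (P : K[X]) : ℕ := min (nu S P) S.card

/-- **Task REPRU.** -/
def S_repru : Prop :=
  ∀ (K : Type) [Field K] [Fintype K] [CharP K 2] (κ k : ℕ) (g : Fin k → K[X])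
    (i : Fin k) (M : K[X]) (η : ℝ), 0 < η → Adu κ g M → Function.Injective g →
    ∃ C n₀ : ℕ, ∀ (S : Finset K[X]) (n z A T : ℕ) (V : Finset K[X] → ℝ) (R : Fin k → Finset K[X])
      (y : (Fin k → K[X]) → ℝ) (a₀ : K[X]) (h : Fin (κ + 1) → K[X]),
      (∀ j, g j ∈ S) → S.card ≤ κ →
      n₀ ≤ n → η * n ≤ z → A * z + 3 * T ≤ n → GW K z (A * z) V → Wd z T R y → R i = {1} →
      (∀ s ∈ S, s ≠ g i → ∃ t, h t = s - g i) → (∃ t, h t = -(g i + a₀)) →
      ∃ la : K[X] → K[X] → ℝ, Bd2 la ∧ ∀ p : K[X],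
        (if M ∣ p - g i - a₀ then sw M (Ru S (g i)) z V (p - g i) *
          wV R y (fun j => p - g i + g j) else 0) =
          (n : ℝ) ^ C * Wc h la (M.natDegree + A * z + 3 * T) p

/-- **Task MASPU.  The main estimate with parity, uniform version.** -/
def S_maspu : Prop :=
  ∀ (K : Type) [Field K] [Fintype K] [CharP K 2], ∃ θ : ℝ, 0 < θ ∧
    ∀ (κ k : ℕ) (g : Fin k → K[X]) (i : Fin k) (M : K[X]) (η : ℝ) (A₁ : ℕ),
      0 < η → Function.Injective g → Adu κ g M →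
      ∃ n₀ : ℕ, ∀ (S : Finset K[X]) (b a₀ : K[X]) (n z A T : ℕ) (σ : ℤ)
        (Vm Vp : Finset K[X] → ℝ) (R : Fin k → Finset K[X]) (y : (Fin k → K[X]) → ℝ),
        S.card ≤ κ → (∀ s ∈ S, s.natDegree < n) → (∀ j, g j ∈ S) → b ∈ S → b ≠ g i →
        (∀ s ∈ S, IsCoprime (a₀ + s) M) → n₀ ≤ n → 1 ≤ A → BH K (κ + 2) z A Vm Vp →
        η * n ≤ z → ((A * z + 3 * T : ℕ) : ℝ) ≤ θ * n → Wd z T R y → R i = {1} →
        (σ = 1 ∨ σ = -1) →
        (Fintype.card K : ℝ) ^ n / ((Fintype.card K : ℝ) ^ M.natDegree * Pm M) *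
            (VR M z (fun P => nr S P - 1) * dia R y / 16) - (Fintype.card K : ℝ) ^ n / (n : ℝ) ^ A₁ ≤
          (n : ℝ) * ∑ f ∈ (Ac K n M a₀).filter
            (fun f => Irreducible (f + g i) ∧ mob (f + b) = σ ∧ ∀ P ∈ PS K M z, ¬ Ra S P f),
              wV R y (fun j => f + g j)

def S_tmaspu : Prop := S_parc → S_linu → S_gvb → S_repru → S_rwmx → S_maspu

/-- **Task UPPU.** -/
def S_uppu : Prop :=
  ∀ (K : Type) [Field K] [Fintype K] [CharP K 2], ∃ θ : ℝ, 0 < θ ∧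
    ∀ (κ k : ℕ) (g : Fin k → K[X]) (M : K[X]) (η : ℝ) (A₁ : ℕ),
      0 < η → Function.Injective g → Adu κ g M →
      ∃ n₀ : ℕ, ∀ (S : Finset K[X]) (a₀ : K[X]) (n z A T : ℕ) (Vm Vp : Finset K[X] → ℝ)
        (R : Fin k → Finset K[X]) (y : (Fin k → K[X]) → ℝ),
        S.card ≤ κ → (∀ j, g j ∈ S) →
        (∀ s ∈ S, IsCoprime (a₀ + s) M) → n₀ ≤ n → 1 ≤ A → BH K (κ + 2) z A Vm Vp →
        η * n ≤ z → ((A * z + 3 * T : ℕ) : ℝ) ≤ θ * n → Wd z T R y →
        ∑ f ∈ (Ac K n M a₀).filter (fun f => ∀ P ∈ PS K M z, ¬ Ra S P f),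
            wV R y (fun j => f + g j) ≤
          (Fintype.card K : ℝ) ^ n / (Fintype.card K : ℝ) ^ M.natDegree *
            (2 * VR M z (nr S) * dia R y) + (Fintype.card K : ℝ) ^ n / (n : ℝ) ^ A₁

def S_tuppu : Prop := S_one → S_rwmx → S_uppu

/-- **Maynard-Tao with parity, uniform version.**  For every `m` there is a `k` such that, for all
different `g_1, ..., g_k` and large `n`, for all `b_j ≠ g_j` in an admissible set `S ∋ g_j` of at most
`κ` polynomials of degree less than `n` and all signs `σ_j`, there are at least `c q ^ n / n ^ |S|`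
monic `f` of degree `n` such that `f + g_j` is irreducible and `μ (f + b_j) = σ_j` for at least `m`
of the `j`, and no `f + s`, `s ∈ S`, has a prime factor of degree less than `δ n`. -/
def S_mayu : Prop :=
  ∀ (K : Type) [Field K] [Fintype K] [CharP K 2] (m : ℕ), ∃ k : ℕ, 1 ≤ k ∧
    ∀ (g : Fin k → K[X]) (κ : ℕ), Function.Injective g →
      ∃ (δ c : ℝ) (n₀ : ℕ), 0 < δ ∧ 0 < c ∧ ∀ n : ℕ, n₀ ≤ n →
      ∀ (S : Finset K[X]) (b : Fin k → K[X]) (σ : Fin k → ℤ), S.card ≤ κ →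
        (∀ s ∈ S, s.natDegree < n) → (∀ j, g j ∈ S ∧ b j ∈ S ∧ b j ≠ g j) →
        (∀ P : K[X], Irreducible P → ∃ f : K[X], ∀ s ∈ S, ¬ P ∣ f + s) →
        (∀ j, σ j = 1 ∨ σ j = -1) →
        c * (Fintype.card K : ℝ) ^ n / (n : ℝ) ^ S.card ≤
          (((Mn K n).filter (fun f =>
            m ≤ (Finset.univ.filter (fun j => Irreducible (f + g j) ∧ mob (f + b j) = σ j)).card ∧
            ∀ s ∈ S, ∀ P : K[X], Irreducible P → P ∣ f + s → δ * n ≤ P.natDegree)).card : ℝ)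

/-- **Task MAYU.** -/
def S_tmayu : Prop := S_maspu → S_uppu → S_bhk → S_resg → S_mert → S_opt → S_vrl → S_mayu

/-- **Task GOLQ.**  Clusters of primes `p` such that all `H - p` have prescribed parity, for every
admissible `H`.  `B`, `C` depend only on `K` and `m`. -/
def S_golq : Prop :=
  ∀ (K : Type) [Field K] [Fintype K] [CharP K 2] (m : ℕ), ∃ (B C : ℕ) (δ c : ℝ) (n₀ : ℕ), 0 < δ ∧
    0 < c ∧ ∀ n : ℕ, n₀ ≤ n → ∀ H : K[X], H ≠ 0 → H.natDegree < n →
    (∀ P : K[X], Irreducible P → ∃ x : K[X], ¬ P ∣ x ∧ ¬ P ∣ x + H) →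
    ∀ σ : ℤ, (σ = 1 ∨ σ = -1) →
      c * (Fintype.card K : ℝ) ^ n / (n : ℝ) ^ C ≤
        (((Mn K n).filter (fun f =>
          m ≤ {h : K[X] | h.natDegree ≤ B ∧ Irreducible (f + h) ∧ mob (f + h + H) = σ ∧
            ∀ P : K[X], Irreducible P → P ∣ f + h + H → δ * n ≤ P.natDegree}.ncard)).card : ℝ)

def S_tgolq : Prop := S_mayu → S_golq

end Pool.Agent.H251.MY
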