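import Mathlib
import Pool.Agent.H251.MY.StmU
import Pool.Agent.H251.MY.Gapq

/-!
# Clusters of primes `p` such that all `p + t`, `t ∈ T`, are almost primes, one of them of prescribed
parity, for every admissible set `T`, from `S_mayu`

The pattern is `Pool/Agent/H251/MY/Golq.lean` (helper225, helper297); helper251.
-/

set_option autoImplicit false

namespace Pool.Agent.H251.MY

open Polynomial
open scoped Classical
open Pool.Agent.H985.Chow (mob)
open Pool.Agent.H694.Typ (Mn PU mem_Mn mem_PU)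
open Pool.Agent.H524.MT.GapA (WW WW_monic)
open Pool.Agent.H524.MT.May (fin_deg)

/-- Clusters of primes with prescribed parity at one element of an arbitrary admissible set `T`. -/
def S_clus : Prop :=
  ∀ (K : Type) [Field K] [Fintype K] [CharP K 2] (m κ : ℕ), ∃ (B C : ℕ) (δ c : ℝ) (n₀ : ℕ), 0 < δ ∧
    0 < c ∧ ∀ n : ℕ, n₀ ≤ n → ∀ T : Finset K[X], T.card ≤ κ → (∀ t ∈ T, t.natDegree < n) →
    0 ∈ T → (∀ P : K[X], Irreducible P → ∃ x : K[X], ∀ t ∈ T, ¬ P ∣ x + t) →
    ∀ a ∈ T, a ≠ 0 → ∀ σ : ℤ, (σ = 1 ∨ σ = -1) →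
      c * (Fintype.card K : ℝ) ^ n / (n : ℝ) ^ C ≤
        (((Mn K n).filter (fun f =>
          m ≤ {h : K[X] | h.natDegree ≤ B ∧ Irreducible (f + h) ∧ mob (f + h + a) = σ ∧
            ∀ t ∈ T, ∀ P : K[X], Irreducible P → P ∣ f + h + t →
              δ * n ≤ P.natDegree}.ncard)).card : ℝ)

namespace Clus

variable {K : Type} [Field K] [Fintype K]

/-- The set of the shifts is admissible. -/
theorem adm {k N : ℕ} (S T : Finset K[X]) (g : Fin k → K[X])
    (hS : ∀ s ∈ S, ∃ j, ∃ t ∈ T, s = g j + t) (hcard : S.card ≤ N)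
    (hg : ∀ j, WW K N ∣ g j) (P : K[X]) (hI : Irreducible P)
    (hx : ∃ x : K[X], ∀ t ∈ T, ¬ P ∣ x + t) : ∃ f : K[X], ∀ s ∈ S, ¬ P ∣ f + s := by
  by_cases hd : P.natDegree ≤ N
  · obtain ⟨x, h1⟩ := hx
    refine ⟨x, fun s hs hP => ?_⟩
    obtain ⟨j, t, ht, rfl⟩ := hS s hs
    have h3 : P ∣ g j := (GapQ.dvd_WW hI hd).trans (hg j)
    apply h1 t ht
    have e : x + (g j + t) = x + t + g j := by ring
    rw [e] at hP
    exact (dvd_add_left h3).1 hP
  · by_contra hcon
    push Not at hcon hd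
    choose t ht1 ht2 using fun i : Fin (N + 1) => hcon (X ^ (i : ℕ))
    obtain ⟨i, -, i', -, hne, hij⟩ := Finset.exists_ne_map_eq_of_card_lt_of_maps_to
      (s := (Finset.univ : Finset (Fin (N + 1)))) (t := S) (f := t) (by
        rw [Finset.card_univ, Fintype.card_fin]; omega) (fun i _ => ht1 i)
    apply hne
    have h3 := dvd_sub (ht2 i) (ht2 i')
    rw [hij] at h3
    have h4 : (X ^ (i : ℕ) : K[X]) + t i' - (X ^ (i' : ℕ) + t i') =
        X ^ (i : ℕ) - X ^ (i' : ℕ) := by ring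
    rw [h4] at h3
    have h6 : (X ^ (i : ℕ) - X ^ (i' : ℕ) : K[X]) = 0 := by
      by_contra h7
      have h8 := natDegree_le_of_dvd h3 h7
      have h9 : (X ^ (i : ℕ) - X ^ (i' : ℕ) : K[X]).natDegree ≤ N := by
        refine (natDegree_sub_le _ _).trans ?_
        rw [natDegree_X_pow, natDegree_X_pow]
        have := i.2
        have := i'.2
        omega
      omega
    have h7 := congrArg natDegree (sub_eq_zero.1 h6)
    rw [natDegree_X_pow, natDegree_X_pow] at h7
    exact Fin.ext h7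

end Clus

open Clus in
/-- **Clusters of primes.** -/
theorem clus (hM : S_mayu) : S_clus := by
  intro K _ _ _ m κ
  obtain ⟨k, hk, H⟩ := hM K m
  obtain ⟨N, hN⟩ : ∃ N : ℕ, N = k * κ := ⟨_, rfl⟩
  obtain ⟨g, hg⟩ : ∃ g : Fin k → K[X], ∀ j, g j = WW K N * X ^ (j : ℕ) :=
    ⟨fun j => WW K N * X ^ (j : ℕ), fun _ => rfl⟩
  have hW0 : WW K N ≠ 0 := (WW_monic N).ne_zero
  have hinj : Function.Injective g := by
    intro i j hij
    rw [hg, hg] at hij
    have h1 := mul_left_cancel₀ hW0 hij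
    have h2 := congrArg natDegree h1
    rw [natDegree_X_pow, natDegree_X_pow] at h2
    exact Fin.ext h2
  obtain ⟨B, hB⟩ : ∃ B : ℕ, B = (WW K N).natDegree + k := ⟨_, rfl⟩
  have hdeg : ∀ j, (g j).natDegree ≤ B := by
    intro j
    rw [hg, hB]
    refine natDegree_mul_le.trans ?_
    rw [natDegree_X_pow]
    have := j.2
    omega
  obtain ⟨δ, c, n₀, hδ, hc, H1⟩ := H g N hinj
  refine ⟨B, N, δ, c, max n₀ (B + 1), hδ, hc, fun n hn T hT hTd hT0 hadm a ha ha0 σ hσ => ?_⟩
  have hn1 : n₀ ≤ n := (le_max_left _ _).trans hn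
  have hn2 : B + 1 ≤ n := (le_max_right _ _).trans hn
  obtain ⟨S, hSd⟩ : ∃ S : Finset K[X], S = (Finset.univ ×ˢ T).image
      (fun x : Fin k × K[X] => g x.1 + x.2) := ⟨_, rfl⟩
  have hcard : S.card ≤ N := by
    rw [hSd, hN]
    refine Finset.card_image_le.trans ?_
    rw [Finset.card_product, Finset.card_univ, Fintype.card_fin]
    exact Nat.mul_le_mul_left k hT
  have hS : ∀ s ∈ S, ∃ j, ∃ t ∈ T, s = g j + t := by
    intro s hs
    rw [hSd, Finset.mem_image] at hs
    obtain ⟨x, hx, rfl⟩ := hs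
    exact ⟨x.1, x.2, (Finset.mem_product.1 hx).2, rfl⟩
  have hS1 : ∀ j, ∀ t ∈ T, g j + t ∈ S := fun j t ht => by
    rw [hSd]
    exact Finset.mem_image.2 ⟨(j, t), Finset.mem_product.2 ⟨Finset.mem_univ _, ht⟩, rfl⟩
  have hS0 : ∀ j, g j ∈ S := fun j => by
    have := hS1 j 0 hT0
    rwa [add_zero] at this
  have hSn : ∀ s ∈ S, s.natDegree < n := by
    intro s hs
    obtain ⟨j, t, ht, rfl⟩ := hS s hs
    have h1 := hdeg j
    exact lt_of_le_of_lt (natDegree_add_le _ _) (max_lt (by omega) (hTd t ht))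
  have h1 := H1 n hn1 S (fun j => g j + a) (fun _ => σ) hcard hSn
    (fun j => ⟨hS0 j, hS1 j a ha, fun h => ha0 (by simpa using h)⟩)
    (fun P hP => adm S T g hS hcard (fun j => by rw [hg]; exact dvd_mul_right _ _) P hP
      (hadm P hP)) (fun _ => hσ)
  have hn0 : (1 : ℝ) ≤ n := by
    have : 1 ≤ n := by omega
    exact_mod_cast this
  have hq0 : (0 : ℝ) < (Fintype.card K : ℝ) := by
    exact_mod_cast (Fintype.card_pos (α := K))
  have h2 : c * (Fintype.card K : ℝ) ^ n / (n : ℝ) ^ N ≤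
      c * (Fintype.card K : ℝ) ^ n / (n : ℝ) ^ S.card :=
    div_le_div_of_nonneg_left (by positivity) (by positivity) (pow_le_pow_right₀ hn0 hcard)
  refine h2.trans (h1.trans ?_)
  have h3 : ((Mn K n).filter (fun f =>
      m ≤ (Finset.univ.filter (fun j => Irreducible (f + g j) ∧ mob (f + (g j + a)) = σ)).card ∧
      ∀ s ∈ S, ∀ P : K[X], Irreducible P → P ∣ f + s → δ * n ≤ P.natDegree)).card ≤
      ((Mn K n).filter (fun f =>
        m ≤ {h : K[X] | h.natDegree ≤ B ∧ Irreducible (f + h) ∧ mob (f + h + a) = σ ∧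
          ∀ t ∈ T, ∀ P : K[X], Irreducible P → P ∣ f + h + t →
            δ * n ≤ P.natDegree}.ncard)).card := by
    refine Finset.card_le_card fun f hf => ?_
    rw [Finset.mem_filter] at hf ⊢
    refine ⟨hf.1, hf.2.1.trans ?_⟩
    have hfin : {h : K[X] | h.natDegree ≤ B ∧ Irreducible (f + h) ∧
        mob (f + h + a) = σ ∧ ∀ t ∈ T, ∀ P : K[X], Irreducible P → P ∣ f + h + t →
          δ * n ≤ P.natDegree}.Finite := by
      refine (fin_deg (K := K) (B + 1)).subset fun h hh => ?_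
      refine lt_of_le_of_lt degree_le_natDegree ?_
      have := hh.1
      exact_mod_cast Nat.lt_succ_of_le this
    rw [← Finset.card_image_of_injective _ hinj, ← Set.ncard_coe_finset]
    refine Set.ncard_le_ncard ?_ hfin
    intro h hh
    rw [Finset.mem_coe, Finset.mem_image] at hh
    obtain ⟨j, hj, rfl⟩ := hh
    have h5 := (Finset.mem_filter.1 hj).2
    refine ⟨hdeg j, h5.1, ?_, fun t ht P hP hPd => ?_⟩
    · rw [add_assoc]
      exact h5.2
    · rw [add_assoc] at hPd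
      exact hf.2.2 _ (hS1 j t ht) P hP hPd
  exact_mod_cast h3

end Pool.Agent.H251.MY
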