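import Pool.Agent.H251.MY.StmD
import Pool.Agent.H985.CG.Vph
import Pool.Agent.H985.CG.PAP

/-!
# Task DEH (helper996): all moduli from a fixed factor times a squarefree factor
-/

set_option autoImplicit false

namespace Pool.Agent.H251.MY

open Polynomial Finset
open scoped Classical
open Pool.Agent.H985.Chow (mob)
open Pool.Agent.H985.KP (mobg)
open Pool.Agent.H694.Typ (Mn Irn PU mem_Mn mem_Irn card_Mn mem_PU wt wt_nonneg wt_add q_ge card_dvd_le
  irn_one_le wt_le_half)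
open Pool.Agent.H251.SP (S_sp)
open Pool.Agent.H251.SP.TW (abs_mob mobg_one)
open Pool.Agent.H985.CH (SqM)
open Pool.Agent.H985.CG (phiQ)
open Pool.Agent.H985.CG.VphH23 (PF mem_PF phiQ_eq)

namespace Deh

variable {K : Type} [Field K] [Fintype K]

/-! ### monic polynomials of degree at most `y` -/

/-- monic polynomials of degree at most `y` -/
noncomputable def MM (K : Type) [Field K] [Fintype K] (y : ℕ) : Finset K[X] :=
  (range (y + 1)).biUnion fun i => Mn K i

theorem mem_MM {y : ℕ} {f : K[X]} : f ∈ MM K y ↔ f.Monic ∧ f.natDegree ≤ y := by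
  unfold MM
  rw [mem_biUnion]
  constructor
  · rintro ⟨i, hi, hf⟩
    rw [mem_Mn] at hf
    rw [mem_range] at hi
    exact ⟨hf.1, by omega⟩
  · rintro ⟨h1, h2⟩
    exact ⟨f.natDegree, mem_range.2 (by omega), mem_Mn.2 ⟨h1, rfl⟩⟩

theorem sum_MM (y : ℕ) (g : K[X] → ℝ) : ∑ d ∈ MM K y, g d = ∑ j ∈ range (y + 1), ∑ d ∈ Mn K j, g d := by
  unfold MM
  rw [sum_biUnion]
  intro i _ j _ hij
  rw [Function.onFun, disjoint_left]
  intro f hf hf'
  rw [mem_Mn] at hf hf'
  exact hij (hf.2.symm.trans hf'.2)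

theorem mem_SqM {y : ℕ} {f : K[X]} : f ∈ SqM K y ↔ f ∈ MM K y ∧ Squarefree f := by
  unfold SqM MM
  rw [mem_filter]

/-! ### the function `|E| / φ(E)` -/

/-- `|E| / φ(E)` -/
noncomputable def ff (E : K[X]) : ℝ := ∏ P ∈ PF E, (1 - wt K P.natDegree)⁻¹

theorem wt_half' {j : ℕ} (hj : 1 ≤ j) : wt K j ≤ 1 / 2 := by
  refine (wt_le_half (k := K) j).trans ?_
  calc (1 / 2 : ℝ) ^ j ≤ (1 / 2 : ℝ) ^ 1 := pow_le_pow_of_le_one (by norm_num) (by norm_num) hj
    _ = 1 / 2 := by norm_num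

theorem fac_one {P : K[X]} (hP : Irreducible P) : 1 ≤ (1 - wt K P.natDegree)⁻¹ ∧
    (1 - wt K P.natDegree)⁻¹ ≤ 1 + 2 * wt K P.natDegree := by
  have h1 := wt_half' (K := K) (j := P.natDegree) hP.natDegree_pos
  have h0 := wt_nonneg (k := K) P.natDegree
  have h2 : 0 < 1 - wt K P.natDegree := by linarith
  constructor
  · rw [one_le_inv₀ h2]
    linarith
  · rw [inv_le_iff_one_le_mul₀ h2]
    nlinarith

theorem one_le_prod_r {ι : Type*} (s : Finset ι) (f : ι → ℝ) (h : ∀ i ∈ s, 1 ≤ f i) : 1 ≤ ∏ i ∈ s, f i := by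
  calc (1 : ℝ) = ∏ _i ∈ s, (1 : ℝ) := prod_const_one.symm
    _ ≤ _ := prod_le_prod (fun _ _ => zero_le_one) h

theorem ff_ge {E : K[X]} (hE : E ≠ 0) : 1 ≤ ff E := by
  unfold ff
  exact one_le_prod_r _ _ fun P hP => (fac_one ((mem_PF hE).1 hP).2.1).1

theorem eph_eq {E : K[X]} (hE : E ≠ 0) : 1 / eph E = wt K E.natDegree * ff E := by
  have h := phiQ_eq hE
  have e : eph E = (phiQ E : ℝ) := rfl
  rw [e, h, ff, prod_inv_distrib, wt, one_div, mul_inv]

theorem ff_mul {a m g : K[X]} (ha : a ≠ 0) (hm : m ≠ 0) (hg : g ≠ 0) (hgm : g ∣ m) :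
    ff (a * (m ^ 2 * g)) ≤ ff a * ff m := by
  have h0 : a * (m ^ 2 * g) ≠ 0 := mul_ne_zero ha (mul_ne_zero (pow_ne_zero 2 hm) hg)
  have hsub : PF (a * (m ^ 2 * g)) ⊆ PF a ∪ PF m := by
    intro P hP
    obtain ⟨h1, h2, h3⟩ := (mem_PF h0).1 hP
    rw [mem_union, mem_PF ha, mem_PF hm]
    rcases h2.prime.dvd_or_dvd h3 with h4 | h4
    · exact Or.inl ⟨h1, h2, h4⟩
    · refine Or.inr ⟨h1, h2, ?_⟩
      rcases h2.prime.dvd_or_dvd h4 with h5 | h5
      · exact h2.prime.dvd_of_dvd_pow h5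
      · exact h5.trans hgm
  have hone : ∀ P ∈ PF a ∪ PF m, 1 ≤ (1 - wt K P.natDegree)⁻¹ := by
    intro P hP
    rw [mem_union, mem_PF ha, mem_PF hm] at hP
    rcases hP with h | h
    · exact (fac_one h.2.1).1
    · exact (fac_one h.2.1).1
  unfold ff
  calc ∏ P ∈ PF (a * (m ^ 2 * g)), (1 - wt K P.natDegree)⁻¹ ≤ ∏ P ∈ PF a ∪ PF m, (1 - wt K P.natDegree)⁻¹ :=
        prod_le_prod_of_subset_of_one_le hsub (fun P hP => zero_le_one.trans (hone P (hsub hP)))
          (fun P hP _ => hone P hP)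
    _ ≤ (∏ P ∈ PF a ∪ PF m, (1 - wt K P.natDegree)⁻¹) * ∏ P ∈ PF a ∩ PF m, (1 - wt K P.natDegree)⁻¹ := by
        refine le_mul_of_one_le_right (prod_nonneg fun P hP => zero_le_one.trans (hone P hP)) ?_
        exact one_le_prod_r _ _ fun P hP => hone P (mem_union_left _ (mem_inter.1 hP).1)
    _ = _ := prod_union_inter

/-! ### the average of `|E| / φ(E)` -/

/-- `q ^ (-1/2)` -/
noncomputable def sr (K : Type) [Field K] [Fintype K] : ℝ := (Real.sqrt (Fintype.card K : ℝ))⁻¹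

theorem sr_facts : 0 < sr K ∧ sr K ≤ 3 / 4 ∧ sr K ^ 2 = ((Fintype.card K : ℝ))⁻¹ := by
  have hq := q_ge (k := K)
  have h1 : 0 < Real.sqrt (Fintype.card K : ℝ) := Real.sqrt_pos.2 (by linarith)
  have h2 : sr K ^ 2 = ((Fintype.card K : ℝ))⁻¹ := by
    unfold sr
    rw [inv_pow, Real.sq_sqrt (by linarith)]
  have h3 : 0 < sr K := by
    unfold sr
    positivity
  refine ⟨h3, ?_, h2⟩
  by_contra h4
  have h5 : (3 / 4 : ℝ) ^ 2 < sr K ^ 2 := by
    have : 3 / 4 < sr K := not_le.1 h4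
    gcongr
  rw [h2] at h5
  have h6 : ((Fintype.card K : ℝ))⁻¹ ≤ (2 : ℝ)⁻¹ := by gcongr
  norm_num at h5 h6
  linarith

theorem wt_sr (j : ℕ) : wt K j = sr K ^ j * sr K ^ j := by
  obtain ⟨_, _, h⟩ := sr_facts (K := K)
  unfold wt
  rw [← mul_pow, ← sq, h, inv_pow]

/-- the product of the weights of a set of primes -/
theorem prod_wt {S : Finset K[X]} (hS : ∀ P ∈ S, P.Monic ∧ Irreducible P) :
    ∏ P ∈ S, (2 * wt K P.natDegree) ≤ 2 ^ Fintype.card K * sr K ^ (∏ P ∈ S, P).natDegree := by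
  obtain ⟨hs0, hs1, hs2⟩ := sr_facts (K := K)
  have hq := q_ge (k := K)
  have hs3 : sr K ^ 2 ≤ 1 / 2 := by
    rw [hs2, one_div]
    gcongr
  have h1 : ∀ P ∈ S, 2 * wt K P.natDegree ≤ (if P.natDegree = 1 then 2 else 1) * sr K ^ P.natDegree := by
    intro P hP
    have hd := (hS P hP).2.natDegree_pos
    rw [wt_sr]
    have hp : 0 < sr K ^ P.natDegree := by positivity
    split_ifs with h
    · have : sr K ^ P.natDegree ≤ 1 := pow_le_one₀ hs0.le (by linarith)
      nlinarith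
    · have h2 : sr K ^ P.natDegree ≤ sr K ^ 2 := pow_le_pow_of_le_one hs0.le (by linarith) (by omega)
      nlinarith
  have h0 : ∀ P ∈ S, 0 ≤ 2 * wt K P.natDegree := fun P _ => by
    have := wt_nonneg (k := K) P.natDegree
    positivity
  refine (prod_le_prod h0 h1).trans ?_
  rw [prod_mul_distrib, natDegree_prod_of_monic _ _ (fun P hP => (hS P hP).1), prod_pow_eq_pow_sum]
  refine mul_le_mul_of_nonneg_right ?_ (by positivity)
  rw [prod_ite, prod_const, prod_const_one, mul_one]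
  refine pow_le_pow_right₀ (by norm_num) ?_
  have h3 : S.filter (fun P => P.natDegree = 1) ⊆ Irn K 1 := by
    intro P hP
    rw [mem_filter] at hP
    exact mem_Irn.2 ⟨(hS P hP.1).1, hP.2, (hS P hP.1).2⟩
  have h4 := irn_one_le (k := K) (d := 1) one_pos
  have h5 := card_le_card h3
  rw [pow_one] at h4
  omega

omit [Fintype K] in
theorem prod_inj {S T : Finset K[X]} (hS : ∀ P ∈ S, P.Monic ∧ Irreducible P)
    (hT : ∀ P ∈ T, P.Monic ∧ Irreducible P) (h : ∏ P ∈ S, P = ∏ P ∈ T, P) : S ⊆ T := by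
  intro P hP
  have h1 : P ∣ ∏ P ∈ T, P := by
    rw [← h]
    exact dvd_prod_of_mem _ hP
  obtain ⟨Q, hQ, h2⟩ := (hS P hP).2.prime.exists_mem_finset_dvd h1
  have h3 : P = Q := eq_of_monic_of_associated (hS P hP).1 (hT Q hQ).1
    ((hS P hP).2.associated_of_dvd (hT Q hQ).2 h2)
  rw [h3]
  exact hQ

theorem ff_le {E : K[X]} (hE : E.Monic) (y : ℕ) (hy : E.natDegree ≤ y) :
    ff E ≤ 2 ^ Fintype.card K * ∑ d ∈ (MM K y).filter (fun d => d ∣ E), sr K ^ d.natDegree := by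
  obtain ⟨hs0, hs1, hs2⟩ := sr_facts (K := K)
  have hE0 := hE.ne_zero
  have hPF : ∀ S ∈ (PF E).powerset, ∀ P ∈ S, P.Monic ∧ Irreducible P := by
    intro S hS P hP
    have := (mem_PF hE0).1 (mem_powerset.1 hS hP)
    exact ⟨this.1, this.2.1⟩
  have h1 : ff E ≤ ∏ P ∈ PF E, (1 + 2 * wt K P.natDegree) := by
    unfold ff
    refine prod_le_prod (fun P hP => ?_) (fun P hP => (fac_one ((mem_PF hE0).1 hP).2.1).2)
    exact zero_le_one.trans (fac_one ((mem_PF hE0).1 hP).2.1).1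
  refine h1.trans ?_
  rw [prod_one_add]
  have h2 : ∑ S ∈ (PF E).powerset, ∏ P ∈ S, (2 * wt K P.natDegree) ≤
      ∑ S ∈ (PF E).powerset, 2 ^ Fintype.card K * sr K ^ (∏ P ∈ S, P).natDegree :=
    sum_le_sum fun S hS => prod_wt (hPF S hS)
  refine h2.trans ?_
  rw [← mul_sum]
  refine mul_le_mul_of_nonneg_left ?_ (by positivity)
  have h3 : ∑ S ∈ (PF E).powerset, sr K ^ (∏ P ∈ S, P).natDegree =
      ∑ d ∈ (PF E).powerset.image (fun S => ∏ P ∈ S, P), sr K ^ d.natDegree := by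
    rw [sum_image]
    intro S hS T hT hST
    exact Finset.Subset.antisymm (prod_inj (hPF S hS) (hPF T hT) hST)
      (prod_inj (hPF T hT) (hPF S hS) hST.symm)
  rw [h3]
  refine sum_le_sum_of_subset_of_nonneg ?_ (fun d _ _ => by positivity)
  intro d hd
  rw [mem_image] at hd
  obtain ⟨S, hS, rfl⟩ := hd
  have hdvd : ∏ P ∈ S, P ∣ E := by
    refine Finset.prod_dvd_of_coprime ?_ fun P hP => ((mem_PF hE0).1 (mem_powerset.1 hS hP)).2.2
    intro P hP Q hQ hPQ
    have h4 := hPF S hS P hP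
    have h5 := hPF S hS Q hQ
    refine (h4.2.coprime_iff_not_dvd).2 fun hd => hPQ ?_
    exact eq_of_monic_of_associated h4.1 h5.1 (h4.2.associated_of_dvd h5.2 hd)
  rw [mem_filter, mem_MM]
  exact ⟨⟨monic_prod_of_monic _ _ fun P hP => (hPF S hS P hP).1,
    (natDegree_le_of_dvd hdvd hE0).trans hy⟩, hdvd⟩

/-- the constant of the average -/
noncomputable def CC (K : Type) [Field K] [Fintype K] : ℝ := 4 * 2 ^ Fintype.card K

theorem CC_pos : 0 < CC K := by
  unfold CC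
  positivity

theorem geom (s : ℝ) (h0 : 0 ≤ s) (h1 : s ≤ 3 / 4) (n : ℕ) : ∑ i ∈ range n, s ^ i ≤ 4 := by
  have h2 : (∑ i ∈ range n, s ^ i) * (1 - s) ≤ 1 := by
    rw [geom_sum_mul_neg]
    have : 0 ≤ s ^ n := by positivity
    linarith
  have h3 : 0 ≤ ∑ i ∈ range n, s ^ i := sum_nonneg fun i _ => by positivity
  nlinarith

theorem avg (i : ℕ) : ∑ E ∈ Mn K i, ff E ≤ CC K * (Fintype.card K : ℝ) ^ i := by
  obtain ⟨hs0, hs1, hs2⟩ := sr_facts (K := K)
  have hq := q_ge (k := K)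
  calc ∑ E ∈ Mn K i, ff E
      ≤ ∑ E ∈ Mn K i, 2 ^ Fintype.card K * ∑ d ∈ (MM K i).filter (fun d => d ∣ E), sr K ^ d.natDegree := by
        refine sum_le_sum fun E hE => ?_
        rw [mem_Mn] at hE
        exact ff_le hE.1 i hE.2.le
    _ = 2 ^ Fintype.card K * ∑ d ∈ MM K i, ∑ E ∈ Mn K i, if d ∣ E then sr K ^ d.natDegree else 0 := by
        rw [← mul_sum, sum_comm]
        congr 1
        refine sum_congr rfl fun E _ => ?_
        rw [sum_filter]
    _ ≤ 2 ^ Fintype.card K * ∑ d ∈ MM K i, sr K ^ d.natDegree * ((Fintype.card K : ℝ) ^ i * wt K d.natDegree) := by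
        refine mul_le_mul_of_nonneg_left (sum_le_sum fun d hd => ?_) (by positivity)
        rw [← sum_filter, sum_const, nsmul_eq_mul, mul_comm]
        refine mul_le_mul_of_nonneg_left ?_ (by positivity)
        exact card_dvd_le (mem_MM.1 hd).1
    _ = 2 ^ Fintype.card K * ((Fintype.card K : ℝ) ^ i * ∑ j ∈ range (i + 1), sr K ^ j) := by
        congr 1
        rw [sum_MM, mul_sum]
        refine sum_congr rfl fun j _ => ?_
        have h1 : ∀ d ∈ Mn K j, sr K ^ d.natDegree * ((Fintype.card K : ℝ) ^ i * wt K d.natDegree) =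
            sr K ^ j * ((Fintype.card K : ℝ) ^ i * wt K j) := by
          intro d hd
          rw [(mem_Mn.1 hd).2]
        rw [sum_congr rfl h1, sum_const, card_Mn, nsmul_eq_mul]
        unfold wt
        push_cast
        have : (Fintype.card K : ℝ) ^ j ≠ 0 := by positivity
        field_simp
    _ ≤ 2 ^ Fintype.card K * ((Fintype.card K : ℝ) ^ i * 4) := by
        have := geom (sr K) hs0.le hs1 (i + 1)
        gcongr
    _ = _ := by
        unfold CC
        ring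

/-- the sum of `1 / φ(E)` over `deg E ≤ y` -/
theorem sum_wt_ff (y : ℕ) : ∑ E ∈ MM K y, wt K E.natDegree * ff E ≤ CC K * ((y : ℝ) + 1) := by
  have hq := q_ge (k := K)
  rw [sum_MM]
  have h1 : ∀ j ∈ range (y + 1), ∑ E ∈ Mn K j, wt K E.natDegree * ff E ≤ CC K := by
    intro j _
    have h2 : ∀ E ∈ Mn K j, wt K E.natDegree * ff E = wt K j * ff E := fun E hE => by
      rw [(mem_Mn.1 hE).2]
    rw [sum_congr rfl h2, ← mul_sum]
    calc wt K j * ∑ E ∈ Mn K j, ff E ≤ wt K j * (CC K * (Fintype.card K : ℝ) ^ j) :=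
          mul_le_mul_of_nonneg_left (avg j) (wt_nonneg j)
      _ = CC K := by
          unfold wt
          field_simp
  refine (sum_le_sum h1).trans (le_of_eq ?_)
  rw [sum_const, card_range, nsmul_eq_mul]
  push_cast
  ring

/-! ### the decomposition of the modulus -/

theorem decomp {E : K[X]} (hE : E.Monic) : ∃ a m g : K[X], a.Monic ∧ m.Monic ∧ g.Monic ∧ g ∣ m ∧
    Squarefree a ∧ IsCoprime a m ∧ E = a * (m ^ 2 * g) := by
  have hE0 := hE.ne_zero
  have hne : ((MM K E.natDegree).filter (fun m => m ^ 2 ∣ E)).Nonempty := by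
    refine ⟨1, ?_⟩
    rw [mem_filter, mem_MM]
    exact ⟨⟨monic_one, by rw [natDegree_one]; exact Nat.zero_le _⟩, by rw [one_pow]; exact one_dvd _⟩
  obtain ⟨m, hm, hmax⟩ := exists_max_image _ (fun m : K[X] => m.natDegree) hne
  rw [mem_filter, mem_MM] at hm
  obtain ⟨⟨hm1, _⟩, s, hs⟩ := hm
  have hm2 : (m ^ 2).Monic := hm1.pow 2
  have hs1 : s.Monic := hm2.of_mul_monic_left (hs ▸ hE)
  have hs0 := hs1.ne_zero
  have hsq : Squarefree s := by
    intro x hx
    by_contra hu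
    have hx0 : x ≠ 0 := by
      rintro rfl
      rw [zero_mul, zero_dvd_iff] at hx
      exact hs0 hx
    have hn1 : (normalize x).Monic := monic_normalize hx0
    have hass := normalize_associated x
    have hnu : ¬ IsUnit (normalize x) := fun h => hu (hass.isUnit h)
    have hnx : normalize x * normalize x ∣ s := (mul_dvd_mul hass.dvd hass.dvd).trans hx
    have hpos : 0 < (normalize x).natDegree := by
      rcases Nat.eq_zero_or_pos (normalize x).natDegree with h | h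
      · exact absurd (by rw [hn1.natDegree_eq_zero.1 h]; exact isUnit_one) hnu
      · exact h
    have hdv : (m * normalize x) ^ 2 ∣ E := by
      rw [hs, mul_pow, sq (normalize x)]
      exact mul_dvd_mul_left _ hnx
    have hmem : m * normalize x ∈ (MM K E.natDegree).filter (fun m => m ^ 2 ∣ E) := by
      rw [mem_filter, mem_MM]
      refine ⟨⟨hm1.mul hn1, ?_⟩, hdv⟩
      exact natDegree_le_of_dvd ((dvd_pow_self _ two_ne_zero).trans hdv) hE0
    have h1 : (m * normalize x).natDegree ≤ m.natDegree := hmax _ hmem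
    rw [hm1.natDegree_mul hn1] at h1
    omega
  obtain ⟨g, hg⟩ : ∃ g, g = normalize (EuclideanDomain.gcd s m) := ⟨_, rfl⟩
  have hgcd0 : EuclideanDomain.gcd s m ≠ 0 := fun h => hs0 (EuclideanDomain.gcd_eq_zero_iff.1 h).1
  have hg1 : g.Monic := by
    rw [hg]
    exact monic_normalize hgcd0
  have hass := normalize_associated (EuclideanDomain.gcd s m)
  have hgs : g ∣ s := by
    rw [hg]
    exact hass.dvd.trans (EuclideanDomain.gcd_dvd_left s m)
  have hgm : g ∣ m := by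
    rw [hg]
    exact hass.dvd.trans (EuclideanDomain.gcd_dvd_right s m)
  obtain ⟨a, ha⟩ := hgs
  have ha1 : a.Monic := hg1.of_mul_monic_left (ha ▸ hs1)
  refine ⟨a, m, g, ha1, hm1, hg1, hgm, hsq.squarefree_of_dvd (ha ▸ dvd_mul_left a g), ?_, ?_⟩
  · refine isCoprime_of_irreducible_dvd (fun h0 => ha1.ne_zero h0.1) fun z hz hza hzm => ?_
    have hzs : z ∣ s := hza.trans (ha ▸ dvd_mul_left a g)
    have hzg : z ∣ g := by
      rw [hg]
      exact (EuclideanDomain.dvd_gcd hzs hzm).trans hass.symm.dvd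
    have hzz : z * z ∣ s := by
      rw [ha]
      exact mul_dvd_mul hzg hza
    exact hz.not_isUnit (hsq z hzz)
  · rw [hs, ha]
    ring

theorem triples (y : ℕ) (F : K[X] → ℝ) (hF : ∀ E, 0 ≤ F E) :
    ∑ E ∈ MM K y, F E ≤ ∑ m ∈ MM K y, ∑ g ∈ MM K y, ∑ a ∈ SqM K y,
      (if g ∣ m ∧ IsCoprime a m ∧ (a * (m ^ 2 * g)).natDegree ≤ y then F (a * (m ^ 2 * g)) else 0) := by
  obtain ⟨T, hT⟩ : ∃ T : Finset (K[X] × K[X] × K[X]), T = (MM K y ×ˢ MM K y ×ˢ SqM K y).filter
    (fun t => t.2.1 ∣ t.1 ∧ IsCoprime t.2.2 t.1 ∧ (t.2.2 * (t.1 ^ 2 * t.2.1)).natDegree ≤ y) := ⟨_, rfl⟩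
  have hd : ∀ E ∈ MM K y, ∃ t : K[X] × K[X] × K[X], t ∈ T ∧ E = t.2.2 * (t.1 ^ 2 * t.2.1) := by
    intro E hE
    rw [mem_MM] at hE
    obtain ⟨a, m, g, ha, hm, hg, hgm, hsq, hc, hEq⟩ := decomp hE.1
    refine ⟨(m, g, a), ?_, hEq⟩
    have hE0 := hE.1.ne_zero
    have h1 : a ∣ E := ⟨m ^ 2 * g, hEq⟩
    have h2 : m ∣ E := ⟨a * m * g, by rw [hEq]; ring⟩
    have h3 : g ∣ E := ⟨a * m ^ 2, by rw [hEq]; ring⟩
    rw [hT, mem_filter, mem_product, mem_product, mem_SqM, mem_MM, mem_MM, mem_MM]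
    exact ⟨⟨⟨hm, (natDegree_le_of_dvd h2 hE0).trans hE.2⟩, ⟨hg, (natDegree_le_of_dvd h3 hE0).trans hE.2⟩,
      ⟨ha, (natDegree_le_of_dvd h1 hE0).trans hE.2⟩, hsq⟩, hgm, hc, hEq ▸ hE.2⟩
  choose! φ hφ using hd
  calc ∑ E ∈ MM K y, F E = ∑ E ∈ MM K y, F ((φ E).2.2 * ((φ E).1 ^ 2 * (φ E).2.1)) :=
        sum_congr rfl fun E hE => by rw [← (hφ E hE).2]
    _ = ∑ t ∈ (MM K y).image φ, F (t.2.2 * (t.1 ^ 2 * t.2.1)) := by
        rw [sum_image]
        intro E hE E' hE' h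
        rw [(hφ E hE).2, (hφ E' hE').2]
        have h' : φ E = φ E' := h
        rw [h']
    _ ≤ ∑ t ∈ T, F (t.2.2 * (t.1 ^ 2 * t.2.1)) := by
        refine sum_le_sum_of_subset_of_nonneg ?_ fun t _ _ => hF _
        intro t ht
        rw [mem_image] at ht
        obtain ⟨E, hE, rfl⟩ := ht
        exact (hφ E hE).1
    _ = _ := by
        rw [hT, sum_filter, sum_product]
        refine sum_congr rfl fun m _ => ?_
        rw [sum_product]

/-! ### the trivial bound -/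

theorem growth (C : ℕ) (c : ℝ) (hc : 0 < c) : ∃ n₁ : ℕ, 1 ≤ n₁ ∧ ∀ n : ℕ, n₁ ≤ n →
    2 * ((n : ℝ) + 1) * (n : ℝ) ^ C ≤ (2 : ℝ) ^ (c * n) := by
  have hr : (1 : ℝ) < (2 : ℝ) ^ c := Real.one_lt_rpow (by norm_num) hc
  have h1 := isLittleO_pow_const_const_pow_of_one_lt (R := ℝ) (C + 1) hr
  have h2 := h1.bound (show (0 : ℝ) < 1 / 4 by norm_num)
  obtain ⟨n₁, hn₁⟩ := Filter.eventually_atTop.1 h2
  refine ⟨max n₁ 1, le_max_right _ _, fun n hn => ?_⟩
  have h3 := hn₁ n ((le_max_left _ _).trans hn)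
  have h4 : (1 : ℝ) ≤ n := by exact_mod_cast (le_max_right n₁ 1).trans hn
  rw [Real.norm_of_nonneg (by positivity), Real.norm_of_nonneg (by positivity)] at h3
  rw [Real.rpow_mul (by norm_num), Real.rpow_natCast]
  have h5 : (0 : ℝ) ≤ (n : ℝ) ^ C := by positivity
  have h6 : (n : ℝ) ^ (C + 1) = n * (n : ℝ) ^ C := by ring
  rw [h6] at h3
  nlinarith

theorem Phi_phi {E : K[X]} (hE : E.Monic) : (Pool.Agent.H523.RH.Phi E 0 : ℝ) = eph E := by
  rw [Pool.Agent.H985.CG.PAPGa.Phi_eq hE]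
  unfold eph
  have e : {c : K[X] | c.degree < E.degree ∧ IsCoprime c E} =
      ((Pool.Agent.H985.CG.PAPGa.red E : Finset K[X]) : Set K[X]) := by
    ext c
    rw [Finset.mem_coe, Pool.Agent.H985.CG.PAPGa.mem_red hE, Set.mem_ofPred_eq]
  rw [e, Set.ncard_coe_finset]

theorem triv : ∃ n₁ : ℕ, 1 ≤ n₁ ∧ ∀ n : ℕ, n₁ ≤ n → ∀ E H : K[X], E.Monic → 4 * E.natDegree ≤ n →
    IsCoprime E H → (((Irn K n).filter (fun p => E ∣ p + H)).card : ℝ) ≤
      2 * ((Fintype.card K : ℝ) ^ n / n) * (wt K E.natDegree * ff E) := by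
  obtain ⟨n₁, hn₁, hg⟩ := growth 1 (1 / 4) (by norm_num)
  refine ⟨max n₁ 2, by omega, fun n hn E H hE hdeg hc => ?_⟩
  have hq := q_ge (k := K)
  have hq0 : 0 < (Fintype.card K : ℝ) := by linarith
  have hq1 : 1 ≤ (Fintype.card K : ℝ) := by linarith
  have hn2 : 2 ≤ n := (le_max_right _ _).trans hn
  have hnr : (2 : ℝ) ≤ n := by exact_mod_cast hn2
  have hgn := hg n ((le_max_left _ _).trans hn)
  rw [pow_one] at hgn
  obtain ⟨x, hx⟩ : ∃ x, x = (-H) %ₘ E := ⟨_, rfl⟩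
  have hxd : E ∣ x + H := by
    have h1 := modByMonic_add_div (-H) E
    rw [← hx] at h1
    exact ⟨-((-H) /ₘ E), by linear_combination h1⟩
  have hxdeg : x.degree < E.degree := by
    rw [hx]
    exact degree_modByMonic_lt _ hE
  have hxc : IsCoprime x E := by
    refine Pool.Agent.H985.CG.PAPGa.cop_congr (c := -H) ?_ hc.symm.neg_left
    rw [sub_neg_eq_add]
    exact hxd
  have hset : (Irn K n).filter (fun p => E ∣ p + H) = (Irn K n).filter (fun p => E ∣ p - x) := by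
    refine filter_congr fun p _ => ?_
    constructor
    · intro h
      have := dvd_sub h hxd
      have e : p + H - (x + H) = p - x := by ring
      rwa [e] at this
    · intro h
      have := dvd_add h hxd
      have e : p - x + (x + H) = p + H := by ring
      rwa [e] at this
  rw [hset]
  have h1 := Pool.Agent.H985.CH.PAPWa.one_class (N := n) (by omega) hE (by omega) hxdeg hxc
  rw [Phi_phi hE] at h1
  have h2 := (abs_le.1 h1).2
  have h3 : (Fintype.card K : ℝ) ^ n / n / eph E = (Fintype.card K : ℝ) ^ n / n * (wt K E.natDegree * ff E) := by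
    rw [← eph_eq hE.ne_zero]
    ring
  rw [h3] at h2
  have hff := ff_ge hE.ne_zero
  obtain ⟨T, hT⟩ : ∃ T : ℝ, T = (Fintype.card K : ℝ) ^ ((1 / 4 : ℝ) * n) := ⟨_, rfl⟩
  have hT0 : 0 < T := by rw [hT]; positivity
  have hT4 : (Fintype.card K : ℝ) ^ n = (T * T) * (T * T) := by
    rw [hT, ← Real.rpow_add hq0, ← Real.rpow_add hq0, ← Real.rpow_natCast]
    congr 1
    ring
  have hs : Real.sqrt ((Fintype.card K : ℝ) ^ n) = T * T := by
    rw [hT4, Real.sqrt_mul_self (by positivity)]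
  have hTn : 2 * ((n : ℝ) + 1) * n ≤ T := by
    refine hgn.trans ?_
    rw [hT]
    exact Real.rpow_le_rpow (by norm_num) hq (by positivity)
  have hET : (Fintype.card K : ℝ) ^ E.natDegree ≤ T := by
    rw [hT, ← Real.rpow_natCast]
    refine Real.rpow_le_rpow_of_exponent_le hq1 ?_
    have : (4 : ℝ) * E.natDegree ≤ n := by exact_mod_cast hdeg
    linarith
  have hwT : 1 / T ≤ wt K E.natDegree := by
    unfold wt
    rw [one_div]
    have : (0 : ℝ) < (Fintype.card K : ℝ) ^ E.natDegree := by positivity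
    gcongr
  have herr : (2 * E.natDegree + 4 : ℝ) * Real.sqrt ((Fintype.card K : ℝ) ^ n) ≤
      (Fintype.card K : ℝ) ^ n / n * (wt K E.natDegree * ff E) := by
    rw [hs, hT4]
    have h5 : (2 * E.natDegree + 4 : ℝ) ≤ 2 * ((n : ℝ) + 1) := by
      have : (4 : ℝ) * E.natDegree ≤ n := by exact_mod_cast hdeg
      linarith
    have h6 : (T * T) * (T * T) / n * (1 / T) ≤ (T * T) * (T * T) / n * (wt K E.natDegree * ff E) := by
      refine mul_le_mul_of_nonneg_left ?_ (by positivity)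
      have h7 : wt K E.natDegree ≤ wt K E.natDegree * ff E :=
        le_mul_of_one_le_right (wt_nonneg _) hff
      linarith
    refine le_trans ?_ h6
    have h8 : (T * T) * (T * T) / n * (1 / T) = T * T * (T / n) := by
      field_simp
    rw [h8]
    have h9 : (2 * E.natDegree + 4 : ℝ) ≤ T / n := by
      rw [le_div_iff₀ (by linarith)]
      nlinarith
    calc (2 * E.natDegree + 4 : ℝ) * (T * T) ≤ T / n * (T * T) := by gcongr
      _ = _ := by ring
  linarith

/-! ### the head and the tail -/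

theorem head (hd : S_dehc) [CharP K 2] (ε : ℝ) (hε : 0 < ε) (𝒮 : Finset K[X]) : (∀ c ∈ 𝒮, c.Monic) →
    ∃ θ : ℝ, 0 < θ ∧ ∃ n₀ : ℕ, ∀ n : ℕ, n₀ ≤ n → ∀ c ∈ 𝒮, ∀ (y : ℕ) (H : K[X]), (y : ℝ) ≤ θ * n →
      H ≠ 0 → H.natDegree < n →
      ∑ a ∈ (SqM K y).filter (fun a => IsCoprime a c ∧ IsCoprime (a * c) H),
        |∑ p ∈ (Irn K n).filter (fun p => a * c ∣ p + H), (mob (p + H) : ℝ)| ≤
        ε * ((y + 1) * (Fintype.card K : ℝ) ^ n / n) := by
  induction 𝒮 using Finset.induction_on with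
  | empty =>
    intro _
    exact ⟨1, one_pos, 0, fun n _ c hc => absurd hc (notMem_empty c)⟩
  | insert c 𝒮 hc ih =>
    intro hS
    obtain ⟨θ₁, hθ₁, n₁, h1⟩ := ih (fun c hc => hS c (mem_insert_of_mem hc))
    obtain ⟨θ₂, hθ₂, n₂, h2⟩ := hd K c ε (hS c (mem_insert_self _ _)) hε
    refine ⟨min θ₁ θ₂, lt_min hθ₁ hθ₂, max n₁ n₂, fun n hn e he y H hy hH hHn => ?_⟩
    have hn0 : (0 : ℝ) ≤ n := Nat.cast_nonneg n
    rcases mem_insert.1 he with he | he
    · rw [he]
      exact h2 n ((le_max_right _ _).trans hn) y H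
        (hy.trans (mul_le_mul_of_nonneg_right (min_le_right _ _) hn0)) hH hHn
    · exact h1 n ((le_max_left _ _).trans hn) e he y H
        (hy.trans (mul_le_mul_of_nonneg_right (min_le_left _ _) hn0)) hH hHn

theorem tele (Z k : ℕ) : ∑ j ∈ range (Z + 1 + k), (if Z < j then ((j : ℝ) + 1) * (1 / 2 : ℝ) ^ j else 0) =
    ((Z : ℝ) + 3) * (1 / 2 : ℝ) ^ Z - ((Z : ℝ) + k + 3) * (1 / 2 : ℝ) ^ (Z + k) := by
  induction k with
  | zero =>
    rw [sum_eq_zero]
    · push_cast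
      ring
    · intro j hj
      rw [mem_range] at hj
      rw [if_neg (by omega)]
  | succ k ih =>
    rw [← Nat.add_assoc, sum_range_succ, ih, if_pos (by omega)]
    have e1 : (1 / 2 : ℝ) ^ (Z + 1 + k) = (1 / 2 : ℝ) ^ (Z + k) * (1 / 2) := by
      rw [← pow_succ]
      congr 1
      omega
    have e2 : (1 / 2 : ℝ) ^ (Z + (k + 1)) = (1 / 2 : ℝ) ^ (Z + k) * (1 / 2) := by
      rw [← pow_succ]
      congr 1
    rw [e2]
    push_cast
    rw [e1]
    ring

theorem tail_num (Z J : ℕ) : ∑ j ∈ range J, (if Z < j then ((j : ℝ) + 1) * (1 / 2 : ℝ) ^ j else 0) ≤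
    ((Z : ℝ) + 3) * (1 / 2 : ℝ) ^ Z := by
  rcases le_or_gt J (Z + 1) with h | h
  · rw [sum_eq_zero]
    · positivity
    · intro j hj
      rw [mem_range] at hj
      rw [if_neg (by omega)]
  · obtain ⟨k, rfl⟩ : ∃ k, J = Z + 1 + k := ⟨J - (Z + 1), by omega⟩
    rw [tele]
    have : 0 ≤ ((Z : ℝ) + k + 3) * (1 / 2 : ℝ) ^ (Z + k) := by positivity
    linarith

theorem exists_Z (δ : ℝ) (hδ : 0 < δ) : ∃ Z : ℕ, ((Z : ℝ) + 3) * (1 / 2 : ℝ) ^ Z ≤ δ := by
  have h1 := tendsto_pow_const_div_const_pow_of_one_lt 1 (show (1 : ℝ) < 2 by norm_num)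
  have h2 := (h1.eventually_lt_const (show (0 : ℝ) < δ / 4 by positivity))
  obtain ⟨Z₀, hZ₀⟩ := Filter.eventually_atTop.1 h2
  refine ⟨Z₀ + 1, ?_⟩
  have h3 := hZ₀ (Z₀ + 1) (Nat.le_succ _)
  rw [pow_one, div_eq_mul_inv] at h3
  rw [one_div, inv_pow]
  have h4 : (1 : ℝ) ≤ ((Z₀ + 1 : ℕ) : ℝ) := by exact_mod_cast Nat.le_add_left 1 Z₀
  have h5 : (0 : ℝ) < ((2 : ℝ) ^ (Z₀ + 1))⁻¹ := by positivity
  nlinarith

theorem tail_sum (Z y : ℕ) : ∑ m ∈ MM K y, (if Z < m.natDegree then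
    ((m.natDegree : ℝ) + 1) * (wt K (2 * m.natDegree) * ff m) else 0) ≤
    CC K * (((Z : ℝ) + 3) * (1 / 2 : ℝ) ^ Z) := by
  rw [sum_MM]
  have h1 : ∀ j ∈ range (y + 1), ∑ m ∈ Mn K j, (if Z < m.natDegree then
      ((m.natDegree : ℝ) + 1) * (wt K (2 * m.natDegree) * ff m) else 0) ≤
      CC K * (if Z < j then ((j : ℝ) + 1) * (1 / 2 : ℝ) ^ j else 0) := by
    intro j _
    have h2 : ∀ m ∈ Mn K j, (if Z < m.natDegree then
        ((m.natDegree : ℝ) + 1) * (wt K (2 * m.natDegree) * ff m) else 0) =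
        (if Z < j then ((j : ℝ) + 1) * wt K (2 * j) else 0) * ff m := by
      intro m hm
      rw [(mem_Mn.1 hm).2]
      split_ifs
      · ring
      · ring
    rw [sum_congr rfl h2, ← mul_sum]
    split_ifs with h
    · have hq := q_ge (k := K)
      have h3 : wt K (2 * j) * (Fintype.card K : ℝ) ^ j = wt K j := by
        unfold wt
        rw [two_mul, pow_add]
        field_simp
      calc ((j : ℝ) + 1) * wt K (2 * j) * ∑ m ∈ Mn K j, ff m
          ≤ ((j : ℝ) + 1) * wt K (2 * j) * (CC K * (Fintype.card K : ℝ) ^ j) := by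
            refine mul_le_mul_of_nonneg_left (avg j) ?_
            have := wt_nonneg (k := K) (2 * j)
            positivity
        _ = CC K * (((j : ℝ) + 1) * wt K j) := by
            rw [← h3]
            ring
        _ ≤ _ := by
            have h4 := wt_le_half (k := K) j
            have h5 := CC_pos (K := K)
            gcongr
    · rw [zero_mul, mul_zero]
  refine (sum_le_sum h1).trans ?_
  rw [← mul_sum]
  exact mul_le_mul_of_nonneg_left (tail_num Z (y + 1)) CC_pos.le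

/-- the twisted sum modulo `E` -/
noncomputable def AA {K : Type} [Field K] [Fintype K] (n : ℕ) (H E : K[X]) : ℝ :=
  ∑ p ∈ (Irn K n).filter (fun p => E ∣ p + H), (mob (p + H) : ℝ)

/-- its absolute value for the moduli coprime to `H` -/
noncomputable def FF {K : Type} [Field K] [Fintype K] (n : ℕ) (H E : K[X]) : ℝ :=
  if IsCoprime E H then |AA n H E| else 0

theorem FF_nonneg (n : ℕ) (H E : K[X]) : 0 ≤ FF n H E := by
  unfold FF
  split_ifs
  · exact abs_nonneg _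
  · exact le_rfl

theorem AA_le (n : ℕ) (H E : K[X]) : |AA n H E| ≤ (((Irn K n).filter (fun p => E ∣ p + H)).card : ℝ) := by
  unfold AA
  refine (abs_sum_le_sum_abs _ _).trans ?_
  calc ∑ p ∈ (Irn K n).filter (fun p => E ∣ p + H), |(mob (p + H) : ℝ)|
      ≤ ∑ _p ∈ (Irn K n).filter (fun p => E ∣ p + H), (1 : ℝ) := sum_le_sum fun p _ => abs_mob _
    _ = _ := by rw [sum_const, nsmul_eq_mul, mul_one]

/-- the terms with a fixed small square part -/
theorem claimA (n y Z : ℕ) (H m : K[X]) (B : ℝ) (hB : 0 ≤ B) (hm : m.Monic) (hmZ : m.natDegree ≤ Z)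
    (hh : ∀ g ∈ MM K Z, ∑ a ∈ (SqM K y).filter (fun a => IsCoprime a (m ^ 2 * g) ∧
      IsCoprime (a * (m ^ 2 * g)) H), |AA n H (a * (m ^ 2 * g))| ≤ B) :
    ∑ g ∈ MM K y, ∑ a ∈ SqM K y, (if g ∣ m ∧ IsCoprime a m ∧ (a * (m ^ 2 * g)).natDegree ≤ y then
      FF n H (a * (m ^ 2 * g)) else 0) ≤ ((MM K Z).card : ℝ) * B := by
  have h1 : ∀ g ∈ MM K y, ∑ a ∈ SqM K y, (if g ∣ m ∧ IsCoprime a m ∧ (a * (m ^ 2 * g)).natDegree ≤ y then
      FF n H (a * (m ^ 2 * g)) else 0) ≤ if g ∈ MM K Z then B else 0 := by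
    intro g hg
    by_cases hgm : g ∣ m
    · have hgZ : g ∈ MM K Z := by
        rw [mem_MM] at hg ⊢
        exact ⟨hg.1, (natDegree_le_of_dvd hgm hm.ne_zero).trans hmZ⟩
      rw [if_pos hgZ]
      refine le_trans ?_ (hh g hgZ)
      rw [sum_filter]
      refine sum_le_sum fun a _ => ?_
      by_cases hc : g ∣ m ∧ IsCoprime a m ∧ (a * (m ^ 2 * g)).natDegree ≤ y
      · rw [if_pos hc]
        have hac : IsCoprime a (m ^ 2 * g) :=
          (hc.2.1.pow_right).mul_right (hc.2.1.of_isCoprime_of_dvd_right hgm)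
        unfold FF
        by_cases hcH : IsCoprime (a * (m ^ 2 * g)) H
        · rw [if_pos hcH, if_pos ⟨hac, hcH⟩]
        · rw [if_neg hcH, if_neg fun h => hcH h.2]
      · rw [if_neg hc]
        split_ifs
        · exact abs_nonneg _
        · exact le_rfl
    · rw [sum_eq_zero]
      · split_ifs
        · exact hB
        · exact le_rfl
      · intro a _
        rw [if_neg fun h => hgm h.1]
  refine (sum_le_sum h1).trans ?_
  rw [← sum_filter, sum_const, nsmul_eq_mul]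
  refine mul_le_mul_of_nonneg_right ?_ hB
  have h2 : (MM K y).filter (fun g => g ∈ MM K Z) ⊆ MM K Z := fun g hg => (mem_filter.1 hg).2
  exact_mod_cast card_le_card h2

theorem sum_wt (d : ℕ) : ∑ g ∈ MM K d, wt K g.natDegree = (d : ℝ) + 1 := by
  have hq := q_ge (k := K)
  rw [sum_MM]
  have h1 : ∀ j ∈ range (d + 1), ∑ g ∈ Mn K j, wt K g.natDegree = 1 := by
    intro j _
    have h2 : ∀ g ∈ Mn K j, wt K g.natDegree = wt K j := fun g hg => by rw [(mem_Mn.1 hg).2]
    rw [sum_congr rfl h2, sum_const, card_Mn, nsmul_eq_mul]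
    unfold wt
    push_cast
    field_simp
  rw [sum_congr rfl h1, sum_const, card_range, nsmul_eq_mul, mul_one]
  push_cast
  ring

/-- the terms with a large square part -/
theorem claimB (n y : ℕ) (H m : K[X]) (L : ℝ) (hL : 0 ≤ L) (hm : m.Monic)
    (ht : ∀ E : K[X], E.Monic → E.natDegree ≤ y → IsCoprime E H →
      (((Irn K n).filter (fun p => E ∣ p + H)).card : ℝ) ≤ 2 * L * (wt K E.natDegree * ff E)) :
    ∑ g ∈ MM K y, ∑ a ∈ SqM K y, (if g ∣ m ∧ IsCoprime a m ∧ (a * (m ^ 2 * g)).natDegree ≤ y then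
      FF n H (a * (m ^ 2 * g)) else 0) ≤
      2 * L * (CC K * ((y : ℝ) + 1)) * (((m.natDegree : ℝ) + 1) * (wt K (2 * m.natDegree) * ff m)) := by
  have hffm := ff_ge hm.ne_zero
  have hw2 := wt_nonneg (k := K) (2 * m.natDegree)
  have h1 : ∀ g ∈ MM K y, ∑ a ∈ SqM K y, (if g ∣ m ∧ IsCoprime a m ∧ (a * (m ^ 2 * g)).natDegree ≤ y then
      FF n H (a * (m ^ 2 * g)) else 0) ≤
      if g ∣ m then 2 * L * (CC K * ((y : ℝ) + 1)) * (wt K (2 * m.natDegree) * ff m) * wt K g.natDegree else 0 := by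
    intro g hg
    rw [mem_MM] at hg
    by_cases hgm : g ∣ m
    · rw [if_pos hgm]
      have h2 : ∀ a ∈ SqM K y, (if g ∣ m ∧ IsCoprime a m ∧ (a * (m ^ 2 * g)).natDegree ≤ y then
          FF n H (a * (m ^ 2 * g)) else 0) ≤
          2 * L * (wt K (2 * m.natDegree) * ff m) * wt K g.natDegree * (wt K a.natDegree * ff a) := by
        intro a ha
        rw [mem_SqM, mem_MM] at ha
        have hffa := ff_ge ha.1.1.ne_zero
        have hwa := wt_nonneg (k := K) a.natDegree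
        have hwg := wt_nonneg (k := K) g.natDegree
        have hE : (a * (m ^ 2 * g)).Monic := ha.1.1.mul ((hm.pow 2).mul hg.1)
        have h0 : 0 ≤ 2 * L * (wt K (2 * m.natDegree) * ff m) * wt K g.natDegree * (wt K a.natDegree * ff a) := by
          positivity
        by_cases hc : g ∣ m ∧ IsCoprime a m ∧ (a * (m ^ 2 * g)).natDegree ≤ y
        · rw [if_pos hc]
          unfold FF
          by_cases hcH : IsCoprime (a * (m ^ 2 * g)) H
          · rw [if_pos hcH]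
            refine (AA_le n H _).trans ((ht _ hE hc.2.2 hcH).trans ?_)
            have h3 := ff_mul ha.1.1.ne_zero hm.ne_zero hg.1.ne_zero hgm
            have h4 : wt K (a * (m ^ 2 * g)).natDegree =
                wt K a.natDegree * (wt K (2 * m.natDegree) * wt K g.natDegree) := by
              rw [ha.1.1.natDegree_mul ((hm.pow 2).mul hg.1), (hm.pow 2).natDegree_mul hg.1, hm.natDegree_pow,
                wt_add, wt_add]
            rw [h4]
            calc 2 * L * (wt K a.natDegree * (wt K (2 * m.natDegree) * wt K g.natDegree) * ff (a * (m ^ 2 * g)))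
                ≤ 2 * L * (wt K a.natDegree * (wt K (2 * m.natDegree) * wt K g.natDegree) * (ff a * ff m)) := by
                  gcongr
              _ = _ := by ring
          · rw [if_neg hcH]
            exact h0
        · rw [if_neg hc]
          exact h0
      refine (sum_le_sum h2).trans ?_
      rw [← mul_sum]
      have h5 : ∑ a ∈ SqM K y, wt K a.natDegree * ff a ≤ CC K * ((y : ℝ) + 1) := by
        refine le_trans ?_ (sum_wt_ff (K := K) y)
        refine sum_le_sum_of_subset_of_nonneg (fun a ha => (mem_SqM.1 ha).1) fun a ha _ => ?_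
        have := ff_ge (mem_MM.1 ha).1.ne_zero
        have := wt_nonneg (k := K) a.natDegree
        positivity
      have hwg := wt_nonneg (k := K) g.natDegree
      calc 2 * L * (wt K (2 * m.natDegree) * ff m) * wt K g.natDegree * ∑ a ∈ SqM K y, wt K a.natDegree * ff a
          ≤ 2 * L * (wt K (2 * m.natDegree) * ff m) * wt K g.natDegree * (CC K * ((y : ℝ) + 1)) := by gcongr
        _ = _ := by ring
    · rw [if_neg hgm, sum_eq_zero]
      intro a _
      rw [if_neg fun h => hgm h.1]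
  refine (sum_le_sum h1).trans ?_
  rw [← sum_filter, ← mul_sum]
  have h6 : ∑ g ∈ (MM K y).filter (fun g => g ∣ m), wt K g.natDegree ≤ (m.natDegree : ℝ) + 1 := by
    rw [← sum_wt (K := K)]
    refine sum_le_sum_of_subset_of_nonneg ?_ fun g _ _ => wt_nonneg _
    intro g hg
    rw [mem_filter, mem_MM] at hg
    exact mem_MM.2 ⟨hg.1.1, natDegree_le_of_dvd hg.2 hm.ne_zero⟩
  have hCC := CC_pos (K := K)
  calc 2 * L * (CC K * ((y : ℝ) + 1)) * (wt K (2 * m.natDegree) * ff m) *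
        ∑ g ∈ (MM K y).filter (fun g => g ∣ m), wt K g.natDegree
      ≤ 2 * L * (CC K * ((y : ℝ) + 1)) * (wt K (2 * m.natDegree) * ff m) * ((m.natDegree : ℝ) + 1) := by gcongr
    _ = _ := by ring

end Deh

open Deh

theorem deh : S_tdeh := by
  intro hdehc hsp K _ _ _ ε hε
  have hq := q_ge (k := K)
  have hCC := CC_pos (K := K)
  obtain ⟨Z, hZ⟩ := exists_Z (ε / (8 * CC K ^ 2)) (by positivity)
  obtain ⟨N, hN⟩ : ∃ N : ℝ, N = ((MM K Z).card : ℝ) := ⟨_, rfl⟩
  have hN1 : 1 ≤ N := by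
    rw [hN]
    have h1 : (1 : K[X]) ∈ MM K Z := mem_MM.2 ⟨monic_one, by rw [natDegree_one]; exact Nat.zero_le _⟩
    exact_mod_cast card_pos.2 ⟨1, h1⟩
  have hN0 : 0 < N := by linarith
  obtain ⟨θ, hθ, n₀, hhead⟩ := head hdehc (ε / (4 * N ^ 2)) (by positivity)
    ((MM K Z ×ˢ MM K Z).image (fun t => t.1 ^ 2 * t.2)) (by
      intro c hc
      rw [mem_image] at hc
      obtain ⟨t, ht, rfl⟩ := hc
      rw [mem_product, mem_MM, mem_MM] at ht
      exact (ht.1.1.pow 2).mul ht.2.1)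
  obtain ⟨n₁, hn₁, htriv⟩ := triv (K := K)
  obtain ⟨n₂, hsp2⟩ := hsp K 1 1 (ε / (4 * CC K)) monic_one monic_one (by positivity)
  refine ⟨min θ (1 / 4), lt_min hθ (by norm_num), max n₀ (max n₁ n₂), fun n hn y H hy hH hHn => ?_⟩
  have hnn₀ : n₀ ≤ n := (le_max_left _ _).trans hn
  have hnn₁ : n₁ ≤ n := (le_max_left _ _).trans ((le_max_right _ _).trans hn)
  have hnn₂ : n₂ ≤ n := (le_max_right _ _).trans ((le_max_right _ _).trans hn)
  have hn1 : (1 : ℝ) ≤ n := by exact_mod_cast hn₁.trans hnn₁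
  have hy1 : (y : ℝ) ≤ θ * n := hy.trans (mul_le_mul_of_nonneg_right (min_le_left _ _) (by linarith))
  have hy2 : (y : ℝ) ≤ 1 / 4 * n := hy.trans (mul_le_mul_of_nonneg_right (min_le_right _ _) (by linarith))
  have hy4 : 4 * y ≤ n := by
    have : (4 : ℝ) * y ≤ n := by linarith
    exact_mod_cast this
  obtain ⟨L, hL⟩ : ∃ L : ℝ, L = (Fintype.card K : ℝ) ^ n / n := ⟨_, rfl⟩
  have hL0 : 0 < L := by rw [hL]; positivity
  obtain ⟨Bs, hBs⟩ : ∃ Bs : ℝ, Bs = ∑ p ∈ Irn K n, (mob (p + H) : ℝ) := ⟨_, rfl⟩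
  have hBsb : |Bs| ≤ ε / (4 * CC K) * L := by
    have h1 := hsp2 n hnn₂ H 0 hH hHn
    have h2 : (Irn K n).filter (fun p => (1 : K[X]) ∣ p - 0) = Irn K n :=
      filter_true_of_mem fun p _ => one_dvd _
    rw [h2] at h1
    have h3 : ∑ p ∈ Irn K n, (mobg 1 (p + H) : ℝ) = Bs := by
      rw [hBs]
      refine sum_congr rfl fun p _ => ?_
      rw [mobg_one]
    rw [h3] at h1
    refine h1.trans (le_of_eq ?_)
    rw [hL]
    ring
  rw [← hBs]
  have hstep1 : ∑ i ∈ range (y + 1), ∑ E ∈ (Mn K i).filter (fun E => IsCoprime E H),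
        |∑ p ∈ (Irn K n).filter (fun p => E ∣ p + H), (mob (p + H) : ℝ) - 1 / eph E * Bs| ≤
      ∑ E ∈ MM K y, (FF n H E + wt K E.natDegree * ff E * |Bs|) := by
    rw [sum_MM]
    refine sum_le_sum fun i _ => ?_
    rw [sum_filter]
    refine sum_le_sum fun E hE => ?_
    have hE0 := (mem_Mn.1 hE).1.ne_zero
    have hw : 0 ≤ wt K E.natDegree * ff E := by
      have := ff_ge hE0
      have := wt_nonneg (k := K) E.natDegree
      positivity
    unfold FF
    split_ifs with hc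
    · rw [eph_eq hE0]
      have h1 : |AA n H E - wt K E.natDegree * ff E * Bs| ≤ |AA n H E| + |wt K E.natDegree * ff E * Bs| :=
        abs_sub _ _
      rw [abs_mul, abs_of_nonneg hw] at h1
      exact h1
    · have := abs_nonneg Bs
      positivity
  refine hstep1.trans ?_
  rw [sum_add_distrib, ← sum_mul]
  have hsec : (∑ E ∈ MM K y, wt K E.natDegree * ff E) * |Bs| ≤ ε / 4 * (((y : ℝ) + 1) * L) := by
    have h1 := sum_wt_ff (K := K) y
    calc (∑ E ∈ MM K y, wt K E.natDegree * ff E) * |Bs| ≤ (CC K * ((y : ℝ) + 1)) * (ε / (4 * CC K) * L) := by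
          gcongr
      _ = _ := by
          field_simp
  obtain ⟨B₀, hB₀⟩ : ∃ B₀ : ℝ, B₀ = ε / (4 * N ^ 2) * (((y : ℝ) + 1) * L) := ⟨_, rfl⟩
  have hB₀0 : 0 ≤ B₀ := by rw [hB₀]; positivity
  have hmt : ∀ m ∈ MM K y, ∑ g ∈ MM K y, ∑ a ∈ SqM K y,
      (if g ∣ m ∧ IsCoprime a m ∧ (a * (m ^ 2 * g)).natDegree ≤ y then FF n H (a * (m ^ 2 * g)) else 0) ≤
      (if m.natDegree ≤ Z then N * B₀ else 0) + 2 * L * (CC K * ((y : ℝ) + 1)) *
        (if Z < m.natDegree then ((m.natDegree : ℝ) + 1) * (wt K (2 * m.natDegree) * ff m) else 0) := by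
    intro m hm
    rw [mem_MM] at hm
    by_cases hmZ : m.natDegree ≤ Z
    · rw [if_pos hmZ, if_neg (by omega), mul_zero, add_zero, hN]
      refine claimA n y Z H m B₀ hB₀0 hm.1 hmZ fun g hg => ?_
      have hmem : m ^ 2 * g ∈ (MM K Z ×ˢ MM K Z).image (fun t => t.1 ^ 2 * t.2) := by
        rw [mem_image]
        exact ⟨(m, g), mem_product.2 ⟨mem_MM.2 ⟨hm.1, hmZ⟩, hg⟩, rfl⟩
      have h1 := hhead n hnn₀ (m ^ 2 * g) hmem y H hy1 hH hHn
      refine h1.trans (le_of_eq ?_)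
      rw [hB₀, hL]
      ring
    · rw [if_neg hmZ, if_pos (by omega), zero_add]
      refine claimB n y H m L hL0.le hm.1 fun E hE hEy hc => ?_
      rw [hL]
      exact htriv n hnn₁ E H hE (by omega) hc
  have hfirst : ∑ E ∈ MM K y, FF n H E ≤ ε / 2 * (((y : ℝ) + 1) * L) := by
    refine (triples y (FF n H) (FF_nonneg n H)).trans ((sum_le_sum hmt).trans ?_)
    rw [sum_add_distrib, ← mul_sum, ← sum_filter, sum_const, nsmul_eq_mul]
    have h1 : (((MM K y).filter (fun m => m.natDegree ≤ Z)).card : ℝ) ≤ N := by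
      rw [hN]
      have h2 : (MM K y).filter (fun m => m.natDegree ≤ Z) ⊆ MM K Z := by
        intro m hm
        rw [mem_filter, mem_MM] at hm
        exact mem_MM.2 ⟨hm.1.1, hm.2⟩
      exact_mod_cast card_le_card h2
    have h3 : (((MM K y).filter (fun m => m.natDegree ≤ Z)).card : ℝ) * (N * B₀) ≤ ε / 4 * (((y : ℝ) + 1) * L) := by
      calc (((MM K y).filter (fun m => m.natDegree ≤ Z)).card : ℝ) * (N * B₀) ≤ N * (N * B₀) := by gcongr
        _ = _ := by
            rw [hB₀]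
            field_simp
    have h4 : 2 * L * (CC K * ((y : ℝ) + 1)) * ∑ m ∈ MM K y,
        (if Z < m.natDegree then ((m.natDegree : ℝ) + 1) * (wt K (2 * m.natDegree) * ff m) else 0) ≤
        ε / 4 * (((y : ℝ) + 1) * L) := by
      calc _ ≤ 2 * L * (CC K * ((y : ℝ) + 1)) * (CC K * (ε / (8 * CC K ^ 2))) := by
            have h5 := tail_sum (K := K) Z y
            have h6 : CC K * (((Z : ℝ) + 3) * (1 / 2 : ℝ) ^ Z) ≤ CC K * (ε / (8 * CC K ^ 2)) := by gcongr
            refine mul_le_mul_of_nonneg_left (h5.trans h6) (by positivity)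
        _ = _ := by
            field_simp
            ring
    linarith
  have hfin : ε * (((y : ℝ) + 1) * (Fintype.card K : ℝ) ^ n / n) = ε * (((y : ℝ) + 1) * L) := by
    rw [hL]
    ring
  rw [hfin]
  have hpos : 0 ≤ ε * (((y : ℝ) + 1) * L) := by positivity
  linarith

end Pool.Agent.H251.MY
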