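import Pool.Agent.H251.MY.StmE
import Pool.Agent.H985.CH.CHEN

/-!
# Project MY (helper251), task PARC: the parity at `p + h i₀` with majorised weights (helper790)
-/

set_option autoImplicit false
set_option linter.all false

namespace Pool.Agent.H251.MY

open Polynomial Finset
open scoped Classical
open Pool.Agent.H985.Chow (mob)
open Pool.Agent.H694.Typ (Mn Irn PU mem_Mn mem_Irn q_ge)
open Pool.Agent.H251.SP (Rgh Smo bw cf S_comb)
open Pool.Agent.H985.CH (Hh SqM Shf Bdd Exc)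
open Pool.Agent.H985.CH.ChenX (Tf Tf_abs)
open Pool.Agent.H251.SP.Asm (rgh_irr mob_abs)

namespace Parc

section
variable {K : Type} [Field K] [Fintype K]

/-- **the identity with exceptions and signed weights** -/
theorem ident {n l : ℕ} (δ B : ℝ) (φ w W : K[X] → ℝ) (hn : 1 ≤ n)
    (hδ : 0 < δ) (hln : l ≤ n) (hn5 : n < 5 * l) (hc : S_comb) (hφ : ∀ f, |φ f| ≤ 1) (hB : 0 ≤ B)
    (hW : ∀ f, B * |w f| ≤ W f) :
    B * |3 * ∑ p ∈ Irn K n, w p * φ p| ≤
      B * |∑ f ∈ (Mn K n).filter (Rgh l), w f * φ f * Tf n δ f| +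
      B * |∑ f ∈ (Mn K n).filter (Rgh l), w f * φ f * (mob f : ℝ)| +
      36 * ∑ f ∈ (Mn K n).filter (fun f => Rgh l f ∧ Exc n δ f), W f := by
  have s1 : 3 * ∑ p ∈ Irn K n, w p * φ p =
      ∑ f ∈ (Mn K n).filter (Rgh l), w f * φ f * (3 * (if Irreducible f then (1 : ℝ) else 0)) := by
    have e1 : ∑ p ∈ Irn K n, w p * φ p =
        ∑ f ∈ Mn K n, (if Irreducible f then w f * φ f else 0) := by
      unfold Pool.Agent.H694.Typ.Irn
      rw [sum_filter]
    rw [e1, sum_filter, mul_sum]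
    refine sum_congr rfl fun f hf => ?_
    rw [mem_Mn] at hf
    by_cases h1 : Irreducible f
    · rw [if_pos h1, if_pos (rgh_irr hf.1 h1 (by omega)), if_pos h1]
      ring
    · rw [if_neg h1, if_neg h1]
      split_ifs <;> ring
  have s2 : ∀ f ∈ (Mn K n).filter (Rgh l), ¬ Exc n δ f →
      3 * (if Irreducible f then (1 : ℝ) else 0) = Tf n δ f - (mob f : ℝ) := by
    intro f hf hex
    rw [mem_filter] at hf
    unfold Exc at hex
    rw [not_or, not_or, not_not] at hex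
    obtain ⟨h1, h2, h3⟩ := hex
    exact hc K n l δ f hn hδ hf.1 hf.2 hn5 h1 h2 (by
      intro D hD hDf
      by_contra h4
      exact h3 ⟨D, hD, hDf, not_lt.1 h4⟩)
  have sT : ∀ f ∈ (Mn K n).filter (Rgh l), |Tf n δ f| ≤ 32 := by
    intro f hf
    rw [mem_filter, mem_Mn] at hf
    exact Tf_abs δ hf.1.1 hf.1.2 hf.2 hn5
  have s3 : ∀ f ∈ (Mn K n).filter (Rgh l),
      |3 * (if Irreducible f then (1 : ℝ) else 0) - (Tf n δ f - (mob f : ℝ))| ≤ 36 := by
    intro f hf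
    have e1 := sT f hf
    have e2 := mob_abs f
    rw [abs_le] at e1 e2 ⊢
    split_ifs <;> constructor <;> linarith [e1.1, e1.2, e2.1, e2.2]
  have s4 : B * |∑ f ∈ (Mn K n).filter (Rgh l),
      w f * φ f * (3 * (if Irreducible f then (1 : ℝ) else 0) - (Tf n δ f - (mob f : ℝ)))| ≤
      36 * ∑ f ∈ (Mn K n).filter (fun f => Rgh l f ∧ Exc n δ f), W f := by
    have e1 : ∑ f ∈ (Mn K n).filter (Rgh l),
        w f * φ f * (3 * (if Irreducible f then (1 : ℝ) else 0) - (Tf n δ f - (mob f : ℝ))) =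
        ∑ f ∈ (Mn K n).filter (fun f => Rgh l f ∧ Exc n δ f),
        w f * φ f * (3 * (if Irreducible f then (1 : ℝ) else 0) -
          (Tf n δ f - (mob f : ℝ))) := by
      symm
      refine sum_subset ?_ ?_
      · intro f hf
        rw [mem_filter] at hf ⊢
        exact ⟨hf.1, hf.2.1⟩
      · intro f hf hf'
        by_cases h1 : Exc n δ f
        · exact absurd (mem_filter.2 ⟨(mem_filter.1 hf).1, (mem_filter.1 hf).2, h1⟩) hf'
        · rw [s2 f hf h1, sub_self, mul_zero]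
    rw [e1]
    refine (mul_le_mul_of_nonneg_left (abs_sum_le_sum_abs _ _) hB).trans ?_
    rw [mul_sum, mul_sum]
    refine sum_le_sum fun f hf => ?_
    rw [abs_mul, abs_mul]
    have e2 := s3 f (mem_filter.2 ⟨(mem_filter.1 hf).1, (mem_filter.1 hf).2.1⟩)
    have e3 : 0 ≤ B * |w f| := mul_nonneg hB (abs_nonneg _)
    calc B * (|w f| * |φ f| * _) = (B * |w f|) * |φ f| * _ := by ring
      _ ≤ (B * |w f|) * 1 * 36 :=
          mul_le_mul (mul_le_mul_of_nonneg_left (hφ f) e3) e2 (abs_nonneg _) (by linarith)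
      _ ≤ 36 * W f := by linarith [hW f]
  have s6 : ∑ f ∈ (Mn K n).filter (Rgh l),
        w f * φ f * (3 * (if Irreducible f then (1 : ℝ) else 0)) =
      ∑ f ∈ (Mn K n).filter (Rgh l), w f * φ f * Tf n δ f -
      ∑ f ∈ (Mn K n).filter (Rgh l), w f * φ f * (mob f : ℝ) +
      ∑ f ∈ (Mn K n).filter (Rgh l),
      w f * φ f * (3 * (if Irreducible f then (1 : ℝ) else 0) -
        (Tf n δ f - (mob f : ℝ))) := by
    rw [← sum_sub_distrib, ← sum_add_distrib]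
    refine sum_congr rfl fun f _ => ?_
    ring
  rw [s1, s6]
  have s7 := (abs_add_le (∑ f ∈ (Mn K n).filter (Rgh l), w f * φ f * Tf n δ f -
      ∑ f ∈ (Mn K n).filter (Rgh l), w f * φ f * (mob f : ℝ))
      (∑ f ∈ (Mn K n).filter (Rgh l),
      w f * φ f * (3 * (if Irreducible f then (1 : ℝ) else 0) -
        (Tf n δ f - (mob f : ℝ))))).trans (add_le_add (abs_sub _ _) le_rfl)
  have s8 := mul_le_mul_of_nonneg_left s7 hB
  rw [mul_add, mul_add] at s8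
  exact s8.trans (add_le_add le_rfl s4)

/-- the error `q^(19n/20)` -/
theorem small (A₁ : ℕ) : ∃ n₀ : ℕ, ∀ n : ℕ, n₀ ≤ n →
    12 * (Fintype.card K : ℝ) ^ ((19 / 20 : ℝ) * n) ≤ (Fintype.card K : ℝ) ^ n / (n : ℝ) ^ A₁ := by
  have hq : (2 : ℝ) ≤ Fintype.card K := by exact_mod_cast q_ge (k := K)
  have hq0 : (0 : ℝ) < Fintype.card K := by linarith
  have hr : 1 < (Fintype.card K : ℝ) ^ (1 / 20 : ℝ) := Real.one_lt_rpow (by linarith) (by norm_num)
  have ht := tendsto_pow_const_div_const_pow_of_one_lt A₁ hr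
  have hev := ht.eventually (gt_mem_nhds (show (0 : ℝ) < 1 / 12 by norm_num))
  obtain ⟨n₀, hn₀⟩ := Filter.eventually_atTop.1 hev
  refine ⟨n₀ + 1, fun n hn => ?_⟩
  have h1 := hn₀ n (by omega)
  have hn0 : (0 : ℝ) < n := by exact_mod_cast (by omega)
  have hr0 : 0 < ((Fintype.card K : ℝ) ^ (1 / 20 : ℝ)) ^ n := by positivity
  rw [div_lt_iff₀ hr0] at h1
  have h2 : (Fintype.card K : ℝ) ^ n =
      (Fintype.card K : ℝ) ^ ((19 / 20 : ℝ) * n) * ((Fintype.card K : ℝ) ^ (1 / 20 : ℝ)) ^ n := by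
    rw [← Real.rpow_natCast ((Fintype.card K : ℝ) ^ (1 / 20 : ℝ)) n, ← Real.rpow_mul hq0.le,
      ← Real.rpow_add hq0, ← Real.rpow_natCast]
    congr 1
    ring
  rw [h2, le_div_iff₀ (by positivity)]
  have h3 : 0 < (Fintype.card K : ℝ) ^ ((19 / 20 : ℝ) * n) := Real.rpow_pos_of_pos hq0 _
  have h4 := mul_le_mul_of_nonneg_left h1.le h3.le
  linarith

end

/-- the numbers of the last step -/
theorem num {S C η ε₀ X q n B P E T₁ T₂ : ℝ} (hC0 : 0 < C) (hη0 : 0 < η) (hη1 : η ≤ 1 / 100)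
    (hη2 : 24 * C * η ≤ ε₀) (hX : 0 ≤ X) (h1 : B * (3 * S) ≤ B * T₁ + B * T₂ + 36 * (C * (η ^ 3 + η) * X + E))
    (hT₁ : T₁ ≤ P) (hT₂ : T₂ ≤ P) (hB : 0 ≤ B) (hP : 0 ≤ P) (hE : 12 * E ≤ P) :
    B * S ≤ ε₀ * X + (B + 1) * P := by
  have e1 : η ^ 3 ≤ η := by
    have h1 : η ^ 2 ≤ 1 := by nlinarith
    calc η ^ 3 = η * η ^ 2 := by ring
      _ ≤ η * 1 := mul_le_mul_of_nonneg_left h1 hη0.le
      _ = η := mul_one _
  have e2 : C * (η ^ 3 + η) ≤ C * (η + η) := mul_le_mul_of_nonneg_left (by linarith) hC0.le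
  have e3 : 12 * (C * (η ^ 3 + η)) ≤ ε₀ := by linarith
  have e4 := mul_le_mul_of_nonneg_right e3 hX
  have e5 := mul_le_mul_of_nonneg_left hT₁ hB
  have e6 := mul_le_mul_of_nonneg_left hT₂ hB
  have e7 := mul_nonneg hB hP
  nlinarith

end Parc

/-- **Task PARC** -/
theorem parc : S_tparc := by
  intro hc hA hB hF K _ _ _ ε₀ hε₀
  obtain ⟨C, hC0, hF⟩ := hF K
  obtain ⟨η, hη⟩ : ∃ η : ℝ, η = min (1 / 100) (ε₀ / (24 * C)) := ⟨_, rfl⟩
  have hη0 : 0 < η := by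
    rw [hη]
    exact lt_min (by norm_num) (by positivity)
  have hη1 : η ≤ 1 / 100 := by rw [hη]; exact min_le_left _ _
  have hη2 : 24 * C * η ≤ ε₀ := by
    have h1 : η ≤ ε₀ / (24 * C) := by rw [hη]; exact min_le_right _ _
    rw [le_div_iff₀ (by positivity)] at h1
    linarith
  obtain ⟨θ₁, hθ₁, hA⟩ := hA K η hη0 hη1
  obtain ⟨θ₂, hθ₂, hB⟩ := hB K η η hη0 hη1 hη0
  refine ⟨min θ₁ θ₂, lt_min hθ₁ hθ₂, ?_⟩
  intro k A₁
  obtain ⟨n₁, h₁⟩ := hA k A₁
  obtain ⟨n₂, h₂⟩ := hB k A₁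
  obtain ⟨n₃, h₃⟩ := hF η η hη0 hη1 hη0 (by linarith)
  obtain ⟨n₄, h₄⟩ := Parc.small (K := K) A₁
  refine ⟨n₁ + n₂ + n₃ + n₄ + 10, ?_⟩
  intro n hn y h i₀ lam W X₀ B hy hsh hlam hX hB0 hW hWb hav
  have hn10 : (10 : ℝ) ≤ n := by exact_mod_cast (by omega)
  have hn0 : (0 : ℝ) < n := by linarith
  -- the parameters
  obtain ⟨l, hl⟩ : ∃ l : ℕ, l = ⌊(1 / 4 - η) * n⌋₊ + 1 := ⟨_, rfl⟩
  have hk0 : 0 ≤ (1 / 4 - η) * n := by
    have : 0 ≤ 1 / 4 - η := by linarith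
    positivity
  have hlge : (1 / 4 - η) * n ≤ l := by
    rw [hl]
    push_cast
    exact (Nat.lt_floor_add_one _).le
  have hlle : (l : ℝ) ≤ (1 / 4 - η) * n + 1 := by
    rw [hl]
    push_cast
    have := Nat.floor_le hk0
    linarith
  have hl5 : n < 5 * l := by
    have e1 : (n : ℝ) < 5 * l := by nlinarith
    exact_mod_cast e1
  have hln : l ≤ n := by
    have e1 : (l : ℝ) ≤ n := by nlinarith
    exact_mod_cast e1
  have hq := q_ge (k := K)
  have hqn : (0 : ℝ) < (Fintype.card K : ℝ) ^ n := by positivity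
  have hW0 : ∀ f, 0 ≤ W f := fun f => (mul_nonneg hB0 (abs_nonneg _)).trans (hW f)
  have a1 := h₁ n (by omega) l y h i₀ lam hlge hlle
    (hy.trans (mul_le_mul_of_nonneg_right (min_le_left _ _) hn0.le)) hsh hlam
  have a2 := h₂ n (by omega) l y h i₀ lam hlge hlle
    (hy.trans (mul_le_mul_of_nonneg_right (min_le_right _ _) hn0.le)) hsh hlam
  have a3 := h₃ n (by omega) l W X₀ hlge hX hW0 hWb hav
  have a4 := h₄ n (by omega)
  have a5 := Parc.ident (n := n) (l := l) η B (fun f => (mob (f + h i₀) : ℝ))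
    (Wc h lam y) W (by omega) hη0 hln hl5 hc (fun f => mob_abs _) hB0 hW
  rw [abs_mul, abs_of_pos (show (0 : ℝ) < 3 by norm_num)] at a5
  have a6 : |∑ f ∈ (Mn K n).filter (Rgh l), Wc h lam y f * (mob (f + h i₀) : ℝ) *
      Tf n η f| ≤ (Fintype.card K : ℝ) ^ n / (n : ℝ) ^ A₁ := a2
  rw [mul_div_assoc (B + 1)]
  refine Parc.num (q := 0) (n := 0) hC0 hη0 hη1 hη2 (by positivity)
    (a5.trans (add_le_add le_rfl (mul_le_mul_of_nonneg_left a3 (by norm_num)))) a6 a1 hB0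
    (by positivity) a4

end Pool.Agent.H251.MY
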