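import Pool.Agent.H251.MY.StmD
import Pool.Agent.H251.MY.PARC
import Pool.Agent.H985.CH.PAPW
import Pool.Agent.H985.CH.Prsw
import Pool.Agent.H985.CH.Momw

/-!
# Project MY (helper251), task DEHC (helper706): the twisted Elliott-Halberstam sum, squarefree part of
the modulus times a fixed `c`
-/

set_option autoImplicit false
set_option linter.all false

namespace Pool.Agent.H251.MY

open Polynomial Finset
open scoped Classical
open Pool.Agent.H985.Chow (mob)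
open Pool.Agent.H985.KP (mobg)
open Pool.Agent.H694.Typ (Mn Irn PU mem_Mn mem_Irn mem_PU sum_PU irn_one_le q_ge)
open Pool.Agent.H251.SP (Rgh Smo bw cf S_comb)
open Pool.Agent.H985.CH (Hh SqM Shf Bdd Exc Wt)
open Pool.Agent.H985.CH.ChenX (Tf Tf_abs)
open Pool.Agent.H251.SP.Asm (rgh_irr mob_abs)
open Pool.Agent.H985.CG (Sup Hg Wg Slo Shg S_mainag S_mainbg)
open Pool.Agent.H225.Par (lf Om Om_card_le)

namespace Dehc

section phi

variable {K : Type} [Field K] [Fintype K]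

/-- `|P| ≥ 2` -/
theorem qP {d : ℕ} (hd : 1 ≤ d) : (2 : ℝ) ^ d ≤ (Fintype.card K : ℝ) ^ d :=
  pow_le_pow_left₀ (by norm_num) (q_ge (k := K)) d

/-- the local factor -/
noncomputable def g (K : Type) [Field K] [Fintype K] (P : K[X]) : ℝ :=
  1 / ((Fintype.card K : ℝ) ^ P.natDegree - 1)

theorem g_nonneg {P : K[X]} (hP : Irreducible P) : 0 ≤ g K P := by
  have h := qP (K := K) hP.natDegree_pos
  have h2 : (2 : ℝ) ^ 1 ≤ 2 ^ P.natDegree := pow_le_pow_right₀ (by norm_num) hP.natDegree_pos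
  unfold g
  apply div_nonneg zero_le_one
  linarith

/-- `∑ 1 / (|P| - 1) ≤ 3 + log (y + 1)` -/
theorem sum_g (y : ℕ) : ∑ P ∈ PU K y, g K P ≤ 3 + Real.log (y + 1) := by
  have hq := q_ge (k := K)
  have h1 : ∑ P ∈ PU K y, g K P ≤ ∑ d ∈ Icc 1 y, ((1 : ℝ) / d + 2 * (1 / 2) ^ d) := by
    rw [sum_PU]
    refine sum_le_sum fun d hd => ?_
    rw [mem_Icc] at hd
    have hd0 : (0 : ℝ) < d := by exact_mod_cast hd.1
    have e1 : ∑ P ∈ Irn K d, g K P = ((Irn K d).card : ℝ) *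
        (1 / ((Fintype.card K : ℝ) ^ d - 1)) := by
      rw [← nsmul_eq_mul, ← sum_const]
      refine sum_congr rfl fun P hP => ?_
      unfold g
      rw [(mem_Irn.1 hP).2.1]
    have h2 : (d : ℝ) * ((Irn K d).card : ℝ) ≤ (Fintype.card K : ℝ) ^ d := by
      exact_mod_cast irn_one_le (k := K) hd.1
    obtain ⟨Q, hQ⟩ : ∃ Q : ℝ, Q = (Fintype.card K : ℝ) ^ d := ⟨_, rfl⟩
    have h3 : (2 : ℝ) ^ d ≤ Q := by rw [hQ]; exact qP hd.1
    have h4 : (2 : ℝ) ≤ 2 ^ d := by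
      calc (2 : ℝ) = 2 ^ 1 := (pow_one _).symm
        _ ≤ 2 ^ d := pow_le_pow_right₀ (by norm_num) hd.1
    rw [e1, ← hQ]
    rw [← hQ] at h2
    have hQ1 : 0 < Q - 1 := by linarith
    have hI : ((Irn K d).card : ℝ) ≤ Q / d := by
      rw [le_div_iff₀ hd0]
      linarith
    have h5 : ((Irn K d).card : ℝ) * (1 / (Q - 1)) ≤ Q / d * (1 / (Q - 1)) :=
      mul_le_mul_of_nonneg_right hI (by positivity)
    have h6 : Q / d * (1 / (Q - 1)) = 1 / d + 1 / d * (1 / (Q - 1)) := by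
      field_simp
      ring
    have h7 : 1 / (Q - 1) ≤ 2 * (1 / 2) ^ d := by
      have e2 : (2 : ℝ) * (1 / 2) ^ d = 2 / 2 ^ d := by
        rw [one_div, inv_pow]
        ring
      rw [e2, div_le_div_iff₀ hQ1 (by positivity)]
      nlinarith
    have h8 : 1 / (d : ℝ) * (1 / (Q - 1)) ≤ 1 * (1 / (Q - 1)) := by
      refine mul_le_mul_of_nonneg_right ?_ (by positivity)
      rw [div_le_one hd0]
      exact_mod_cast hd.1
    linarith
  refine h1.trans ?_
  rw [sum_add_distrib]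
  have h2 : ∑ d ∈ Icc 1 y, (1 : ℝ) / d ≤ 1 + Real.log (y + 1) := by
    have h3 := harmonic_le_one_add_log y
    have h4 : ((harmonic y : ℚ) : ℝ) = ∑ d ∈ Icc 1 y, (1 : ℝ) / d := by
      rw [harmonic_eq_sum_Icc]
      push_cast
      exact sum_congr rfl fun d _ => by rw [one_div]
    rw [h4] at h3
    refine h3.trans ?_
    rcases Nat.eq_zero_or_pos y with h0 | h0
    · rw [h0]
      simp
    · have h5 : (0 : ℝ) < y := by exact_mod_cast h0
      have := Real.log_le_log h5 (show (y : ℝ) ≤ y + 1 by linarith)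
      linarith
  have h3 : ∑ d ∈ Icc 1 y, 2 * ((1 : ℝ) / 2) ^ d ≤ 2 := by
    rw [← mul_sum]
    have h4 : ∑ d ∈ Icc 1 y, ((1 : ℝ) / 2) ^ d ≤ 1 := by
      have h5 := geom_sum_Ico_le_of_lt_one (x := (1 / 2 : ℝ)) (by norm_num) (by norm_num)
        (m := 1) (n := y + 1)
      have h6 : Ico 1 (y + 1) = Icc 1 y := by
        ext d
        rw [mem_Ico, mem_Icc]
        omega
      rw [h6] at h5
      norm_num at h5 ⊢
      exact h5
    linarith
  linarith

/-- `∑ 1 / φ (E) ≤ e³ (y + 1)` -/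
theorem phi_sum (y : ℕ) :
    ∑ E ∈ SqM K y, ∏ P ∈ (PU K y).filter (fun P => P ∣ E), g K P ≤ Real.exp 3 * ((y : ℝ) + 1) := by
  have hg : ∀ P ∈ PU K y, 0 ≤ g K P := fun P hP => g_nonneg (mem_PU.1 hP).2.1
  have hinj : Set.InjOn (fun E : K[X] => (PU K y).filter (fun P => P ∣ E)) (SqM K y) := by
    intro E hE E' hE' h
    have h1 := Pool.Agent.H985.CH.Momw.prod_pr hE
    have h2 := Pool.Agent.H985.CH.Momw.prod_pr hE'
    unfold Pool.Agent.H985.CH.Momw.pr at h1 h2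
    have h3 : (PU K y).filter (fun P => P ∣ E) = (PU K y).filter (fun P => P ∣ E') := h
    rw [← h1, ← h2, h3]
  have h1 : ∑ E ∈ SqM K y, ∏ P ∈ (PU K y).filter (fun P => P ∣ E), g K P =
      ∑ T ∈ (SqM K y).image (fun E => (PU K y).filter (fun P => P ∣ E)), ∏ P ∈ T, g K P := by
    rw [sum_image hinj]
  rw [h1]
  have h2 : ∑ T ∈ (SqM K y).image (fun E => (PU K y).filter (fun P => P ∣ E)), ∏ P ∈ T, g K P ≤
      ∑ T ∈ (PU K y).powerset, ∏ P ∈ T, g K P := by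
    refine sum_le_sum_of_subset_of_nonneg ?_ ?_
    · intro T hT
      rw [mem_image] at hT
      obtain ⟨E, -, rfl⟩ := hT
      rw [mem_powerset]
      exact filter_subset _ _
    · intro T hT _
      exact prod_nonneg fun P hP => hg P (mem_powerset.1 hT hP)
  refine h2.trans ?_
  rw [← prod_one_add]
  have h3 : ∏ P ∈ PU K y, (1 + g K P) ≤ ∏ P ∈ PU K y, Real.exp (g K P) :=
    prod_le_prod (fun P hP => by linarith [hg P hP]) fun P _ => by
      linarith [Real.add_one_le_exp (g K P)]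
  refine h3.trans ?_
  rw [← Real.exp_sum]
  have hy : (0 : ℝ) < (y : ℝ) + 1 := by positivity
  calc Real.exp (∑ P ∈ PU K y, g K P) ≤ Real.exp (3 + Real.log (y + 1)) :=
        Real.exp_le_exp.2 (sum_g y)
    _ = Real.exp 3 * ((y : ℝ) + 1) := by rw [Real.exp_add, Real.exp_log hy]

/-- the local factor of the sieve for one form -/
theorem lf_le (h : Fin 1 → K[X]) {P : K[X]} (hP : Irreducible P) :
    0 ≤ 1 - lf (Fin.cons 0 h : Fin (1 + 1) → K[X]) P /
        (1 - 1 / (Fintype.card K : ℝ) ^ P.natDegree) ∧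
      1 - lf (Fin.cons 0 h : Fin (1 + 1) → K[X]) P /
        (1 - 1 / (Fintype.card K : ℝ) ^ P.natDegree) ≤ g K P := by
  have h1 : ((Om (Fin.cons 0 h : Fin (1 + 1) → K[X]) P).card : ℝ) ≤ 2 := by
    have := Om_card_le (Fin.cons 0 h : Fin (1 + 1) → K[X]) P
    exact_mod_cast this
  have h2 : (1 : ℝ) ≤ ((Om (Fin.cons 0 h : Fin (1 + 1) → K[X]) P).card : ℝ) := by
    have : 0 < (Om (Fin.cons 0 h : Fin (1 + 1) → K[X]) P).card := by
      unfold Om
      rw [card_pos]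
      exact Finset.univ_nonempty.image _
    exact_mod_cast this
  unfold lf g
  obtain ⟨v, hv⟩ : ∃ v : ℝ, v = ((Om (Fin.cons 0 h : Fin (1 + 1) → K[X]) P).card : ℝ) := ⟨_, rfl⟩
  obtain ⟨Q, hQ⟩ : ∃ Q : ℝ, Q = (Fintype.card K : ℝ) ^ P.natDegree := ⟨_, rfl⟩
  have h3 : (2 : ℝ) ≤ Q := by
    rw [hQ]
    refine le_trans ?_ (qP (K := K) hP.natDegree_pos)
    calc (2 : ℝ) = 2 ^ 1 := (pow_one _).symm
      _ ≤ 2 ^ P.natDegree := pow_le_pow_right₀ (by norm_num) hP.natDegree_pos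
  rw [← hv] at h1 h2 ⊢
  rw [← hQ]
  have hQ0 : Q ≠ 0 := by linarith
  have hQ1 : 0 < Q - 1 := by linarith
  have e : 1 - (1 - v / Q) / (1 - 1 / Q) = (v - 1) / (Q - 1) := by
    have : Q - 1 ≠ 0 := hQ1.ne'
    field_simp
    ring
  rw [e]
  constructor
  · exact div_nonneg (by linarith) hQ1.le
  · exact div_le_div_of_nonneg_right (by linarith) hQ1.le

/-- the indicator of the squarefree polynomials of degree at most `y` -/
noncomputable def ind (K : Type) [Field K] [Fintype K] (y : ℕ) (E : K[X]) : ℝ :=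
  if E ∈ SqM K y then 1 else 0

theorem ind_bdd (y : ℕ) : Bdd (ind K y) := by
  intro E
  unfold ind
  split_ifs <;> norm_num

/-- the average of the majorant -/
theorem avg_W [CharP K 2] : ∃ n₀ : ℕ, ∀ n : ℕ, n₀ ≤ n → ∀ (y : ℕ) (H : K[X]),
    (y : ℝ) ≤ 1 / 480 * n →
    Avg n (Wt ![H] (ind K y) y) ((Real.exp 3 + 1) * ((y : ℝ) + 1)) := by
  obtain ⟨N₀, hN₀⟩ := Pool.Agent.H985.CH.Prsw.num 1 1 one_pos
  refine ⟨5 * N₀ + 485, ?_⟩
  intro n hn y H hy N D hN hDN hD hP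
  have hnr : (485 : ℝ) ≤ n := by exact_mod_cast (by omega)
  have hN1 : 1 ≤ N := by omega
  have hN1r : (1 : ℝ) ≤ N := by exact_mod_cast hN1
  have hq := q_ge (k := K)
  have hq0 : (0 : ℝ) < Fintype.card K := by linarith
  have hy1 : ((y + 1 : ℕ) : ℝ) ≤ 1 / (40 * (((1 : ℕ) : ℝ) + 2) * (((1 : ℕ) : ℝ) + 1)) * n := by
    push_cast
    norm_num
    linarith
  have hy5 : 5 * (y + 1) ≤ n := by
    have : (5 * ((y : ℝ) + 1)) ≤ n := by linarith
    exact_mod_cast this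
  have herr := Pool.Agent.H985.CH.Prsw.err (q := (Fintype.card K : ℝ)) (c := 1) (ε := 2) (v := 1)
    (k := 1) (A := 1) (m := y + 1) (n := n) (N := N) hq one_pos two_pos (by omega) hN1 hN hy1
    (by
      rw [pow_one, div_le_one (by positivity)]
      push_cast
      have : (0 : ℝ) ≤ y := Nat.cast_nonneg y
      linarith)
    (by
      have := hN₀ N (by omega)
      norm_num at this ⊢
      exact this)
  have hR : Rgh (y + 1) D := by
    intro P h1 h2 h3
    have := hP P h1 h2 h3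
    omega
  have h1 := Pool.Agent.H985.CH.Prsw.sum_Wt Pool.Agent.H985.CH.papw (k := 1) (m := y) (N := N)
    (y := y) D ![H] (ind K y) (ind_bdd y) (by
      intro E hE P hPi hPE
      unfold ind at hE
      have hE2 : E ∈ SqM K y := by
        by_contra hcon
        rw [if_neg hcon] at hE
        exact hE rfl
      rw [Pool.Agent.H985.CH.Prsw.mem_SqM] at hE2
      exact (natDegree_le_of_dvd hPE hE2.1.ne_zero).trans hE2.2.1) hN1 (by omega) hD hR
  have hS : ∑ E ∈ SqM K y, ind K y E * ∏ P ∈ (PU K y).filter (fun P => P ∣ E),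
        (1 - lf (Fin.cons 0 ![H] : Fin (1 + 1) → K[X]) P /
          (1 - 1 / (Fintype.card K : ℝ) ^ P.natDegree)) ≤ Real.exp 3 * ((y : ℝ) + 1) := by
    refine le_trans (sum_le_sum fun E hE => ?_) (phi_sum (K := K) y)
    unfold ind
    rw [if_pos hE, one_mul]
    exact prod_le_prod (fun P hP' => (lf_le ![H] (mem_PU.1 (mem_filter.1 hP').1).2.1).1)
      fun P hP' => (lf_le ![H] (mem_PU.1 (mem_filter.1 hP').1).2.1).2
  have hX : 0 ≤ (Fintype.card K : ℝ) ^ N / N := by positivity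
  have hM := mul_le_mul_of_nonneg_left hS hX
  have hcard := Pool.Agent.H985.CH.Prsw.card_SqM (K := K) y
  have hy0 : (0 : ℝ) ≤ y := Nat.cast_nonneg y
  have hE : ((SqM K y).card : ℝ) * ((((1 : ℕ) : ℝ) + 1) ^ y * (2 * y + 4 : ℝ) *
        Real.sqrt ((Fintype.card K : ℝ) ^ N)) ≤ (Fintype.card K : ℝ) ^ N / N := by
    refine le_trans ?_ (herr.2.trans (le_of_eq (by ring)))
    have e1 : (Fintype.card K : ℝ) ^ y ≤ (Fintype.card K : ℝ) ^ (1 * (y + 1)) :=
      pow_le_pow_right₀ (by linarith) (by omega)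
    have e2 : (((1 : ℕ) : ℝ) + 1) ^ y ≤ (((1 : ℕ) : ℝ) + 1) ^ (1 * (y + 1)) :=
      pow_le_pow_right₀ (by norm_num) (by omega)
    have e3 : (y : ℝ) + 1 ≤ (((1 * (y + 1) : ℕ)) : ℝ) + 1 := by
      push_cast
      linarith
    have e4 : (2 * (y : ℝ) + 4) ≤ 2 * (((1 * (y + 1) : ℕ)) : ℝ) + 4 := by
      push_cast
      linarith
    have e5 : ((SqM K y).card : ℝ) ≤
        ((((1 * (y + 1) : ℕ)) : ℝ) + 1) * (Fintype.card K : ℝ) ^ (1 * (y + 1)) :=
      hcard.trans (mul_le_mul e3 e1 (by positivity) (by positivity))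
    refine mul_le_mul e5 ?_ (by positivity) (by positivity)
    refine mul_le_mul_of_nonneg_right ?_ (Real.sqrt_nonneg _)
    exact mul_le_mul e2 e4 (by positivity) (by positivity)
  have h2 := (abs_le.1 h1).2
  have h3 : (Fintype.card K : ℝ) ^ N / N ≤ ((y : ℝ) + 1) * ((Fintype.card K : ℝ) ^ N / N) := by
    nlinarith
  calc ∑ p ∈ Irn K N, Wt ![H] (ind K y) y (D * p)
      ≤ (Fintype.card K : ℝ) ^ N / N * (Real.exp 3 * ((y : ℝ) + 1)) +
          (Fintype.card K : ℝ) ^ N / N := by linarith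
    _ ≤ (Fintype.card K : ℝ) ^ N / N * (Real.exp 3 * ((y : ℝ) + 1)) +
          ((y : ℝ) + 1) * ((Fintype.card K : ℝ) ^ N / N) := by linarith
    _ = (Real.exp 3 + 1) * ((y : ℝ) + 1) * (Fintype.card K : ℝ) ^ N / N := by ring

theorem Hg_one (H f : K[X]) : Hg (![1] : Fin 1 → K[X]) ![H] f = f + H := by
  unfold Hg
  simp

theorem Hh_one (H f : K[X]) : Hh (![H] : Fin 1 → K[X]) f = f + H := by
  unfold Hh
  simp

theorem mobg_one (F : K[X]) : mobg 1 F = mob F := by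
  unfold Pool.Agent.H985.KP.mobg
  rw [one_pow, if_pos (one_dvd F), EuclideanDomain.div_one]

theorem Wt_nonneg (y : ℕ) (H f : K[X]) : 0 ≤ Wt ![H] (ind K y) y f := by
  unfold Pool.Agent.H985.CH.Wt
  refine sum_nonneg fun E _ => ?_
  unfold ind
  split_ifs <;> norm_num

/-- the majorant -/
theorem major (c H : K[X]) (y : ℕ) (lam : K[X] → ℝ) (hl : Bdd lam) (f : K[X]) :
    |(if c ∣ f + H then Wg c ![1] ![H] lam y f else 0)| ≤ Wt ![H] (ind K y) y f := by
  by_cases h : c ∣ f + H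
  · rw [if_pos h]
    unfold Pool.Agent.H985.CG.Wg Pool.Agent.H985.CH.Wt
    rw [Hg_one, Hh_one]
    refine (abs_sum_le_sum_abs _ _).trans ?_
    have h1 : ∑ E ∈ (SqM K y).filter (fun E => IsCoprime E c ∧ E ∣ f + H), |lam E| ≤
        ∑ E ∈ (SqM K y).filter (fun E => IsCoprime E c ∧ E ∣ f + H), ind K y E := by
      refine sum_le_sum fun E hE => ?_
      unfold ind
      rw [if_pos (mem_filter.1 hE).1]
      exact hl E
    refine h1.trans (sum_le_sum_of_subset_of_nonneg ?_ ?_)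
    · intro E hE
      rw [mem_filter] at hE ⊢
      exact ⟨hE.1, hE.2.2⟩
    · intro E _ _
      unfold ind
      split_ifs <;> norm_num
  · rw [if_neg h, abs_zero]
    exact Wt_nonneg y H f

theorem Wt_le {n y : ℕ} (H f : K[X]) (hy : (y : ℝ) ≤ 1 / 480 * n) :
    Wt ![H] (ind K y) y f ≤ (Fintype.card K : ℝ) ^ ((n : ℝ) / 8) := by
  have hq := q_ge (k := K)
  have hq0 : (0 : ℝ) < Fintype.card K := by linarith
  have h1 : Wt ![H] (ind K y) y f ≤ ((SqM K y).card : ℝ) := by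
    unfold Pool.Agent.H985.CH.Wt
    have h2 : ∑ E ∈ (SqM K y).filter (fun E => E ∣ Hh ![H] f), ind K y E ≤
        ∑ E ∈ (SqM K y).filter (fun E => E ∣ Hh ![H] f), (1 : ℝ) := by
      refine sum_le_sum fun E _ => ?_
      unfold ind
      split_ifs <;> norm_num
    refine h2.trans ?_
    rw [sum_const, nsmul_eq_mul, mul_one]
    exact_mod_cast card_le_card (filter_subset _ _)
  have h3 := Pool.Agent.H985.CH.Prsw.card_SqM (K := K) y
  have h4 : (y : ℝ) + 1 ≤ (Fintype.card K : ℝ) ^ y := by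
    have h5 : y + 1 ≤ 2 ^ y := Nat.lt_two_pow_self
    have h6 : (y : ℝ) + 1 ≤ 2 ^ y := by exact_mod_cast h5
    exact h6.trans (pow_le_pow_left₀ (by norm_num) hq y)
  have h7 : ((y : ℝ) + 1) * (Fintype.card K : ℝ) ^ y ≤ (Fintype.card K : ℝ) ^ (y + y) := by
    rw [pow_add]
    exact mul_le_mul_of_nonneg_right h4 (by positivity)
  refine h1.trans (h3.trans (h7.trans ?_))
  rw [← Real.rpow_natCast]
  refine Real.rpow_le_rpow_of_exponent_le (by linarith) ?_
  push_cast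
  have : (0 : ℝ) ≤ n := Nat.cast_nonneg n
  linarith

/-- exchange of the summations -/
theorem exch (n y : ℕ) (c H : K[X]) (lam F : K[X] → ℝ)
    (h0 : ∀ a, ¬ (IsCoprime a c ∧ IsCoprime (a * c) H) → lam a = 0) :
    ∑ a ∈ (SqM K y).filter (fun a => IsCoprime a c ∧ IsCoprime (a * c) H),
      lam a * ∑ p ∈ (Irn K n).filter (fun p => a * c ∣ p + H), F p =
    ∑ p ∈ Irn K n, (if c ∣ p + H then Wg c ![1] ![H] lam y p else 0) * F p := by
  have e1 : ∀ a, lam a * ∑ p ∈ (Irn K n).filter (fun p => a * c ∣ p + H), F p =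
      ∑ p ∈ Irn K n, (if a * c ∣ p + H then lam a * F p else 0) := by
    intro a
    rw [sum_filter, mul_sum]
    refine sum_congr rfl fun p _ => ?_
    rw [mul_ite, mul_zero]
  simp only [e1]
  rw [sum_comm]
  refine sum_congr rfl fun p _ => ?_
  by_cases h : c ∣ p + H
  · rw [if_pos h]
    unfold Pool.Agent.H985.CG.Wg
    rw [Hg_one, sum_mul, sum_filter, sum_filter]
    refine sum_congr rfl fun a _ => ?_
    by_cases h1 : IsCoprime a c
    · by_cases h2 : IsCoprime (a * c) H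
      · rw [if_pos ⟨h1, h2⟩]
        by_cases h3 : a ∣ p + H
        · rw [if_pos (h1.mul_dvd h3 h), if_pos ⟨h1, h3⟩]
        · rw [if_neg (fun h4 => h3 ((dvd_mul_right a c).trans h4)), if_neg (fun h4 => h3 h4.2)]
      · rw [if_neg (fun h4 => h2 h4.2), h0 a (fun h4 => h2 h4.2), zero_mul]
        split_ifs <;> rfl
    · rw [if_neg (fun h4 => h1 h4.1), if_neg (fun h4 => h1 h4.1)]
  · rw [if_neg h, zero_mul]
    refine sum_eq_zero fun a _ => ?_
    rw [if_neg (fun h4 => h ((dvd_mul_left c a).trans h4))]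

/-- restriction to a class -/
theorem restr (S : Finset K[X]) (l : ℕ) (c H : K[X]) (A B D : K[X] → ℝ) :
    ∑ f ∈ S.filter (Rgh l), (if c ∣ f + H then A f else 0) * B f * D f =
      ∑ f ∈ S.filter (fun f => Rgh l f ∧ c ∣ f - (-H)), A f * B f * D f := by
  rw [← filter_filter, sum_filter (fun f => c ∣ f - (-H))]
  refine sum_congr rfl fun f _ => ?_
  rw [sub_neg_eq_add]
  split_ifs
  · rfl
  · ring

end phi

end Dehc

/-- **Task DEHC** -/
theorem dehc : S_tdehc := by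
  intro hc hA hB hF K _ _ _ c ε hcm hε
  obtain ⟨C, hC0, hF⟩ := hF K
  obtain ⟨C2, hC2⟩ : ∃ C2 : ℝ, C2 = Real.exp 3 + 1 := ⟨_, rfl⟩
  have hC20 : 0 < C2 := by rw [hC2]; positivity
  obtain ⟨ε₀, hε₀d⟩ : ∃ ε₀ : ℝ, ε₀ = ε / (2 * C2) := ⟨_, rfl⟩
  have hε₀ : 0 < ε₀ := by rw [hε₀d]; positivity
  obtain ⟨η, hη⟩ : ∃ η : ℝ, η = min (1 / 100) (ε₀ / (24 * C)) := ⟨_, rfl⟩
  have hη0 : 0 < η := by
    rw [hη]
    exact lt_min (by norm_num) (by positivity)
  have hη1 : η ≤ 1 / 100 := by rw [hη]; exact min_le_left _ _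
  have hη2 : 24 * C * η ≤ ε₀ := by
    have h1 : η ≤ ε₀ / (24 * C) := by rw [hη]; exact min_le_right _ _
    rw [le_div_iff₀ (by positivity)] at h1
    linarith
  have hS : Slo c (![1] : Fin 1 → K[X]) := by
    intro i
    have e : (![1] : Fin 1 → K[X]) i = 1 := by fin_cases i; rfl
    rw [e]
    exact ⟨monic_one, fun P hP hP1 => absurd (isUnit_of_dvd_one hP1) hP.not_isUnit⟩
  obtain ⟨θ₁, hθ₁, n₁, h₁⟩ := hA K 1 2 c 1 ![1] η hcm monic_one hS hη0 hη1
  obtain ⟨θ₂, hθ₂, n₂, h₂⟩ := hB K 1 2 c 1 ![1] η η hcm monic_one hS hη0 hη1 hη0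
  obtain ⟨n₃, h₃⟩ := hF η η hη0 hη1 hη0 (by linarith)
  obtain ⟨n₄, h₄⟩ := Parc.small (K := K) 2
  obtain ⟨n₅, h₅⟩ := Dehc.avg_W (K := K)
  refine ⟨min (min θ₁ θ₂) (1 / 480), lt_min (lt_min hθ₁ hθ₂) (by norm_num),
    n₁ + n₂ + n₃ + n₄ + n₅ + ⌈4 / ε⌉₊ + 10, ?_⟩
  intro n hn y H hy hH hHd
  have hn10 : (10 : ℝ) ≤ n := by exact_mod_cast (by omega)
  have hn0 : (0 : ℝ) < n := by linarith
  have hq := q_ge (k := K)
  have hqn : (0 : ℝ) < (Fintype.card K : ℝ) ^ n := by positivity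
  by_cases hcH : IsCoprime c H
  swap
  · have he : (SqM K y).filter (fun a => IsCoprime a c ∧ IsCoprime (a * c) H) = ∅ :=
      filter_eq_empty_iff.2 fun a _ h => hcH h.2.of_mul_left_right
    rw [he, sum_empty]
    positivity
  have hy1 : (y : ℝ) ≤ θ₁ * n :=
    hy.trans (mul_le_mul_of_nonneg_right ((min_le_left _ _).trans (min_le_left _ _)) hn0.le)
  have hy2 : (y : ℝ) ≤ θ₂ * n :=
    hy.trans (mul_le_mul_of_nonneg_right ((min_le_left _ _).trans (min_le_right _ _)) hn0.le)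
  have hy3 : (y : ℝ) ≤ 1 / 480 * n :=
    hy.trans (mul_le_mul_of_nonneg_right (min_le_right _ _) hn0.le)
  -- the parameters
  obtain ⟨l, hl⟩ : ∃ l : ℕ, l = ⌊(1 / 4 - η) * n⌋₊ + 1 := ⟨_, rfl⟩
  have hk0 : 0 ≤ (1 / 4 - η) * n := by
    have : 0 ≤ 1 / 4 - η := by linarith
    positivity
  have hlge : (1 / 4 - η) * n ≤ l := by
    rw [hl]
    push_cast
    exact (Nat.lt_floor_add_one _).le
  have hlle : (l : ℝ) ≤ (1 / 4 - η) * n + 1 := by
    rw [hl]
    push_cast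
    have := Nat.floor_le hk0
    linarith
  have hl5 : n < 5 * l := by
    have e1 : (n : ℝ) < 5 * l := by nlinarith
    exact_mod_cast e1
  have hln : l ≤ n := by
    have e1 : (l : ℝ) ≤ n := by nlinarith
    exact_mod_cast e1
  -- the coefficients
  obtain ⟨inner, hinner⟩ : ∃ inner : K[X] → ℝ, ∀ a, inner a =
      ∑ p ∈ (Irn K n).filter (fun p => a * c ∣ p + H), (mob (p + H) : ℝ) := ⟨_, fun _ => rfl⟩
  obtain ⟨lam, hlam⟩ : ∃ lam : K[X] → ℝ, ∀ a, lam a =
      if IsCoprime a c ∧ IsCoprime (a * c) H then (if 0 ≤ inner a then 1 else -1) else 0 :=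
    ⟨_, fun _ => rfl⟩
  have hbd : Bdd lam := by
    intro a
    rw [hlam]
    split_ifs <;> norm_num
  have hlam0 : ∀ a, ¬ (IsCoprime a c ∧ IsCoprime (a * c) H) → lam a = 0 := by
    intro a ha
    rw [hlam, if_neg ha]
  have hsum : ∑ a ∈ (SqM K y).filter (fun a => IsCoprime a c ∧ IsCoprime (a * c) H),
        |∑ p ∈ (Irn K n).filter (fun p => a * c ∣ p + H), (mob (p + H) : ℝ)| =
      ∑ p ∈ Irn K n, (if c ∣ p + H then Wg c ![1] ![H] lam y p else 0) * (mob (p + H) : ℝ) := by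
    rw [← Dehc.exch n y c H lam (fun p => (mob (p + H) : ℝ)) hlam0]
    refine sum_congr rfl fun a ha => ?_
    rw [← hinner a, hlam a, if_pos (mem_filter.1 ha).2]
    split_ifs with h
    · rw [abs_of_nonneg h, one_mul]
    · rw [abs_of_neg (not_le.1 h)]
      ring
  have hsh : Shg n (![1] : Fin 1 → K[X]) ![H] := by
    intro i
    have e : (![H] : Fin 1 → K[X]) i = H := by fin_cases i; rfl
    rw [e]
    exact ⟨hH, lt_of_lt_of_le hHd (Nat.le_add_right _ _)⟩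
  have hρ : IsCoprime (-H) c := (hcH.symm).neg_left
  have a1 := h₁ n (by omega) l y (-H) ![H] 0 lam hlge hlle hy1 hρ hsh hbd
  have a2 := h₂ n (by omega) l y (-H) ![H] 0 lam hlge hlle hy2 hρ hsh hbd
  have hm : ∀ f : K[X], (mobg 1 ((![1] : Fin 1 → K[X]) 0 * f + (![H] : Fin 1 → K[X]) 0) : ℝ) =
      (mob (f + H) : ℝ) := by
    intro f
    rw [Dehc.mobg_one]
    congr 2
    change (1 : K[X]) * f + H = f + H
    rw [one_mul]
  simp only [hm] at a1 a2
  rw [← Dehc.restr] at a1 a2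
  have a3 := h₃ n (by omega) l (Wt ![H] (Dehc.ind K y) y) (C2 * ((y : ℝ) + 1)) hlge (by positivity)
    (Dehc.Wt_nonneg y H) (fun f => Dehc.Wt_le H f hy3) (by
      rw [hC2]
      exact h₅ n (by omega) y H hy3)
  have a4 := h₄ n (by omega)
  have a5 := Parc.ident (n := n) (l := l) η 1 (fun f => (mob (f + H) : ℝ))
    (fun f => if c ∣ f + H then Wg c ![1] ![H] lam y f else 0) (Wt ![H] (Dehc.ind K y) y)
    (by omega) hη0 hln hl5 hc (fun f => mob_abs _) zero_le_one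
    (fun f => by rw [one_mul]; exact Dehc.major c H y lam hbd f)
  rw [abs_mul, abs_of_pos (show (0 : ℝ) < 3 by norm_num)] at a5
  have a6 : |∑ f ∈ (Mn K n).filter (Rgh l), (if c ∣ f + H then Wg c ![1] ![H] lam y f else 0) *
      (mob (f + H) : ℝ) * Tf n η f| ≤ (Fintype.card K : ℝ) ^ n / (n : ℝ) ^ 2 := a2
  have hfin := Parc.num (q := 0) (n := 0) hC0 hη0 hη1 hη2 (by positivity)
    (a5.trans (add_le_add le_rfl (mul_le_mul_of_nonneg_left a3 (by norm_num)))) a6 a1 zero_le_one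
    (by positivity) a4
  rw [hsum]
  rw [one_mul] at hfin
  refine (le_abs_self _).trans (hfin.trans ?_)
  have hceil : 4 / ε ≤ n := by
    have h1 : (⌈4 / ε⌉₊ : ℝ) ≤ n := by exact_mod_cast (by omega)
    exact (Nat.le_ceil _).trans h1
  have h4ε : 4 ≤ ε * n := by
    rw [div_le_iff₀ hε] at hceil
    linarith
  have hX : 0 < (Fintype.card K : ℝ) ^ n / n := by positivity
  have hy0 : (0 : ℝ) ≤ y := Nat.cast_nonneg y
  have e1 : ε₀ * (C2 * ((y : ℝ) + 1) * (Fintype.card K : ℝ) ^ n / n) =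
      ε / 2 * (((y : ℝ) + 1) * (Fintype.card K : ℝ) ^ n / n) := by
    rw [hε₀d]
    field_simp
  have e2 : (1 + 1) * ((Fintype.card K : ℝ) ^ n / (n : ℝ) ^ 2) ≤
      ε / 2 * (((y : ℝ) + 1) * (Fintype.card K : ℝ) ^ n / n) := by
    have h1 : (1 + 1) * ((Fintype.card K : ℝ) ^ n / (n : ℝ) ^ 2) =
        2 / n * ((Fintype.card K : ℝ) ^ n / n) := by
      field_simp
      ring
    have h2 : 2 / (n : ℝ) ≤ ε / 2 := by
      rw [div_le_iff₀ hn0]
      linarith
    rw [h1, mul_div_assoc]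
    have h3 : 2 / (n : ℝ) * ((Fintype.card K : ℝ) ^ n / n) ≤
        ε / 2 * ((Fintype.card K : ℝ) ^ n / n) := mul_le_mul_of_nonneg_right h2 hX.le
    have h4 : (Fintype.card K : ℝ) ^ n / n ≤ ((y : ℝ) + 1) * ((Fintype.card K : ℝ) ^ n / n) := by
      nlinarith
    have h5 := mul_le_mul_of_nonneg_left h4 (show 0 ≤ ε / 2 by linarith)
    linarith
  rw [e1]
  linarith

end Pool.Agent.H251.MY
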