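import Mathlib
import Pool.Agent.H251.MY.StmU

/-!
# Number of factors of rough polynomials
-/

namespace Pool.Agent.H251.MY

open Polynomial UniqueFactorizationMonoid

theorem fac_le {K : Type} [Field K] {n r : ℕ} {F : K[X]} (hn : 0 < n) (hF : F ≠ 0)
    (hd : F.natDegree = n)
    (hP : ∀ P : K[X], Irreducible P → P ∣ F → n ≤ r * P.natDegree) :
    Multiset.card (factors F) ≤ r := by
  have h1 : Associated (factors F).prod F := factors_prod hF
  have h2 : (factors F).prod.natDegree = n := by
    rw [← hd]
    exact natDegree_eq_of_degree_eq (degree_eq_degree_of_associated h1)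
  have h3 : (factors F).prod.natDegree = ((factors F).map natDegree).sum :=
    natDegree_multiset_prod _ (fun h0 => (irreducible_of_factor _ h0).ne_zero rfl)
  have h4 : Multiset.card (factors F) * n ≤
      (((factors F).map natDegree).map (fun d => r * d)).sum := by
    have h5 := Multiset.card_nsmul_le_sum
      (s := ((factors F).map natDegree).map (fun d => r * d)) (a := n) (fun x hx => by
        rw [Multiset.mem_map] at hx
        obtain ⟨d, hd, rfl⟩ := hx
        rw [Multiset.mem_map] at hd
        obtain ⟨P, hP1, rfl⟩ := hd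
        exact hP P (irreducible_of_factor _ hP1) (dvd_of_mem_factors hP1))
    rw [Multiset.card_map, Multiset.card_map, smul_eq_mul] at h5
    exact h5
  rw [Multiset.sum_map_mul_left, Multiset.map_id', ← h3, h2] at h4
  exact Nat.le_of_mul_le_mul_right h4 hn

/-- From the lower bound `δ n` for the degrees of the prime factors. -/
theorem rough_nat {n r d : ℕ} {δ : ℝ} (hδ : 0 < δ) (hr : 1 / δ ≤ r) (h : δ * n ≤ d) :
    n ≤ r * d := by
  have hδr : 1 ≤ δ * r := by
    rw [div_le_iff₀ hδ] at hr
    linarith
  have h3 : (n : ℝ) ≤ r * d := by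
    have h4 : (1 : ℝ) * n ≤ δ * r * n := mul_le_mul_of_nonneg_right hδr (Nat.cast_nonneg n)
    have h5 : (r : ℝ) * (δ * n) ≤ r * d := mul_le_mul_of_nonneg_left h (Nat.cast_nonneg r)
    nlinarith
  exact_mod_cast h3

end Pool.Agent.H251.MY
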