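import Pool.Agent.H251.MY.StmE
import Pool.Agent.H251.SP.FEW

set_option autoImplicit false

/-!
Task FEWC of the project MY (helper251), proved by helper97; adapted from
`Pool/Agent/H985/CH/FEWS.lean` (helper333) and `Pool/Agent/H251/SP/FEW.lean` (helper166).
-/

namespace Pool.Agent.H251.MY

namespace Fewc

open Polynomial Finset
open scoped Classical
open Pool.Agent.H985.KP (PA)
open Pool.Agent.H694.Typ (Mn Irn mem_Mn mem_Irn irn_one_le q_ge wt wt_add wt_nonneg wt_le_half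
  card_Mn card_dvd_le geo_half_le)
open Pool.Agent.H251.SP (Rgh)
open Pool.Agent.H251.SP.FewN

theorem sum_bi_le {ι α : Type} [DecidableEq α] (T : Finset ι) (g : ι → Finset α) {W : α → ℝ}
    (hW : ∀ a, 0 ≤ W a) : ∑ a ∈ T.biUnion g, W a ≤ ∑ i ∈ T, ∑ a ∈ g i, W a := by
  induction T using Finset.induction_on with
  | empty => simp
  | insert i T hi ih =>
    rw [biUnion_insert, sum_insert hi]
    have h := sum_union_inter (s₁ := g i) (s₂ := T.biUnion g) (f := W)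
    have h2 : 0 ≤ ∑ a ∈ g i ∩ T.biUnion g, W a := sum_nonneg fun a _ => hW a
    linarith

theorem sum_im_le {ι α : Type} [DecidableEq α] (S : Finset ι) (g : ι → α) {W : α → ℝ}
    (hW : ∀ a, 0 ≤ W a) : ∑ a ∈ S.image g, W a ≤ ∑ x ∈ S, W (g x) := by
  have e : S.image g = S.biUnion (fun x => {g x}) := by
    ext a
    simp only [mem_image, mem_biUnion, mem_singleton]
    constructor
    · rintro ⟨x, hx, h⟩
      exact ⟨x, hx, h.symm⟩
    · rintro ⟨x, hx, h⟩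
      exact ⟨x, hx, h.symm⟩
  rw [e]
  refine (sum_bi_le S (fun x => {g x}) hW).trans (le_of_eq ?_)
  exact sum_congr rfl fun x _ => sum_singleton _ _

theorem sum_sub_le {α : Type} {S T : Finset α} (h : S ⊆ T) {W : α → ℝ} (hW : ∀ a, 0 ≤ W a) :
    ∑ a ∈ S, W a ≤ ∑ a ∈ T, W a :=
  sum_le_sum_of_subset_of_nonneg h fun a _ _ => hW a

theorem sum_un_le {α : Type} [DecidableEq α] (S T : Finset α) {W : α → ℝ} (hW : ∀ a, 0 ≤ W a) :
    ∑ a ∈ S ∪ T, W a ≤ ∑ a ∈ S, W a + ∑ a ∈ T, W a := by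
  have h := sum_union_inter (s₁ := S) (s₂ := T) (f := W)
  have h2 : 0 ≤ ∑ a ∈ S ∩ T, W a := sum_nonneg fun a _ => hW a
  linarith

variable {K : Type} [Field K]

theorem rgh_mul {k : ℕ} {f g : K[X]} (hf : Rgh k f) (hg : Rgh k g) : Rgh k (f * g) := by
  intro P hP hP' hd
  rcases hP'.prime.dvd_or_dvd hd with h | h
  · exact hf P hP hP' h
  · exact hg P hP hP' h

theorem rgh_irr {k : ℕ} {f : K[X]} (hf : f.Monic) (hf' : Irreducible f) (hk : k ≤ f.natDegree) :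
    Rgh k f := by
  intro P hP hP' hd
  have : P = f := eq_of_monic_of_associated hP hf (hP'.associated_of_dvd hf' hd)
  rw [this]
  exact hk

variable [Fintype K]

theorem prod_sum {n k N : ℕ} {X₀ : ℝ} {W : K[X] → ℝ} (hU : Avg n W X₀) (h5 : n < 5 * k)
    (hN : n ≤ 5 * N) (S : Finset K[X])
    (hS : ∀ D ∈ S, D.Monic ∧ Rgh k D ∧ D.natDegree + N = n) :
    ∑ x ∈ S ×ˢ Irn K N, W (x.1 * x.2) ≤ S.card * (X₀ * (Fintype.card K : ℝ) ^ N / N) := by
  rw [sum_product]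
  calc ∑ D ∈ S, ∑ p ∈ Irn K N, W (D * p) ≤
      ∑ D ∈ S, (X₀ * (Fintype.card K : ℝ) ^ N / N) :=
        sum_le_sum fun D hD => hU N D hN (hS D hD).2.2 (hS D hD).1 (fun P hP hP' hd => by
          have := (hS D hD).2.1 P hP hP' hd
          omega)
    _ = _ := by rw [sum_const, nsmul_eq_mul]

/-- exactly four prime factors -/
theorem b_sum {n k : ℕ} {X₀ : ℝ} {W : K[X] → ℝ} (hX : 0 ≤ X₀) (hW : ∀ f, 0 ≤ W f)
    (hU : Avg n W X₀) (hk : 1 ≤ k) (h5 : n < 5 * k) :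
    ∑ f ∈ (Mn K n).filter (fun f => Rgh k f ∧ (PA f).ncard = 4), W f ≤
      ((n + 1 - 4 * k : ℕ) : ℝ) ^ 3 * (X₀ * (Fintype.card K : ℝ) ^ n / (k : ℝ) ^ 4) := by
  have hq := q_ge (k := K)
  have hk' : (1 : ℝ) ≤ k := by exact_mod_cast hk
  set T := ((Icc k (n - 3 * k)) ×ˢ (Icc k (n - 3 * k)) ×ˢ (Icc k (n - 3 * k))).filter
    (fun d => d.1 + d.2.1 + d.2.2 + k ≤ n) with hT
  set S : ℕ × ℕ × ℕ → Finset K[X] := fun d =>
    (Irn K d.1 ×ˢ Irn K d.2.1 ×ˢ Irn K d.2.2).image (fun x => x.1 * x.2.1 * x.2.2) with hS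
  have hsub : (Mn K n).filter (fun f => Rgh k f ∧ (PA f).ncard = 4) ⊆
      T.biUnion (fun d => ((S d) ×ˢ Irn K (n - d.1 - d.2.1 - d.2.2)).image
        (fun x => x.1 * x.2)) := by
    intro f hf
    rw [mem_filter] at hf
    obtain ⟨P1, P2, P3, P4, a1, a1', a2, a2', a3, a3', a4, a4', k1, k2, k3, k4, hf4, hdeg⟩ :=
      four hf.1 hf.2.1 h5 hf.2.2
    rw [mem_biUnion]
    refine ⟨(P1.natDegree, P2.natDegree, P3.natDegree), ?_, ?_⟩
    · rw [hT, mem_filter, mem_product, mem_product, mem_Icc, mem_Icc, mem_Icc]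
      refine ⟨⟨⟨k1, ?_⟩, ⟨k2, ?_⟩, k3, ?_⟩, ?_⟩
      · show P1.natDegree ≤ n - 3 * k
        omega
      · show P2.natDegree ≤ n - 3 * k
        omega
      · show P3.natDegree ≤ n - 3 * k
        omega
      · show P1.natDegree + P2.natDegree + P3.natDegree + k ≤ n
        omega
    · rw [mem_image]
      refine ⟨(P1 * P2 * P3, P4), ?_, hf4.symm⟩
      rw [mem_product]
      refine ⟨?_, ?_⟩
      · refine mem_image.2 ⟨(P1, P2, P3), ?_, rfl⟩
        rw [mem_product, mem_product, mem_Irn, mem_Irn, mem_Irn]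
        exact ⟨⟨a1, rfl, a1'⟩, ⟨a2, rfl, a2'⟩, a3, rfl, a3'⟩
      · rw [mem_Irn]
        refine ⟨a4, ?_, a4'⟩
        show P4.natDegree = n - P1.natDegree - P2.natDegree - P3.natDegree
        omega
  have h2 : ∑ f ∈ (Mn K n).filter (fun f => Rgh k f ∧ (PA f).ncard = 4), W f ≤
      ∑ d ∈ T, ∑ x ∈ (S d) ×ˢ Irn K (n - d.1 - d.2.1 - d.2.2), W (x.1 * x.2) :=
    ((sum_sub_le hsub hW).trans (sum_bi_le _ _ hW)).trans
      (sum_le_sum fun d _ => sum_im_le _ _ hW)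
  have h3 : ∀ d ∈ T, ∑ x ∈ (S d) ×ˢ Irn K (n - d.1 - d.2.1 - d.2.2), W (x.1 * x.2) ≤
      X₀ * (Fintype.card K : ℝ) ^ n / (k : ℝ) ^ 4 := by
    intro d hd
    rw [hT, mem_filter, mem_product, mem_product, mem_Icc, mem_Icc, mem_Icc] at hd
    obtain ⟨⟨⟨b1, _⟩, ⟨b2, _⟩, b3, _⟩, b4⟩ := hd
    have hN : k ≤ n - d.1 - d.2.1 - d.2.2 := by omega
    have hp := prod_sum hU (N := n - d.1 - d.2.1 - d.2.2) h5 (by omega) (S d) (by
      intro D hD
      obtain ⟨x, hx, rfl⟩ := mem_image.1 hD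
      rw [mem_product, mem_product, mem_Irn, mem_Irn, mem_Irn] at hx
      obtain ⟨⟨c1, c1', c1''⟩, ⟨c2, c2', c2''⟩, c3, c3', c3''⟩ := hx
      refine ⟨(c1.mul c2).mul c3, rgh_mul (rgh_mul (rgh_irr c1 c1'' ?_) (rgh_irr c2 c2'' ?_))
        (rgh_irr c3 c3'' ?_), ?_⟩
      · omega
      · omega
      · omega
      · rw [(c1.mul c2).natDegree_mul c3, c1.natDegree_mul c2, c1', c2', c3']
        omega)
    have e1 := irn_real (K := K) hk b1
    have e2 := irn_real (K := K) hk b2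
    have e3 := irn_real (K := K) hk b3
    have e4 : ((S d).card : ℝ) ≤ ((Fintype.card K : ℝ) ^ d.1 / k) *
        (((Fintype.card K : ℝ) ^ d.2.1 / k) * ((Fintype.card K : ℝ) ^ d.2.2 / k)) := by
      have e5 : (S d).card ≤ (Irn K d.1).card * ((Irn K d.2.1).card * (Irn K d.2.2).card) := by
        refine card_image_le.trans ?_
        rw [card_product, card_product]
      have e6 : ((S d).card : ℝ) ≤ ((Irn K d.1).card : ℝ) *
          (((Irn K d.2.1).card : ℝ) * ((Irn K d.2.2).card : ℝ)) := by exact_mod_cast e5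
      refine e6.trans ?_
      gcongr
    have e7 : X₀ * (Fintype.card K : ℝ) ^ (n - d.1 - d.2.1 - d.2.2) /
        ((n - d.1 - d.2.1 - d.2.2 : ℕ) : ℝ) ≤
        X₀ * (Fintype.card K : ℝ) ^ (n - d.1 - d.2.1 - d.2.2) / (k : ℝ) := by
      have : (k : ℝ) ≤ ((n - d.1 - d.2.1 - d.2.2 : ℕ) : ℝ) := by exact_mod_cast hN
      gcongr
    refine hp.trans ?_
    calc ((S d).card : ℝ) * (X₀ * (Fintype.card K : ℝ) ^ (n - d.1 - d.2.1 - d.2.2) /
        ((n - d.1 - d.2.1 - d.2.2 : ℕ) : ℝ)) ≤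
        (((Fintype.card K : ℝ) ^ d.1 / k) *
        (((Fintype.card K : ℝ) ^ d.2.1 / k) * ((Fintype.card K : ℝ) ^ d.2.2 / k))) *
        (X₀ * (Fintype.card K : ℝ) ^ (n - d.1 - d.2.1 - d.2.2) / (k : ℝ)) := by
          refine mul_le_mul e4 e7 (by positivity) (by positivity)
      _ = X₀ * (Fintype.card K : ℝ) ^ (d.1 + d.2.1 + d.2.2 + (n - d.1 - d.2.1 - d.2.2)) /
          (k : ℝ) ^ 4 := by
          rw [pow_add, pow_add, pow_add]
          ring
      _ = _ := by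
          rw [show d.1 + d.2.1 + d.2.2 + (n - d.1 - d.2.1 - d.2.2) = n by omega]
  have h4 := sum_le_sum h3
  rw [sum_const, nsmul_eq_mul] at h4
  have h6 : (T.card : ℝ) ≤ ((n + 1 - 4 * k : ℕ) : ℝ) ^ 3 := by
    have : T.card ≤ (n + 1 - 4 * k) ^ 3 := by
      refine (card_filter_le _ _).trans ?_
      rw [card_product, card_product, Nat.card_Icc]
      have e : n - 3 * k + 1 - k ≤ n + 1 - 4 * k := by omega
      calc (n - 3 * k + 1 - k) * ((n - 3 * k + 1 - k) * (n - 3 * k + 1 - k)) ≤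
          (n + 1 - 4 * k) * ((n + 1 - 4 * k) * (n + 1 - 4 * k)) := by gcongr
        _ = _ := by ring
    exact_mod_cast this
  refine h2.trans (h4.trans ?_)
  gcongr

/-- the products of a polynomial of `S` and a polynomial without small prime factors -/
theorem c_one {n k d : ℕ} {X₀ : ℝ} {W : K[X] → ℝ} (hX : 0 ≤ X₀) (hW : ∀ f, 0 ≤ W f)
    (hU : Avg n W X₀) (hk : 1 ≤ k) (h5 : n < 5 * k) (hd : k ≤ d) (h3 : d < 3 * k)
    (S : Finset K[X]) (hS : ∀ D ∈ S, D.Monic ∧ Rgh k D ∧ D.natDegree + d = n) :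
    ∑ f ∈ (S ×ˢ Ro K k d).image (fun x => x.1 * x.2), W f ≤
      (S.card : ℝ) * (X₀ * (Fintype.card K : ℝ) ^ d * (1 / k + (d + 1) / (k : ℝ) ^ 2)) := by
  have hq := q_ge (k := K)
  have hk' : (1 : ℝ) ≤ k := by exact_mod_cast hk
  set V : ℕ → Finset K[X] := fun i => (S ×ˢ Irn K i).image (fun x => x.1 * x.2) with hV
  have hsub : (S ×ˢ Ro K k d).image (fun x => x.1 * x.2) ⊆
      (S ×ˢ Irn K d).image (fun x => x.1 * x.2) ∪
      (Icc k (d - k)).biUnion (fun i => (V i ×ˢ Irn K (d - i)).image (fun x => x.1 * x.2)) := by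
    intro f hf
    obtain ⟨⟨D, E⟩, hx, rfl⟩ := mem_image.1 hf
    rw [mem_product] at hx
    obtain ⟨hD, hE⟩ := hx
    have hE' := ro_sub (K := K) (by omega) h3 hE
    rw [mem_union] at hE' ⊢
    rcases hE' with hE' | hE'
    · left
      exact mem_image.2 ⟨(D, E), mem_product.2 ⟨hD, hE'⟩, rfl⟩
    · right
      rw [mem_biUnion] at hE' ⊢
      obtain ⟨i, hi, hE'⟩ := hE'
      obtain ⟨⟨P, P2⟩, hP, hPE⟩ := mem_image.1 hE'
      rw [mem_product] at hP
      have hPE' : P * P2 = E := hPE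
      have e : D * P * P2 = D * E := by
        rw [← hPE']
        ring
      refine ⟨i, hi, mem_image.2 ⟨(D * P, P2), mem_product.2 ⟨?_, hP.2⟩, e⟩⟩
      exact mem_image.2 ⟨(D, P), mem_product.2 ⟨hD, hP.1⟩, rfl⟩
  have h2 : ∑ f ∈ (S ×ˢ Ro K k d).image (fun x => x.1 * x.2), W f ≤
      ∑ x ∈ S ×ˢ Irn K d, W (x.1 * x.2) +
      ∑ i ∈ Icc k (d - k), ∑ x ∈ V i ×ˢ Irn K (d - i), W (x.1 * x.2) :=
    ((sum_sub_le hsub hW).trans (sum_un_le _ _ hW)).trans (add_le_add (sum_im_le _ _ hW)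
      ((sum_bi_le _ _ hW).trans (sum_le_sum fun i _ => sum_im_le _ _ hW)))
  have hdk : (k : ℝ) ≤ d := by exact_mod_cast hd
  have a1 : ∑ x ∈ S ×ˢ Irn K d, W (x.1 * x.2) ≤
      (S.card : ℝ) * (X₀ * (Fintype.card K : ℝ) ^ d / k) := by
    refine (prod_sum hU (N := d) h5 (by omega) S hS).trans ?_
    gcongr
  have a2 : ∀ i ∈ Icc k (d - k), ∑ x ∈ V i ×ˢ Irn K (d - i), W (x.1 * x.2) ≤
      (S.card : ℝ) * (X₀ * (Fintype.card K : ℝ) ^ d / (k : ℝ) ^ 2) := by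
    intro i hi
    rw [mem_Icc] at hi
    have hki : k ≤ d - i := by omega
    have hp := prod_sum hU (N := d - i) h5 (by omega) (V i) (by
      intro D hD
      obtain ⟨x, hx, rfl⟩ := mem_image.1 hD
      rw [mem_product, mem_Irn] at hx
      obtain ⟨c1, c2, c2', c2''⟩ := hx
      refine ⟨(hS _ c1).1.mul c2, rgh_mul (hS _ c1).2.1 (rgh_irr c2 c2'' (by omega)), ?_⟩
      have := (hS _ c1).2.2
      rw [(hS _ c1).1.natDegree_mul c2, c2']
      omega)
    have e1 := irn_real (K := K) hk hi.1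
    have e4 : ((V i).card : ℝ) ≤ (S.card : ℝ) * ((Fintype.card K : ℝ) ^ i / k) := by
      have e5 : (V i).card ≤ S.card * (Irn K i).card := by
        refine card_image_le.trans ?_
        rw [card_product]
      have e6 : ((V i).card : ℝ) ≤ (S.card : ℝ) * ((Irn K i).card : ℝ) := by exact_mod_cast e5
      refine e6.trans ?_
      gcongr
    have e7 : X₀ * (Fintype.card K : ℝ) ^ (d - i) / ((d - i : ℕ) : ℝ) ≤
        X₀ * (Fintype.card K : ℝ) ^ (d - i) / (k : ℝ) := by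
      have : (k : ℝ) ≤ ((d - i : ℕ) : ℝ) := by exact_mod_cast hki
      gcongr
    refine hp.trans ?_
    calc ((V i).card : ℝ) * (X₀ * (Fintype.card K : ℝ) ^ (d - i) / ((d - i : ℕ) : ℝ)) ≤
        ((S.card : ℝ) * ((Fintype.card K : ℝ) ^ i / k)) *
          (X₀ * (Fintype.card K : ℝ) ^ (d - i) / (k : ℝ)) :=
          mul_le_mul e4 e7 (by positivity) (by positivity)
      _ = (S.card : ℝ) * (X₀ * (Fintype.card K : ℝ) ^ (i + (d - i)) / (k : ℝ) ^ 2) := by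
          rw [pow_add]
          ring
      _ = _ := by rw [Nat.add_sub_cancel' (by omega)]
  have a3 := sum_le_sum a2
  rw [sum_const, nsmul_eq_mul] at a3
  have h6 : ((Icc k (d - k)).card : ℝ) ≤ d + 1 := by
    rw [Nat.card_Icc]
    have : d - k + 1 - k ≤ d + 1 := by omega
    exact_mod_cast this
  have a4 : ((Icc k (d - k)).card : ℝ) *
      ((S.card : ℝ) * (X₀ * (Fintype.card K : ℝ) ^ d / (k : ℝ) ^ 2)) ≤
      ((d : ℝ) + 1) * ((S.card : ℝ) * (X₀ * (Fintype.card K : ℝ) ^ d / (k : ℝ) ^ 2)) := by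
    gcongr
  calc _ ≤ _ := h2
    _ ≤ (S.card : ℝ) * (X₀ * (Fintype.card K : ℝ) ^ d / k) +
        ((d : ℝ) + 1) * ((S.card : ℝ) * (X₀ * (Fintype.card K : ℝ) ^ d / (k : ℝ) ^ 2)) :=
        add_le_add a1 (a3.trans a4)
    _ = _ := by ring

theorem num_key {n k d : ℕ} (hn : 100 ≤ n) (hk : (24 / 100 : ℝ) * n ≤ k)
    (hd2 : (d : ℝ) ≤ (55 / 100 : ℝ) * n) : 1 / (k : ℝ) + (d + 1) / (k : ℝ) ^ 2 ≤ 14 / n := by
  have hn' : (100 : ℝ) ≤ n := by exact_mod_cast hn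
  have a1 : 1 / (k : ℝ) ≤ 1 / (24 / 100 * n) := by
    apply one_div_le_one_div_of_le <;> linarith
  have a2 : ((d : ℝ) + 1) / (k : ℝ) ^ 2 ≤ (56 / 100 * n) / (24 / 100 * n) ^ 2 := by
    gcongr
    linarith
  refine (add_le_add a1 a2).trans ?_
  have hn0 : (0 : ℝ) < n := by linarith
  have : 1 / (24 / 100 * (n : ℝ)) + (56 / 100 * n) / (24 / 100 * n) ^ 2 =
      (100 / 24 + 56 / 100 * (100 / 24) ^ 2) / n := by
    field_simp
  rw [this]
  gcongr
  norm_num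

/-- a divisor in the middle -/
theorem c_sum {n k : ℕ} {X₀ : ℝ} {W : K[X] → ℝ} (hX : 0 ≤ X₀) (hW : ∀ f, 0 ≤ W f)
    (hU : Avg n W X₀) {δ : ℝ} (hδ : 0 < δ) (hδ1 : δ ≤ 1 / 10) (hn : 100 ≤ n)
    (hk : (24 / 100 : ℝ) * n ≤ k) (hk2 : (k : ℝ) ≤ (45 / 100 : ℝ) * n) :
    ∑ f ∈ (Mn K n).filter (fun f => Rgh k f ∧ (∃ D : K[X], D.Monic ∧ D ∣ f ∧
      |2 * (D.natDegree : ℝ) - n| ≤ δ * n)), W f ≤
      (δ * n + 1) * (200 * X₀ * (Fintype.card K : ℝ) ^ n / (n : ℝ) ^ 2) := by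
  have hq := q_ge (k := K)
  have hn' : (100 : ℝ) ≤ n := by exact_mod_cast hn
  have hn0 : (0 : ℝ) < n := by linarith
  have hk1 : 1 ≤ k := by
    have : (1 : ℝ) ≤ k := by linarith
    exact_mod_cast this
  have h5 : n < 5 * k := by
    have : (n : ℝ) < 5 * k := by linarith
    exact_mod_cast this
  set Ds := (range (n + 1)).filter (fun d : ℕ => |2 * (d : ℝ) - n| ≤ δ * n) with hDs
  have hmem : ∀ d ∈ Ds, d ≤ n ∧ (45 / 100 : ℝ) * n ≤ d ∧ (d : ℝ) ≤ (55 / 100 : ℝ) * n := by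
    intro d hd
    rw [hDs, mem_filter, mem_range, abs_le] at hd
    obtain ⟨h1, h2, h3⟩ := hd
    have : δ * n ≤ 1 / 10 * n := by gcongr
    refine ⟨by omega, by linarith, by linarith⟩
  have hsub : (Mn K n).filter (fun f => Rgh k f ∧ (∃ D : K[X], D.Monic ∧ D ∣ f ∧
      |2 * (D.natDegree : ℝ) - n| ≤ δ * n)) ⊆
      Ds.biUnion (fun d => (Ro K k d ×ˢ Ro K k (n - d)).image (fun x => x.1 * x.2)) := by
    intro f hf
    rw [mem_filter, mem_Mn] at hf
    obtain ⟨⟨hm, hdeg⟩, hr, D, hD, ⟨E, hE⟩, habs⟩ := hf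
    have hEm : E.Monic := by
      rw [hE] at hm
      exact hD.of_mul_monic_left hm
    have hdE : D.natDegree + E.natDegree = n := by
      rw [← hdeg, hE, hD.natDegree_mul hEm]
    rw [mem_biUnion]
    refine ⟨D.natDegree, ?_, ?_⟩
    · rw [hDs, mem_filter, mem_range]
      exact ⟨by omega, habs⟩
    · rw [mem_image]
      refine ⟨(D, E), ?_, hE.symm⟩
      rw [mem_product]
      unfold Ro
      rw [mem_filter, mem_filter, mem_Mn, mem_Mn]
      exact ⟨⟨⟨hD, rfl⟩, rgh_dvd hr ⟨E, hE⟩⟩, ⟨hEm, by show E.natDegree = n - D.natDegree; omega⟩,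
        rgh_dvd hr ⟨D, by rw [hE, mul_comm]⟩⟩
  have h2 : ∑ f ∈ (Mn K n).filter (fun f => Rgh k f ∧ (∃ D : K[X], D.Monic ∧ D ∣ f ∧
      |2 * (D.natDegree : ℝ) - n| ≤ δ * n)), W f ≤
      ∑ d ∈ Ds, ∑ f ∈ (Ro K k d ×ˢ Ro K k (n - d)).image (fun x => x.1 * x.2), W f :=
    (sum_sub_le hsub hW).trans (sum_bi_le _ _ hW)
  have h3 : ∀ d ∈ Ds, ∑ f ∈ (Ro K k d ×ˢ Ro K k (n - d)).image (fun x => x.1 * x.2), W f ≤
      200 * X₀ * (Fintype.card K : ℝ) ^ n / (n : ℝ) ^ 2 := by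
    intro d hd
    obtain ⟨b1, b2, b3⟩ := hmem d hd
    have hnd : ((n - d : ℕ) : ℝ) = n - d := Nat.cast_sub b1
    have hkd : k ≤ d := by
      have : (k : ℝ) ≤ d := by linarith
      exact_mod_cast this
    have hd3 : d < 3 * k := by
      have : (d : ℝ) < 3 * k := by linarith
      exact_mod_cast this
    have hkd' : k ≤ n - d := by
      have : (k : ℝ) ≤ ((n - d : ℕ) : ℝ) := by rw [hnd]; linarith
      exact_mod_cast this
    have hd3' : n - d < 3 * k := by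
      have : ((n - d : ℕ) : ℝ) < 3 * k := by rw [hnd]; linarith
      exact_mod_cast this
    have c0 := c_one hX hW hU hk1 h5 hkd' hd3' (Ro K k d) (by
      intro D hD
      unfold Ro at hD
      rw [mem_filter, mem_Mn] at hD
      exact ⟨hD.1.1, hD.2, by rw [hD.1.2]; omega⟩)
    have c1 := (ro_card (K := K) hk1 hkd hd3).trans (mul_le_mul_of_nonneg_left
      (num_key hn hk b3) (by positivity))
    have c2 := num_key (n := n) (k := k) (d := n - d) hn hk (by rw [hnd]; linarith)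
    refine c0.trans ?_
    calc ((Ro K k d).card : ℝ) * (X₀ * (Fintype.card K : ℝ) ^ (n - d) *
        (1 / k + (((n - d : ℕ) : ℝ) + 1) / (k : ℝ) ^ 2)) ≤
        ((Fintype.card K : ℝ) ^ d * (14 / n)) * (X₀ * (Fintype.card K : ℝ) ^ (n - d) * (14 / n)) := by
          refine mul_le_mul c1 (mul_le_mul_of_nonneg_left c2 (by positivity)) (by positivity)
            (by positivity)
      _ = X₀ * (Fintype.card K : ℝ) ^ (d + (n - d)) * (196 / (n : ℝ) ^ 2) := by rw [pow_add]; ring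
      _ = X₀ * (Fintype.card K : ℝ) ^ n * (196 / (n : ℝ) ^ 2) := by rw [Nat.add_sub_cancel' b1]
      _ = 196 * X₀ * (Fintype.card K : ℝ) ^ n / (n : ℝ) ^ 2 := by ring
      _ ≤ _ := by gcongr; norm_num
  have h4 := sum_le_sum h3
  rw [sum_const, nsmul_eq_mul] at h4
  have h5 : (Ds.card : ℝ) ≤ δ * n + 1 := by
    have hs : Ds ⊆ Icc ⌈(1 - δ) * n / 2⌉₊ ⌊(1 + δ) * n / 2⌋₊ := by
      intro d hd
      rw [hDs, mem_filter, mem_range, abs_le] at hd
      rw [mem_Icc, Nat.ceil_le, Nat.le_floor_iff (by positivity)]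
      constructor <;> linarith [hd.2.1, hd.2.2]
    have := (Nat.cast_le (α := ℝ)).2 (card_le_card hs)
    refine this.trans ((icc_card _ _ ?_ ?_).trans ?_)
    · have : 0 ≤ δ * n := by positivity
      linarith
    · positivity
    · linarith
  refine h2.trans (h4.trans ?_)
  gcongr

theorem wt_dec {c j : ℕ} (h : c ≤ j) : wt K j ≤ wt K c * 2 ^ c * (1 / 2 : ℝ) ^ j := by
  obtain ⟨i, rfl⟩ := Nat.exists_eq_add_of_le h
  rw [wt_add]
  have h1 := wt_le_half (k := K) i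
  have h2 := wt_nonneg (k := K) c
  calc wt K c * wt K i ≤ wt K c * (1 / 2 : ℝ) ^ i := mul_le_mul_of_nonneg_left h1 h2
    _ = wt K c * 2 ^ c * (1 / 2 : ℝ) ^ (c + i) := by
      rw [pow_add, one_div, inv_pow, inv_pow]
      have : (2 : ℝ) ^ c ≠ 0 := by positivity
      field_simp

/-- the multiples of large squares -/
theorem sqb (d c : ℕ) : (((Mn K d).filter (fun b => ∃ g : K[X], g.Monic ∧ c < g.natDegree ∧
    g ^ 2 ∣ b)).card : ℝ) ≤ (Fintype.card K : ℝ) ^ d * wt K c := by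
  have hq := q_ge (k := K)
  have hsub : (Mn K d).filter (fun b => ∃ g : K[X], g.Monic ∧ c < g.natDegree ∧ g ^ 2 ∣ b) ⊆
      (Finset.Icc (c + 1) d).biUnion (fun j => (Mn K j).biUnion
        (fun g => (Mn K d).filter (fun b => g ^ 2 ∣ b))) := by
    intro b hb
    rw [mem_filter] at hb
    obtain ⟨hb, g, hg, hc, hd⟩ := hb
    rw [mem_biUnion]
    refine ⟨g.natDegree, ?_, ?_⟩
    · rw [mem_Icc]
      refine ⟨by omega, ?_⟩
      rw [mem_Mn] at hb
      have := natDegree_le_of_dvd hd hb.1.ne_zero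
      rw [natDegree_pow] at this
      omega
    · rw [mem_biUnion]
      exact ⟨g, mem_Mn.2 ⟨hg, rfl⟩, mem_filter.2 ⟨hb, hd⟩⟩
  have h1 : (((Mn K d).filter (fun b => ∃ g : K[X], g.Monic ∧ c < g.natDegree ∧
      g ^ 2 ∣ b)).card : ℝ) ≤ ∑ j ∈ Finset.Icc (c + 1) d, ∑ g ∈ Mn K j,
        (((Mn K d).filter (fun b => g ^ 2 ∣ b)).card : ℝ) := by
    have := (card_le_card hsub).trans (card_biUnion_le.trans (sum_le_sum fun j _ => card_biUnion_le))
    exact_mod_cast this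
  refine h1.trans ?_
  have h2 : ∀ j ∈ Finset.Icc (c + 1) d, ∑ g ∈ Mn K j,
        (((Mn K d).filter (fun b => g ^ 2 ∣ b)).card : ℝ) ≤
          (Fintype.card K : ℝ) ^ d * (wt K c * 2 ^ c) * (1 / 2 : ℝ) ^ j := by
    intro j hj
    rw [mem_Icc] at hj
    have h3 : ∀ g ∈ Mn K j, (((Mn K d).filter (fun b => g ^ 2 ∣ b)).card : ℝ) ≤
        (Fintype.card K : ℝ) ^ d * (wt K j * wt K j) := by
      intro g hg
      rw [mem_Mn] at hg
      refine (card_dvd_le (hg.1.pow 2)).trans ?_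
      rw [natDegree_pow, hg.2, two_mul, wt_add]
    refine (sum_le_sum h3).trans ?_
    rw [sum_const, card_Mn, nsmul_eq_mul]
    have h4 : (Fintype.card K : ℝ) ^ j * wt K j = 1 := by
      unfold wt
      exact mul_inv_cancel₀ (by positivity)
    calc (((Fintype.card K ^ j : ℕ)) : ℝ) * ((Fintype.card K : ℝ) ^ d * (wt K j * wt K j)) =
        (Fintype.card K : ℝ) ^ d * wt K j * ((Fintype.card K : ℝ) ^ j * wt K j) := by
          push_cast; ring
      _ = (Fintype.card K : ℝ) ^ d * wt K j := by rw [h4, mul_one]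
      _ ≤ (Fintype.card K : ℝ) ^ d * (wt K c * 2 ^ c * (1 / 2 : ℝ) ^ j) :=
        mul_le_mul_of_nonneg_left (wt_dec (by omega)) (by positivity)
      _ = _ := by ring
  refine (sum_le_sum h2).trans ?_
  rw [← mul_sum]
  have h5 := geo_half_le c d
  have h6 := wt_nonneg (k := K) c
  calc (Fintype.card K : ℝ) ^ d * (wt K c * 2 ^ c) * ∑ j ∈ Finset.Icc (c + 1) d, (1 / 2 : ℝ) ^ j ≤
      (Fintype.card K : ℝ) ^ d * (wt K c * 2 ^ c) * (1 / 2 : ℝ) ^ c :=
        mul_le_mul_of_nonneg_left h5 (by positivity)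
    _ = (Fintype.card K : ℝ) ^ d * wt K c := by
      rw [one_div, inv_pow]
      have : (2 : ℝ) ^ c ≠ 0 := by positivity
      field_simp

/-- the `f` which are not squarefree -/
theorem a_sum {n k : ℕ} {W : K[X] → ℝ} (hW2 : ∀ f, W f ≤ (Fintype.card K : ℝ) ^ ((n : ℝ) / 8))
    (hn : 100 ≤ n) (hk1 : 1 ≤ k) (hk : (24 / 100 : ℝ) * n ≤ k) :
    ∑ f ∈ (Mn K n).filter (fun f => Rgh k f ∧ ¬ Squarefree f), W f ≤
      (Fintype.card K : ℝ) ^ ((19 / 20 : ℝ) * n) := by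
  have hq := q_ge (k := K)
  have hn' : (100 : ℝ) ≤ n := by exact_mod_cast hn
  have hq0 : (0 : ℝ) < (Fintype.card K : ℝ) := by linarith
  have h1 : ∑ f ∈ (Mn K n).filter (fun f => Rgh k f ∧ ¬ Squarefree f), W f ≤
      (((Mn K n).filter (fun f => Rgh k f ∧ ¬ Squarefree f)).card : ℝ) *
        (Fintype.card K : ℝ) ^ ((n : ℝ) / 8) := by
    refine (sum_le_sum fun f _ => hW2 f).trans (le_of_eq ?_)
    rw [sum_const, nsmul_eq_mul]
  have h2 : (((Mn K n).filter (fun f => Rgh k f ∧ ¬ Squarefree f)).card : ℝ) ≤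
      (Fintype.card K : ℝ) ^ n * wt K (k - 1) :=
    ((Nat.cast_le (α := ℝ)).2 (card_le_card (s1_sub n k hk1))).trans (sqb n (k - 1))
  have h3 : (Fintype.card K : ℝ) ^ n * wt K (k - 1) =
      (Fintype.card K : ℝ) ^ ((n : ℝ) - ((k - 1 : ℕ) : ℝ)) := by
    unfold wt
    rw [Real.rpow_sub hq0, Real.rpow_natCast, Real.rpow_natCast, div_eq_mul_inv]
  have h4 : (0 : ℝ) ≤ (Fintype.card K : ℝ) ^ ((n : ℝ) / 8) := by positivity
  refine h1.trans ((mul_le_mul_of_nonneg_right h2 h4).trans ?_)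
  rw [h3, ← Real.rpow_add hq0]
  apply Real.rpow_le_rpow_of_exponent_le (by linarith)
  rw [Nat.cast_sub hk1]
  push_cast
  linarith

end Fewc

open Polynomial Finset
open scoped Classical
open Pool.Agent.H985.KP (PA)
open Pool.Agent.H985.CH (Exc)
open Pool.Agent.H694.Typ (Mn Irn mem_Mn mem_Irn q_ge)
open Pool.Agent.H251.SP (Rgh)
open Pool.Agent.H251.SP.FewN

theorem fewc : S_fewc := by
  intro K _ _
  refine ⟨40000, by norm_num, ?_⟩
  intro ε δ hε hε1 hδ hδ1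
  have hq := q_ge (k := K)
  refine ⟨max 100 (max (⌈1 / ε⌉₊) (⌈1 / δ⌉₊)), ?_⟩
  intro n hn l W X₀ hl hX hW hW2 hU
  have hn1 : 100 ≤ n := (le_max_left _ _).trans hn
  have hn3 : 1 / ε ≤ n := Nat.ceil_le.1 ((le_max_left _ _).trans ((le_max_right _ _).trans hn))
  have hn4 : 1 / δ ≤ n := Nat.ceil_le.1 ((le_max_right _ _).trans ((le_max_right _ _).trans hn))
  have hn' : (100 : ℝ) ≤ n := by exact_mod_cast hn1
  have hn0 : (0 : ℝ) < n := by linarith
  set k₀ := ⌈(1 / 4 - ε) * n⌉₊ with hk₀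
  have e1 : (1 / 4 - ε) * n ≤ k₀ := Nat.le_ceil _
  have e2 : (k₀ : ℝ) < (1 / 4 - ε) * n + 1 := by
    apply Nat.ceil_lt_add_one
    have : (0 : ℝ) ≤ 1 / 4 - ε := by linarith
    positivity
  have e3 : ε * n ≤ 1 / 100 * n := by gcongr
  have e4 : 0 < ε * n := by positivity
  have e5 : (24 / 100 : ℝ) * n ≤ k₀ := by linarith
  have e6 : (k₀ : ℝ) ≤ 45 / 100 * n := by linarith
  have e7 : k₀ ≤ l := by
    rw [hk₀, Nat.ceil_le]
    exact hl
  have hk1 : 1 ≤ k₀ := by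
    have : (1 : ℝ) ≤ k₀ := by linarith
    exact_mod_cast this
  have h5 : n < 5 * k₀ := by
    have : (n : ℝ) < 5 * k₀ := by linarith
    exact_mod_cast this
  have hsub : (Mn K n).filter (fun f => Rgh l f ∧ Exc n δ f) ⊆
      ((Mn K n).filter (fun f => Rgh k₀ f ∧ ¬ Squarefree f)) ∪
      (((Mn K n).filter (fun f => Rgh k₀ f ∧ (PA f).ncard = 4)) ∪
      ((Mn K n).filter (fun f => Rgh k₀ f ∧ (∃ D : K[X], D.Monic ∧ D ∣ f ∧
        |2 * (D.natDegree : ℝ) - n| ≤ δ * n)))) := by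
    intro f hf
    rw [mem_filter] at hf
    rw [mem_union, mem_union, mem_filter, mem_filter, mem_filter]
    obtain ⟨h1, h2, h3⟩ := hf
    have h4 := rgh_mono h2 e7
    rcases h3 with h3 | h3 | h3
    · exact Or.inl ⟨h1, h4, h3⟩
    · exact Or.inr (Or.inl ⟨h1, h4, h3⟩)
    · exact Or.inr (Or.inr ⟨h1, h4, h3⟩)
  have hc := (Fewc.sum_sub_le hsub hW).trans
    ((Fewc.sum_un_le _ _ hW).trans (add_le_add_right (Fewc.sum_un_le _ _ hW) _))
  have b1 := Fewc.a_sum (K := K) (n := n) (k := k₀) (W := W) hW2 hn1 hk1 e5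
  have b2 : ∑ f ∈ (Mn K n).filter (fun f => Rgh k₀ f ∧ (PA f).ncard = 4), W f ≤
      X₀ * (Fintype.card K : ℝ) ^ n * (39000 * ε ^ 3 / n) := by
    refine (Fewc.b_sum hX hW hU hk1 h5).trans ?_
    have c1 : ((n + 1 - 4 * k₀ : ℕ) : ℝ) ≤ 5 * (ε * n) := by
      have hen : 1 ≤ ε * n := by
        rw [div_le_iff₀ hε] at hn3
        linarith
      rcases le_total (n + 1) (4 * k₀) with h | h
      · rw [Nat.sub_eq_zero_of_le h]
        push_cast
        linarith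
      · rw [Nat.cast_sub h]
        push_cast
        linarith
    have hk0 : (0 : ℝ) < k₀ := by linarith
    calc ((n + 1 - 4 * k₀ : ℕ) : ℝ) ^ 3 * (X₀ * (Fintype.card K : ℝ) ^ n / (k₀ : ℝ) ^ 4) ≤
        (5 * (ε * n)) ^ 3 * (X₀ * (Fintype.card K : ℝ) ^ n / (24 / 100 * n : ℝ) ^ 4) := by
          gcongr
      _ = X₀ * (Fintype.card K : ℝ) ^ n * ((125 * (100 / 24) ^ 4) * ε ^ 3 / n) := by
        field_simp
        norm_num
        ring
      _ ≤ _ := by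
        gcongr
        norm_num
  have b3 := Fewc.c_sum hX hW hU hδ hδ1 hn1 e5 e6
  have b4 : (δ * n + 1) * (200 * X₀ * (Fintype.card K : ℝ) ^ n / (n : ℝ) ^ 2) ≤
      X₀ * (Fintype.card K : ℝ) ^ n * (400 * δ / n) := by
    have hen : 1 ≤ δ * n := by
      rw [div_le_iff₀ hδ] at hn4
      linarith
    calc (δ * n + 1) * (200 * X₀ * (Fintype.card K : ℝ) ^ n / (n : ℝ) ^ 2) ≤
        (δ * n + δ * n) * (200 * X₀ * (Fintype.card K : ℝ) ^ n / (n : ℝ) ^ 2) := by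
          gcongr
      _ = _ := by
        field_simp
        ring
  refine hc.trans ((add_le_add b1 (add_le_add b2 (b3.trans b4))).trans ?_)
  rw [add_comm]
  refine add_le_add ?_ le_rfl
  have : X₀ * (Fintype.card K : ℝ) ^ n * (39000 * ε ^ 3 / n) +
      X₀ * (Fintype.card K : ℝ) ^ n * (400 * δ / n) =
      (39000 * ε ^ 3 + 400 * δ) * (X₀ * (Fintype.card K : ℝ) ^ n / n) := by ring
  rw [this]
  have hx : 0 ≤ ε ^ 3 := by positivity
  refine mul_le_mul_of_nonneg_right ?_ (by positivity)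
  linarith

end Pool.Agent.H251.MY
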