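import Pool.Agent.H985.CG.Base
import Pool.Agent.H985.Gc.Base
import Pool.Agent.H251.SP.Bf
import Pool.Agent.H251.SP.LS
import Pool.Agent.H251.SP.WM1
import Pool.Agent.H251.SP.Wm2
import Pool.Agent.H251.SP.WM
import Pool.Agent.H251.SP.TII
import Pool.Agent.H251.SP.MOB
import Pool.Agent.H251.SP.Tail
import Pool.Agent.H251.SP.Ti
import Pool.Agent.H251.SP.TW
import Pool.Agent.H251.SP.BUCH
import Pool.Agent.H251.SP.Comb
import Pool.Agent.H251.SP.FEW
import Pool.Agent.H251.SP.Asm
import Pool.Agent.H251.MY.Fewc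
import Pool.Agent.H251.MY.Dehc
import Pool.Agent.H251.MY.Deh

/-!
# The diagonal Moebius-twisted Elliott-Halberstam sum over `F_q[X]`, `q` even: assembly (helper251)

`S_sp` is proved again from its parts: `SP/Final.lean` imports `H985/FC/Lock.lean`, which cannot be
imported together with `H264/FC/LockLocf.lean` (imported by `CG/Base.lean`).
-/

namespace Pool.Agent.H251.MY

open Pool.Agent.H251.SP
open Pool.Agent.H985.CG

theorem s_sp0 : S_sp :=
  asm (ti mob_prog tail) (tw Pool.Agent.H985.Gc.s_ps tail)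
    (tii Pool.Agent.H985.Gc.s_fb bf (wm (wm1 ls1) (wm2 ls2))) buch comb few

theorem s_dehc : S_dehc := dehc comb (s_mainag0 s_tiig) (s_mainbg0 s_tiig) fewc

theorem s_deh : S_deh := deh s_dehc s_sp0

end Pool.Agent.H251.MY
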