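import Mathlib
import Pool.Agent.H251.MY.StmE
import Pool.Agent.H985.CH.Maina

/-!
# Task MAINAC (helper795 for helper251): the weighted sum twisted by the Moebius function,
with class-dependent weights

Adaptation of `Pool/Agent/H985/CH/Maina.lean` (helper227 for helper985).
-/

set_option autoImplicit false
set_option linter.all false

namespace Pool.Agent.H251.MY

open Polynomial Finset
open scoped Classical
open Pool.Agent.H985.Chow (mob)
open Pool.Agent.H694.Typ (Mn Irn mem_Mn mem_Irn q_ge)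
open Pool.Agent.H251.SP (Rgh bw)
open Pool.Agent.H251.SP.Asm (mob_abs mob_mul bw_abs log_small pow_small log_pow)
open Pool.Agent.H985.CH (Hh SqM Shf Bdd Wt S_buchw S_sqw)
open Pool.Agent.H985.CH.Maina (mul_abs_le abs_mul_le)

namespace Mainac

/-- The weights are bounded by the number of the divisors. -/
theorem Wc_le {K : Type} [Field K] [Fintype K] {k : ℕ} (h : Fin k → K[X])
    (lam : K[X] → K[X] → ℝ) (hl : Bd2 lam) (y : ℕ) (f : K[X]) :
    |Wc h lam y f| ≤ |Wt h (fun _ => 1) y f| := by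
  have h0 : (0 : ℝ) ≤ Wt h (fun _ => 1) y f := by
    rw [Wt]
    exact sum_nonneg fun _ _ => zero_le_one
  rw [abs_of_nonneg h0, Wc, Wt]
  exact (abs_sum_le_sum_abs _ _).trans (sum_le_sum fun E _ => hl.1 E f)

/-- **The combinatorial part.** -/
theorem part {K : Type} [Field K] [Fintype K] {k n z l y : ℕ} (h : Fin k → K[X]) (i₀ : Fin k)
    (lam : K[X] → K[X] → ℝ) (X Y E : ℝ) (hX : 0 ≤ X) (hz1 : 1 ≤ z) (hzl : z ≤ l) (hln : l ≤ n)
    (hb : S_buchw)
    (hT : |∑ f ∈ (Mn K n).filter (Rgh z),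
      Wc h lam y f * ((mob f : ℝ) * (mob (f + h i₀) : ℝ))| ≤ Y)
    (hE : ∑ j ∈ Icc (max z 1) n, ∑ p ∈ Irn K j, ∑ B ∈ (Mn K (n - j)).filter (fun B => p ∣ B),
      |Wc h lam y (p * B)| ≤ E)
    (H : ∀ j ∈ Ico z l, ∀ β : K[X] → ℝ, Bdd β →
      |∑ p ∈ Irn K j, ∑ B ∈ Mn K (n - j),
        β B * (Wc h lam y (p * B) * (mob (p * B + h i₀) : ℝ))| ≤ X) :
    |∑ f ∈ (Mn K n).filter (Rgh l), Wc h lam y f * (mob (f + h i₀) : ℝ) * (mob f : ℝ)| ≤
      Y + 2 * E + n * X := by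
  obtain ⟨Q, hQ⟩ : ∃ Q : ℕ → ℝ, ∀ j, Q j = ∑ p ∈ Irn K j,
      ∑ B ∈ (Mn K (n - j)).filter (fun B => p ∣ B), |Wc h lam y (p * B)| := ⟨_, fun _ => rfl⟩
  have hQ0 : ∀ j, 0 ≤ Q j := by
    intro j
    rw [hQ]
    exact sum_nonneg fun p _ => sum_nonneg fun B _ => abs_nonneg _
  have hQE : ∑ j ∈ Ico z l, Q j ≤ E := by
    refine le_trans ?_ hE
    rw [sum_congr rfl (fun j _ => hQ j)]
    refine sum_le_sum_of_subset_of_nonneg ?_ ?_
    · intro j hj
      rw [mem_Ico] at hj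
      rw [mem_Icc]
      exact ⟨max_le hj.1 (hz1.trans hj.1), by omega⟩
    · intro j _ _
      exact sum_nonneg fun p _ => sum_nonneg fun B _ => abs_nonneg _
  have h1 := hb K n z l (fun f => Wc h lam y f * (mob (f + h i₀) : ℝ) * (mob f : ℝ)) hz1 hzl hln
  have h2 : ∑ f ∈ (Mn K n).filter (Rgh z), Wc h lam y f * (mob (f + h i₀) : ℝ) * (mob f : ℝ) =
      ∑ f ∈ (Mn K n).filter (Rgh z), Wc h lam y f * ((mob f : ℝ) * (mob (f + h i₀) : ℝ)) :=
    sum_congr rfl fun f _ => by ring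
  have herr : ∑ j ∈ Ico z l, ∑ p ∈ Irn K j, ∑ B ∈ (Mn K (n - j)).filter (fun B => p ∣ B),
      |Wc h lam y (p * B) * (mob (p * B + h i₀) : ℝ) * (mob (p * B) : ℝ)| ≤ E := by
    refine le_trans ?_ hQE
    rw [sum_congr rfl (fun j _ => hQ j)]
    refine sum_le_sum fun j _ => sum_le_sum fun p _ => sum_le_sum fun B _ => ?_
    have e1 : Wc h lam y (p * B) * (mob (p * B + h i₀) : ℝ) * (mob (p * B) : ℝ) =
        ((mob (p * B + h i₀) : ℝ) * (mob (p * B) : ℝ)) * Wc h lam y (p * B) := by ring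
    rw [e1]
    exact abs_mul_le (mul_abs_le (mob_abs _) (mob_abs _))
  have h3 : ∀ j ∈ Ico z l, |∑ p ∈ Irn K j, ∑ B ∈ Mn K (n - j), bw j B *
      (Wc h lam y (p * B) * (mob (p * B + h i₀) : ℝ) * (mob (p * B) : ℝ))| ≤ X + Q j := by
    intro j hj
    have e1 : ∀ p ∈ Irn K j, ∀ B ∈ Mn K (n - j), bw j B *
        (Wc h lam y (p * B) * (mob (p * B + h i₀) : ℝ) * (mob (p * B) : ℝ)) =
        (-(bw j B * (mob B : ℝ))) * (Wc h lam y (p * B) * (mob (p * B + h i₀) : ℝ)) +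
          (if p ∣ B then (bw j B * (mob B : ℝ) * (mob (p * B + h i₀) : ℝ)) *
            Wc h lam y (p * B) else 0) := by
      intro p hp B hB
      rw [mob_mul p B (mem_Irn.1 hp).2.2 (mem_Mn.1 hB).1.ne_zero]
      split_ifs <;> ring
    rw [sum_congr rfl (fun p hp => sum_congr rfl (e1 p hp))]
    rw [sum_congr rfl (fun p hp => sum_add_distrib), sum_add_distrib]
    refine (abs_add_le _ _).trans (add_le_add ?_ ?_)
    · refine H j hj (fun B => -(bw j B * (mob B : ℝ))) (fun B => ?_)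
      rw [abs_neg]
      exact mul_abs_le (bw_abs j B) (mob_abs B)
    · rw [hQ]
      refine (abs_sum_le_sum_abs _ _).trans (sum_le_sum fun p _ => ?_)
      rw [← sum_filter]
      refine (abs_sum_le_sum_abs _ _).trans (sum_le_sum fun B _ => ?_)
      exact abs_mul_le (mul_abs_le (mul_abs_le (bw_abs j B) (mob_abs B)) (mob_abs _))
  have h4 : |∑ j ∈ Ico z l, ∑ p ∈ Irn K j, ∑ B ∈ Mn K (n - j), bw j B *
      (Wc h lam y (p * B) * (mob (p * B + h i₀) : ℝ) * (mob (p * B) : ℝ))| ≤ n * X + E := by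
    refine (abs_sum_le_sum_abs _ _).trans ((sum_le_sum h3).trans ?_)
    rw [sum_add_distrib]
    refine add_le_add ?_ hQE
    rw [sum_const, Nat.card_Ico, nsmul_eq_mul]
    refine mul_le_mul_of_nonneg_right ?_ hX
    exact_mod_cast (Nat.sub_le _ _).trans hln
  rw [h2] at h1
  have h5 := h1.trans herr
  rw [abs_le] at h5 hT h4 ⊢
  constructor <;> linarith [h5.1, h5.2, hT.1, hT.2, h4.1, h4.2]

end Mainac

/-- **Task MAINAC.** -/
theorem mainac : S_tmainac := by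
  intro h2 h3 hb hs K _ _ _ ε hε hε2
  obtain ⟨c, θ₁, hc, hθ₁, H2'⟩ := h2 K ε hε
  obtain ⟨θ₂, hθ₂, H3'⟩ := h3 K
  refine ⟨min (min θ₁ θ₂) (1 / 2), lt_min (lt_min hθ₁ hθ₂) (by norm_num), fun k A₁ => ?_⟩
  obtain ⟨C, n₁, H2⟩ := H2' k
  obtain ⟨C', Hs⟩ := hs k K
  set E : ℕ := C + C' + A₁ + 6 with hE
  obtain ⟨n₂, H3⟩ := H3' k (64 * E + 10)
  obtain ⟨n₃, H4⟩ := log_small (64 * E + 1)
  have hq := q_ge (k := K)
  obtain ⟨n₄, H5⟩ := pow_small (C + 1 + (A₁ + 1)) (Fintype.card K : ℝ) c hq hc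
  obtain ⟨n₅, hn₅⟩ := exists_nat_ge (2 + 2 ^ E + 2 * 3 ^ C' * 2 ^ E : ℝ)
  refine ⟨max (max n₁ n₂) (max (max n₃ n₄) (max n₅ 4)), ?_⟩
  intro n hn l y h i₀ lam hl1 hl2 hy hsh hbd
  simp only [max_le_iff] at hn
  obtain ⟨⟨hn1, hn2⟩, ⟨hn3, hn4⟩, hn5, hn6⟩ := hn
  have hnr : (4 : ℝ) ≤ n := by exact_mod_cast hn6
  have hn0 : (0 : ℝ) ≤ n := by linarith
  have hy1 : (y : ℝ) ≤ θ₁ * n := hy.trans (mul_le_mul_of_nonneg_right
    ((min_le_left _ _).trans (min_le_left _ _)) hn0)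
  have hy2 : (y : ℝ) ≤ θ₂ * n := hy.trans (mul_le_mul_of_nonneg_right
    ((min_le_left _ _).trans (min_le_right _ _)) hn0)
  have hy3 : (y : ℝ) ≤ 1 / 2 * n := hy.trans (mul_le_mul_of_nonneg_right (min_le_right _ _) hn0)
  have hy4 : 2 * y ≤ n := by
    have : (2 : ℝ) * y ≤ n := by linarith
    exact_mod_cast this
  have hlog : 1 ≤ Nat.log 2 n := Nat.log_pos (by norm_num) (by omega)
  obtain ⟨z, hz⟩ : ∃ z : ℕ, z = 64 * E * Nat.log 2 n + 1 := ⟨_, rfl⟩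
  have hz1 : 1 ≤ z := by omega
  have hzA : z ≤ (64 * E + 10) * Nat.log 2 n := by
    rw [hz, add_mul]
    omega
  have hz5 : 5 * z ≤ n := by
    have e1 := H4 n hn3
    have e2 : z ≤ (64 * E + 1) * Nat.log 2 n := by
      rw [hz, add_mul]
      omega
    omega
  have hzl : z ≤ l := by
    have e1 : (5 : ℝ) * z ≤ n := by exact_mod_cast hz5
    have e2 : (0.24 : ℝ) * n ≤ (1 / 4 - ε) * n := mul_le_mul_of_nonneg_right (by linarith) hn0
    have e3 : (z : ℝ) ≤ l := by linarith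
    exact_mod_cast e3
  have hln : l ≤ n := by
    have e2 : (1 / 4 - ε) * n ≤ (1 / 4 : ℝ) * n := mul_le_mul_of_nonneg_right (by linarith) hn0
    have e3 : (l : ℝ) ≤ n := by linarith
    exact_mod_cast e3
  have hQ : (0 : ℝ) < (Fintype.card K : ℝ) ^ n := by positivity
  have hT := H3 n hn2 z y h i₀ lam hzA hy2 hsh hbd
  have hEs0 := Hs n y z 1 h (fun _ => 1) monic_one (fun i => isCoprime_one_left) hy4
    (fun _ => by simp)
  simp only [one_mul] at hEs0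
  have hEs := (sum_le_sum fun j (_ : j ∈ Icc (max z 1) n) => sum_le_sum fun p (_ : p ∈ Irn K j) =>
    sum_le_sum fun B (_ : B ∈ (Mn K (n - j)).filter (fun B => p ∣ B)) =>
      Mainac.Wc_le h lam hbd y (p * B)).trans hEs0
  have hX : (0 : ℝ) ≤ (n : ℝ) ^ C * (Fintype.card K : ℝ) ^ n *
      ((Fintype.card K : ℝ) ^ (-(z : ℝ) / 64) + (Fintype.card K : ℝ) ^ (-c * n)) := by positivity
  refine (Mainac.part h i₀ lam _ _ _ hX hz1 hzl hln hb hT hEs ?_).trans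
    (Pool.Agent.H985.CH.Maina.numer C C' A₁ (64 * E + 10) E n z _ c _ hq hQ hE (by omega) (by omega)
      (hn₅.trans (by exact_mod_cast hn5)) (by omega) (H5 n hn4))
  intro j hj β hβ
  rw [mem_Ico] at hj
  have hj1 : (j : ℝ) ≤ (1 / 4 - ε) * n := by
    have e1 : (j : ℝ) + 1 ≤ l := by exact_mod_cast hj.2
    linarith
  have e1 := H2 n hn1 j y h i₀ lam (fun _ => 1) β (by omega) hj1 hy1 hsh hbd
    (fun _ => by simp) hβ
  simp only [one_mul] at e1
  refine e1.trans ?_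
  refine mul_le_mul_of_nonneg_left ?_ (by positivity)
  have e2 : (z : ℝ) ≤ j := by exact_mod_cast hj.1
  have e3 : (Fintype.card K : ℝ) ^ (-(j : ℝ) / 64) ≤ (Fintype.card K : ℝ) ^ (-(z : ℝ) / 64) :=
    Real.rpow_le_rpow_of_exponent_le (by linarith) (by linarith)
  linarith

end Pool.Agent.H251.MY
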