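import Mathlib
import Pool.Agent.H985.CH.Mainb
import Pool.Agent.H251.MY.StmE

/-!
# The part with the divisor sum, class-dependent weights (task MAINBC, helper696 after helper113, for helper251)
-/

set_option autoImplicit false
set_option linter.all false

namespace Pool.Agent.H251.MY

open Polynomial Finset
open scoped Classical
open Pool.Agent.H985.Chow (mob)
open Pool.Agent.H694.Typ (Mn Irn mem_Mn mem_Irn q_ge)
open Pool.Agent.H251.SP (Rgh Smo bw cf)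
open Pool.Agent.H251.SP.Asm (rgh_mono rgh_dvd mob_abs MM mem_MM sum_MM log_small pow_small)
open Pool.Agent.H985.CH
open Pool.Agent.H985.CH.MainbAux

theorem wc_abs {K : Type} [Field K] [Fintype K] {k : ℕ} (h : Fin k → K[X]) {lam : K[X] → K[X] → ℝ}
    (hl : Bd2 lam) (y : ℕ) (f : K[X]) : |Wc h lam y f| ≤ ta h y f := by
  unfold Wc ta
  refine (abs_sum_le_sum_abs _ _).trans ((sum_le_sum fun E _ => hl.1 E f).trans ?_)
  rw [sum_const, nsmul_eq_mul, mul_one]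

theorem wc_le {K : Type} [Field K] [Fintype K] {k : ℕ} (h : Fin k → K[X]) {lam : K[X] → K[X] → ℝ}
    (hl : Bd2 lam) (y : ℕ) (f : K[X]) : |Wc h lam y f| ≤ |Wt h (fun _ => 1) y f| := by
  refine (wc_abs h hl y f).trans (le_trans (le_of_eq ?_) (le_abs_self _))
  unfold ta Wt
  rw [sum_const, nsmul_eq_mul, mul_one]

/-- **Task MAINBC.** -/
theorem mainbc : S_tmainbc := by
  intro h2 h3 hb hs hm K _ _ _ ε δ hε hε1 hδ
  have hq := q_ge (k := K)
  obtain ⟨c, θ2, hc0, hθ2, h2⟩ := h2 K ε hε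
  obtain ⟨θ3, hθ3, h3⟩ := h3 K δ hδ
  refine ⟨min (min θ2 θ3) (1 / 4), lt_min (lt_min hθ2 hθ3) (by norm_num), fun k A₁ => ?_⟩
  obtain ⟨C, n2, h2'⟩ := h2 k
  obtain ⟨C', hC'⟩ := hs k K
  obtain ⟨C'', hC''⟩ := hm k 2 K
  obtain ⟨E, hE⟩ : ∃ E : ℕ, E = C + C' + A₁ + 6 := ⟨_, rfl⟩
  obtain ⟨A₀, hA₀⟩ : ∃ A₀ : ℕ, A₀ = 64 * E + 10 := ⟨_, rfl⟩
  obtain ⟨n3, h3'⟩ := h3 k A₀
  obtain ⟨n5, h5⟩ := log_small (64 * E + 1)
  obtain ⟨n6, h6⟩ := pow_small E (Fintype.card K : ℝ) c hq hc0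
  obtain ⟨n7, h7⟩ := pow_small (C'' + A₁ + 3) 2 (1 / 10) le_rfl (by norm_num)
  obtain ⟨P3, hP3⟩ : ∃ P3 : ℕ, P3 = 3 ^ C'' := ⟨_, rfl⟩
  refine ⟨n2 + n3 + n5 + n6 + n7 + 25 + ⌈(4 + 4 * 3 ^ C' * 2 ^ E + 32 * (2 ^ E + 1) + 64 : ℝ)⌉₊ +
      (P3 + 2 * (k + 1)), ?_⟩
  intro n hn l y h i₀ lam hl1 hl2 hy hSh hlam
  have hn25 : 25 ≤ n := by omega
  have hn1 : (1 : ℝ) ≤ n := by exact_mod_cast (show 1 ≤ n by omega)
  have hn0 : (0 : ℝ) < n := by linarith
  have hnr : (25 : ℝ) ≤ n := by exact_mod_cast hn25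
  have hbig : (4 + 4 * 3 ^ C' * 2 ^ E + 32 * (2 ^ E + 1) + 64 : ℝ) ≤ n := by
    refine (Nat.le_ceil _).trans ?_
    exact_mod_cast (show ⌈(4 + 4 * 3 ^ C' * 2 ^ E + 32 * (2 ^ E + 1) + 64 : ℝ)⌉₊ ≤ n by omega)
  have hk : 3 ^ C'' + 2 * (k + 1) ≤ n := by
    rw [← hP3]
    omega
  have hy2 : (y : ℝ) ≤ θ2 * n :=
    hy.trans (mul_le_mul_of_nonneg_right ((min_le_left _ _).trans (min_le_left _ _)) hn0.le)
  have hy3 : (y : ℝ) ≤ θ3 * n :=
    hy.trans (mul_le_mul_of_nonneg_right ((min_le_left _ _).trans (min_le_right _ _)) hn0.le)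
  have hy4 : 4 * y ≤ n := by
    have e1 : (y : ℝ) ≤ 1 / 4 * n :=
      hy.trans (mul_le_mul_of_nonneg_right (min_le_right _ _) hn0.le)
    have e2 : (4 * y : ℝ) ≤ n := by linarith
    exact_mod_cast e2
  -- the parameters
  have hlog : 1 ≤ Nat.log 2 n := (Nat.le_log_iff_pow_le (by norm_num) (by omega)).2 (by omega)
  obtain ⟨z, hz⟩ : ∃ z : ℕ, z = 64 * E * Nat.log 2 n + 1 := ⟨_, rfl⟩
  have hz1 : 1 ≤ z := by omega
  have hz5 : 5 * z ≤ n := by
    have e1 := h5 n (by omega)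
    have e2 : z ≤ (64 * E + 1) * Nat.log 2 n := by
      rw [hz, add_mul, one_mul]
      omega
    omega
  have hzA : z ≤ A₀ * Nat.log 2 n := by
    rw [hz, hA₀, add_mul]
    omega
  have hl024 : (24 / 100 : ℝ) * n ≤ l := by
    refine le_trans ?_ hl1
    exact mul_le_mul_of_nonneg_right (by linarith) hn0.le
  have hzl : z ≤ l := by
    have e1 : (5 * z : ℝ) ≤ n := by exact_mod_cast hz5
    have e2 : (z : ℝ) ≤ l := by linarith
    exact_mod_cast e2
  have hl5 : n < 5 * l := by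
    have e1 : (n : ℝ) < 5 * l := by linarith
    exact_mod_cast e1
  have hln : 2 * l ≤ n := by
    have e1 : (l : ℝ) ≤ n / 4 + 1 := by
      have : (1 / 4 - ε) * n ≤ n / 4 := by nlinarith
      linarith
    have e2 : (2 * l : ℝ) ≤ n := by linarith
    exact_mod_cast e2
  have hzE : E * Nat.log 2 n ≤ z / 64 := by
    rw [hz]
    have : 64 * E * Nat.log 2 n = 64 * (E * Nat.log 2 n) := by ring
    omega
  have hzE' : ((E * Nat.log 2 n : ℕ) : ℝ) ≤ (z : ℝ) / 64 := by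
    have e1 : 64 * (E * Nat.log 2 n) ≤ z := by omega
    have e2 : (64 : ℝ) * ((E * Nat.log 2 n : ℕ) : ℝ) ≤ z := by exact_mod_cast e1
    linarith
  have hzr : (0 : ℝ) ≤ z := Nat.cast_nonneg z
  have hqz64 : (Fintype.card K : ℝ) ^ (-(z : ℝ) / 64) ≤ 2 ^ E / (n : ℝ) ^ E := by
    rw [neg_div]
    exact q_log E n _ _ hq (by omega) hzE'
  have hqz2 : (Fintype.card K : ℝ) ^ (-(z : ℝ) / 2) ≤ 2 ^ E / (n : ℝ) ^ E := by
    rw [neg_div]
    exact q_log E n _ _ hq (by omega) (hzE'.trans (by linarith))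
  have hqn : (0 : ℝ) < (Fintype.card K : ℝ) ^ n := by positivity
  -- the function
  obtain ⟨Φ, hΦ⟩ : ∃ Φ : K[X] → ℝ, ∀ f, Φ f = Wc h lam y f * (mob (f + h i₀) : ℝ) :=
    ⟨_, fun _ => rfl⟩
  have hΦW : ∀ f, |Φ f| ≤ |Wc h lam y f| := by
    intro f
    rw [hΦ, abs_mul]
    exact mul_le_of_le_one_right (abs_nonneg _) (mob_abs _)
  obtain ⟨Y, hY⟩ : ∃ Y : ℝ, Y = 1 / (n : ℝ) ^ A₀ + ((n : ℝ) + 2) ^ C' *
    (Fintype.card K : ℝ) ^ (-(z : ℝ) / 2) := ⟨_, rfl⟩
  have hqz2p : 0 < (Fintype.card K : ℝ) ^ (-(z : ℝ) / 2) := Real.rpow_pos_of_pos (by linarith) _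
  have hqz64p : 0 < (Fintype.card K : ℝ) ^ (-(z : ℝ) / 64) := Real.rpow_pos_of_pos (by linarith) _
  have hqcp : 0 < (Fintype.card K : ℝ) ^ (-c * n) := Real.rpow_pos_of_pos (by linarith) _
  have hY0 : 0 ≤ Y := by
    rw [hY]
    positivity
  obtain ⟨X, hX⟩ : ∃ X : ℝ, X = (n : ℝ) ^ C * (Fintype.card K : ℝ) ^ n *
    ((Fintype.card K : ℝ) ^ (-(z : ℝ) / 64) + (Fintype.card K : ℝ) ^ (-c * n)) := ⟨_, rfl⟩
  have hX0 : 0 ≤ X := by
    rw [hX]
    positivity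
  have hB := partB (z := z) (l := l) (n := n) δ h Φ X Y hX0 hY0 hln hl5 hδ.le
    (by
      intro D hD hDs hDr hDc hDn hDn2
      have hd := hb K (n - D.natDegree) z l (fun B => Φ (D * B)) hz1 hzl (by omega)
      have e1 : |∑ B ∈ (Mn K (n - D.natDegree)).filter (Rgh z), Φ (D * B)| ≤
          (Fintype.card K : ℝ) ^ (n - D.natDegree) / (n : ℝ) ^ A₀ := by
        have e2 := h3' n (by omega) z y D h i₀ lam hzA hD hDs hDn hDc hy3 hSh hlam
        simpa only [hΦ] using e2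
      have e3 := hC' (n - D.natDegree) y z D h (fun _ => 1) hD hDc (by omega) (fun _ => by simp)
      have e4 : ∑ j ∈ Ico z l, ∑ p ∈ Irn K j,
          ∑ B ∈ (Mn K (n - D.natDegree - j)).filter (fun B => p ∣ B), |Φ (D * (p * B))| ≤
          ∑ j ∈ Icc (max z 1) (n - D.natDegree), ∑ p ∈ Irn K j,
            ∑ B ∈ (Mn K (n - D.natDegree - j)).filter (fun B => p ∣ B),
              |Wt h (fun _ => 1) y (D * (p * B))| := by
        refine (sum_le_sum fun j _ => sum_le_sum fun p _ => sum_le_sum fun B _ =>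
          (hΦW (D * (p * B))).trans (wc_le h hlam y (D * (p * B)))).trans ?_
        refine sum_le_sum_of_subset_of_nonneg ?_ ?_
        · intro j hj
          rw [mem_Ico] at hj
          rw [mem_Icc]
          exact ⟨max_le hj.1 (by omega), by omega⟩
        · intro j _ _
          exact sum_nonneg fun p _ => sum_nonneg fun B _ => abs_nonneg _
      have e5 : (((n - D.natDegree : ℕ) : ℝ) + 2) ^ C' ≤ ((n : ℝ) + 2) ^ C' := by
        refine pow_le_pow_left₀ (by positivity) ?_ _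
        have : ((n - D.natDegree : ℕ) : ℝ) ≤ n := by exact_mod_cast Nat.sub_le _ _
        linarith
      have e6 : (((n - D.natDegree : ℕ) : ℝ) + 2) ^ C' *
          (Fintype.card K : ℝ) ^ (n - D.natDegree) * (Fintype.card K : ℝ) ^ (-(z : ℝ) / 2) ≤
          ((n : ℝ) + 2) ^ C' *
          (Fintype.card K : ℝ) ^ (n - D.natDegree) * (Fintype.card K : ℝ) ^ (-(z : ℝ) / 2) :=
        mul_le_mul_of_nonneg_right (mul_le_mul_of_nonneg_right e5 (by positivity)) hqz2p.le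
      have e7 : (Fintype.card K : ℝ) ^ (n - D.natDegree) * Y =
          (Fintype.card K : ℝ) ^ (n - D.natDegree) / (n : ℝ) ^ A₀ + ((n : ℝ) + 2) ^ C' *
          (Fintype.card K : ℝ) ^ (n - D.natDegree) * (Fintype.card K : ℝ) ^ (-(z : ℝ) / 2) := by
        rw [hY]
        ring
      rw [e7]
      have e8 := (hd.trans e4).trans (e3.trans e6)
      rw [abs_le] at e1 e8 ⊢
      constructor <;> linarith [e1.1, e1.2, e8.1, e8.2])
    (by
      intro j hj β hβ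
      rw [mem_Ico] at hj
      have hjn : (j : ℝ) ≤ (1 / 4 - ε) * n := by
        have e1 : (j : ℝ) + 1 ≤ l := by exact_mod_cast hj.2
        linarith
      have e1 := h2' n (by omega) j y h i₀ lam (fun _ => 1) β (by omega) hjn hy2 hSh hlam
        (fun _ => by simp) hβ
      have e2 : ∑ p ∈ Irn K j, ∑ B ∈ Mn K (n - j), β B * Φ (p * B) =
          ∑ p ∈ Irn K j, ∑ B ∈ Mn K (n - j),
            (1 : ℝ) * β B * (Wc h lam y (p * B) * (mob (p * B + h i₀) : ℝ)) := by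
        refine sum_congr rfl fun p _ => sum_congr rfl fun B _ => ?_
        rw [hΦ, one_mul]
      rw [e2, hX]
      refine e1.trans ?_
      refine mul_le_mul_of_nonneg_left ?_ (by positivity)
      have e3 : (Fintype.card K : ℝ) ^ (-(j : ℝ) / 64) ≤ (Fintype.card K : ℝ) ^ (-(z : ℝ) / 64) := by
        refine Real.rpow_le_rpow_of_exponent_le (by linarith) ?_
        have : (z : ℝ) ≤ j := by exact_mod_cast hj.1
        linarith
      linarith)
  -- the divisor sums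
  obtain ⟨T, hT⟩ : ∃ T : K[X] → ℝ, ∀ f, T f =
      ∑ D ∈ (MM K (n + 1)).filter (fun D => D ∣ f), cco n δ D := ⟨_, fun _ => rfl⟩
  obtain ⟨T', hT'⟩ : ∃ T' : K[X] → ℝ, ∀ f, T' f =
      ∑ D ∈ (MM K (n + 1)).filter (fun D => D ∣ f), ccg n l δ h D := ⟨_, fun _ => rfl⟩
  have hTi : ∀ f : K[X], ∑ i ∈ range (n + 1), ∑ D ∈ (Mn K i).filter (fun D => D ∣ f),
      (if 2 * (i : ℝ) ≤ (1 - δ) * n then cf D else 0) = T f := by
    intro f
    rw [hT, sum_filter, sum_MM]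
    refine sum_congr rfl fun i _ => ?_
    rw [sum_filter]
    refine sum_congr rfl fun D hD => ?_
    unfold cco
    rw [(mem_Mn.1 hD).2]
  have hTT : ∀ f ∈ (Mn K n).filter (Rgh l), ¬ Bd h f → T f = T' f := by
    intro f hf hfb
    rw [mem_filter] at hf
    unfold Bd at hfb
    push Not at hfb
    rw [hT, hT']
    refine sum_congr rfl fun D hD => ?_
    rw [mem_filter] at hD
    unfold cco ccg
    by_cases h8 : 2 * (D.natDegree : ℝ) ≤ (1 - δ) * n
    · rw [if_pos h8, if_pos ⟨h8, hfb.1.squarefree_of_dvd hD.2, rgh_dvd hD.2 hf.2,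
        fun i => (hfb.2 i).of_isCoprime_of_dvd_left hD.2⟩]
    · rw [if_neg h8, if_neg (fun hh => h8 hh.1)]
  have hTb : ∀ f ∈ (Mn K n).filter (Rgh l), |T f - T' f| ≤ 64 := by
    intro f hf
    rw [mem_filter, mem_Mn] at hf
    have e1 : |T f| ≤ 32 := by
      rw [hT]
      exact sum_div_le hf.1.1.ne_zero (by omega) hl5 _ _ (fun D => cco_abs n δ D)
        (fun D hD hr => absurd (rgh_dvd hD hf.2) hr)
    have e2 : |T' f| ≤ 32 := by
      rw [hT']
      exact sum_div_le hf.1.1.ne_zero (by omega) hl5 _ _ (fun D => ccg_abs n l δ h D)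
        (fun D hD hr => absurd (rgh_dvd hD hf.2) hr)
    refine (abs_sub _ _).trans ?_
    linarith
  have hmom : ∑ B ∈ Mn K n, (ta h y B) ^ 2 ≤
      ((n : ℝ) + 2) ^ C'' * (Fintype.card K : ℝ) ^ n := by
    have e1 := hC'' n y 1 h monic_one (fun i => isCoprime_one_left) (by omega)
    simp only [one_mul] at e1
    exact e1
  have hbad := sum_bad (K := K) (n := n) (l := l) (y := y) (C := C'') (by omega) h hSh hmom
  have hdiff : |∑ f ∈ (Mn K n).filter (Rgh l), Φ f * T f -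
      ∑ f ∈ (Mn K n).filter (Rgh l), Φ f * T' f| ≤
      64 * ∑ f ∈ (Mn K n).filter (fun f => Rgh l f ∧ Bd h f), ta h y f := by
    rw [← sum_sub_distrib]
    have e1 : ∑ f ∈ (Mn K n).filter (Rgh l), (Φ f * T f - Φ f * T' f) =
        ∑ f ∈ (Mn K n).filter (fun f => Rgh l f ∧ Bd h f), (Φ f * T f - Φ f * T' f) := by
      symm
      refine sum_subset ?_ ?_
      · intro f hf
        rw [mem_filter] at hf ⊢
        exact ⟨hf.1, hf.2.1⟩
      · intro f hf hf'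
        have e2 : ¬ Bd h f := fun hh => hf' (mem_filter.2 ⟨(mem_filter.1 hf).1,
          (mem_filter.1 hf).2, hh⟩)
        rw [hTT f hf e2, sub_self]
    rw [e1, mul_sum]
    refine (abs_sum_le_sum_abs _ _).trans (sum_le_sum fun f hf => ?_)
    rw [← mul_sub, abs_mul]
    have e2 := hTb f (mem_filter.2 ⟨(mem_filter.1 hf).1, (mem_filter.1 hf).2.1⟩)
    have e3 : |Φ f| ≤ ta h y f := (hΦW f).trans (wc_abs h hlam y f)
    calc |Φ f| * |T f - T' f| ≤ ta h y f * 64 :=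
          mul_le_mul e3 e2 (abs_nonneg _) (ta_nonneg h y f)
      _ = 64 * ta h y f := by ring
  have hSe : ∑ f ∈ (Mn K n).filter (Rgh l), Wc h lam y f * (mob (f + h i₀) : ℝ) *
        ∑ i ∈ range (n + 1), ∑ D ∈ (Mn K i).filter (fun D => D ∣ f),
          (if 2 * (i : ℝ) ≤ (1 - δ) * n then cf D else 0) =
      ∑ f ∈ (Mn K n).filter (Rgh l), Φ f * T f :=
    sum_congr rfl fun f _ => by rw [hTi, hΦ]
  have hB' : |∑ f ∈ (Mn K n).filter (Rgh l), Φ f * T' f| ≤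
      2 * (n + 1) * (Fintype.card K : ℝ) ^ n * Y + n * (32 * X) := by
    have e1 : ∑ f ∈ (Mn K n).filter (Rgh l), Φ f * T' f = ∑ f ∈ (Mn K n).filter (Rgh l),
      Φ f * ∑ D ∈ (MM K (n + 1)).filter (fun D => D ∣ f), ccg n l δ h D :=
      sum_congr rfl fun f _ => by rw [hT']
    rw [e1]
    exact hB
  rw [hSe]
  have hL : ((n : ℝ) ^ (C'' + A₁ + 3)) * (1 / 2) ^ (l / 2) ≤ 1 := by
    refine le_trans ?_ (h7 n (by omega))
    refine mul_le_mul_of_nonneg_left ?_ (by positivity)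
    have e1 : ((1 : ℝ) / 2) ^ (l / 2) = (2 : ℝ) ^ (-((l / 2 : ℕ) : ℝ)) := by
      rw [Real.rpow_neg (by norm_num), Real.rpow_natCast, one_div, inv_pow]
    rw [e1]
    refine Real.rpow_le_rpow_of_exponent_le (by norm_num) ?_
    have e2 : l ≤ 2 * (l / 2) + 1 := by omega
    have e3 : (l : ℝ) ≤ 2 * ((l / 2 : ℕ) : ℝ) + 1 := by exact_mod_cast e2
    linarith
  refine numeric n C C' C'' A₁ k A₀ E (l / 2) ((Fintype.card K : ℝ) ^ n)
    ((Fintype.card K : ℝ) ^ (-(z : ℝ) / 2)) ((Fintype.card K : ℝ) ^ (-(z : ℝ) / 64))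
    ((Fintype.card K : ℝ) ^ (-c * n)) _ (by omega) hqn (by omega) (by omega) hqz2 hqz64
    (h6 n (by omega)) hL hk hbig ?_
  have e1 : |∑ f ∈ (Mn K n).filter (Rgh l), Φ f * T f| ≤
      |∑ f ∈ (Mn K n).filter (Rgh l), Φ f * T' f| +
      |∑ f ∈ (Mn K n).filter (Rgh l), Φ f * T f - ∑ f ∈ (Mn K n).filter (Rgh l), Φ f * T' f| := by
    have e2 := abs_add_le (∑ f ∈ (Mn K n).filter (Rgh l), Φ f * T' f)
      (∑ f ∈ (Mn K n).filter (Rgh l), Φ f * T f - ∑ f ∈ (Mn K n).filter (Rgh l), Φ f * T' f)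
    rw [add_sub_cancel] at e2
    exact e2
  refine e1.trans (add_le_add ?_ ?_)
  · rw [hX, hY] at hB'
    exact hB'
  · exact hdiff.trans (mul_le_mul_of_nonneg_left hbad (by norm_num))

end Pool.Agent.H251.MY
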