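import Pool.Agent.H251.MY.StmE
import Pool.Agent.H985.CH.TIW
import Pool.Agent.H985.CH.TWW

/-!
# Tasks TIC and TWC of project MY (helper251): type I sums with class-dependent weights

Adapted from `Pool/Agent/H985/CH/TIW.lean` and `TWW.lean` (helper348); the coefficients of the
weights depend on the residue class (helper791).
-/

set_option autoImplicit false

namespace Pool.Agent.H251.MY

open Polynomial Finset
open scoped Classical
open Pool.Agent.H985.Chow (mob)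
open Pool.Agent.H985.KP (PA mobg)
open Pool.Agent.H694.Typ (Mn Irn mem_Mn card_Mn PU mem_PU card_dvd_le no_dvd wt)
open Pool.Agent.H251.SP (Rgh Smo S_mob S_ps)
open Pool.Agent.H251.SP.TiN (Pz mem_Pz cop_pz prod_monic prod_dvd_iff prod_inj sieve_id prod_sqf
  prod_smo card_small In In_mob)
open Pool.Agent.H251.SP.TW (abs_mob mobg_one dvd_prod_irr exists_lcm)
open Pool.Agent.H985.CH (Hh SqM Shf Bdd S_momw S_tailw)
open Pool.Agent.H985.CH.TIWa (sum_exp large res_sum mem_SqM card_SqM sqrt_le ps2)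

namespace TICa

section main

variable {K : Type} [Field K] [Fintype K]

/-- expansion of the weights -/
lemma W_exp {k : ℕ} (h : Fin k → K[X]) (lam : K[X] → K[X] → ℝ) (hlam : Bd2 lam) (y : ℕ)
    (S : Finset K[X]) (g : K[X] → K[X]) (ψ : K[X] → ℝ) (S₀ : ℝ) (hS₀ : 0 ≤ S₀)
    (hb : ∀ E : K[X], E.Monic → E.natDegree ≤ y → ∀ r,
      |∑ B ∈ S.filter (fun B => E ∣ g B - r), ψ B| ≤ S₀) :
    |∑ B ∈ S, Wc h lam y (g B) * ψ B| ≤ (Fintype.card K : ℝ) ^ (2 * y + 1) * S₀ := by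
  have hq1 : (1 : ℝ) ≤ Fintype.card K := by exact_mod_cast Fintype.card_pos
  have e1 : ∑ B ∈ S, Wc h lam y (g B) * ψ B =
      ∑ E ∈ SqM K y, ∑ r ∈ (Mn K E.natDegree).filter (fun r => E ∣ Hh h r),
        lam E r * ∑ B ∈ S.filter (fun B => E ∣ g B - r), ψ B := by
    unfold Wc
    have h1 : ∀ B ∈ S, (∑ E ∈ (SqM K y).filter (fun E => E ∣ Hh h (g B)), lam E (g B)) * ψ B =
        ∑ E ∈ SqM K y, ∑ r ∈ (Mn K E.natDegree).filter (fun r => E ∣ Hh h r),
          if E ∣ g B - r then lam E r * ψ B else 0 := by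
      intro B _
      rw [sum_filter, sum_mul]
      refine sum_congr rfl fun E hE => ?_
      have h2 : (if E ∣ Hh h (g B) then lam E (g B) else 0) * ψ B =
          if E ∣ Hh h (g B) then lam E (g B) * ψ B else 0 := by
        split_ifs <;> ring
      rw [h2, res_sum h (mem_SqM.1 hE).1]
      refine sum_congr rfl fun r _ => ?_
      by_cases h3 : E ∣ g B - r
      · rw [if_pos h3, if_pos h3, hlam.2 E (g B) r h3]
      · rw [if_neg h3, if_neg h3]
    rw [sum_congr rfl h1, sum_comm]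
    refine sum_congr rfl fun E _ => ?_
    rw [sum_comm]
    refine sum_congr rfl fun r _ => ?_
    rw [mul_sum, sum_filter]
  rw [e1]
  refine (Finset.abs_sum_le_sum_abs _ _).trans ?_
  have h2 : ∀ E ∈ SqM K y, |∑ r ∈ (Mn K E.natDegree).filter (fun r => E ∣ Hh h r),
      lam E r * ∑ B ∈ S.filter (fun B => E ∣ g B - r), ψ B| ≤ (Fintype.card K : ℝ) ^ y * S₀ := by
    intro E hE
    have hE' := mem_SqM.1 hE
    refine (Finset.abs_sum_le_sum_abs _ _).trans ?_
    have h5 : ∀ r ∈ (Mn K E.natDegree).filter (fun r => E ∣ Hh h r),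
        |lam E r * ∑ B ∈ S.filter (fun B => E ∣ g B - r), ψ B| ≤ S₀ := by
      intro r _
      rw [abs_mul]
      exact (mul_le_of_le_one_left (abs_nonneg _) (hlam.1 E r)).trans (hb E hE'.1 hE'.2.1 r)
    refine (sum_le_card_nsmul _ _ _ h5).trans ?_
    rw [nsmul_eq_mul]
    refine mul_le_mul_of_nonneg_right ?_ hS₀
    have h3 : (((Mn K E.natDegree).filter (fun r => E ∣ Hh h r)).card : ℝ) ≤
        (Fintype.card K : ℝ) ^ E.natDegree := by
      have h4 : ((Mn K E.natDegree).filter (fun r => E ∣ Hh h r)).card ≤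
          Fintype.card K ^ E.natDegree := by
        rw [← card_Mn]
        exact card_filter_le _ _
      exact_mod_cast h4
    exact h3.trans (pow_le_pow_right₀ hq1 hE'.2.1)
  refine (sum_le_card_nsmul _ _ _ h2).trans ?_
  rw [nsmul_eq_mul]
  calc ((SqM K y).card : ℝ) * ((Fintype.card K : ℝ) ^ y * S₀)
      ≤ (Fintype.card K : ℝ) ^ (y + 1) * ((Fintype.card K : ℝ) ^ y * S₀) :=
        mul_le_mul_of_nonneg_right (card_SqM y) (by positivity)
    _ = _ := by ring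

lemma Wc_abs {k : ℕ} (h : Fin k → K[X]) (lam : K[X] → K[X] → ℝ) (hlam : Bd2 lam) (y : ℕ)
    (f : K[X]) :
    |Wc h lam y f| ≤ (((SqM K y).filter (fun E => E ∣ Hh h f)).card : ℝ) := by
  unfold Wc
  refine (Finset.abs_sum_le_sum_abs _ _).trans ?_
  refine (sum_le_card_nsmul _ _ _ fun E _ => hlam.1 E f).trans ?_
  rw [nsmul_eq_mul, mul_one]

/-- the second moment -/
lemma mom {k : ℕ} {C : ℕ} {n N y : ℕ} {D : K[X]} {h : Fin k → K[X]} (lam : K[X] → K[X] → ℝ)
    (hlam : Bd2 lam) (ψ : K[X] → ℝ) (hψ : ∀ B, |ψ B| ≤ 1) (hN : N ≤ n) (hn : 2 ≤ n)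
    (hm : ∑ B ∈ Mn K N, (((SqM K y).filter (fun E => E ∣ Hh h (D * B))).card : ℝ) ^ 2 ≤
      ((N : ℝ) + 2) ^ C * (Fintype.card K : ℝ) ^ N) :
    ∑ B ∈ Mn K N, (Wc h lam y (D * B) * ψ B) ^ 2 ≤
      (n : ℝ) ^ (2 * C) * (Fintype.card K : ℝ) ^ N := by
  have h1 : ∀ B ∈ Mn K N, (Wc h lam y (D * B) * ψ B) ^ 2 ≤
      (((SqM K y).filter (fun E => E ∣ Hh h (D * B))).card : ℝ) ^ 2 := by
    intro B _
    rw [mul_pow, ← sq_abs, ← sq_abs (ψ B)]
    have h2 : |ψ B| ^ 2 ≤ 1 := pow_le_one₀ (abs_nonneg _) (hψ B)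
    have h3 := Wc_abs h lam hlam y (D * B)
    calc |Wc h lam y (D * B)| ^ 2 * |ψ B| ^ 2 ≤ |Wc h lam y (D * B)| ^ 2 * 1 :=
          mul_le_mul_of_nonneg_left h2 (by positivity)
      _ ≤ _ := by
          rw [mul_one]
          exact pow_le_pow_left₀ (abs_nonneg _) h3 2
  refine (sum_le_sum h1).trans (hm.trans ?_)
  refine mul_le_mul_of_nonneg_right ?_ (by positivity)
  rw [pow_mul]
  refine pow_le_pow_left₀ (by positivity) ?_ C
  have h2 : (N : ℝ) ≤ n := by exact_mod_cast hN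
  have h3 : (2 : ℝ) ≤ n := by exact_mod_cast hn
  nlinarith

end main

end TICa

open TICa

/-- **Task TIC.** -/
theorem tic : S_ttic := by
  intro hm ht hmo
  intro K _ _ _ δ hδ
  refine ⟨δ / 32, by positivity, ?_⟩
  intro k A₀
  obtain ⟨q, hqdef⟩ : ∃ q : ℝ, q = Fintype.card K := ⟨_, rfl⟩
  have hq1 : (1 : ℝ) < q := by rw [hqdef]; exact_mod_cast Fintype.one_lt_card
  have hq0 : (0 : ℝ) < q := by linarith
  have hlq : 0 < Real.log q := Real.log_pos hq1
  obtain ⟨C, hC, hmob⟩ := hm K (δ * Real.log q / 8) (by positivity)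
  obtain ⟨C₂, hmom⟩ := hmo k 2 K
  obtain ⟨n1, htail⟩ := ht K (2 * C₂ + 2 * A₀ + 2) (δ / 8) (by positivity)
  have hr1 : 1 < q ^ (δ / 8) := Real.one_lt_rpow hq1 (by positivity)
  have hlim := (tendsto_pow_const_div_const_pow_of_one_lt A₀ hr1).const_mul (2 * C * q ^ 2)
  rw [mul_zero] at hlim
  obtain ⟨n2, hn2⟩ := Filter.eventually_atTop.1 (hlim.eventually (gt_mem_nhds one_pos))
  refine ⟨n1 + n2 + A₀ + 2, ?_⟩
  intro n hn z y D h i₀ lam hz hD hDs hDd hcop hy hSh hlam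
  rw [← hqdef]
  have hn0 : (0 : ℝ) < n := by exact_mod_cast (by omega : 0 < n)
  have hn2' : (2 : ℝ) ≤ n := by exact_mod_cast (by omega : 2 ≤ n)
  have hδ1 : δ ≤ 1 := by
    have h1 : (0 : ℝ) ≤ (1 - δ) * n := le_trans (by positivity) hDd
    have h2 : 0 ≤ 1 - δ := nonneg_of_mul_nonneg_left h1 hn0
    linarith
  have hδn : δ * n ≤ n := by nlinarith
  obtain ⟨Y, hY⟩ : ∃ Y : ℕ, Y = ⌈δ / 8 * n⌉₊ := ⟨_, rfl⟩
  have hY1 : (Y : ℝ) < δ / 8 * n + 1 := by
    rw [hY]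
    exact Nat.ceil_lt_add_one (by positivity)
  -- the degrees
  have hDn2 : (D.natDegree : ℝ) ≤ n / 2 := by nlinarith
  have hDn : D.natDegree ≤ n := by
    have : (D.natDegree : ℝ) ≤ n := by linarith
    exact_mod_cast this
  have hcast : ((n - D.natDegree : ℕ) : ℝ) = n - D.natDegree := by rw [Nat.cast_sub hDn]
  have h2y : 2 * y ≤ n - D.natDegree := by
    have : (2 : ℝ) * y ≤ ((n - D.natDegree : ℕ) : ℝ) := by
      rw [hcast]
      nlinarith
    exact_mod_cast this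
  rw [sum_exp, ← Finset.sum_filter_add_sum_filter_not (Pz K z).powerset
    (fun T : Finset K[X] => (∏ P ∈ T, P).natDegree < Y)]
  refine (abs_add_le _ _).trans ?_
  -- the small divisors
  have hsmall : |∑ T ∈ (Pz K z).powerset.filter (fun T => (∏ P ∈ T, P).natDegree < Y),
      (-1) ^ T.card * ∑ B ∈ (Mn K (n - D.natDegree)).filter (fun B => (∏ P ∈ T, P) ∣ B),
        Wc h lam y (D * B) * (mob (D * B + h i₀) : ℝ)| ≤
      q ^ Y * (q ^ (2 * y + 1) * (C * q ^ ((n : ℝ) / 2) * Real.exp (δ * Real.log q / 8 * n))) := by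
    refine (Finset.abs_sum_le_sum_abs _ _).trans ?_
    have h1 : ∀ T ∈ (Pz K z).powerset.filter (fun T => (∏ P ∈ T, P).natDegree < Y),
        |(-1) ^ T.card * ∑ B ∈ (Mn K (n - D.natDegree)).filter (fun B => (∏ P ∈ T, P) ∣ B),
          Wc h lam y (D * B) * (mob (D * B + h i₀) : ℝ)| ≤
        q ^ (2 * y + 1) * (C * q ^ ((n : ℝ) / 2) * Real.exp (δ * Real.log q / 8 * n)) := by
      intro T hT
      rw [mem_filter, mem_powerset] at hT
      rw [abs_mul, abs_pow, abs_neg, abs_one, one_pow, one_mul]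
      have hW := W_exp h lam hlam y ((Mn K (n - D.natDegree)).filter
        (fun B => (∏ P ∈ T, P) ∣ B)) (fun B => D * B) (fun B => (mob (D * B + h i₀) : ℝ))
        (C * q ^ ((n : ℝ) / 2) * Real.exp (δ * Real.log q / 8 * n)) (by positivity) ?_
      · rw [← hqdef] at hW
        exact hW
      intro E hE hEy r
      have h4 : ∑ B ∈ ((Mn K (n - D.natDegree)).filter (fun B => (∏ P ∈ T, P) ∣ B)).filter
          (fun B => E ∣ D * B - r), (mob (D * B + h i₀) : ℝ) =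
          In n D (h i₀) 1 E r (∏ P ∈ T, P) := by
        unfold In
        rw [filter_filter]
        refine sum_congr rfl fun B _ => ?_
        rw [mobg_one]
      rw [h4]
      refine In_mob n (by positivity) hD (prod_monic hT.1) hE (hSh i₀).2 hDn ?_ ?_
      · have h2 : ((∏ P ∈ T, P).natDegree : ℝ) < δ / 8 * n := by
          have h3 := hT.2
          rw [hY, Nat.lt_ceil] at h3
          exact h3
        have h5 : (E.natDegree : ℝ) ≤ δ / 32 * n := le_trans (by exact_mod_cast hEy) hy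
        have h3 : (D.natDegree : ℝ) + (∏ P ∈ T, P).natDegree + E.natDegree ≤ n := by nlinarith
        have h4 : D.natDegree + (∏ P ∈ T, P).natDegree + E.natDegree ≤ n := by exact_mod_cast h3
        omega
      · intro R a hR hRd
        have h2 := hmob n R a 1 hR hRd monic_one (by rw [natDegree_one]; omega)
        rw [← hqdef] at h2
        exact h2
    refine (Finset.sum_le_sum h1).trans ?_
    rw [Finset.sum_const, nsmul_eq_mul]
    refine mul_le_mul_of_nonneg_right ?_ (by positivity)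
    have h2 := card_small (K := K) z Y
    rw [← hqdef] at h2
    exact h2
  have hpsi : ∀ B : K[X], |(mob (D * B + h i₀) : ℝ)| ≤ 1 := fun B => abs_mob _
  have hmm := mom lam hlam (fun B => (mob (D * B + h i₀) : ℝ)) hpsi (Nat.sub_le n D.natDegree)
    (by omega) (hmom (n - D.natDegree) y D h hD hcop h2y)
  have htl := htail n (by omega) z (hz.trans (Nat.mul_le_mul_right _ (by omega)))
  rw [← hY] at htl
  have hlarge := large n (n - D.natDegree) z Y (Nat.sub_le _ _)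
    (fun B => Wc h lam y (D * B) * (mob (D * B + h i₀) : ℝ)) _ _ hmm htl
  rw [← hqdef] at hlarge
  -- the sizes
  have hX : (q ^ (n - D.natDegree) : ℝ) = q ^ ((n : ℝ) - D.natDegree) := by
    rw [← Real.rpow_natCast, hcast]
  have hXpos : (0 : ℝ) < q ^ (n - D.natDegree) := by positivity
  have hnA : (0 : ℝ) < (n : ℝ) ^ A₀ := by positivity
  have hs1 : q ^ Y * (q ^ (2 * y + 1) * (C * q ^ ((n : ℝ) / 2) *
      Real.exp (δ * Real.log q / 8 * n))) ≤ q ^ (n - D.natDegree) / (2 * (n : ℝ) ^ A₀) := by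
    rw [le_div_iff₀ (by positivity)]
    have e2 : Real.exp (δ * Real.log q / 8 * n) = q ^ (δ / 8 * n) := by
      rw [Real.rpow_def_of_pos hq0]
      congr 1
      ring
    have e3 : (q : ℝ) ^ Y ≤ q ^ (δ / 8 * n + 1) := by
      rw [← Real.rpow_natCast]
      exact Real.rpow_le_rpow_of_exponent_le hq1.le hY1.le
    have e4 : (q : ℝ) ^ (2 * y + 1) ≤ q ^ (δ / 16 * n + 1) := by
      rw [← Real.rpow_natCast]
      refine Real.rpow_le_rpow_of_exponent_le hq1.le ?_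
      push_cast
      linarith
    have h3 : 2 * C * q ^ 2 * ((n : ℝ) ^ A₀ / (q ^ (δ / 8)) ^ n) < 1 := hn2 n (by omega)
    have h4 : 2 * C * q ^ 2 * (n : ℝ) ^ A₀ ≤ q ^ (δ / 8 * n) := by
      rw [← mul_div_assoc, div_lt_one (by positivity)] at h3
      have e4 : (q ^ (δ / 8)) ^ n = q ^ (δ / 8 * n) := by
        rw [← Real.rpow_natCast, ← Real.rpow_mul hq0.le]
      rw [e4] at h3
      exact h3.le
    rw [hX, e2]
    calc q ^ Y * (q ^ (2 * y + 1) * (C * q ^ ((n : ℝ) / 2) * q ^ (δ / 8 * n))) *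
          (2 * (n : ℝ) ^ A₀)
        ≤ q ^ (δ / 8 * n + 1) * (q ^ (δ / 16 * n + 1) * (C * q ^ ((n : ℝ) / 2) *
          q ^ (δ / 8 * n))) * (2 * (n : ℝ) ^ A₀) := by
          gcongr
      _ = (2 * C * q ^ 2 * (n : ℝ) ^ A₀) * (q ^ (δ / 8 * n) * q ^ (δ / 16 * n) *
          q ^ ((n : ℝ) / 2) * q ^ (δ / 8 * n)) := by
          rw [Real.rpow_add hq0, Real.rpow_add hq0, Real.rpow_one]
          ring
      _ ≤ q ^ (δ / 8 * n) * (q ^ (δ / 8 * n) * q ^ (δ / 16 * n) *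
          q ^ ((n : ℝ) / 2) * q ^ (δ / 8 * n)) := by
          gcongr
      _ = q ^ (δ / 8 * n + (δ / 8 * n + δ / 16 * n + (n : ℝ) / 2 + δ / 8 * n)) := by
          rw [← Real.rpow_add hq0, ← Real.rpow_add hq0, ← Real.rpow_add hq0, ← Real.rpow_add hq0]
      _ ≤ q ^ ((n : ℝ) - D.natDegree) := by
          apply Real.rpow_le_rpow_of_exponent_le hq1.le
          nlinarith
  have hs2 : q ^ (n - D.natDegree) * Real.sqrt ((n : ℝ) ^ (2 * C₂) *
      (1 / (n : ℝ) ^ (2 * C₂ + 2 * A₀ + 2))) ≤ q ^ (n - D.natDegree) / (2 * (n : ℝ) ^ A₀) := by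
    have h6 := sqrt_le (n := n) (C := C₂) (A₀ := A₀) (by omega)
    calc q ^ (n - D.natDegree) * Real.sqrt ((n : ℝ) ^ (2 * C₂) *
        (1 / (n : ℝ) ^ (2 * C₂ + 2 * A₀ + 2))) ≤ q ^ (n - D.natDegree) *
        (1 / (2 * (n : ℝ) ^ A₀)) := mul_le_mul_of_nonneg_left h6 hXpos.le
      _ = q ^ (n - D.natDegree) / (2 * (n : ℝ) ^ A₀) := by ring
  have hs3 : q ^ (n - D.natDegree) / (n : ℝ) ^ A₀ = q ^ (n - D.natDegree) / (2 * (n : ℝ) ^ A₀) +
      q ^ (n - D.natDegree) / (2 * (n : ℝ) ^ A₀) := by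
    field_simp
    ring
  rw [hs3]
  exact add_le_add (hsmall.trans hs1) (hlarge.trans hs2)

/-- **Task TWC.** -/
theorem twc : S_ttwc := by
  intro hp ht hmo
  intro K _ _ _
  obtain ⟨q, hqdef⟩ : ∃ q : ℝ, q = Fintype.card K := ⟨_, rfl⟩
  have hq1 : (1 : ℝ) < q := by rw [hqdef]; exact_mod_cast Fintype.one_lt_card
  have hq0 : (0 : ℝ) < q := by linarith
  obtain ⟨c₁, hc₁, n₁, hps₁⟩ := hp K 2 (by norm_num)
  -- a smaller constant
  obtain ⟨c, hc, hcc, hc1⟩ : ∃ c : ℝ, 0 < c ∧ c ≤ c₁ ∧ c ≤ 1 :=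
    ⟨min c₁ 1, by positivity, min_le_left _ _, min_le_right _ _⟩
  refine ⟨c / 16, by positivity, ?_⟩
  intro k A₀
  obtain ⟨C₂, hmom⟩ := hmo k 2 K
  obtain ⟨n2, htail⟩ := ht K (2 * C₂ + 2 * A₀ + 2) (c / 4) (by positivity)
  have hr1 : 1 < q ^ (c / 8) := Real.one_lt_rpow hq1 (by positivity)
  have hlim := (tendsto_pow_const_div_const_pow_of_one_lt A₀ hr1).const_mul (2 * q ^ 2)
  rw [mul_zero] at hlim
  obtain ⟨n3, hn3⟩ := Filter.eventually_atTop.1 (hlim.eventually (gt_mem_nhds one_pos))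
  refine ⟨n₁ + n2 + n3 + A₀ + 2, ?_⟩
  intro n hn z y h i₀ lam hz hy hSh hlam
  rw [← hqdef]
  have hn0 : (0 : ℝ) < n := by exact_mod_cast (by omega : 0 < n)
  have hn2' : (2 : ℝ) ≤ n := by exact_mod_cast (by omega : 2 ≤ n)
  obtain ⟨Y, hY⟩ : ∃ Y : ℕ, Y = ⌈c / 4 * n⌉₊ := ⟨_, rfl⟩
  have hY1 : (Y : ℝ) < c / 4 * n + 1 := by
    rw [hY]
    exact Nat.ceil_lt_add_one (by positivity)
  have hcn : c * n ≤ n := by nlinarith
  have h2y : 2 * y ≤ n := by
    have : (2 : ℝ) * y ≤ n := by linarith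
    exact_mod_cast this
  have hps : ∀ (h g : Fin 2 → K[X]) (Q r : K[X]), Function.Injective h →
      (∀ i, (h i).natDegree < n) → (∀ i, (g i).Monic ∧ ((g i).natDegree : ℝ) ≤ c * n) →
      Q.Monic → (Q.natDegree : ℝ) ≤ c * n →
      |∑ f ∈ (Mn K n).filter (fun f => Q ∣ f - r), ∏ i, (mobg (g i) (f + h i) : ℝ)| ≤
        (Fintype.card K : ℝ) ^ ((n : ℝ) - c * n) := by
    intro h g Q r h1 h2 h3 h4 h5
    have h6 : c * n ≤ c₁ * n := mul_le_mul_of_nonneg_right hcc hn0.le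
    refine (hps₁ n (by omega) h g Q r h1 h2 (fun i => ⟨(h3 i).1, (h3 i).2.trans h6⟩) h4
      (h5.trans h6)).trans ?_
    rw [← hqdef]
    exact Real.rpow_le_rpow_of_exponent_le hq1.le (by linarith)
  rw [sum_exp, ← Finset.sum_filter_add_sum_filter_not (Pz K z).powerset
    (fun T : Finset K[X] => (∏ P ∈ T, P).natDegree < Y)]
  refine (abs_add_le _ _).trans ?_
  -- the small divisors
  have hsmall : |∑ T ∈ (Pz K z).powerset.filter (fun T => (∏ P ∈ T, P).natDegree < Y),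
      (-1) ^ T.card * ∑ f ∈ (Mn K n).filter (fun f => (∏ P ∈ T, P) ∣ f),
        Wc h lam y f * ((mob f : ℝ) * (mob (f + h i₀) : ℝ))| ≤
      q ^ Y * (q ^ (2 * y + 1) * q ^ ((n : ℝ) - c * n)) := by
    refine (Finset.abs_sum_le_sum_abs _ _).trans ?_
    have h1 : ∀ T ∈ (Pz K z).powerset.filter (fun T => (∏ P ∈ T, P).natDegree < Y),
        |(-1) ^ T.card * ∑ f ∈ (Mn K n).filter (fun f => (∏ P ∈ T, P) ∣ f),
          Wc h lam y f * ((mob f : ℝ) * (mob (f + h i₀) : ℝ))| ≤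
        q ^ (2 * y + 1) * q ^ ((n : ℝ) - c * n) := by
      intro T hT
      rw [mem_filter, mem_powerset] at hT
      rw [abs_mul, abs_pow, abs_neg, abs_one, one_pow, one_mul]
      have hW := W_exp h lam hlam y ((Mn K n).filter (fun f => (∏ P ∈ T, P) ∣ f)) (fun f => f)
        (fun f => (mob f : ℝ) * (mob (f + h i₀) : ℝ)) (q ^ ((n : ℝ) - c * n)) (by positivity) ?_
      · rw [← hqdef] at hW
        exact hW
      intro E hE hEy r
      have h2 : ((∏ P ∈ T, P).natDegree : ℝ) < c / 4 * n := by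
        have h3 := hT.2
        rw [hY, Nat.lt_ceil] at h3
        exact h3
      have h5 : (E.natDegree : ℝ) ≤ c / 16 * n := le_trans (by exact_mod_cast hEy) hy
      have h6 := ps2 (r := r) (prod_monic hT.1) hE (hSh i₀).1 (hSh i₀).2 hc.le (by nlinarith) hps
      rw [← hqdef] at h6
      exact h6
    refine (Finset.sum_le_sum h1).trans ?_
    rw [Finset.sum_const, nsmul_eq_mul]
    refine mul_le_mul_of_nonneg_right ?_ (by positivity)
    have h2 := card_small (K := K) z Y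
    rw [← hqdef] at h2
    exact h2
  have hpsi : ∀ f : K[X], |(mob f : ℝ) * (mob (f + h i₀) : ℝ)| ≤ 1 := by
    intro f
    rw [abs_mul]
    exact mul_le_one₀ (abs_mob f) (abs_nonneg _) (abs_mob _)
  have hmm := mom (D := 1) lam hlam (fun f => (mob f : ℝ) * (mob (f + h i₀) : ℝ)) hpsi le_rfl
    (by omega : 2 ≤ n) (hmom n y 1 h monic_one (fun i => isCoprime_one_left) h2y)
  simp only [one_mul] at hmm
  have htl := htail n (by omega) z (hz.trans (Nat.mul_le_mul_right _ (by omega)))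
  rw [← hY] at htl
  have hlarge := large n n z Y le_rfl
    (fun f => Wc h lam y f * ((mob f : ℝ) * (mob (f + h i₀) : ℝ))) _ _ hmm htl
  rw [← hqdef] at hlarge
  -- the sizes
  have hXpos : (0 : ℝ) < q ^ n := by positivity
  have hnA : (0 : ℝ) < (n : ℝ) ^ A₀ := by positivity
  have hs1 : q ^ Y * (q ^ (2 * y + 1) * q ^ ((n : ℝ) - c * n)) ≤
      q ^ n / (2 * (n : ℝ) ^ A₀) := by
    rw [le_div_iff₀ (by positivity)]
    have e3 : (q : ℝ) ^ Y ≤ q ^ (c / 4 * n + 1) := by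
      rw [← Real.rpow_natCast]
      exact Real.rpow_le_rpow_of_exponent_le hq1.le hY1.le
    have e4 : (q : ℝ) ^ (2 * y + 1) ≤ q ^ (c / 8 * n + 1) := by
      rw [← Real.rpow_natCast]
      refine Real.rpow_le_rpow_of_exponent_le hq1.le ?_
      push_cast
      linarith
    have h3 : 2 * q ^ 2 * ((n : ℝ) ^ A₀ / (q ^ (c / 8)) ^ n) < 1 := hn3 n (by omega)
    have h4 : 2 * q ^ 2 * (n : ℝ) ^ A₀ ≤ q ^ (c / 8 * n) := by
      rw [← mul_div_assoc, div_lt_one (by positivity)] at h3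
      have e4 : (q ^ (c / 8)) ^ n = q ^ (c / 8 * n) := by
        rw [← Real.rpow_natCast, ← Real.rpow_mul hq0.le]
      rw [e4] at h3
      exact h3.le
    calc q ^ Y * (q ^ (2 * y + 1) * q ^ ((n : ℝ) - c * n)) * (2 * (n : ℝ) ^ A₀)
        ≤ q ^ (c / 4 * n + 1) * (q ^ (c / 8 * n + 1) * q ^ ((n : ℝ) - c * n)) *
          (2 * (n : ℝ) ^ A₀) := by
          gcongr
      _ = (2 * q ^ 2 * (n : ℝ) ^ A₀) * (q ^ (c / 4 * n) * q ^ (c / 8 * n) *
          q ^ ((n : ℝ) - c * n)) := by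
          rw [Real.rpow_add hq0, Real.rpow_add hq0, Real.rpow_one]
          ring
      _ ≤ q ^ (c / 8 * n) * (q ^ (c / 4 * n) * q ^ (c / 8 * n) * q ^ ((n : ℝ) - c * n)) := by
          gcongr
      _ = q ^ (c / 8 * n + (c / 4 * n + c / 8 * n + ((n : ℝ) - c * n))) := by
          rw [← Real.rpow_add hq0, ← Real.rpow_add hq0, ← Real.rpow_add hq0]
      _ ≤ q ^ (n : ℝ) := by
          apply Real.rpow_le_rpow_of_exponent_le hq1.le
          nlinarith
      _ = q ^ n := Real.rpow_natCast _ _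
  have hs2 : q ^ n * Real.sqrt ((n : ℝ) ^ (2 * C₂) *
      (1 / (n : ℝ) ^ (2 * C₂ + 2 * A₀ + 2))) ≤ q ^ n / (2 * (n : ℝ) ^ A₀) := by
    have h6 := sqrt_le (n := n) (C := C₂) (A₀ := A₀) (by omega)
    calc q ^ n * Real.sqrt ((n : ℝ) ^ (2 * C₂) *
        (1 / (n : ℝ) ^ (2 * C₂ + 2 * A₀ + 2))) ≤ q ^ n *
        (1 / (2 * (n : ℝ) ^ A₀)) := mul_le_mul_of_nonneg_left h6 hXpos.le
      _ = q ^ n / (2 * (n : ℝ) ^ A₀) := by ring
  have hs3 : q ^ n / (n : ℝ) ^ A₀ = q ^ n / (2 * (n : ℝ) ^ A₀) +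
      q ^ n / (2 * (n : ℝ) ^ A₀) := by
    field_simp
    ring
  rw [hs3]
  exact add_le_add (hsmall.trans hs1) (hlarge.trans hs2)

end Pool.Agent.H251.MY
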