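import Pool.Agent.H985.CH.Base
import Pool.Agent.H251.MY.TIIC
import Pool.Agent.H251.MY.TIC
import Pool.Agent.H251.MY.Mainac
import Pool.Agent.H251.MY.Mainbc
import Pool.Agent.H251.MY.Fewc
import Pool.Agent.H251.MY.PARC

/-!
# Maynard-Tao with parity over `F_q[X]`, `q` even (helper251): the engine, assembled
-/

namespace Pool.Agent.H251.MY

open Pool.Agent.H251.SP
open Pool.Agent.H985.CH
open Pool.Agent.H985.Gc (s_fb s_ps)

theorem s_tiic : S_tiic := tiic s_fb bf (wm (wm1 ls1) (wm2 ls2)) momw

theorem s_tic : S_tic := tic mob_prog tailw momw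

theorem s_twc : S_twc := twc s_ps tailw momw

theorem s_mainac : S_mainac := mainac s_tiic s_twc buchw (sqw momw)

theorem s_mainbc : S_mainbc := mainbc s_tiic s_tic buchw (sqw momw) momw

theorem s_parc : S_parc := parc comb s_mainac s_mainbc fewc

end Pool.Agent.H251.MY
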