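import Mathlib
import Pool.Agent.H251.MY.StmU
import Pool.Agent.H251.MY.Gapq

/-!
# Clusters of primes `p` such that all `H - p` have prescribed parity, from `S_mayu`

The pattern is `Pool/Agent/H251/MY/Gapq.lean` (helper225); helper297.
-/

set_option autoImplicit false

namespace Pool.Agent.H251.MY

open Polynomial
open scoped Classical
open Pool.Agent.H985.Chow (mob)
open Pool.Agent.H694.Typ (Mn PU mem_Mn mem_PU)
open Pool.Agent.H524.MT.GapA (WW WW_monic)
open Pool.Agent.H524.MT.May (fin_deg)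

open GapQ in
/-- **Task GOLQ.** -/
theorem golq : S_tgolq := by
  intro hM K _ _ _ m
  obtain ⟨k, hk, H⟩ := hM K m
  obtain ⟨g, hg⟩ : ∃ g : Fin k → K[X], ∀ j, g j = WW K (2 * k) * X ^ (j : ℕ) :=
    ⟨fun j => WW K (2 * k) * X ^ (j : ℕ), fun _ => rfl⟩
  have hW0 : WW K (2 * k) ≠ 0 := (WW_monic (2 * k)).ne_zero
  have hinj : Function.Injective g := by
    intro i j hij
    rw [hg, hg] at hij
    have h1 := mul_left_cancel₀ hW0 hij
    have h2 := congrArg natDegree h1
    rw [natDegree_X_pow, natDegree_X_pow] at h2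
    exact Fin.ext h2
  obtain ⟨B, hB⟩ : ∃ B : ℕ, B = (WW K (2 * k)).natDegree + k := ⟨_, rfl⟩
  have hdeg : ∀ j, (g j).natDegree ≤ B := by
    intro j
    rw [hg, hB]
    refine natDegree_mul_le.trans ?_
    rw [natDegree_X_pow]
    have := j.2
    omega
  obtain ⟨δ, c, n₀, hδ, hc, H1⟩ := H g (2 * k) hinj
  refine ⟨B, 2 * k, δ, c, max n₀ (B + 1), hδ, hc, fun n hn a ha hadeg hadm σ hσ => ?_⟩
  have hn1 : n₀ ≤ n := (le_max_left _ _).trans hn
  have hn2 : B + 1 ≤ n := (le_max_right _ _).trans hn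
  obtain ⟨S, hSd⟩ : ∃ S : Finset K[X], S = Finset.univ.image g ∪
      Finset.univ.image (fun j => g j + a) := ⟨_, rfl⟩
  have hcard : S.card ≤ 2 * k := by
    rw [hSd]
    refine (Finset.card_union_le _ _).trans ?_
    have h1 := Finset.card_image_le (s := (Finset.univ : Finset (Fin k))) (f := g)
    have h2 := Finset.card_image_le (s := (Finset.univ : Finset (Fin k))) (f := fun j => g j + a)
    rw [Finset.card_univ, Fintype.card_fin] at h1 h2
    omega
  have hS : ∀ s ∈ S, ∃ j, s = g j ∨ s = g j + a := by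
    intro s hs
    rw [hSd, Finset.mem_union, Finset.mem_image, Finset.mem_image] at hs
    rcases hs with ⟨j, -, hj⟩ | ⟨j, -, hj⟩
    · exact ⟨j, Or.inl hj.symm⟩
    · exact ⟨j, Or.inr hj.symm⟩
  have hS1 : ∀ j, g j ∈ S := fun j => by
    rw [hSd]
    exact Finset.mem_union_left _ (Finset.mem_image_of_mem _ (Finset.mem_univ _))
  have hS2 : ∀ j, g j + a ∈ S := fun j => by
    rw [hSd]
    exact Finset.mem_union_right _ (Finset.mem_image.2 ⟨j, Finset.mem_univ _, rfl⟩)
  have hSn : ∀ s ∈ S, s.natDegree < n := by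
    intro s hs
    obtain ⟨j, hj⟩ := hS s hs
    have h1 := hdeg j
    rcases hj with rfl | rfl
    · omega
    · refine lt_of_le_of_lt (natDegree_add_le _ _) (max_lt (by omega) hadeg)
  have h1 := H1 n hn1 S (fun j => g j + a) (fun _ => σ) hcard hSn
    (fun j => ⟨hS1 j, hS2 j, fun h => ha (by simpa using h)⟩)
    (fun P hP => adm S g a hS hcard (fun j => by rw [hg]; exact dvd_mul_right _ _) P hP
      (hadm P hP)) (fun _ => hσ)
  have hn0 : (1 : ℝ) ≤ n := by
    have : 1 ≤ n := by omega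
    exact_mod_cast this
  have hq0 : (0 : ℝ) < (Fintype.card K : ℝ) := by
    exact_mod_cast (Fintype.card_pos (α := K))
  have h2 : c * (Fintype.card K : ℝ) ^ n / (n : ℝ) ^ (2 * k) ≤
      c * (Fintype.card K : ℝ) ^ n / (n : ℝ) ^ S.card :=
    div_le_div_of_nonneg_left (by positivity) (by positivity) (pow_le_pow_right₀ hn0 hcard)
  refine h2.trans (h1.trans ?_)
  have h3 : ((Mn K n).filter (fun f =>
      m ≤ (Finset.univ.filter (fun j => Irreducible (f + g j) ∧ mob (f + (g j + a)) = σ)).card ∧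
      ∀ s ∈ S, ∀ P : K[X], Irreducible P → P ∣ f + s → δ * n ≤ P.natDegree)).card ≤
      ((Mn K n).filter (fun f =>
        m ≤ {h : K[X] | h.natDegree ≤ B ∧ Irreducible (f + h) ∧ mob (f + h + a) = σ ∧
          ∀ P : K[X], Irreducible P → P ∣ f + h + a → δ * n ≤ P.natDegree}.ncard)).card := by
    refine Finset.card_le_card fun f hf => ?_
    rw [Finset.mem_filter] at hf ⊢
    refine ⟨hf.1, hf.2.1.trans ?_⟩
    have hfin : {h : K[X] | h.natDegree ≤ B ∧ Irreducible (f + h) ∧
        mob (f + h + a) = σ ∧ ∀ P : K[X], Irreducible P → P ∣ f + h + a →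
          δ * n ≤ P.natDegree}.Finite := by
      refine (fin_deg (K := K) (B + 1)).subset fun h hh => ?_
      refine lt_of_le_of_lt degree_le_natDegree ?_
      have := hh.1
      exact_mod_cast Nat.lt_succ_of_le this
    rw [← Finset.card_image_of_injective _ hinj, ← Set.ncard_coe_finset]
    refine Set.ncard_le_ncard ?_ hfin
    intro h hh
    rw [Finset.mem_coe, Finset.mem_image] at hh
    obtain ⟨j, hj, rfl⟩ := hh
    have h5 := (Finset.mem_filter.1 hj).2
    refine ⟨hdeg j, h5.1, ?_, fun P hP hPd => ?_⟩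
    · rw [add_assoc]
      exact h5.2
    · rw [add_assoc] at hPd
      exact hf.2.2 _ (hS2 j) P hP hPd
  exact_mod_cast h3

end Pool.Agent.H251.MY
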