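import Mathlib
import Pool.Agent.H251.MY.StmU
import Pool.Agent.H524.MT.MasterX
import Pool.Agent.H524.MT.LCX
import Pool.Agent.H524.MT.Exp

set_option autoImplicit false

/-!
# Task LINU (helper388): `S_lin` uniformly in the local data

After helper643's proof of `S_lin` (`GvbLin.lean`, after `Pool/Agent/H524/MT/Master.lean`,
`MasterX.lean`); the `n₀` there depends only on `κ`, `η`, `g₀`, `M`.
-/

namespace Pool.Agent.H251.MY

open Polynomial
open scoped Classical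
open Pool.Agent.H985.KP (PA)
open Pool.Agent.H694.Typ (Mn Irn PU)
open Pool.Agent.H524.MT

namespace GVLU

open MasterN MasterX

variable {K : Type} [Field K] [Fintype K]

theorem W_abs {κ z D : ℕ} {V : Finset K[X] → ℝ} (hV : GW K z D V) {M : K[X]}
    {Rt : K[X] → K[X] → Prop} {r : K[X] → ℕ} (hL : Loc M Rt r κ) :
    |∑ T ∈ (PS K M z).powerset, V T * ∏ P ∈ T, gg r P| ≤ La (κ + 2) z := by
  have hgg : ∀ P ∈ PS K M z, 0 ≤ gg r P ∧
      gg r P ≤ ((κ + 2 : ℕ) : ℝ) / (Fintype.card K : ℝ) ^ P.natDegree := by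
    intro P hP
    obtain ⟨a1, a2, -, a3⟩ := PS_mem hP
    obtain ⟨-, -, b1, b2, -⟩ := loc_facts hL a1 a2 a3
    exact ⟨b1, b2⟩
  refine (Finset.abs_sum_le_sum_abs _ _).trans ?_
  refine le_trans ?_ (prod_one_add_le (κ := κ + 2) (PS K M z) (PS_sub M z) (gg r) hgg)
  rw [Finset.prod_one_add]
  refine Finset.sum_le_sum fun T hT => ?_
  rw [Finset.mem_powerset] at hT
  have h1 : 0 ≤ ∏ P ∈ T, gg r P := Finset.prod_nonneg fun P hP => (hgg P (hT hP)).1
  rw [abs_mul, abs_of_nonneg h1]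
  have h2 := hV.1 T
  nlinarith

theorem W_cnt {κ z D : ℕ} {V : Finset K[X] → ℝ} (hV : GW K z D V) {M : K[X]}
    {Rt : K[X] → K[X] → Prop} {r : K[X] → ℕ} (hL : Loc M Rt r κ) :
    ∑ T ∈ (PS K M z).powerset, |V T| * ((∏ P ∈ T, r P : ℕ) : ℝ) ≤
      (Fintype.card K : ℝ) ^ D * La (κ + 2) z := by
  have hq := q2 (K := K)
  have hgg : ∀ P ∈ PS K M z, 0 ≤ (r P : ℝ) / (Fintype.card K : ℝ) ^ P.natDegree ∧
      (r P : ℝ) / (Fintype.card K : ℝ) ^ P.natDegree ≤
        ((κ + 2 : ℕ) : ℝ) / (Fintype.card K : ℝ) ^ P.natDegree := by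
    intro P hP
    obtain ⟨a1, a2, -, a3⟩ := PS_mem hP
    obtain ⟨-, b1, -⟩ := loc_facts hL a1 a2 a3
    refine ⟨by positivity, ?_⟩
    apply div_le_div_of_nonneg_right _ (by positivity)
    push_cast
    linarith
  have h0 := prod_one_add_le (κ := κ + 2) (PS K M z) (PS_sub M z)
    (fun P => (r P : ℝ) / (Fintype.card K : ℝ) ^ P.natDegree) hgg
  refine le_trans ?_ (mul_le_mul_of_nonneg_left h0 (by positivity))
  rw [Finset.prod_one_add, Finset.mul_sum]
  refine Finset.sum_le_sum fun T hT => ?_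
  rw [Finset.mem_powerset] at hT
  have h1 : 0 ≤ ∏ P ∈ T, (r P : ℝ) / (Fintype.card K : ℝ) ^ P.natDegree :=
    Finset.prod_nonneg fun P hP => (hgg P (hT hP)).1
  by_cases hVT : V T = 0
  · rw [hVT, abs_zero, zero_mul]
    positivity
  · have h2 := hV.1 T
    have h3 := (hV.2 T hVT).2
    have h4 : ((∏ P ∈ T, r P : ℕ) : ℝ) = (Fintype.card K : ℝ) ^ (∑ P ∈ T, P.natDegree) *
        ∏ P ∈ T, (r P : ℝ) / (Fintype.card K : ℝ) ^ P.natDegree := by
      rw [← Finset.prod_pow_eq_pow_sum, ← Finset.prod_mul_distrib]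
      push_cast
      refine Finset.prod_congr rfl fun P _ => ?_
      field_simp
    rw [h4]
    have h5 : (Fintype.card K : ℝ) ^ (∑ P ∈ T, P.natDegree) ≤ (Fintype.card K : ℝ) ^ D :=
      pow_le_pow_right₀ (by linarith) h3
    have h6 : (Fintype.card K : ℝ) ^ (∑ P ∈ T, P.natDegree) *
        ∏ P ∈ T, (r P : ℝ) / (Fintype.card K : ℝ) ^ P.natDegree ≤
        (Fintype.card K : ℝ) ^ D *
        ∏ P ∈ T, (r P : ℝ) / (Fintype.card K : ℝ) ^ P.natDegree :=
      mul_le_mul_of_nonneg_right h5 h1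
    have h7 : 0 ≤ (Fintype.card K : ℝ) ^ (∑ P ∈ T, P.natDegree) *
        ∏ P ∈ T, (r P : ℝ) / (Fintype.card K : ℝ) ^ P.natDegree := by positivity
    nlinarith

/-- the indicator of the `a` with `a + g₀ = D p`, `p` irreducible of degree `N` -/
noncomputable def ind (N : ℕ) (D g₀ : K[X]) (a : K[X]) : ℝ :=
  if ∃ p ∈ Irn K N, D * p = a + g₀ then 1 else 0

theorem mem_Irn' {N : ℕ} {p : K[X]} : p ∈ Irn K N ↔ p.Monic ∧ p.natDegree = N ∧ Irreducible p :=
  Pool.Agent.H694.Typ.mem_Irn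

theorem reindex {n N : ℕ} {D g₀ : K[X]} (hD : D.Monic) (hDN : D.natDegree + N = n)
    (hg : g₀.natDegree < n) (m a' : K[X]) (F : K[X] → ℝ) :
    ∑ a ∈ Ac K n m a', ind N D g₀ a * F a =
      ∑ p ∈ (Irn K N).filter (fun p => m ∣ D * p - g₀ - a'), F (D * p - g₀) := by
  unfold ind
  simp_rw [ite_mul, one_mul, zero_mul]
  rw [← Finset.sum_filter]
  symm
  refine Finset.sum_bij (fun p _ => D * p - g₀) ?_ ?_ ?_ ?_
  · intro p hp
    rw [Finset.mem_filter, mem_Irn'] at hp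
    obtain ⟨⟨hp1, hp2, hp3⟩, hp4⟩ := hp
    have h1 : (D * p).Monic := hD.mul hp1
    have h2 : (D * p).natDegree = n := by
      rw [hD.natDegree_mul hp1, hp2, hDN]
    have h3 : g₀.degree < (D * p).degree := by
      rw [degree_eq_natDegree h1.ne_zero, h2]
      exact lt_of_le_of_lt degree_le_natDegree (by exact_mod_cast hg)
    rw [Finset.mem_filter]
    refine ⟨?_, p, mem_Irn'.2 ⟨hp1, hp2, hp3⟩, by ring⟩
    unfold Ac
    rw [Finset.mem_filter, Pool.Agent.H694.Typ.mem_Mn]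
    refine ⟨⟨h1.sub_of_left h3, ?_⟩, hp4⟩
    rw [natDegree_sub_eq_left_of_natDegree_lt (by rw [h2]; exact hg), h2]
  · intro p _ p' _ h
    have h1 : D * p = D * p' := by
      have h2 : D * p - g₀ = D * p' - g₀ := h
      linear_combination h2
    exact mul_left_cancel₀ hD.ne_zero h1
  · intro a ha
    rw [Finset.mem_filter] at ha
    obtain ⟨ha1, p, hp, hpa⟩ := ha
    have e : D * p - g₀ = a := by rw [hpa]; ring
    refine ⟨p, ?_, e⟩
    rw [Finset.mem_filter]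
    refine ⟨hp, ?_⟩
    rw [e]
    unfold Ac at ha1
    exact (Finset.mem_filter.1 ha1).2
  · intro p _
    rfl

/-- the count in one class -/
theorem count_class {n N : ℕ} {D g₀ : K[X]} (hD : D.Monic) (hDN : D.natDegree + N = n)
    (hg : g₀.natDegree < n) {m a' : K[X]} (hm : m.Monic) (hDm : IsCoprime D m)
    (hc : IsCoprime (a' + g₀) m) (hmN : m.natDegree ≤ N) {d₁ : ℕ} (hN : d₁ ≤ N)
    (hd₁ : ∀ (M a₀ : K[X]) (d : ℕ), M.Monic → (1 : K[X]) ∣ M → IsCoprime (1 * a₀ + 0) M → d₁ ≤ d →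
      M.natDegree ≤ d →
      |((d : ℝ) + (1 : K[X]).natDegree) *
          (((Ac K d M a₀).filter (fun a => Irreducible (1 * a + 0))).card : ℝ) -
        (Fintype.card K : ℝ) ^ (d - M.natDegree) / Pm M| ≤
          (Fintype.card K : ℝ) ^ ((3 / 4 : ℝ) * d)) :
    |(N : ℝ) * ∑ a ∈ Ac K n m a', ind N D g₀ a -
      (Fintype.card K : ℝ) ^ (N - m.natDegree) / Pm m| ≤
      (Fintype.card K : ℝ) ^ ((3 / 4 : ℝ) * N) := by
  obtain ⟨s, t, hst⟩ := hDm
  set c : K[X] := s * (a' + g₀) with hcdef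
  have hDc : D * c = (a' + g₀) - m * (t * (a' + g₀)) := by
    rw [hcdef]
    linear_combination (a' + g₀) * hst
  have hcc : IsCoprime c m := by
    have h1 : IsCoprime (D * c) m := by
      rw [hDc, sub_eq_add_neg, ← mul_neg]
      exact hc.add_mul_left_left _
    exact h1.of_mul_left_right
  have h1 := reindex hD hDN hg m a' (fun _ => 1)
  have h2 : ∑ a ∈ Ac K n m a', ind N D g₀ a =
      (((Ac K N m c).filter (fun a => Irreducible (1 * a + 0))).card : ℝ) := by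
    have h3 : ∑ a ∈ Ac K n m a', ind N D g₀ a = ∑ a ∈ Ac K n m a', ind N D g₀ a * 1 := by
      simp_rw [mul_one]
    rw [h3, h1, Finset.sum_const, nsmul_eq_mul, mul_one]
    congr 2
    ext p
    unfold Ac
    rw [Finset.mem_filter, Finset.mem_filter, Finset.mem_filter, mem_Irn',
      Pool.Agent.H694.Typ.mem_Mn, one_mul, add_zero]
    have h4 : m ∣ D * p - g₀ - a' ↔ m ∣ p - c := by
      have e : D * p - g₀ - a' = D * (p - c) - m * (t * (a' + g₀)) := by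
        rw [mul_sub, hDc]
        ring
      rw [e, dvd_sub_left (dvd_mul_right m _)]
      constructor
      · intro h
        have hmD : IsCoprime m D := ⟨t, s, by rw [← hst]; ring⟩
        exact hmD.dvd_of_dvd_mul_left h
      · intro h
        exact h.mul_left D
    rw [h4]
    constructor
    · rintro ⟨⟨p1, p2, p3⟩, p4⟩
      exact ⟨⟨⟨p1, p2⟩, p4⟩, p3⟩
    · rintro ⟨⟨⟨p1, p2⟩, p4⟩, p3⟩
      exact ⟨⟨p1, p2, p3⟩, p4⟩
  have h5 := hd₁ m c N hm (one_dvd m) (by rwa [one_mul, add_zero]) hN hmN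
  rw [natDegree_one, Nat.cast_zero, add_zero] at h5
  rw [h2]
  exact h5

/-- the sum of the terms of one pair `(x, S)` -/
noncomputable def inl (n N : ℕ) (D g₀ M a₀ : K[X]) (Rt : K[X] → K[X] → Prop) (Ex cx : K[X])
    (S : Finset K[X]) : ℝ :=
  ∑ᶠ u ∈ cls Rt S, ∑ a ∈ Ac K n (M * Ex * ∏ P ∈ S, P) (crt M a₀ Ex cx (∏ P ∈ S, P) u),
    ind N D g₀ a

omit [Fintype K] in
theorem coprime_congl {A B g M : K[X]} (h : IsCoprime (A + g) M)
    (hd : M ∣ B - A) : IsCoprime (B + g) M := by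
  obtain ⟨y, hy⟩ := hd
  have e : B + g = A + g + M * y := by
    linear_combination hy
  rw [e]
  exact h.add_mul_left_left _

theorem one_classl {n N : ℕ} {D g₀ : K[X]} (hD : D.Monic) (hDN : D.natDegree + N = n)
    (hg : g₀.natDegree < n) {d₁ : ℕ} (hN : d₁ ≤ N)
    (hd₁ : ∀ (M a₀ : K[X]) (d : ℕ), M.Monic → (1 : K[X]) ∣ M → IsCoprime (1 * a₀ + 0) M → d₁ ≤ d →
      M.natDegree ≤ d →
      |((d : ℝ) + (1 : K[X]).natDegree) *
          (((Ac K d M a₀).filter (fun a => Irreducible (1 * a + 0))).card : ℝ) -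
        (Fintype.card K : ℝ) ^ (d - M.natDegree) / Pm M| ≤
          (Fintype.card K : ℝ) ^ ((3 / 4 : ℝ) * d))
    {M a₀ Ex cx : K[X]} {Rt : K[X] → K[X] → Prop} {r : K[X] → ℕ} {S : Finset K[X]} {z : ℕ}
    (hM : M.Monic) (hE : Ex.Monic) (hS : S ⊆ PS K M z)
    (hdeg : (M * Ex * ∏ P ∈ S, P).natDegree ≤ N)
    (hDc : IsCoprime D (M * Ex * ∏ P ∈ S, P))
    (hca : IsCoprime (a₀ + g₀) M) (hcE : IsCoprime (cx + g₀) Ex)
    (hRt : ∀ P : K[X], P.Monic → Irreducible P → ¬ P ∣ M → ∀ a, Rt P a → ¬ P ∣ a + g₀)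
    (hfin : (cls Rt S).Finite ∧ (cls Rt S).ncard = ∏ P ∈ S, r P)
    (hcrt : ∀ u : K[X], M ∣ crt M a₀ Ex cx (∏ P ∈ S, P) u - a₀ ∧
      Ex ∣ crt M a₀ Ex cx (∏ P ∈ S, P) u - cx ∧
      (∏ P ∈ S, P) ∣ crt M a₀ Ex cx (∏ P ∈ S, P) u - u) :
    |(N : ℝ) * inl n N D g₀ M a₀ Rt Ex cx S - ((∏ P ∈ S, r P : ℕ) : ℝ) *
      ((Fintype.card K : ℝ) ^ (N - (M * Ex * ∏ P ∈ S, P).natDegree) /
        Pm (M * Ex * ∏ P ∈ S, P))| ≤
      ((∏ P ∈ S, r P : ℕ) : ℝ) * (Fintype.card K : ℝ) ^ ((3 / 4 : ℝ) * N) := by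
  set Q : K[X] := ∏ P ∈ S, P with hQ
  set m : ℝ := (Fintype.card K : ℝ) ^ (N - (M * Ex * Q).natDegree) / Pm (M * Ex * Q) with hm
  have hQm : Q.Monic := monic_prod_of_monic _ _ fun P hP => (PS_mem (hS hP)).1
  have hM' : (M * Ex * Q).Monic := (hM.mul hE).mul hQm
  unfold inl
  obtain ⟨hf, hn⟩ := hfin
  rw [finsum_mem_eq_finite_toFinset_sum _ hf]
  have hcard : ((∏ P ∈ S, r P : ℕ) : ℝ) = (hf.toFinset.card : ℝ) := by
    rw [Set.ncard_eq_toFinset_card _ hf] at hn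
    exact_mod_cast hn.symm
  rw [hcard]
  have e1 : (hf.toFinset.card : ℝ) * m = ∑ _u ∈ hf.toFinset, m := by
    rw [Finset.sum_const, nsmul_eq_mul]
  have e2 : (hf.toFinset.card : ℝ) * (Fintype.card K : ℝ) ^ ((3 / 4 : ℝ) * N) =
      ∑ _u ∈ hf.toFinset, (Fintype.card K : ℝ) ^ ((3 / 4 : ℝ) * N) := by
    rw [Finset.sum_const, nsmul_eq_mul]
  rw [e1, e2, Finset.mul_sum, ← Finset.sum_sub_distrib]
  refine (Finset.abs_sum_le_sum_abs _ _).trans (Finset.sum_le_sum fun u hu => ?_)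
  rw [Set.Finite.mem_toFinset] at hu
  obtain ⟨hu1, hu2⟩ := hu
  obtain ⟨c1, c2, c3⟩ := hcrt u
  set a' := crt M a₀ Ex cx Q u with ha'
  have hcop : IsCoprime (a' + g₀) (M * Ex * Q) := by
    refine IsCoprime.mul_right (IsCoprime.mul_right (coprime_congl hca c1) (coprime_congl hcE c2)) ?_
    refine IsCoprime.prod_right fun P hP => ?_
    obtain ⟨p1, p2, -, p3⟩ := PS_mem (hS hP)
    have h1 : P ∣ a' - u := (Finset.dvd_prod_of_mem _ hP).trans c3
    have h2 : ¬ P ∣ u + g₀ := hRt P p1 p2 p3 u (hu2 P hP)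
    exact coprime_congl ((p2.coprime_iff_not_dvd.2 h2).symm) h1
  exact count_class hD hDN hg hM' hDc hcop hdeg hN hd₁

theorem T_subl {n N : ℕ} {D g₀ : K[X]} (hD : D.Monic) (hDN : D.natDegree + N = n)
    (hg : g₀.natDegree < n) {d₁ : ℕ} (hN : d₁ ≤ N)
    (hd₁ : ∀ (M a₀ : K[X]) (d : ℕ), M.Monic → (1 : K[X]) ∣ M → IsCoprime (1 * a₀ + 0) M → d₁ ≤ d →
      M.natDegree ≤ d →
      |((d : ℝ) + (1 : K[X]).natDegree) *
          (((Ac K d M a₀).filter (fun a => Irreducible (1 * a + 0))).card : ℝ) -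
        (Fintype.card K : ℝ) ^ (d - M.natDegree) / Pm M| ≤
          (Fintype.card K : ℝ) ^ ((3 / 4 : ℝ) * d))
    {M a₀ : K[X]} {Rt : K[X] → K[X] → Prop} {r : K[X] → ℕ} {κ z A D₀ : ℕ} {B : ℝ}
    {V : Finset K[X] → ℝ} {ι : Type} {I : Finset ι} {E cc : ι → K[X]} {φ : ι → ℝ}
    (hM : M.Monic) (hL : Loc M Rt r κ)
    (hRt : ∀ P : K[X], P.Monic → Irreducible P → ¬ P ∣ M → ∀ a, Rt P a → ¬ P ∣ a + g₀)
    (hV : GW K z (A * z) V) (hR : RW z D₀ B I E cc φ)
    (hca : IsCoprime (a₀ + g₀) M) (hcE : ∀ x ∈ I, IsCoprime (cc x + g₀) (E x))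
    (hdeg2 : M.natDegree + D₀ + A * z ≤ N)
    (hbigD : ∀ P : K[X], P.Monic → Irreducible P → P ∣ D →
      M.natDegree < P.natDegree ∧ D₀ < P.natDegree ∧ z < P.natDegree)
    (hfin : ∀ S ⊆ PS K M z, (cls Rt S).Finite ∧ (cls Rt S).ncard = ∏ P ∈ S, r P)
    (hcrt : ∀ x ∈ I, ∀ S ⊆ PS K M z, ∀ u : K[X],
      M ∣ crt M a₀ (E x) (cc x) (∏ P ∈ S, P) u - a₀ ∧
      E x ∣ crt M a₀ (E x) (cc x) (∏ P ∈ S, P) u - cc x ∧
      (∏ P ∈ S, P) ∣ crt M a₀ (E x) (cc x) (∏ P ∈ S, P) u - u ∧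
      PA (M * E x * ∏ P ∈ S, P) = PA M ∪ PA (E x) ∪ S ∧
      Disjoint (PA M) (PA (E x)) ∧ Disjoint (PA M ∪ PA (E x)) (S : Set K[X])) :
    |(N : ℝ) * ∑ x ∈ I, φ x * ∑ S ∈ (PS K M z).powerset,
        V S * inl n N D g₀ M a₀ Rt (E x) (cc x) S -
      ((Fintype.card K : ℝ) ^ N / ((Fintype.card K : ℝ) ^ M.natDegree * Pm M)) *
        (∑ T ∈ (PS K M z).powerset, V T * ∏ P ∈ T, gg r P) *
        (∑ x ∈ I, φ x * (1 / ((Fintype.card K : ℝ) ^ (E x).natDegree * Pm (E x))))| ≤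
      (Fintype.card K : ℝ) ^ D₀ * ((Fintype.card K : ℝ) ^ (A * z) * La (κ + 2) z) *
        (Fintype.card K : ℝ) ^ ((3 / 4 : ℝ) * N) := by
  have hq := q2 (K := K)
  have hqp : (0 : ℝ) < Fintype.card K := by linarith
  set C0 : ℝ := (Fintype.card K : ℝ) ^ N / ((Fintype.card K : ℝ) ^ M.natDegree * Pm M) with hC0
  set R : ℝ := (Fintype.card K : ℝ) ^ ((3 / 4 : ℝ) * N) with hRdef
  have hR0 : 0 ≤ R := (Real.rpow_pos_of_pos hqp _).le
  have hterm : ∀ x ∈ I, ∀ S ∈ (PS K M z).powerset,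
      |(N : ℝ) * (V S * inl n N D g₀ M a₀ Rt (E x) (cc x) S) - V S * (C0 * (∏ P ∈ S, gg r P) *
        (1 / ((Fintype.card K : ℝ) ^ (E x).natDegree * Pm (E x))))| ≤
      |V S| * ((∏ P ∈ S, r P : ℕ) : ℝ) * R := by
    intro x hx S hS
    rw [Finset.mem_powerset] at hS
    by_cases hVS : V S = 0
    · rw [hVS]
      simp
    · have h3 := (hV.2 S hVS).2
      have hQm : (∏ P ∈ S, P).Monic := monic_prod_of_monic _ _ fun P hP => (PS_mem (hS hP)).1
      have hE := hR.mon x hx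
      have hd1 : (M * E x * ∏ P ∈ S, P).natDegree =
          M.natDegree + (E x).natDegree + ∑ P ∈ S, P.natDegree := by
        rw [(hM.mul hE).natDegree_mul hQm, hM.natDegree_mul hE, natDegree_prod_of_monic]
        intro P hP
        exact (PS_mem (hS hP)).1
      have hd2 := hR.deg x hx
      have hd3 : (M * E x * ∏ P ∈ S, P).natDegree ≤ N := by omega
      -- `D` is prime to the modulus
      have hDc : IsCoprime D (M * E x * ∏ P ∈ S, P) := by
        have hno : ∀ P : K[X], P.Monic → Irreducible P → P ∣ D →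
            ¬ P ∣ (M * E x * ∏ P ∈ S, P) := by
          intro P h4 h5 h6 h7
          obtain ⟨b1, b2, b3⟩ := hbigD P h4 h5 h6
          rcases h5.prime.dvd_or_dvd h7 with h8 | h8
          · rcases h5.prime.dvd_or_dvd h8 with h9 | h9
            · have := natDegree_le_of_dvd h9 hM.ne_zero
              omega
            · have := natDegree_le_of_dvd h9 hE.ne_zero
              omega
          · obtain ⟨Q, hQ, hPQ⟩ := (h5.prime.dvd_finsetProd_iff _).1 h8
            have h10 := natDegree_le_of_dvd hPQ (PS_mem (hS hQ)).1.ne_zero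
            have h11 := (PS_mem (hS hQ)).2.2.1
            omega
        refine isCoprime_of_irreducible_dvd (fun h0 => hD.ne_zero h0.1) fun P hP hPD hPM => ?_
        have hP0 : P ≠ 0 := hP.ne_zero
        have hu : IsUnit (C P.leadingCoeff⁻¹) :=
          isUnit_C.2 (isUnit_iff_ne_zero.2 (inv_ne_zero (leadingCoeff_ne_zero.2 hP0)))
        exact hno (P * C P.leadingCoeff⁻¹) (monic_mul_leadingCoeff_inv hP0)
          ((irreducible_mul_isUnit hu).2 hP) ((IsUnit.mul_right_dvd hu).2 hPD)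
          ((IsUnit.mul_right_dvd hu).2 hPM)
      have h4 := one_classl hD hDN hg hN hd₁ hM hE hS hd3 hDc hca (hcE x hx) hRt (hfin S hS)
        (fun u => ⟨(hcrt x hx S hS u).1, (hcrt x hx S hS u).2.1, (hcrt x hx S hS u).2.2.1⟩)
      obtain ⟨-, -, -, c4, c5, c6⟩ := hcrt x hx S hS 0
      rw [main_fac hM hE hS hd3 c4 c5 c6] at h4
      have e : (N : ℝ) * (V S * inl n N D g₀ M a₀ Rt (E x) (cc x) S) -
          V S * (C0 * (∏ P ∈ S, gg r P) *
            (1 / ((Fintype.card K : ℝ) ^ (E x).natDegree * Pm (E x)))) =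
          V S * ((N : ℝ) * inl n N D g₀ M a₀ Rt (E x) (cc x) S -
            C0 * (∏ P ∈ S, gg r P) *
            (1 / ((Fintype.card K : ℝ) ^ (E x).natDegree * Pm (E x)))) := by ring
      rw [e, abs_mul, mul_assoc (|V S|)]
      exact mul_le_mul_of_nonneg_left h4 (abs_nonneg _)
  have e : (N : ℝ) * ∑ x ∈ I, φ x * ∑ S ∈ (PS K M z).powerset,
        V S * inl n N D g₀ M a₀ Rt (E x) (cc x) S -
      C0 * (∑ T ∈ (PS K M z).powerset, V T * ∏ P ∈ T, gg r P) *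
        (∑ x ∈ I, φ x * (1 / ((Fintype.card K : ℝ) ^ (E x).natDegree * Pm (E x)))) =
      ∑ x ∈ I, φ x * ∑ S ∈ (PS K M z).powerset,
        ((N : ℝ) * (V S * inl n N D g₀ M a₀ Rt (E x) (cc x) S) -
        V S * (C0 * (∏ P ∈ S, gg r P) *
        (1 / ((Fintype.card K : ℝ) ^ (E x).natDegree * Pm (E x))))) := by
    rw [Finset.mul_sum, Finset.mul_sum, ← Finset.sum_sub_distrib]
    refine Finset.sum_congr rfl fun x _ => ?_
    rw [Finset.sum_sub_distrib, mul_sub]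
    congr 1
    · rw [Finset.mul_sum, Finset.mul_sum, Finset.mul_sum]
      refine Finset.sum_congr rfl fun S _ => ?_
      ring
    · rw [Finset.mul_sum, Finset.sum_mul, Finset.mul_sum]
      refine Finset.sum_congr rfl fun S _ => ?_
      ring
  rw [e]
  refine (Finset.abs_sum_le_sum_abs _ _).trans ?_
  have h5 : ∀ x ∈ I, |φ x * ∑ S ∈ (PS K M z).powerset,
        ((N : ℝ) * (V S * inl n N D g₀ M a₀ Rt (E x) (cc x) S) -
        V S * (C0 * (∏ P ∈ S, gg r P) *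
        (1 / ((Fintype.card K : ℝ) ^ (E x).natDegree * Pm (E x)))))| ≤
      |φ x| * (((Fintype.card K : ℝ) ^ (A * z) * La (κ + 2) z) * R) := by
    intro x hx
    rw [abs_mul]
    apply mul_le_mul_of_nonneg_left _ (abs_nonneg _)
    refine (Finset.abs_sum_le_sum_abs _ _).trans ((Finset.sum_le_sum (hterm x hx)).trans ?_)
    rw [← Finset.sum_mul]
    exact mul_le_mul_of_nonneg_right (W_cnt hV hL) hR0
  refine (Finset.sum_le_sum h5).trans ?_
  rw [← Finset.sum_mul, mul_assoc ((Fintype.card K : ℝ) ^ D₀)]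
  apply mul_le_mul_of_nonneg_right hR.bd1
  have : 0 ≤ La (κ + 2) z := (Real.exp_pos _).le
  positivity

end GVLU

open MasterN GVLU in
/-- **Task LINU.** -/
theorem linu : S_linu := by
  intro K _ _
  refine ⟨1 / 100, by norm_num, ?_⟩
  intro κ η g₀ M hη hM
  obtain ⟨z₀, hz₀1, hz₀⟩ := big_z κ hη
  obtain ⟨d₁, hd₁⟩ := LCXL.lin (K := K) 1 0 one_ne_zero
  obtain ⟨n₁, hn₁⟩ := exists_nat_ge (((M.natDegree : ℝ) + z₀) / η)
  refine ⟨max (max (5 * d₁) (g₀.natDegree + 1)) (max n₁ (100 * M.natDegree + 1)), ?_⟩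
  intro Rt r hL hRt a₀ D n N z A D₀ B V ι I E cc φ hca hn hA hV hzd hAD hR hcE hnN hDN hD hDbig
  have hq := q2 (K := K)
  have hqp : (0 : ℝ) < Fintype.card K := by linarith
  have hn1 : 5 * d₁ ≤ n := ((le_max_left _ _).trans (le_max_left _ _)).trans hn
  have hn2 : g₀.natDegree + 1 ≤ n := ((le_max_right _ _).trans (le_max_left _ _)).trans hn
  have hn3 : n₁ ≤ n := ((le_max_left _ _).trans (le_max_right _ _)).trans hn
  have hn4 : 100 * M.natDegree + 1 ≤ n := ((le_max_right _ _).trans (le_max_right _ _)).trans hn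
  have hnr : (0 : ℝ) < n := by exact_mod_cast (by omega : 0 < n)
  have hNd : d₁ ≤ N := by omega
  have hMz0 : (M.natDegree : ℝ) + z₀ ≤ z := by
    have h1 : ((M.natDegree : ℝ) + z₀) / η ≤ n := hn₁.trans (by exact_mod_cast hn3)
    rw [div_le_iff₀ hη] at h1
    linarith
  have hM0 : (0 : ℝ) ≤ M.natDegree := Nat.cast_nonneg _
  have hz00 : (0 : ℝ) ≤ z₀ := Nat.cast_nonneg _
  have hMz : M.natDegree ≤ z := by
    have : (M.natDegree : ℝ) ≤ z := by linarith
    exact_mod_cast this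
  have hzz : z₀ ≤ z := by
    have : (z₀ : ℝ) ≤ z := by linarith
    exact_mod_cast this
  have hz1 : 1 ≤ z := hz₀1.trans hzz
  have hADn : 100 * (A * z + D₀) ≤ n := by
    have : 100 * ((A * z + D₀ : ℕ) : ℝ) ≤ n := by linarith
    exact_mod_cast this
  have hzA : z ≤ A * z := Nat.le_mul_of_pos_left z (by omega)
  have hdeg2 : M.natDegree + D₀ + A * z ≤ N := by omega
  have hbigD : ∀ P : K[X], P.Monic → Irreducible P → P ∣ D →
      M.natDegree < P.natDegree ∧ D₀ < P.natDegree ∧ z < P.natDegree := by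
    intro P h1 h2 h3
    have h4 := hDbig P h1 h2 h3
    refine ⟨by omega, by omega, by omega⟩
  obtain ⟨hx1, hx2, hx3⟩ := Exp.expw K M Rt r κ hM hL a₀ n z D₀ B V ι I E cc φ hMz hR
  have hg : g₀.natDegree < n := by omega
  have hT := T_subl hD hDN hg hNd hd₁ hM hL hRt hV hR hca hcE hdeg2 hbigD hx2 hx3
  have hG := hx1 (ind N D g₀)
  have hre := reindex hD hDN hg M a₀ (fun a => sw M Rt z V a * rwt I E cc φ a)
  rw [← hre, hG]
  have hS1' := W_abs hV hL
  have hQ := QQ_nonneg hR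
  obtain ⟨hLa1, hLa2⟩ := hz₀ z hzz
  -- the half power
  set L : ℝ := (Fintype.card K : ℝ) ^ ((z : ℝ) / 2) with hLdef
  have hLp : 0 < L := Real.rpow_pos_of_pos hqp _
  have hL2 : (2 : ℝ) ^ ((z : ℝ) / 2) ≤ L :=
    Real.rpow_le_rpow (by norm_num) hq (by positivity)
  have hLL : (Fintype.card K : ℝ) ^ z = L * L := by
    rw [hLdef, ← Real.rpow_add hqp, ← Real.rpow_natCast]
    congr 1
    ring
  have her : er K z = 1 / L := by
    unfold er
    rw [hLdef, neg_div, Real.rpow_neg hqp.le, one_div]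
  have hLa0 : 0 < La (κ + 2) z := Real.exp_pos _
  have hLage : 1 ≤ La (κ + 2) z := by
    unfold La
    rw [← Real.exp_zero]
    apply Real.exp_le_exp.mpr
    have : 0 ≤ Real.log z := Real.log_nonneg (by exact_mod_cast hz1)
    positivity
  have hD0 : (0 : ℝ) ≤ D₀ := Nat.cast_nonneg _
  have hDn : (D₀ : ℝ) ≤ n := by exact_mod_cast (by omega : D₀ ≤ n)
  have hDz : 2 * (D₀ : ℝ) ≤ 2 / η * z := by
    have h1 : (n : ℝ) ≤ z / η := by
      rw [le_div_iff₀ hη]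
      linarith
    have h2 : 2 / η * z = 2 * (z / η) := by ring
    rw [h2]
    linarith
  have hLD : La (κ + 2) z * (2 * D₀) ≤ L := by
    have := mul_le_mul_of_nonneg_left hDz hLa0.le
    linarith
  have hLge : 1 ≤ L := by
    rw [hLdef]
    exact Real.one_le_rpow (by linarith) (by positivity)
  have h2D : 2 * (D₀ : ℝ) ≤ L := by nlinarith
  have ht : (D₀ : ℝ) * ((Fintype.card K : ℝ) ^ z)⁻¹ ≤ 1 / 2 := by
    rw [hLL, ← div_eq_mul_inv, div_le_div_iff₀ (by positivity) (by norm_num)]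
    nlinarith
  have hS2 := S2_sub hR ht
  have hB0 : 0 ≤ B := le_trans (Finset.sum_nonneg fun x _ => by positivity) hR.bd2
  have hst : La (κ + 2) z * (B * (2 * ((D₀ : ℝ) * ((Fintype.card K : ℝ) ^ z)⁻¹))) ≤
      B * (1 / L) := by
    have e : La (κ + 2) z * (B * (2 * ((D₀ : ℝ) * ((Fintype.card K : ℝ) ^ z)⁻¹))) =
        B * ((La (κ + 2) z * (2 * D₀)) / (L * L)) := by
      rw [hLL]
      ring
    rw [e]
    apply mul_le_mul_of_nonneg_left _ hB0
    rw [div_le_div_iff₀ (by positivity) hLp]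
    nlinarith
  -- the error term
  have hPm := Pm_pos (K := K) hM.ne_zero
  have hPm' := Pm_le (K := K) hM.ne_zero
  set C0 : ℝ := (Fintype.card K : ℝ) ^ N / ((Fintype.card K : ℝ) ^ M.natDegree * Pm M) with hC0
  have hC0p : 0 < C0 := by positivity
  have herr : (Fintype.card K : ℝ) ^ D₀ * ((Fintype.card K : ℝ) ^ (A * z) * La (κ + 2) z) *
        (Fintype.card K : ℝ) ^ ((3 / 4 : ℝ) * N) ≤ C0 * (1 / L) := by
    have h1 : (Fintype.card K : ℝ) ^ (D₀ + A * z + z + M.natDegree) *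
        (Fintype.card K : ℝ) ^ ((3 / 4 : ℝ) * N) ≤ (Fintype.card K : ℝ) ^ N := by
      rw [← Real.rpow_natCast, ← Real.rpow_natCast, ← Real.rpow_add hqp]
      apply Real.rpow_le_rpow_of_exponent_le (by linarith)
      have h2 : 4 * (D₀ + A * z + z + M.natDegree) ≤ N := by omega
      have h3 : 4 * ((D₀ + A * z + z + M.natDegree : ℕ) : ℝ) ≤ N := by exact_mod_cast h2
      linarith
    have h2 : (Fintype.card K : ℝ) ^ D₀ * ((Fintype.card K : ℝ) ^ (A * z) * La (κ + 2) z) *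
        (Fintype.card K : ℝ) ^ ((3 / 4 : ℝ) * N) ≤
        (Fintype.card K : ℝ) ^ D₀ * ((Fintype.card K : ℝ) ^ (A * z) * L) *
        (Fintype.card K : ℝ) ^ ((3 / 4 : ℝ) * N) := by
      apply mul_le_mul_of_nonneg_right _ (Real.rpow_pos_of_pos hqp _).le
      apply mul_le_mul_of_nonneg_left _ (by positivity)
      apply mul_le_mul_of_nonneg_left _ (by positivity)
      linarith
    refine h2.trans ?_
    have h3 : (Fintype.card K : ℝ) ^ D₀ * ((Fintype.card K : ℝ) ^ (A * z) * L) *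
        (Fintype.card K : ℝ) ^ ((3 / 4 : ℝ) * N) =
        (Fintype.card K : ℝ) ^ (D₀ + A * z + z + M.natDegree) *
        (Fintype.card K : ℝ) ^ ((3 / 4 : ℝ) * N) *
          (1 / ((Fintype.card K : ℝ) ^ M.natDegree * L)) := by
      rw [pow_add, pow_add, pow_add, hLL]
      field_simp
    rw [h3]
    have h4 : C0 * (1 / L) = (Fintype.card K : ℝ) ^ N *
        (1 / ((Fintype.card K : ℝ) ^ M.natDegree * L)) * (1 / Pm M) := by
      rw [hC0]
      field_simp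
    rw [h4]
    have h5 : 1 ≤ 1 / Pm M := by
      rw [le_div_iff₀ hPm]
      linarith
    have h6 : 0 ≤ (Fintype.card K : ℝ) ^ N * (1 / ((Fintype.card K : ℝ) ^ M.natDegree * L)) := by
      positivity
    have h7 := mul_le_mul_of_nonneg_right h1
      (show 0 ≤ 1 / ((Fintype.card K : ℝ) ^ M.natDegree * L) by positivity)
    nlinarith
  rw [her]
  have hGV : GV M z r V = ∑ T ∈ (PS K M z).powerset, V T * ∏ P ∈ T, gg r P := rfl
  rw [hGV]
  change |(N : ℝ) * ∑ x ∈ I, φ x * ∑ S ∈ (PS K M z).powerset,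
      V S * inl n N D g₀ M a₀ Rt (E x) (cc x) S - C0 * _ * _| ≤ _ at hT
  change |(N : ℝ) * (∑ x ∈ I, φ x * ∑ S ∈ (PS K M z).powerset,
      V S * inl n N D g₀ M a₀ Rt (E x) (cc x) S) - C0 * (_ * _)| ≤ _
  generalize (∑ x ∈ I, φ x * ∑ S ∈ (PS K M z).powerset,
      V S * inl n N D g₀ M a₀ Rt (E x) (cc x) S) = T at hT ⊢
  generalize (∑ T ∈ (PS K M z).powerset, V T * ∏ P ∈ T, gg r P) = S1 at hT hS1' ⊢
  generalize (∑ x ∈ I, φ x * (1 / ((Fintype.card K : ℝ) ^ (E x).natDegree * Pm (E x)))) = S2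
    at hT hS2
  generalize QQ I E φ = Q at hQ hS2 ⊢
  have h4 : |S1 * (S2 - Q)| ≤ B * (1 / L) := by
    rw [abs_mul]
    refine le_trans ?_ hst
    exact mul_le_mul hS1' hS2 (abs_nonneg _) hLa0.le
  have e1 : (N : ℝ) * T - C0 * (S1 * Q) = ((N : ℝ) * T - C0 * S1 * S2) + C0 * (S1 * (S2 - Q)) := by
    ring
  rw [e1]
  refine (abs_add_le _ _).trans ?_
  have h5 : |C0 * (S1 * (S2 - Q))| ≤ C0 * (B * (1 / L)) := by
    rw [abs_mul, abs_of_pos hC0p]
    exact mul_le_mul_of_nonneg_left h4 hC0p.le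
  have h6 := hT.trans herr
  have e2 : C0 * ((B + 1) * (1 / L)) = C0 * (1 / L) + C0 * (B * (1 / L)) := by ring
  rw [e2]
  exact add_le_add h6 h5

end Pool.Agent.H251.MY
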