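import Mathlib
import Pool.Agent.H251.MY.StmU
import Pool.Agent.H524.MT.Master

/-!
# Task MASPU (helper828, helper86, for helper251): the main estimate with parity, uniform version

Adapted from the proof of MASP by helper86.
-/

set_option autoImplicit false

namespace Pool.Agent.H251.MY

open Polynomial Finset
open scoped Classical
open Pool.Agent.H985.Chow (mob)
open Pool.Agent.H985.KP (PA)
open Pool.Agent.H694.Typ (Mn Irn PU mem_Mn mem_Irn mem_PU card_Mn sq_bound)
open Pool.Agent.H985.CH (Hh SqM Shf Bdd Exc)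
open Pool.Agent.H524.MT (Ac Pm GW BH PS Loc sw rwt RW QQ VR er Rz ph lam dia wV yr S_rwmx)

namespace MaspuN

variable {K : Type} [Field K] [Fintype K]

theorem add_mem {n : ℕ} {f s : K[X]} (hf : f ∈ Mn K n) (hs : s.degree < (n : WithBot ℕ)) :
    f + s ∈ Mn K n := by
  rw [mem_Mn] at hf ⊢
  have h1 : s.degree < f.degree := by
    rw [degree_eq_natDegree hf.1.ne_zero, hf.2]
    exact hs
  refine ⟨hf.1.add_of_left h1, ?_⟩
  rw [natDegree_add_eq_left_of_degree_lt h1, hf.2]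

omit [Fintype K] in
theorem dsm (a : K[X]) (Q : K[X]) : Q ∣ a - a %ₘ Q :=
  ⟨a /ₘ Q, by linear_combination (-1 : K[X]) * modByMonic_add_div a Q⟩

omit [Fintype K] in
theorem eod {Q u v : K[X]} (hu : u.degree < Q.degree) (hv : v.degree < Q.degree)
    (h : Q ∣ u - v) : u = v :=
  sub_eq_zero.1 (eq_zero_of_dvd_of_degree_lt h ((degree_sub_le u v).trans_lt (max_lt hu hv)))

omit [Fintype K] in
theorem ra_set {S : Finset K[X]} {P : K[X]} (hP : P.Monic) :
    {c : K[X] | c.degree < P.degree ∧ Ra S P c} = ↑(S.image (fun s => (-s) %ₘ P)) := by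
  ext c
  rw [Finset.mem_coe, Finset.mem_image]
  constructor
  · rintro ⟨hc, s, hs, hd⟩
    refine ⟨s, hs, ?_⟩
    apply eod (degree_modByMonic_lt _ hP) hc
    have h1 := dsm (-s) P
    have h2 : (-s) %ₘ P - c = -(c + s) - ((-s) - (-s) %ₘ P) := by ring
    rw [h2]
    exact dvd_sub ((dvd_neg).2 hd) h1
  · rintro ⟨s, hs, rfl⟩
    refine ⟨degree_modByMonic_lt _ hP, s, hs, ?_⟩
    have h1 := dsm (-s) P
    have h2 : (-s) %ₘ P + s = -((-s) - (-s) %ₘ P) := by ring
    rw [h2]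
    exact (dvd_neg).2 h1

theorem loc_of_adu {S : Finset K[X]} {M : K[X]} {k κ : ℕ} {g : Fin k → K[X]} (hA : Adu κ g M)
    (hS : S.card ≤ κ) {s₀ : K[X]} (hs₀ : s₀ ∈ S) :
    Loc M (Ru S s₀) (fun P => nr S P - 1) κ := by
  refine ⟨?_, ?_, ?_, ?_⟩
  · intro P a u
    have key : ∀ a u : K[X], Ru S s₀ P (a + P * u) → Ru S s₀ P a := by
      rintro a u ⟨⟨s, hs, hd⟩, hn⟩
      refine ⟨⟨s, hs, ?_⟩, fun hd' => hn ?_⟩
      · have h1 : a + s = a + P * u + s - P * u := by ring
        rw [h1]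
        exact dvd_sub hd (dvd_mul_right _ _)
      · have h1 : a + P * u + s₀ = a + s₀ + P * u := by ring
        rw [h1]
        exact dvd_add hd' (dvd_mul_right _ _)
    refine ⟨key a u, fun h => key (a + P * u) (-u) ?_⟩
    have h1 : a + P * u + P * -u = a := by ring
    rw [h1]
    exact h
  · intro P hP hPi hPM
    have hfin : {c : K[X] | c.degree < P.degree ∧ Ra S P c}.Finite := by
      rw [ra_set hP]
      exact Finset.finite_toSet _
    have hle : nu S P ≤ S.card := by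
      unfold nu
      rw [ra_set hP, Set.ncard_coe_finset]
      exact Finset.card_image_le
    have hnr : nr S P = nu S P := min_eq_left hle
    have hset : {c : K[X] | c.degree < P.degree ∧ Ru S s₀ P c} =
        {c : K[X] | c.degree < P.degree ∧ Ra S P c} \ {(-s₀) %ₘ P} := by
      ext c
      constructor
      · rintro ⟨hc, hR, hn⟩
        refine ⟨⟨hc, hR⟩, fun h => hn ?_⟩
        rw [Set.mem_singleton_iff] at h
        rw [h]
        have h1 := dsm (-s₀) P
        have h2 : (-s₀) %ₘ P + s₀ = -((-s₀) - (-s₀) %ₘ P) := by ring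
        rw [h2]
        exact (dvd_neg).2 h1
      · rintro ⟨⟨hc, hR⟩, hn⟩
        refine ⟨hc, hR, fun h => hn ?_⟩
        rw [Set.mem_singleton_iff]
        apply eod hc (degree_modByMonic_lt _ hP)
        have h1 := dsm (-s₀) P
        have h2 : c - (-s₀) %ₘ P = (c + s₀) + ((-s₀) - (-s₀) %ₘ P) := by ring
        rw [h2]
        exact dvd_add h h1
    have hmem : (-s₀) %ₘ P ∈ {c : K[X] | c.degree < P.degree ∧ Ra S P c} := by
      rw [ra_set hP, Finset.mem_coe, Finset.mem_image]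
      exact ⟨s₀, hs₀, rfl⟩
    rw [hset, Set.ncard_sdiff_singleton_of_mem hmem]
    change nu S P - 1 = nr S P - 1
    rw [hnr]
  · intro P
    exact (Nat.sub_le _ _).trans ((min_le_right _ _).trans hS)
  · exact hA.big

theorem sw_abs {z D : ℕ} {V : Finset K[X] → ℝ} (hV : GW K z D V) (M : K[X])
    (Rt : K[X] → K[X] → Prop) (a : K[X]) : |sw M Rt z V a| ≤ 2 * (Fintype.card K : ℝ) ^ D := by
  have hq := Pool.Agent.H524.MT.MasterN.q2 (K := K)
  unfold sw
  generalize ((PS K M z).filter (fun P => Rt P a)).powerset = F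
  have h1 : |∑ T ∈ F, V T| ≤ ∑ T ∈ F.filter (fun T => V T ≠ 0), (1 : ℝ) := by
    refine (Finset.abs_sum_le_sum_abs _ _).trans ?_
    rw [Finset.sum_filter]
    refine Finset.sum_le_sum fun T _ => ?_
    by_cases h : V T = 0
    · simp [h]
    · rw [if_pos h]
      exact hV.1 T
  refine h1.trans ?_
  rw [Finset.sum_const, nsmul_eq_mul, mul_one]
  have h2 : (F.filter (fun T => V T ≠ 0)).card ≤
      ((range (D + 1)).biUnion (fun j => Mn K j)).card := by
    refine Finset.card_le_card_of_injOn (fun T => ∏ P ∈ T, P) ?_ ?_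
    · intro T hT
      rw [Finset.mem_coe, Finset.mem_filter] at hT
      obtain ⟨h3, h4⟩ := hV.2 T hT.2
      rw [Finset.mem_coe, Finset.mem_biUnion]
      refine ⟨(∏ P ∈ T, P).natDegree, ?_, ?_⟩
      · rw [Finset.mem_range, natDegree_prod_of_monic]
        · omega
        · intro P hP
          exact (mem_PU.1 (h3 hP)).1
      · rw [mem_Mn]
        exact ⟨monic_prod_of_monic _ _ fun P hP => (mem_PU.1 (h3 hP)).1, rfl⟩
    · intro T hT T' hT' h
      rw [Finset.mem_coe, Finset.mem_filter] at hT hT'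
      have key : ∀ T T' : Finset K[X], T ⊆ PU K z → T' ⊆ PU K z →
          ∏ P ∈ T, P = ∏ P ∈ T', P → T ⊆ T' := by
        intro T T' hT hT' h P hP
        have h5 : P ∣ ∏ P ∈ T', P := by
          rw [← h]
          exact Finset.dvd_prod_of_mem _ hP
        have hPm := mem_PU.1 (hT hP)
        obtain ⟨Q, hQ, hPQ⟩ := (Prime.dvd_finsetProd_iff hPm.2.1.prime _).1 h5
        have hQm := mem_PU.1 (hT' hQ)
        have h6 : P = Q := eq_of_monic_of_associated hPm.1 hQm.1
          (hPm.2.1.associated_of_dvd hQm.2.1 hPQ)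
        rw [h6]
        exact hQ
      exact Finset.Subset.antisymm (key T T' (hV.2 T hT.2).1 (hV.2 T' hT'.2).1 h)
        (key T' T (hV.2 T' hT'.2).1 (hV.2 T hT.2).1 h.symm)
  have h3 : ((range (D + 1)).biUnion (fun j => Mn K j)).card ≤
      ∑ j ∈ range (D + 1), Fintype.card K ^ j := by
    refine Finset.card_biUnion_le.trans (le_of_eq ?_)
    refine Finset.sum_congr rfl fun j _ => ?_
    exact card_Mn j
  have h4 : ∀ D : ℕ, ∑ j ∈ range (D + 1), (Fintype.card K : ℝ) ^ j ≤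
      2 * (Fintype.card K : ℝ) ^ D := by
    intro D
    induction D with
    | zero => simp
    | succ D ih =>
      rw [Finset.sum_range_succ, pow_succ]
      have h5 : 0 < (Fintype.card K : ℝ) ^ D := by positivity
      nlinarith
  have h5 : ((F.filter (fun T => V T ≠ 0)).card : ℝ) ≤
      ∑ j ∈ range (D + 1), (Fintype.card K : ℝ) ^ j := by
    exact_mod_cast h2.trans h3
  exact h5.trans (h4 D)

theorem rwt_le {z D : ℕ} {B : ℝ} {ι : Type} {I : Finset ι} {E c : ι → K[X]} {φ : ι → ℝ}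
    (hR : RW z D B I E c φ) (a : K[X]) : rwt I E c φ a ≤ (Fintype.card K : ℝ) ^ D := by
  unfold rwt
  refine le_trans ?_ hR.bd1
  refine (Finset.sum_le_sum (fun x _ => le_abs_self (φ x))).trans ?_
  exact Finset.sum_le_sum_of_subset_of_nonneg (Finset.filter_subset _ _)
    (fun x _ _ => abs_nonneg _)

theorem sq_cnt {n : ℕ} (z : ℕ) {b : K[X]} (hb : b.degree < (n : WithBot ℕ)) :
    (((Mn K n).filter (fun f => ∃ g : K[X], g.Monic ∧ z < g.natDegree ∧
      g ^ 2 ∣ f + b)).card : ℝ) ≤ (Fintype.card K : ℝ) ^ n * (1 / 2) ^ z := by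
  refine le_trans ?_ (sq_bound n z)
  have h1 : ((Mn K n).filter (fun f => ∃ g : K[X], g.Monic ∧ z < g.natDegree ∧
      g ^ 2 ∣ f + b)).card ≤ ((Mn K n).filter (fun b => ∃ g : K[X], g.Monic ∧ z < g.natDegree ∧
    g ^ 2 ∣ b)).card := by
    refine Finset.card_le_card_of_injOn (fun f => f + b) ?_ ?_
    · intro f hf
      rw [Finset.mem_coe, Finset.mem_filter] at hf ⊢
      exact ⟨add_mem hf.1 hb, hf.2⟩
    · intro f _ f' _ h
      exact add_right_cancel h
  exact_mod_cast h1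

theorem small (c : ℝ) (m : ℕ) {η : ℝ} (hη : 0 < η) : ∃ n₀ : ℕ, ∀ n z : ℕ, n₀ ≤ n →
    η * n ≤ z → c * (n : ℝ) ^ m * (2 : ℝ) ^ (-(z : ℝ) / 2) ≤ 1 := by
  have h1 := tendsto_pow_const_div_const_pow_of_one_lt m (r := √2)
    (by rw [show (1 : ℝ) = √1 by simp]; exact Real.sqrt_lt_sqrt (by norm_num) (by norm_num))
  have h2 : Filter.Tendsto (fun n : ℕ => |c| * (1 / η) ^ m *
      ((n : ℝ) ^ m / √2 ^ n)) Filter.atTop (nhds 0) := by
    have := h1.const_mul (|c| * (1 / η) ^ m)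
    rwa [mul_zero] at this
  have h3 := h2.eventually (gt_mem_nhds (show (0 : ℝ) < 1 by norm_num))
  rw [Filter.eventually_atTop] at h3
  obtain ⟨z₁, hz₁⟩ := h3
  obtain ⟨n₀, hn₀⟩ := exists_nat_ge ((z₁ : ℝ) / η)
  refine ⟨n₀, ?_⟩
  intro n z hn hz
  have hn1 : (n₀ : ℝ) ≤ n := by exact_mod_cast hn
  have h4 : (z₁ : ℝ) ≤ z := by
    have h5 := (div_le_iff₀ hη).1 (hn₀.trans hn1)
    linarith
  have h4' : z₁ ≤ z := by exact_mod_cast h4
  have h5 := (hz₁ z h4').le
  have e2 : (2 : ℝ) ^ (-(z : ℝ) / 2) = (√2 ^ z)⁻¹ := by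
    rw [Real.sqrt_eq_rpow, ← Real.rpow_natCast, ← Real.rpow_mul (by norm_num),
      ← Real.rpow_neg (by norm_num)]
    congr 1
    ring
  have hs : 0 < √2 ^ z := by positivity
  have hnz : (n : ℝ) ≤ 1 / η * z := by
    rw [one_div, ← div_eq_inv_mul, le_div_iff₀ hη]
    linarith
  have h6 : (n : ℝ) ^ m ≤ (1 / η) ^ m * (z : ℝ) ^ m := by
    rw [← mul_pow]
    exact pow_le_pow_left₀ (Nat.cast_nonneg _) hnz m
  rw [e2]
  calc c * (n : ℝ) ^ m * (√2 ^ z)⁻¹ ≤ |c| * (n : ℝ) ^ m * (√2 ^ z)⁻¹ := by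
        apply mul_le_mul_of_nonneg_right _ (by positivity)
        exact mul_le_mul_of_nonneg_right (le_abs_self c) (by positivity)
    _ ≤ |c| * ((1 / η) ^ m * (z : ℝ) ^ m) * (√2 ^ z)⁻¹ := by
        apply mul_le_mul_of_nonneg_right _ (by positivity)
        exact mul_le_mul_of_nonneg_left h6 (abs_nonneg _)
    _ = |c| * (1 / η) ^ m * ((z : ℝ) ^ m / √2 ^ z) := by ring
    _ ≤ 1 := h5

theorem sw_facts {κ z A : ℕ} {Vm Vp : Finset K[X] → ℝ} (hB : BH K κ z A Vm Vp) (M : K[X])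
    (Rt : K[X] → K[X] → Prop) (a : K[X]) :
    |sw M Rt z Vm a| ≤ 2 * sw M Rt z Vp a - sw M Rt z Vm a := by
  by_cases h : ∀ P ∈ PS K M z, ¬ Rt P a
  · have h1 : (PS K M z).filter (fun P => Rt P a) = ∅ := by
      rw [Finset.filter_eq_empty_iff]
      intro P hP
      exact h P hP
    have h2 : sw M Rt z Vm a = 1 := by
      unfold sw
      rw [h1, Finset.powerset_empty, Finset.sum_singleton, hB.em]
    have h3 : sw M Rt z Vp a = 1 := by
      unfold sw
      rw [h1, Finset.powerset_empty, Finset.sum_singleton, hB.ep]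
    rw [h2, h3]
    norm_num
  · have h2 : sw M Rt z Vm a ≤ 0 := by
      have h3 := Pool.Agent.H524.MT.MasterN.sw_le hB M Rt a
      rw [if_neg h] at h3
      exact h3
    have h3 : 0 ≤ sw M Rt z Vp a := by
      unfold sw
      exact hB.lp _ ((Finset.filter_subset _ _).trans (Pool.Agent.H524.MT.MasterN.PS_sub M z))
    rw [abs_of_nonpos h2]
    linarith

theorem wV_nonneg {k : ℕ} (R : Fin k → Finset K[X]) (y : (Fin k → K[X]) → ℝ)
    (v : Fin k → K[X]) : 0 ≤ wV R y v := by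
  unfold wV
  exact sq_nonneg _

theorem transfer {n : ℕ} {M g a₁ : K[X]} (hg : g.degree < (n : WithBot ℕ)) (F : K[X] → ℝ) :
    ∑ p ∈ (Irn K n).filter (fun p => M ∣ p - g - a₁), F (p - g) =
      ∑ f ∈ (Ac K n M a₁).filter (fun f => Irreducible (f + g)), F f := by
  refine Finset.sum_nbij' (fun p => p - g) (fun f => f + g) ?_ ?_ ?_ ?_ ?_
  · intro p hp
    rw [Finset.mem_filter, mem_Irn] at hp
    rw [Finset.mem_filter]
    refine ⟨?_, ?_⟩
    · unfold Ac
      rw [Finset.mem_filter]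
      refine ⟨?_, hp.2⟩
      rw [sub_eq_add_neg]
      exact add_mem (mem_Mn.2 ⟨hp.1.1, hp.1.2.1⟩) (by rw [degree_neg]; exact hg)
    · rw [sub_add_cancel]
      exact hp.1.2.2
  · intro f hf
    rw [Finset.mem_filter] at hf
    obtain ⟨h1, h2⟩ := hf
    unfold Ac at h1
    rw [Finset.mem_filter] at h1
    rw [Finset.mem_filter, mem_Irn]
    have h3 := mem_Mn.1 (add_mem h1.1 hg)
    refine ⟨⟨h3.1, h3.2, h2⟩, ?_⟩
    rw [add_sub_cancel_right]
    exact h1.2
  · intro p _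
    rw [sub_add_cancel]
  · intro f _
    rw [add_sub_cancel_right]
  · intro p _
    rfl

omit [Fintype K] in
theorem mob_cases (F : K[X]) : mob F = 1 ∨ mob F = -1 ∨ mob F = 0 ∧ ¬ Squarefree F := by
  unfold mob
  by_cases h : Squarefree F
  · rw [if_pos h]
    rcases neg_one_pow_eq_or ℤ (Multiset.card (UniqueFactorizationMonoid.factors F)) with h1 | h1
    · exact Or.inl h1
    · exact Or.inr (Or.inl h1)
  · rw [if_neg h]
    exact Or.inr (Or.inr ⟨rfl, h⟩)

theorem not_dvd_g {M P g f : K[X]} {z n : ℕ} (hf : f ∈ Mn K n)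
    (hg : g.degree < (n : WithBot ℕ)) (hz : z < n) (hi : Irreducible (f + g))
    (hP : P ∈ PS K M z) : ¬ P ∣ f + g := by
  intro hd
  obtain ⟨-, h2, h3, -⟩ := Pool.Agent.H524.MT.MasterN.PS_mem hP
  have h4 := h2.associated_of_dvd hi hd
  have h5 := natDegree_eq_of_degree_eq (degree_eq_degree_of_associated h4)
  have h6 := (mem_Mn.1 (add_mem hf hg)).2
  omega

theorem sq_ex {S : Finset K[X]} {M a₁ b g f : K[X]} {z n : ℕ} (hf : f ∈ Mn K n)
    (hb : b.degree < (n : WithBot ℕ)) (hbS : b ∈ S)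
    (hg : g.degree < (n : WithBot ℕ)) (hz : z < n) (hi : Irreducible (f + g)) (hM : M ∣ f - a₁)
    (hco : IsCoprime (a₁ + b) M) (hs : ∀ P ∈ PS K M z, ¬ Ru S g P f)
    (hsq : ¬ Squarefree (f + b)) : ∃ G : K[X], G.Monic ∧ z < G.natDegree ∧ G ^ 2 ∣ f + b := by
  have h0 := mem_Mn.1 (add_mem hf hb)
  have h1 : ∃ P : K[X], Irreducible P ∧ P * P ∣ f + b := by
    by_contra hc
    push Not at hc
    exact hsq ((squarefree_iff_irreducible_sq_not_dvd_of_ne_zero h0.1.ne_zero).2 hc)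
  obtain ⟨P, hP, hPd⟩ := h1
  have ha : Associated P (normalize P) := associated_normalize P
  have hQi : Irreducible (normalize P) := ha.irreducible hP
  have hQm : (normalize P).Monic := monic_normalize hP.ne_zero
  have hQd : (normalize P) ^ 2 ∣ f + b := by
    refine (pow_dvd_pow_of_dvd ha.symm.dvd 2).trans ?_
    rw [pow_two]
    exact hPd
  refine ⟨normalize P, hQm, ?_, hQd⟩
  generalize normalize P = Q at hQi hQm hQd
  have hQ1 : Q ∣ f + b := (dvd_pow_self Q two_ne_zero).trans hQd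
  by_contra hz'
  rw [not_lt] at hz'
  by_cases hQM : Q ∣ M
  · have h2 : Q ∣ a₁ + b := by
      have h3 : a₁ + b = (f + b) - (f - a₁) := by ring
      rw [h3]
      exact dvd_sub hQ1 (hQM.trans hM)
    exact hQi.not_isUnit (hco.isUnit_of_dvd' h2 hQM)
  · have hQS : Q ∈ PS K M z := by
      unfold PS
      rw [Finset.mem_filter, mem_PU]
      exact ⟨⟨hQm, hQi, hz'⟩, hQM⟩
    exact hs Q hQS ⟨⟨b, hbS, hQ1⟩, not_dvd_g hf hg hz hi hQS⟩

theorem ra_of_ru {S : Finset K[X]} {M g f : K[X]} {z n : ℕ} (hf : f ∈ Mn K n)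
    (hg : g.degree < (n : WithBot ℕ)) (hz : z < n) (hi : Irreducible (f + g))
    (hs : ∀ P ∈ PS K M z, ¬ Ru S g P f) : ∀ P ∈ PS K M z, ¬ Ra S P f := fun P hP hR =>
  hs P hP ⟨hR, not_dvd_g hf hg hz hi hP⟩

theorem key_point {S : Finset K[X]} {κ z A n : ℕ} {Vm Vp : Finset K[X] → ℝ}
    (hB : BH K κ z A Vm Vp) {M a₁ b g : K[X]} (hb : b.degree < (n : WithBot ℕ))
    (hg : g.degree < (n : WithBot ℕ)) (hbS : b ∈ S) (hco : IsCoprime (a₁ + b) M)
    (hz : z < n) (w : K[X] → ℝ) (hw : ∀ f, 0 ≤ w f) {B : ℝ} (hwB : ∀ f ∈ Mn K n, w f ≤ B)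
    (hB0 : 0 ≤ B) (σ : ℤ) (hσ : σ = 1 ∨ σ = -1) :
    1 / 2 * (∑ f ∈ (Ac K n M a₁).filter (fun f => Irreducible (f + g)),
        sw M (Ru S g) z Vm f * w f) -
      1 / 2 * |∑ f ∈ (Ac K n M a₁).filter (fun f => Irreducible (f + g)),
        sw M (Ru S g) z Vm f * w f * (mob (f + b) : ℝ)| -
      1 / 2 * (B * ((Fintype.card K : ℝ) ^ n * (1 / 2) ^ z)) ≤
    ∑ f ∈ (Ac K n M a₁).filter
      (fun f => Irreducible (f + g) ∧ mob (f + b) = σ ∧ ∀ P ∈ PS K M z, ¬ Ra S P f), w f := by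
  have hmem : ∀ f ∈ (Ac K n M a₁).filter (fun f => Irreducible (f + g)),
      f ∈ Mn K n ∧ M ∣ f - a₁ ∧ Irreducible (f + g) := by
    intro f hf
    rw [Finset.mem_filter] at hf
    obtain ⟨h1, h2⟩ := hf
    unfold Ac at h1
    rw [Finset.mem_filter] at h1
    exact ⟨h1.1, h1.2, h2⟩
  have hpt : ∀ f ∈ (Ac K n M a₁).filter (fun f => Irreducible (f + g)),
      1 / 2 * (sw M (Ru S g) z Vm f * w f) +
        1 / 2 * ((σ : ℝ) * (sw M (Ru S g) z Vm f * w f * (mob (f + b) : ℝ))) ≤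
      (if (mob (f + b) = σ ∧ ∀ P ∈ PS K M z, ¬ Ra S P f) then w f else 0) +
        1 / 2 * (if (∃ G : K[X], G.Monic ∧ z < G.natDegree ∧ G ^ 2 ∣ f + b) then B else 0) := by
    intro f hf
    obtain ⟨h1, h2, h3⟩ := hmem f hf
    have h4 := Pool.Agent.H524.MT.MasterN.sw_le hB M (Ru S g) f
    have hwf := hw f
    have hE0 : (0 : ℝ) ≤ 1 / 2 *
        (if (∃ G : K[X], G.Monic ∧ z < G.natDegree ∧ G ^ 2 ∣ f + b) then B else 0) := by
      split_ifs
      · linarith
      · norm_num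
    have hT0 : (0 : ℝ) ≤
        (if (mob (f + b) = σ ∧ ∀ P ∈ PS K M z, ¬ Ra S P f) then w f else 0) := by
      split_ifs
      · exact hwf
      · exact le_rfl
    have hσ2 : (σ : ℝ) * (σ : ℝ) = 1 := by
      rcases hσ with h | h <;> rw [h] <;> norm_num
    by_cases hsf : ∀ P ∈ PS K M z, ¬ Ru S g P f
    · rw [if_pos hsf] at h4
      have h5 : sw M (Ru S g) z Vm f * w f ≤ w f := by
        have := mul_le_mul_of_nonneg_right h4 hwf
        rwa [one_mul] at this
      have hm3 : mob (f + b) = σ ∨ mob (f + b) = -σ ∨ mob (f + b) = 0 ∧ ¬ Squarefree (f + b) := by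
        rcases mob_cases (f + b) with h | h | h <;> rcases hσ with h' | h'
        · left; rw [h, h']
        · right; left; rw [h, h']; norm_num
        · right; left; rw [h, h']
        · left; rw [h, h']
        · right; right; exact h
        · right; right; exact h
      rcases hm3 with h | h | ⟨h, hns⟩
      · rw [if_pos ⟨h, ra_of_ru h1 hg hz h3 hsf⟩, h]
        have e : 1 / 2 * (sw M (Ru S g) z Vm f * w f) +
          1 / 2 * ((σ : ℝ) * (sw M (Ru S g) z Vm f * w f * (σ : ℝ))) =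
          1 / 2 * (sw M (Ru S g) z Vm f * w f) * (1 + (σ : ℝ) * (σ : ℝ)) := by ring
        rw [e, hσ2]
        linarith
      · rw [h]
        push_cast
        have e : 1 / 2 * (sw M (Ru S g) z Vm f * w f) +
          1 / 2 * ((σ : ℝ) * (sw M (Ru S g) z Vm f * w f * (-(σ : ℝ)))) =
          1 / 2 * (sw M (Ru S g) z Vm f * w f) * (1 - (σ : ℝ) * (σ : ℝ)) := by ring
        rw [e, hσ2]
        have := hT0
        rw [h] at this
        linarith
      · rw [if_pos (sq_ex h1 hb hbS hg hz h3 h2 hco hsf hns), h]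
        push_cast
        rw [h] at hT0
        have := hwB f h1
        linarith
    · rw [if_neg hsf] at h4
      have h5 : sw M (Ru S g) z Vm f * w f ≤ 0 := mul_nonpos_of_nonpos_of_nonneg h4 hwf
      have h6 : -1 ≤ (σ : ℝ) * (mob (f + b) : ℝ) := by
        rcases mob_cases (f + b) with h | h | h <;> rcases hσ with h' | h'
        · rw [h, h']; norm_num
        · rw [h, h']; norm_num
        · rw [h, h']; norm_num
        · rw [h, h']; norm_num
        · rw [h.1, h']; norm_num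
        · rw [h.1, h']; norm_num
      have e : 1 / 2 * (sw M (Ru S g) z Vm f * w f) +
          1 / 2 * ((σ : ℝ) * (sw M (Ru S g) z Vm f * w f * (mob (f + b) : ℝ))) =
          1 / 2 * ((sw M (Ru S g) z Vm f * w f) * (1 + (σ : ℝ) * (mob (f + b) : ℝ))) := by ring
      rw [e]
      have h7 : (sw M (Ru S g) z Vm f * w f) * (1 + (σ : ℝ) * (mob (f + b) : ℝ)) ≤ 0 :=
        mul_nonpos_of_nonpos_of_nonneg h5 (by linarith)
      linarith
  have hsum := Finset.sum_le_sum hpt
  rw [Finset.sum_add_distrib, Finset.sum_add_distrib, ← Finset.mul_sum, ← Finset.mul_sum,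
    ← Finset.mul_sum, ← Finset.mul_sum, ← Finset.sum_filter, Finset.filter_filter] at hsum
  have hcnt : ∑ f ∈ (Ac K n M a₁).filter (fun f => Irreducible (f + g)),
      (if (∃ G : K[X], G.Monic ∧ z < G.natDegree ∧ G ^ 2 ∣ f + b) then B else 0) ≤
      B * ((Fintype.card K : ℝ) ^ n * (1 / 2) ^ z) := by
    have h1 : ∑ f ∈ (Ac K n M a₁).filter (fun f => Irreducible (f + g)),
        (if (∃ G : K[X], G.Monic ∧ z < G.natDegree ∧ G ^ 2 ∣ f + b) then B else 0) ≤
        ∑ f ∈ Mn K n,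
        (if (∃ G : K[X], G.Monic ∧ z < G.natDegree ∧ G ^ 2 ∣ f + b) then B else 0) := by
      refine Finset.sum_le_sum_of_subset_of_nonneg (fun f hf => (hmem f hf).1) (fun f _ _ => ?_)
      split_ifs
      · exact hB0
      · exact le_rfl
    refine h1.trans ?_
    rw [← Finset.sum_filter, Finset.sum_const, nsmul_eq_mul, mul_comm]
    exact mul_le_mul_of_nonneg_left (sq_cnt z hb) hB0
  have habs : ∀ x : ℝ, -|x| ≤ (σ : ℝ) * x := by
    intro x
    rcases hσ with h | h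
    · rw [h]
      push_cast
      rw [one_mul]
      exact neg_abs_le x
    · rw [h]
      push_cast
      have := le_abs_self x
      linarith
  have h5 := habs (∑ f ∈ (Ac K n M a₁).filter (fun f => Irreducible (f + g)),
        sw M (Ru S g) z Vm f * w f * (mob (f + b) : ℝ))
  linarith

theorem arith {N R V Q D e e' B n s₁ sm T z2 : ℝ} {C A₁ m : ℕ} (hN : 0 < N) (hR : 0 < R)
    (hV0 : 0 ≤ V) (hV1 : V ≤ 1) (he0 : 0 ≤ e) (hee : e ≤ e')
    (hQD : |Q - D| ≤ e) (hn : 2 ≤ n) (hB : B = n ^ m)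
    (h1 : N / R * (V * Q / 4 - (B + 1) * e) ≤ n * s₁)
    (h2 : |sm| ≤ 1 / 32 * ((4 * (V * Q) + 3 * ((B + 1) * e)) / R * N / n) +
      (n ^ C + 1) * N / n ^ (C + A₁ + 2))
    (h3 : 1 / 2 * s₁ - 1 / 2 * |sm| - 1 / 2 * (B * (N * z2)) ≤ T) (hz : z2 ≤ e')
    (hs : 2 * (2 / R + 1) * n ^ (m + 1 + A₁) * e' ≤ 1) :
    N / R * (V * D / 16) - N / n ^ A₁ ≤ n * T := by
  have hn0 : 0 < n := by linarith
  have he' : 0 ≤ e' := he0.trans hee
  have hu : 0 < n ^ A₁ := by positivity
  have hB1 : 1 ≤ B := by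
    rw [hB]
    exact one_le_pow₀ (by linarith)
  have hNR : 0 < N / R := by positivity
  -- the parity sum
  have h4 : n * |sm| ≤ N / R * (V * Q / 8 + 3 / 32 * ((B + 1) * e)) + N / n ^ A₁ := by
    have h5 := mul_le_mul_of_nonneg_left h2 hn0.le
    refine h5.trans ?_
    have e1 : n * (1 / 32 * ((4 * (V * Q) + 3 * ((B + 1) * e)) / R * N / n) +
      (n ^ C + 1) * N / n ^ (C + A₁ + 2)) = N / R * (V * Q / 8 + 3 / 32 * ((B + 1) * e)) +
      n * ((n ^ C + 1) * N / n ^ (C + A₁ + 2)) := by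
      field_simp
      ring
    rw [e1]
    have h6 : n * ((n ^ C + 1) * N / n ^ (C + A₁ + 2)) ≤ N / n ^ A₁ := by
      have h7 : (1 : ℝ) ≤ n ^ C := one_le_pow₀ (by linarith)
      have e2 : n ^ (C + A₁ + 2) = n ^ C * n ^ A₁ * (n * n) := by
        rw [pow_add, pow_add]
        ring
      rw [e2, ← mul_div_assoc, div_le_div_iff₀ (by positivity) hu]
      have h8 : n ^ C + 1 ≤ n ^ C * n := by nlinarith
      have h9 : 0 ≤ n * N * n ^ A₁ := by positivity
      have h10 := mul_le_mul_of_nonneg_left h8 h9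
      nlinarith
    linarith
  -- the errors
  have h5 : N * e' * ((2 / R + 1) * n ^ (m + 1)) ≤ 1 / 2 * (N / n ^ A₁) := by
    have e1 : N * e' * ((2 / R + 1) * n ^ (m + 1)) =
        1 / 2 * (N * (2 * (2 / R + 1) * n ^ (m + 1 + A₁) * e')) / n ^ A₁ := by
      rw [pow_add n (m + 1) A₁]
      field_simp
    rw [e1]
    have h6 := mul_le_mul_of_nonneg_left hs hN.le
    rw [mul_one] at h6
    have h7 : 1 / 2 * (N / n ^ A₁) = 1 / 2 * N / n ^ A₁ := by ring
    rw [h7]
    apply div_le_div_of_nonneg_right _ hu.le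
    linarith
  have hBn : B ≤ n ^ (m + 1) := by
    rw [hB, pow_succ]
    have : 0 < n ^ m := by positivity
    nlinarith
  have hBn' : n * B = n ^ (m + 1) := by rw [hB, pow_succ]; ring
  have h6 : N / R * (e * ((B + 1) * (35 / 64) + 1 / 16)) ≤ N * e' * (2 / R * n ^ (m + 1)) := by
    have h7 : e * ((B + 1) * (35 / 64) + 1 / 16) ≤ e' * (2 * n ^ (m + 1)) := by
      apply mul_le_mul hee _ (by positivity) he'
      linarith
    have h8 := mul_le_mul_of_nonneg_left h7 hNR.le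
    refine h8.trans (le_of_eq ?_)
    field_simp
  have h7 : 1 / 2 * (n * (B * (N * z2))) ≤ N * e' * n ^ (m + 1) := by
    have e1 : 1 / 2 * (n * (B * (N * z2))) = 1 / 2 * (N * n ^ (m + 1)) * z2 := by
      rw [← hBn']
      ring
    rw [e1]
    have h8 : 0 < N * n ^ (m + 1) := by positivity
    have h9 := mul_le_mul_of_nonneg_left hz h8.le
    have h10 : 0 ≤ N * n ^ (m + 1) * e' := by positivity
    linarith
  have h8 := mul_le_mul_of_nonneg_left h3 hn0.le
  have hVQ : V * D - e ≤ V * Q := by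
    have h9 := (abs_le.1 hQD).1
    nlinarith
  have h9 := mul_le_mul_of_nonneg_left hVQ hNR.le
  have e1 : n * (1 / 2 * s₁ - 1 / 2 * |sm| - 1 / 2 * (B * (N * z2))) =
    1 / 2 * (n * s₁) - 1 / 2 * (n * |sm|) - 1 / 2 * (n * (B * (N * z2))) := by ring
  rw [e1] at h8
  have e2 : N * e' * ((2 / R + 1) * n ^ (m + 1)) =
    N * e' * (2 / R * n ^ (m + 1)) + N * e' * n ^ (m + 1) := by ring
  rw [e2] at h5
  generalize N / n ^ A₁ = u at *
  generalize N / R = v at *
  generalize V * Q = w at *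
  nlinarith

end MaspuN

open MaspuN in
theorem maspu : S_tmaspu := by
  intro hparc hlin hgvb hrepr hrwmx K _ _ _
  obtain ⟨θp, hθp, hparc'⟩ := hparc K (1 / 32) (by norm_num)
  obtain ⟨θl, hθl, hlin'⟩ := hlin K
  have hθ : 0 < min (min (θp / 2) θl) (1 / 100) :=
    lt_min (lt_min (by positivity) hθl) (by norm_num)
  have hθ1 : min (min (θp / 2) θl) (1 / 100) ≤ θp / 2 := (min_le_left _ _).trans (min_le_left _ _)
  have hθ2 : min (min (θp / 2) θl) (1 / 100) ≤ θl := (min_le_left _ _).trans (min_le_right _ _)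
  have hθ3 : min (min (θp / 2) θl) (1 / 100) ≤ 1 / 100 := min_le_right _ _
  refine ⟨min (min (θp / 2) θl) (1 / 100), hθ, ?_⟩
  generalize min (min (θp / 2) θl) (1 / 100) = θ at hθ hθ1 hθ2 hθ3 ⊢
  intro κ k g i M η A₁ hη hg hA
  have hq := Pool.Agent.H524.MT.MasterN.q2 (K := K)
  have hqp : (0 : ℝ) < Fintype.card K := by linarith
  obtain ⟨n₁, hlin0⟩ := hlin' κ η (g i) M hη hA.mon
  obtain ⟨C, n₂, hrepr1⟩ := hrepr K κ k g i M η hη hA hg
  obtain ⟨n₃, hparc1⟩ := hparc' (κ + 1) (C + A₁ + 2)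
  obtain ⟨n₄, hrw⟩ := hrwmx K k (fun _ => 1) (fun _ => 1) g (fun _ => one_ne_zero)
    (fun _ => Or.inl rfl) ⟨M, hA.mon.ne_zero, by
      intro P a i j hP hPM hij h1 h2
      simp only [one_mul, pow_one] at h1 h2
      apply hPM
      refine hA.dif P hP i j hij ?_
      have h3 : g i - g j = (a + g i) - (a + g j) := by ring
      rw [h3]
      exact dvd_sub h1 h2⟩ η hη
  have hPm := Pool.Agent.H524.MT.MasterN.Pm_pos (K := K) hA.mon.ne_zero
  obtain ⟨n₅, hsmall⟩ := small (2 * (2 / ((Fintype.card K : ℝ) ^ M.natDegree * Pm M) + 1))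
    ((5 * k + 5) + 1 + A₁) hη
  obtain ⟨n₆, hn₆⟩ := exists_nat_ge (2 * (M.natDegree : ℝ) / θp)
  refine ⟨n₁ + n₂ + n₃ + n₄ + n₅ + n₆ + M.natDegree + 100, ?_⟩
  intro S b a₀ n z A T σ Vm Vp R y hSc hSdeg hgS hb hbg hco hn hA1 hBH hηz hlev hWd hRi hσ
  have hL : Loc M (Ru S (g i)) (fun P => nr S P - 1) κ := loc_of_adu hA hSc (hgS i)
  have hRtg : ∀ P : K[X], P.Monic → Irreducible P → ¬ P ∣ M → ∀ a, Ru S (g i) P a →
      ¬ P ∣ a + g i := fun P _ _ _ a ha => ha.2
  have hlin1 := hlin0 (Ru S (g i)) (fun P => nr S P - 1) hL hRtg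
  -- sizes
  have hn1 : n₁ ≤ n := by omega
  have hn2 : n₂ ≤ n := by omega
  have hn3 : n₃ ≤ n := by omega
  have hn4 : n₄ ≤ n := by omega
  have hn5 : n₅ ≤ n := by omega
  have hn6 : n₆ ≤ n := by omega
  have hn8 : M.natDegree < n := by omega
  have hn9 : 100 ≤ n := by omega
  have hnr : (100 : ℝ) ≤ n := by exact_mod_cast hn9
  have hn0 : (0 : ℝ) < n := by linarith
  have hSdeg' : ∀ s ∈ S, s.degree < (n : WithBot ℕ) := fun s hs =>
    lt_of_le_of_lt degree_le_natDegree (by exact_mod_cast hSdeg s hs)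
  have hlevn : A * z + 3 * T ≤ n := by
    have h1 : ((A * z + 3 * T : ℕ) : ℝ) ≤ n := by
      refine hlev.trans ?_
      nlinarith
    exact_mod_cast h1
  have hlev100 : ((A * z + 3 * T : ℕ) : ℝ) ≤ 1 / 100 * n := by
    refine hlev.trans ?_
    exact mul_le_mul_of_nonneg_right hθ3 hn0.le
  have hzAz : z ≤ A * z := Nat.le_mul_of_pos_left z hA1
  have hzn : z < n := by
    have h1 : ((A * z + 3 * T : ℕ) : ℝ) < n := by linarith
    have h2 : A * z + 3 * T < n := by exact_mod_cast h1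
    omega
  have hTn : T ≤ n := by omega
  -- the class
  have ha₁ : M ∣ a₀ - a₀ %ₘ M := dsm a₀ M
  have ha₁deg : (a₀ %ₘ M).natDegree < n :=
    lt_of_le_of_lt (natDegree_modByMonic_le a₀ hA.mon) hn8
  have hAc : Ac K n M a₀ = Ac K n M (a₀ %ₘ M) := by
    unfold Ac
    refine Finset.filter_congr fun f _ => ?_
    constructor
    · intro h
      have h1 : f - a₀ %ₘ M = (f - a₀) + (a₀ - a₀ %ₘ M) := by ring
      rw [h1]
      exact dvd_add h ha₁
    · intro h
      have h1 : f - a₀ = (f - a₀ %ₘ M) - (a₀ - a₀ %ₘ M) := by ring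
      rw [h1]
      exact dvd_sub h ha₁
  have hco₁ : ∀ s ∈ S, IsCoprime (a₀ %ₘ M + s) M := by
    intro s hs
    obtain ⟨w, hw⟩ := ha₁
    have h1 := (hco s hs)
    have h2 : a₀ + s = (a₀ %ₘ M + s) + M * w := by
      rw [← hw]
      ring
    rw [h2] at h1
    exact (IsCoprime.add_mul_left_left_iff).1 h1
  rw [hAc]
  generalize a₀ %ₘ M = a₁ at ha₁deg hco₁
  clear hAc ha₁ hco
  have ha₁0 : g i + a₁ ≠ 0 := by
    intro h
    have h1 := hco₁ (g i) (hgS i)
    rw [add_comm, h, isCoprime_zero_left] at h1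
    have h2 := natDegree_eq_zero_of_isUnit h1
    have h3 := hA.pos
    omega
  -- the shifts
  set e := S.equivFin with he
  have hlt : ∀ x : S, (e x : ℕ) < κ + 1 := fun x => by
    have := (e x).2
    omega
  set h : Fin (κ + 1) → K[X] := fun t => if ht : (t : ℕ) < S.card then
    (if ((e.symm ⟨t, ht⟩ : S) : K[X]) = g i then -(g i + a₁) else
      ((e.symm ⟨t, ht⟩ : S) : K[X]) - g i) else -(g i + a₁) with hh
  have hh0 : ∀ x : S, h ⟨e x, hlt x⟩ = if (x : K[X]) = g i then -(g i + a₁) else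
      (x : K[X]) - g i := by
    intro x
    rw [hh]
    simp only [dif_pos (e x).2, Fin.eta, Equiv.symm_apply_apply]
  have hh1 : ∀ s (hs : s ∈ S), s ≠ g i → h ⟨e ⟨s, hs⟩, hlt _⟩ = s - g i := by
    intro s hs hne
    rw [hh0, if_neg hne]
  have hh2 : h ⟨e ⟨g i, hgS i⟩, hlt _⟩ = -(g i + a₁) := by
    rw [hh0, if_pos rfl]
  have hgi := hSdeg _ (hgS i)
  have hga : -(g i + a₁) ≠ 0 ∧ (-(g i + a₁)).natDegree < n := by
    refine ⟨neg_ne_zero.2 ha₁0, ?_⟩
    rw [natDegree_neg]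
    exact lt_of_le_of_lt (natDegree_add_le _ _) (max_lt hgi ha₁deg)
  have hShf : Shf n h := by
    intro t
    rw [hh]
    simp only
    by_cases ht : (t : ℕ) < S.card
    · rw [dif_pos ht]
      by_cases ht' : ((e.symm ⟨t, ht⟩ : S) : K[X]) = g i
      · rw [if_pos ht']
        exact hga
      · rw [if_neg ht']
        refine ⟨sub_ne_zero.2 ht', ?_⟩
        exact lt_of_le_of_lt (natDegree_sub_le _ _) (max_lt (hSdeg _ (e.symm ⟨t, ht⟩).2) hgi)
    · rw [dif_neg ht]
      exact hga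
  have hh3 := hh1 b hb hbg
  -- the weights
  obtain ⟨ι, I, E, cc, φ, hRW, hRW1, hRW2, hRW3, hRW4⟩ := hrw n z T R y hn4 hηz hWd.zT hTn hWd.Rj
    hWd.yb hWd.y0
  simp only [one_mul, pow_one] at hRW1 hRW2 hRW3
  have hRWi := hRW1 i hRi
  have hcop : ∀ x ∈ I, IsCoprime (cc x + g i) (E x) := hRWi
  obtain ⟨la, hla, hrep⟩ := hrepr1 S n z A T Vm R y a₁ h hgS hSc hn2 hηz hlevn hBH.gm hWd hRi
    (fun s hs hne => ⟨_, hh1 s hs hne⟩) ⟨_, hh2⟩
  obtain ⟨hV0, hV1, hGm, hGp⟩ := hgvb K κ z A M (Ru S (g i)) (fun P => nr S P - 1) Vm Vp hL hBH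
  have hQ0 := Pool.Agent.H524.MT.MasterN.QQ_nonneg hRW
  have her0 : 0 ≤ er K z := by
    unfold er
    exact (Real.rpow_pos_of_pos hqp _).le
  -- linear sums
  have hlinV : ∀ (V : Finset K[X] → ℝ), GW K z (A * z) V → ∀ (N : ℕ) (D : K[X]), n ≤ 5 * N →
      D.natDegree + N = n → D.Monic →
      (∀ P : K[X], P.Monic → Irreducible P → P ∣ D → n ≤ 5 * P.natDegree) →
      |(N : ℝ) * ∑ p ∈ (Irn K N).filter (fun p => M ∣ D * p - g i - a₁),
            sw M (Ru S (g i)) z V (D * p - g i) * wV R y (fun j => D * p - g i + g j) -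
          (Fintype.card K : ℝ) ^ N / ((Fintype.card K : ℝ) ^ M.natDegree * Pm M) *
            (GV M z (fun P => nr S P - 1) V * QQ I E φ)| ≤
          (Fintype.card K : ℝ) ^ N / ((Fintype.card K : ℝ) ^ M.natDegree * Pm M) *
            (((n : ℝ) ^ (5 * k + 5) + 1) * er K z) := by
    intro V hV N D h1 h2 h3 h4
    have h5 := hlin1 a₁ D n N z A (3 * T) ((n : ℝ) ^ (5 * k + 5)) V ι I E cc φ (hco₁ _ (hgS i))
      hn1 hA1 hV hηz (hlev.trans (mul_le_mul_of_nonneg_right hθ2 hn0.le)) hRW hcop h1 h2 h3 h4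
    simp only [hRW2] at h5
    exact h5
  -- the average of the majorant
  have hqN : ∀ N : ℕ, (0 : ℝ) < (Fintype.card K : ℝ) ^ N := fun N => by positivity
  set X₀ : ℝ := (4 * (VR M z (fun P => nr S P - 1) * QQ I E φ) +
    3 * (((n : ℝ) ^ (5 * k + 5) + 1) * er K z)) /
      ((Fintype.card K : ℝ) ^ M.natDegree * Pm M) with hX₀
  have hX₀0 : 0 ≤ X₀ := by
    rw [hX₀]
    positivity
  set W : K[X] → ℝ := fun p => if M ∣ p - g i - a₁ then
    (2 * sw M (Ru S (g i)) z Vp (p - g i) - sw M (Ru S (g i)) z Vm (p - g i)) *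
      wV R y (fun j => p - g i + g j) else 0 with hW
  have hAvg : Avg n W X₀ := by
    intro N D h1 h2 h3 h4
    have hN0 : (0 : ℝ) < N := by
      have : 0 < N := by omega
      exact_mod_cast this
    have h5 := hlinV Vp hBH.gp N D h1 h2 h3 h4
    have h6 := hlinV Vm hBH.gm N D h1 h2 h3 h4
    have e1 : ∑ p ∈ Irn K N, W (D * p) =
        2 * ∑ p ∈ (Irn K N).filter (fun p => M ∣ D * p - g i - a₁),
            sw M (Ru S (g i)) z Vp (D * p - g i) * wV R y (fun j => D * p - g i + g j) -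
        ∑ p ∈ (Irn K N).filter (fun p => M ∣ D * p - g i - a₁),
            sw M (Ru S (g i)) z Vm (D * p - g i) * wV R y (fun j => D * p - g i + g j) := by
      rw [hW, Finset.mul_sum, ← Finset.sum_sub_distrib, Finset.sum_filter]
      refine Finset.sum_congr rfl fun p _ => ?_
      by_cases hp : M ∣ D * p - g i - a₁
      · simp only [if_pos hp]
        ring
      · simp only [if_neg hp]
    rw [e1, le_div_iff₀ hN0]
    have h7 := (abs_le.1 h5).2
    have h8 := (abs_le.1 h6).1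
    generalize ∑ p ∈ (Irn K N).filter (fun p => M ∣ D * p - g i - a₁),
      sw M (Ru S (g i)) z Vp (D * p - g i) * wV R y (fun j => D * p - g i + g j) = sp at h7 ⊢
    generalize ∑ p ∈ (Irn K N).filter (fun p => M ∣ D * p - g i - a₁),
      sw M (Ru S (g i)) z Vm (D * p - g i) * wV R y (fun j => D * p - g i + g j) = sm at h8 ⊢
    have hc : 0 < (Fintype.card K : ℝ) ^ N / ((Fintype.card K : ℝ) ^ M.natDegree * Pm M) := by
      positivity
    have e2 : X₀ * (Fintype.card K : ℝ) ^ N =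
        (Fintype.card K : ℝ) ^ N / ((Fintype.card K : ℝ) ^ M.natDegree * Pm M) *
          (4 * (VR M z (fun P => nr S P - 1) * QQ I E φ) +
            3 * (((n : ℝ) ^ (5 * k + 5) + 1) * er K z)) := by
      rw [hX₀]
      ring
    rw [e2]
    generalize (Fintype.card K : ℝ) ^ N / ((Fintype.card K : ℝ) ^ M.natDegree * Pm M) = c
      at hc h7 h8 ⊢
    generalize ((n : ℝ) ^ (5 * k + 5) + 1) * er K z = ee at h7 h8 ⊢
    have h9 : GV M z (fun P => nr S P - 1) Vp * QQ I E φ ≤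
      2 * (VR M z (fun P => nr S P - 1) * QQ I E φ) := by
      have := mul_le_mul_of_nonneg_right hGp hQ0
      linarith
    have h10 : 0 ≤ GV M z (fun P => nr S P - 1) Vm * QQ I E φ :=
      mul_nonneg (le_trans (by positivity) hGm) hQ0
    have h11 := mul_le_mul_of_nonneg_left h9 hc.le
    have h12 := mul_nonneg hc.le h10
    linarith
  have hmaj : ∀ p, (n : ℝ) ^ C * |Wc h la (M.natDegree + A * z + 3 * T) p| ≤ W p := by
    intro p
    have h1 := hrep p
    have h2 : (n : ℝ) ^ C * |Wc h la (M.natDegree + A * z + 3 * T) p| =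
        |(n : ℝ) ^ C * Wc h la (M.natDegree + A * z + 3 * T) p| := by
      rw [abs_mul, abs_of_nonneg (by positivity : (0 : ℝ) ≤ (n : ℝ) ^ C)]
    rw [h2, ← h1, hW]
    by_cases hp : M ∣ p - g i - a₁
    · simp only [if_pos hp]
      rw [abs_mul, abs_of_nonneg (wV_nonneg R y _)]
      exact mul_le_mul_of_nonneg_right (sw_facts hBH M _ _) (wV_nonneg R y _)
    · simp only [if_neg hp]
      rw [abs_zero]
  have hWb : ∀ f, W f ≤ (Fintype.card K : ℝ) ^ ((n : ℝ) / 8) := by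
    intro f
    rw [hW]
    by_cases hp : M ∣ f - g i - a₁
    · simp only [if_pos hp]
      have h1 := sw_abs hBH.gp M (Ru S (g i)) (f - g i)
      have h2 := sw_abs hBH.gm M (Ru S (g i)) (f - g i)
      have h3 := rwt_le hRW (f - g i)
      rw [hRW2] at h3
      have h4 := (abs_le.1 h1).2
      have h5 := (abs_le.1 h2).1
      have h6 : 2 * sw M (Ru S (g i)) z Vp (f - g i) - sw M (Ru S (g i)) z Vm (f - g i) ≤
        8 * (Fintype.card K : ℝ) ^ (A * z) := by
        have := hqN (A * z)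
        linarith
      have h7 : (2 * sw M (Ru S (g i)) z Vp (f - g i) - sw M (Ru S (g i)) z Vm (f - g i)) *
          wV R y (fun j => f - g i + g j) ≤
          (8 * (Fintype.card K : ℝ) ^ (A * z)) * (Fintype.card K : ℝ) ^ (3 * T) := by
        apply mul_le_mul h6 h3 (wV_nonneg R y _) (by positivity)
      refine h7.trans ?_
      have h8 : (8 : ℝ) ≤ (Fintype.card K : ℝ) ^ 3 := by
        have := pow_le_pow_left₀ (by norm_num) hq 3
        linarith
      have h9 : (8 * (Fintype.card K : ℝ) ^ (A * z)) * (Fintype.card K : ℝ) ^ (3 * T) ≤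
          (Fintype.card K : ℝ) ^ (3 + (A * z + 3 * T)) := by
        rw [pow_add, pow_add (Fintype.card K : ℝ) (A * z), mul_assoc]
        exact mul_le_mul_of_nonneg_right h8 (by positivity)
      refine h9.trans ?_
      rw [← Real.rpow_natCast]
      apply Real.rpow_le_rpow_of_exponent_le (by linarith)
      push_cast at hlev100 ⊢
      linarith
    · simp only [if_neg hp]
      exact (Real.rpow_pos_of_pos hqp _).le
  have hyθ : ((M.natDegree + A * z + 3 * T : ℕ) : ℝ) ≤ θp * n := by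
    have h1 : (n₆ : ℝ) ≤ n := by exact_mod_cast hn6
    have h2 := (div_le_iff₀ hθp).1 (hn₆.trans h1)
    have h3 : ((A * z + 3 * T : ℕ) : ℝ) ≤ θp / 2 * n :=
      hlev.trans (mul_le_mul_of_nonneg_right hθ1 hn0.le)
    push_cast at h3 ⊢
    linarith
  have hpar := hparc1 n hn3 (M.natDegree + A * z + 3 * T) h ⟨e ⟨b, hb⟩, hlt _⟩ la W X₀ ((n : ℝ) ^ C)
    hyθ hShf hla hX₀0 (by positivity) hmaj hWb hAvg
  rw [hh3] at hpar
  -- the two sums in terms of `f`
  have hb' := hSdeg' b hb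
  have hgi' := hSdeg' _ (hgS i)
  have hpar2 : |∑ f ∈ (Ac K n M a₁).filter (fun f => Irreducible (f + g i)),
        sw M (Ru S (g i)) z Vm f * wV R y (fun j => f + g j) * (mob (f + b) : ℝ)| ≤
      1 / 32 * (X₀ * (Fintype.card K : ℝ) ^ n / n) +
        ((n : ℝ) ^ C + 1) * (Fintype.card K : ℝ) ^ n / (n : ℝ) ^ (C + A₁ + 2) := by
    refine le_trans (le_of_eq ?_) hpar
    rw [← transfer hgi' (fun f => sw M (Ru S (g i)) z Vm f * wV R y (fun j => f + g j) *
      (mob (f + b) : ℝ))]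
    have h1 : (n : ℝ) ^ C * |∑ p ∈ Irn K n, Wc h la (M.natDegree + A * z + 3 * T) p *
        (mob (p + (b - g i)) : ℝ)| = |(n : ℝ) ^ C * ∑ p ∈ Irn K n,
          Wc h la (M.natDegree + A * z + 3 * T) p * (mob (p + (b - g i)) : ℝ)| := by
      rw [abs_mul, abs_of_nonneg (by positivity : (0 : ℝ) ≤ (n : ℝ) ^ C)]
    rw [h1, Finset.mul_sum, Finset.sum_filter]
    congr 1
    refine Finset.sum_congr rfl fun p _ => ?_
    rw [← mul_assoc, ← hrep p]
    have e3 : p + (b - g i) = p - g i + b := by ring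
    rw [e3]
    by_cases hp : M ∣ p - g i - a₁
    · simp only [if_pos hp]
    · simp only [if_neg hp]
      rw [zero_mul]
  have hone := hlinV Vm hBH.gm n 1 (by omega) (by rw [natDegree_one]; omega) monic_one (by
    intro P _ hPi hP1
    exact absurd (isUnit_of_dvd_one hP1) hPi.not_isUnit)
  simp only [one_mul] at hone
  rw [transfer hgi' (fun f => sw M (Ru S (g i)) z Vm f * wV R y (fun j => f + g j))] at hone
  have hkey := key_point hBH (a₁ := a₁) hb' hgi' hb (hco₁ b hb) hzn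
    (fun f => wV R y (fun j => f + g j)) (fun f => wV_nonneg R y _)
    (B := (n : ℝ) ^ (5 * k + 5)) hRW3 (by positivity) σ hσ
  have hee : er K z ≤ (2 : ℝ) ^ (-(z : ℝ) / 2) := by
    unfold er
    apply Real.rpow_le_rpow_of_nonpos (by norm_num) hq
    have : (0 : ℝ) ≤ z := Nat.cast_nonneg _
    linarith
  have hz2 : (1 / 2 : ℝ) ^ z ≤ (2 : ℝ) ^ (-(z : ℝ) / 2) := by
    rw [one_div, inv_pow, ← Real.rpow_natCast, ← Real.rpow_neg (by norm_num)]
    apply Real.rpow_le_rpow_of_exponent_le (by norm_num)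
    have : (0 : ℝ) ≤ z := Nat.cast_nonneg _
    linarith
  refine arith (C := C) (e' := (2 : ℝ) ^ (-(z : ℝ) / 2)) (hqN n) (by positivity) hV0.le hV1 her0 hee
    hRW4 (by linarith) rfl ?_ hpar2 hkey hz2 (hsmall n z hn5 hηz)
  have h7 := (abs_le.1 hone).1
  have h8 := mul_le_mul_of_nonneg_right hGm hQ0
  have hc : 0 < (Fintype.card K : ℝ) ^ n / ((Fintype.card K : ℝ) ^ M.natDegree * Pm M) := by
    positivity
  have h9 := mul_le_mul_of_nonneg_left h8 hc.le
  have e4 : (Fintype.card K : ℝ) ^ n / ((Fintype.card K : ℝ) ^ M.natDegree * Pm M) *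
      (VR M z (fun P => nr S P - 1) * QQ I E φ / 4 - ((n : ℝ) ^ (5 * k + 5) + 1) * er K z) =
      (Fintype.card K : ℝ) ^ n / ((Fintype.card K : ℝ) ^ M.natDegree * Pm M) *
        (VR M z (fun P => nr S P - 1) / 4 * QQ I E φ) -
      (Fintype.card K : ℝ) ^ n / ((Fintype.card K : ℝ) ^ M.natDegree * Pm M) *
        (((n : ℝ) ^ (5 * k + 5) + 1) * er K z) := by ring
  rw [e4]
  linarith

end Pool.Agent.H251.MY
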