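import Pool.Agent.H251.MY.StmU
import Pool.Agent.H524.MT.Mert
import Pool.Agent.H524.MT.Opt
import Pool.Agent.H524.MT.RwmG
import Pool.Agent.H524.MT.ShA

/-!
# Task MAYU of project MY (helper251): the assembly of Maynard-Tao with parity, uniformly in the
shifts (helper864, adapted from the module MAYP of helper791)
-/

set_option autoImplicit false
set_option linter.unusedSectionVars false
set_option linter.unusedVariables false

namespace Pool.Agent.H251.MY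

open Polynomial Finset
open scoped Classical
open Pool.Agent.H985.Chow (mob)
open Pool.Agent.H985.KP (PA)
open Pool.Agent.H694.Typ (Mn PU mem_Mn mem_PU q_ge sum_PU irn_one_le mem_Irn Irn coprime_of_ne)
open Pool.Agent.H524.MT (Ac Pm GW BH PS Loc sw rwt RW QQ VR er Rz ph lam dia wV yr S_one S_bhk S_resg
  S_rwmx S_mert S_opt Dc)

namespace MayuL

section one

variable {K : Type} [Field K] [Fintype K]

lemma mon_of_irr {P : K[X]} (hP : Irreducible P) :
    ∃ Q : K[X], Q.Monic ∧ Irreducible Q ∧ Associated Q P ∧ Q.natDegree = P.natDegree := by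
  have h0 : P ≠ 0 := hP.ne_zero
  have hu : IsUnit (C (P.leadingCoeff)⁻¹ : K[X]) := by
    rw [isUnit_C]
    exact (inv_ne_zero (leadingCoeff_ne_zero.2 h0)).isUnit
  have ha : Associated (P * C (P.leadingCoeff)⁻¹) P := (associated_mul_unit_left P _ hu)
  refine ⟨P * C (P.leadingCoeff)⁻¹, monic_mul_leadingCoeff_inv h0, ha.symm.irreducible hP, ha, ?_⟩
  exact natDegree_mul_leadingCoeff_inv P h0

lemma crt_ex (s : Finset K[X]) (hs : ∀ P ∈ s, P.Monic ∧ Irreducible P) (b : K[X] → K[X]) :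
    ∃ a : K[X], ∀ P ∈ s, P ∣ a - b P := by
  induction s using Finset.induction_on with
  | empty => exact ⟨0, by simp⟩
  | insert P s hP ih =>
    obtain ⟨a, ha⟩ := ih (fun Q hQ => hs Q (mem_insert_of_mem hQ))
    have hc : IsCoprime P (∏ Q ∈ s, Q) := by
      apply IsCoprime.prod_right
      intro Q hQ
      have h1 := hs P (mem_insert_self _ _)
      have h2 := hs Q (mem_insert_of_mem hQ)
      exact coprime_of_ne h1.1 h1.2 h2.1 h2.2 (fun h => hP (h ▸ hQ))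
    obtain ⟨u, v, huv⟩ := hc
    refine ⟨a * (u * P) + b P * (v * ∏ Q ∈ s, Q), ?_⟩
    intro Q hQ
    rw [mem_insert] at hQ
    rcases hQ with rfl | hQ
    · exact ⟨(a - b Q) * u, by linear_combination b Q * huv⟩
    · have h1 : a * (u * P) + b P * (v * ∏ Q ∈ s, Q) - b Q =
          (a - b Q) + (∏ Q ∈ s, Q) * ((b P - a) * v) := by linear_combination a * huv
      rw [h1]
      exact dvd_add (ha Q hQ) (dvd_mul_of_dvd_left (dvd_prod_of_mem _ hQ) _)

lemma sum_inv_le (z : ℕ) : ∑ P ∈ PU K z, 1 / (Fintype.card K : ℝ) ^ P.natDegree ≤ 1 + Real.log z := by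
  rw [sum_PU]
  have h : ∀ j ∈ Icc 1 z, ∑ P ∈ Irn K j, 1 / (Fintype.card K : ℝ) ^ P.natDegree ≤ ((j : ℝ))⁻¹ := by
    intro j hj
    rw [mem_Icc] at hj
    rw [sum_congr rfl (fun P hP => by rw [(mem_Irn.1 hP).2.1]), sum_const, nsmul_eq_mul]
    have h1 : (j : ℝ) * (Irn K j).card ≤ (Fintype.card K : ℝ) ^ j := by
      exact_mod_cast irn_one_le (k := K) (d := j) (by omega)
    have hq := q_ge (k := K)
    have hpos : (0 : ℝ) < (Fintype.card K : ℝ) ^ j := by positivity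
    have hj0 : (0 : ℝ) < j := by exact_mod_cast (by omega : 0 < j)
    rw [mul_one_div, div_le_iff₀ hpos, ← div_eq_inv_mul, le_div_iff₀ hj0]
    linarith
  refine (sum_le_sum h).trans ?_
  have h2 := harmonic_le_one_add_log z
  rw [harmonic_eq_sum_Icc] at h2
  push_cast at h2
  exact h2

lemma one_sub_ge {x : ℝ} (h0 : 0 ≤ x) (h1 : x ≤ 1 / 2) : Real.exp (-(2 * x)) ≤ 1 - x := by
  rw [Real.exp_neg]
  have h2 := Real.add_one_le_exp (2 * x)
  have h3 : (0 : ℝ) < 2 * x + 1 := by linarith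
  calc (Real.exp (2 * x))⁻¹ ≤ (2 * x + 1)⁻¹ := inv_anti₀ h3 h2
    _ ≤ 1 - x := by
        rw [inv_le_iff_one_le_mul₀ h3]
        nlinarith

lemma VR_ge (M : K[X]) (z κ : ℕ) (r : K[X] → ℕ) (hr : ∀ P, r P ≤ κ)
    (hbig : ∀ P ∈ PS K M z, 16 * (κ + 2) ≤ Fintype.card K ^ P.natDegree) (hz : 1 ≤ z) :
    Real.exp (-(2 * κ)) / (z : ℝ) ^ (2 * κ) ≤ VR M z r := by
  have hq := q_ge (k := K)
  have h1 : ∏ P ∈ PS K M z, Real.exp (-(2 * (κ * (1 / (Fintype.card K : ℝ) ^ P.natDegree)))) ≤ VR M z r := by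
    unfold VR
    apply prod_le_prod (fun P _ => (Real.exp_pos _).le)
    intro P hP
    have hb : (16 * ((κ : ℝ) + 2)) ≤ (Fintype.card K : ℝ) ^ P.natDegree := by exact_mod_cast hbig P hP
    have hpos : (0 : ℝ) < (Fintype.card K : ℝ) ^ P.natDegree := by positivity
    have hk : (r P : ℝ) ≤ κ := by exact_mod_cast hr P
    have hle : (r P : ℝ) / (Fintype.card K : ℝ) ^ P.natDegree ≤ κ * (1 / (Fintype.card K : ℝ) ^ P.natDegree) := by
      rw [mul_one_div]
      gcongr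
    have h5 : κ * (1 / (Fintype.card K : ℝ) ^ P.natDegree) ≤ 1 / 2 := by
      rw [mul_one_div, div_le_iff₀ hpos]
      have : (0 : ℝ) ≤ κ := by positivity
      linarith
    have h6 := one_sub_ge (x := κ * (1 / (Fintype.card K : ℝ) ^ P.natDegree)) (by positivity) h5
    linarith
  refine le_trans ?_ h1
  rw [← Real.exp_sum]
  have h2 : ∑ P ∈ PS K M z, 1 / (Fintype.card K : ℝ) ^ P.natDegree ≤ 1 + Real.log z := by
    refine le_trans ?_ (sum_inv_le (K := K) z)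
    apply sum_le_sum_of_subset_of_nonneg (filter_subset _ _)
    intro P _ _
    positivity
  have hz0 : (0 : ℝ) < z := by exact_mod_cast hz
  have h3 : Real.exp (-(2 * κ)) / (z : ℝ) ^ (2 * κ) = Real.exp (-(2 * κ * (1 + Real.log z))) := by
    have e1 : -(2 * (κ : ℝ) * (1 + Real.log z)) = -(2 * κ) - ((2 * κ : ℕ) : ℝ) * Real.log z := by
      push_cast
      ring
    rw [e1, Real.exp_sub, Real.exp_nat_mul, Real.exp_log hz0]
  rw [h3, Real.exp_le_exp]
  have e2 : ∑ P ∈ PS K M z, -(2 * ((κ : ℝ) * (1 / (Fintype.card K : ℝ) ^ P.natDegree))) =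
      -(2 * κ * ∑ P ∈ PS K M z, 1 / (Fintype.card K : ℝ) ^ P.natDegree) := by
    rw [sum_neg_distrib, mul_sum]
    congr 1
    apply sum_congr rfl
    intro P _
    ring
  rw [e2]
  have h4 : (0 : ℝ) ≤ 2 * κ := by positivity
  have h5 := mul_le_mul_of_nonneg_left h2 h4
  linarith

/-- the product of the primes of degree at most `w` -/
noncomputable def MM (K : Type) [Field K] [Fintype K] (w : ℕ) : K[X] := ∏ P ∈ PU K w, P

lemma PU_mi (w : ℕ) : ∀ P ∈ PU K w, P.Monic ∧ Irreducible P := fun P hP =>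
  ⟨(mem_PU.1 hP).1, (mem_PU.1 hP).2.1⟩

lemma dvd_MM {w : ℕ} {P : K[X]} (hP : P.Monic) (hi : Irreducible P) :
    P ∣ MM K w ↔ P.natDegree ≤ w := by
  unfold MM
  rw [Pool.Agent.H524.MT.MertL.dvd_pr (PU_mi w) hP hi, mem_PU]
  exact ⟨fun h => h.2.2, fun h => ⟨hP, hi, h⟩⟩

lemma MM_monic (w : ℕ) : (MM K w).Monic := Pool.Agent.H524.MT.MertL.pr_monic (PU_mi w)

lemma one_lt_pow {P : K[X]} (hi : Irreducible P) : (1 : ℝ) < (Fintype.card K : ℝ) ^ P.natDegree := by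
  have hq := q_ge (k := K)
  exact one_lt_pow₀ (by linarith) hi.natDegree_pos.ne'

lemma one_sub_pos {P : K[X]} (hi : Irreducible P) :
    0 < 1 - 1 / (Fintype.card K : ℝ) ^ P.natDegree := by
  have h := one_lt_pow hi
  rw [sub_pos, div_lt_one (by linarith)]
  exact h

lemma Pm_MM (w : ℕ) : Pm (MM K w) = ∏ P ∈ PU K w, (1 - 1 / (Fintype.card K : ℝ) ^ P.natDegree) := by
  unfold Pm MM
  rw [Pool.Agent.H524.MT.MertL.PA_pr (PU_mi w), finprod_mem_coe_finset]

lemma Pm_pos (w : ℕ) : 0 < Pm (MM K w) := by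
  rw [Pm_MM]
  exact prod_pos fun P hP => one_sub_pos (PU_mi w P hP).2

lemma VR_ratio {w z κ : ℕ} (r : K[X] → ℕ) (hr1 : ∀ P ∈ PS K (MM K w) z, 1 ≤ r P)
    (hrκ : ∀ P, r P ≤ κ) (hwz : w ≤ z)
    (hbig : ∀ P ∈ PS K (MM K w) z, 16 * (κ + 2) ≤ Fintype.card K ^ P.natDegree)
    (hm : (z : ℝ) ≤ ∏ P ∈ PU K z, (1 - 1 / (Fintype.card K : ℝ) ^ P.natDegree)⁻¹) :
    VR (MM K w) z r * Pm (MM K w) * z ≤ VR (MM K w) z (fun P => r P - 1) := by
  have hPS : ∀ P, P ∈ PS K (MM K w) z ↔ (P.Monic ∧ Irreducible P ∧ P.natDegree ≤ z) ∧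
      ¬ P.natDegree ≤ w := by
    intro P
    unfold PS
    rw [mem_filter, mem_PU]
    constructor
    · rintro ⟨h1, h2⟩
      exact ⟨h1, fun h => h2 ((dvd_MM h1.1 h1.2.1).2 h)⟩
    · rintro ⟨h1, h2⟩
      exact ⟨h1, fun h => h2 ((dvd_MM h1.1 h1.2.1).1 h)⟩
  -- the product over all primes
  have h1 : ∏ P ∈ PU K z, (1 - 1 / (Fintype.card K : ℝ) ^ P.natDegree)⁻¹ =
      (∏ P ∈ PU K w, (1 - 1 / (Fintype.card K : ℝ) ^ P.natDegree)⁻¹) *
        ∏ P ∈ PS K (MM K w) z, (1 - 1 / (Fintype.card K : ℝ) ^ P.natDegree)⁻¹ := by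
    rw [← prod_union]
    · refine prod_congr ?_ fun _ _ => rfl
      ext P
      rw [mem_union, mem_PU, mem_PU, hPS]
      constructor
      · rintro ⟨a, b, c⟩
        by_cases h : P.natDegree ≤ w
        · exact Or.inl ⟨a, b, h⟩
        · exact Or.inr ⟨⟨a, b, c⟩, h⟩
      · rintro (⟨a, b, c⟩ | ⟨h, _⟩)
        · exact ⟨a, b, c.trans hwz⟩
        · exact h
    · rw [disjoint_left]
      intro P hP hP'
      exact ((hPS P).1 hP').2 (mem_PU.1 hP).2.2
  have h2 : Pm (MM K w) * ∏ P ∈ PU K w, (1 - 1 / (Fintype.card K : ℝ) ^ P.natDegree)⁻¹ = 1 := by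
    rw [Pm_MM, ← prod_mul_distrib]
    exact prod_eq_one fun P hP => mul_inv_cancel₀ (one_sub_pos (PU_mi w P hP).2).ne'
  have h3 : Pm (MM K w) * z ≤
      ∏ P ∈ PS K (MM K w) z, (1 - 1 / (Fintype.card K : ℝ) ^ P.natDegree)⁻¹ := by
    calc Pm (MM K w) * z ≤ Pm (MM K w) *
          ∏ P ∈ PU K z, (1 - 1 / (Fintype.card K : ℝ) ^ P.natDegree)⁻¹ :=
          mul_le_mul_of_nonneg_left hm (Pm_pos w).le
      _ = (Pm (MM K w) * ∏ P ∈ PU K w, (1 - 1 / (Fintype.card K : ℝ) ^ P.natDegree)⁻¹) *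
          ∏ P ∈ PS K (MM K w) z, (1 - 1 / (Fintype.card K : ℝ) ^ P.natDegree)⁻¹ := by
          rw [h1]
          ring
      _ = _ := by rw [h2, one_mul]
  have h4 : ∀ P ∈ PS K (MM K w) z, 0 ≤ 1 - (r P : ℝ) / (Fintype.card K : ℝ) ^ P.natDegree := by
    intro P hP
    have hb : (16 * ((κ : ℝ) + 2)) ≤ (Fintype.card K : ℝ) ^ P.natDegree := by
      exact_mod_cast hbig P hP
    have hs0 : (0 : ℝ) ≤ κ := Nat.cast_nonneg _
    have hrP : (r P : ℝ) ≤ κ := by exact_mod_cast hrκ P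
    rw [sub_nonneg, div_le_one (by linarith)]
    linarith
  have h5 : VR (MM K w) z r *
      ∏ P ∈ PS K (MM K w) z, (1 - 1 / (Fintype.card K : ℝ) ^ P.natDegree)⁻¹ ≤
      VR (MM K w) z (fun P => r P - 1) := by
    unfold VR
    rw [← prod_mul_distrib]
    refine prod_le_prod (fun P hP => mul_nonneg (h4 P hP)
      (inv_nonneg.2 (one_sub_pos ((hPS P).1 hP).1.2.1).le)) ?_
    intro P hP
    have h6 := one_sub_pos ((hPS P).1 hP).1.2.1
    have h7 := one_lt_pow ((hPS P).1 hP).1.2.1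
    have hs := hr1 P hP
    rw [← div_eq_mul_inv, div_le_iff₀ h6, Nat.cast_sub hs, Nat.cast_one]
    generalize (Fintype.card K : ℝ) ^ P.natDegree = x at h7
    have hx : (0 : ℝ) < x := by linarith
    have hs1 : (1 : ℝ) ≤ r P := by exact_mod_cast hs
    generalize (r P : ℝ) = s at hs1
    have e : (1 - (s - 1) / x) * (1 - 1 / x) = 1 - s / x + (s - 1) / x ^ 2 := by
      field_simp
      ring
    rw [e]
    have : 0 ≤ (s - 1) / x ^ 2 := by
      apply div_nonneg <;> nlinarith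
    linarith
  have h8 : 0 ≤ VR (MM K w) z r := prod_nonneg h4
  calc VR (MM K w) z r * Pm (MM K w) * z
      = VR (MM K w) z r * (Pm (MM K w) * z) := by ring
    _ ≤ VR (MM K w) z r *
        ∏ P ∈ PS K (MM K w) z, (1 - 1 / (Fintype.card K : ℝ) ^ P.natDegree)⁻¹ :=
        mul_le_mul_of_nonneg_left h3 h8
    _ ≤ _ := h5

lemma VR_mono {M : K[X]} {z κ : ℕ} {r r' : K[X] → ℕ} (hrr : ∀ P, r P ≤ r' P) (hrκ : ∀ P, r' P ≤ κ)
    (hbig : ∀ P ∈ PS K M z, 16 * (κ + 2) ≤ Fintype.card K ^ P.natDegree) :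
    VR M z r' ≤ VR M z r := by
  unfold VR
  refine prod_le_prod (fun P hP => ?_) (fun P hP => ?_)
  · have hb : (16 * ((κ : ℝ) + 2)) ≤ (Fintype.card K : ℝ) ^ P.natDegree := by
      exact_mod_cast hbig P hP
    have hs0 : (0 : ℝ) ≤ κ := Nat.cast_nonneg _
    have hrP : (r' P : ℝ) ≤ κ := by exact_mod_cast hrκ P
    rw [sub_nonneg, div_le_one (by linarith)]
    linarith
  · have h1 : (r P : ℝ) ≤ r' P := by exact_mod_cast hrr P
    have h2 : (r P : ℝ) / (Fintype.card K : ℝ) ^ P.natDegree ≤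
        (r' P : ℝ) / (Fintype.card K : ℝ) ^ P.natDegree :=
      div_le_div_of_nonneg_right h1 (by positivity)
    linarith

lemma deg_finite (d : ℕ) : {c : K[X] | c.degree < (d : WithBot ℕ)}.Finite := by
  have h1 : ((Polynomial.degreeLT K d : Submodule K K[X]) : Set K[X]).Finite := by
    have : Finite (Polynomial.degreeLT K d) :=
      Finite.of_equiv (Fin d → K) (Polynomial.degreeLTEquiv K d).toEquiv.symm
    exact Set.toFinite _
  refine h1.subset fun c hc => ?_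
  exact Polynomial.mem_degreeLT.mpr hc

lemma nr_le (S : Finset K[X]) (P : K[X]) : nr S P ≤ S.card := min_le_right _ _

lemma one_le_nr {S : Finset K[X]} (hS : S.Nonempty) {P : K[X]} (hP : P.Monic) : 1 ≤ nr S P := by
  unfold nr
  refine le_min ?_ (card_pos.2 hS)
  unfold nu
  obtain ⟨s, hs⟩ := hS
  have hfin : {c : K[X] | c.degree < P.degree ∧ Ra S P c}.Finite := by
    refine (deg_finite (K := K) P.natDegree).subset ?_
    rintro c ⟨hc, -⟩
    rw [degree_eq_natDegree hP.ne_zero] at hc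
    exact hc
  have hmem : (-s) %ₘ P ∈ {c : K[X] | c.degree < P.degree ∧ Ra S P c} := by
    refine ⟨degree_modByMonic_lt _ hP, s, hs, ?_⟩
    have h1 := modByMonic_add_div (-s) P
    have h2 : (-s) %ₘ P + s = P * (-((-s) /ₘ P)) := by linear_combination h1
    rw [h2]
    exact dvd_mul_right _ _
  exact (Set.ncard_pos hfin).2 ⟨_, hmem⟩

/-- the diagonal form is at least 1 -/
lemma dia_ge {k : ℕ} (z T : ℕ) (y : (Fin k → K[X]) → ℝ) (hy : y (fun _ => 1) = 1) :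
    1 ≤ dia (fun _ : Fin k => Rz K z T) y := by
  unfold dia
  have h1 : (fun _ : Fin k => (1 : K[X])) ∈ Fintype.piFinset (fun _ : Fin k => Rz K z T) := by
    rw [Fintype.mem_piFinset]
    exact fun _ => Pool.Agent.H524.MT.RWMG.one_mem_Rz z T
  have h2 : ∀ r ∈ Fintype.piFinset (fun _ : Fin k => Rz K z T), 0 ≤ y r ^ 2 / ∏ j, ph (r j) :=
    fun r _ => div_nonneg (sq_nonneg _) (prod_nonneg fun j _ =>
      Pool.Agent.H524.MT.Opt.ph_nonneg _)
  have h3 := single_le_sum h2 h1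
  rw [hy] at h3
  simp only [Pool.Agent.H524.MT.Opt.ph_one, prod_const_one] at h3
  linarith

/-- the weights -/
lemma wd_all {k : ℕ} {z T : ℕ} (hzT : z ≤ T) (y : (Fin k → K[X]) → ℝ)
    (hy : ∀ r, 0 ≤ y r ∧ y r ≤ 1) (hy0 : ∀ r, T < ∑ j, (r j).natDegree → y r = 0) :
    Wd z T (fun _ : Fin k => Rz K z T) y := by
  refine ⟨hzT, fun _ => Or.inl rfl, fun r _ => ?_, fun r _ h => hy0 r h⟩
  rw [abs_of_nonneg (hy r).1]
  have : (0 : ℝ) ≤ T := Nat.cast_nonneg _
  linarith [(hy r).2]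

lemma wd_res {k : ℕ} {z T : ℕ} (hzT : z ≤ T) (y : (Fin k → K[X]) → ℝ)
    (hy : ∀ r, 0 ≤ y r ∧ y r ≤ 1) (hy0 : ∀ r, T < ∑ j, (r j).natDegree → y r = 0) (i : Fin k)
    (hS : ∑ r ∈ Rz K z T, 1 / ph r ≤ 2 * (T + 1)) :
    Wd z T (Function.update (fun _ : Fin k => Rz K z T) i {1})
      (yr i (fun _ : Fin k => Rz K z T) y) := by
  refine ⟨hzT, ?_, ?_, ?_⟩
  · intro j
    by_cases h : j = i
    · subst h
      right
      rw [Function.update_self]
    · left
      rw [Function.update_of_ne h]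
  · intro r _
    refine le_trans ?_ hS
    unfold yr
    refine (abs_sum_le_sum_abs _ _).trans (sum_le_sum fun t _ => ?_)
    rw [abs_div, abs_of_nonneg (hy _).1, abs_of_nonneg (Pool.Agent.H524.MT.Opt.ph_nonneg t)]
    exact div_le_div_of_nonneg_right (hy _).2 (Pool.Agent.H524.MT.Opt.ph_nonneg t)
  · intro r hr hT
    unfold yr
    refine sum_eq_zero fun t _ => ?_
    rw [hy0, zero_div]
    refine lt_of_lt_of_le hT (sum_le_sum fun j _ => ?_)
    by_cases h : j = i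
    · subst h
      have h1 := Fintype.mem_piFinset.1 hr j
      rw [Function.update_self, mem_singleton] at h1
      rw [h1, natDegree_one]
      exact Nat.zero_le _
    · rw [Function.update_of_ne h]

/-- counting with weights -/
lemma count {k : ℕ} (m : ℕ) (F : Finset K[X]) (W : K[X] → ℝ) (p : Fin k → K[X] → Prop)
    [∀ i f, Decidable (p i f)] (B : ℝ)
    (hW0 : ∀ f ∈ F, 0 ≤ W f) (hWB : ∀ f ∈ F, W f ≤ B) :
    ∑ i, ∑ f ∈ F.filter (p i), W f - m * ∑ f ∈ F, W f ≤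
      k * B * ((F.filter (fun f => m ≤ (univ.filter (fun j => p j f)).card)).card : ℝ) := by
  have h1 : ∑ i, ∑ f ∈ F.filter (p i), W f =
      ∑ f ∈ F, W f * ((univ.filter (fun j => p j f)).card : ℝ) := by
    simp_rw [sum_filter]
    rw [sum_comm]
    refine sum_congr rfl fun f _ => ?_
    rw [← sum_filter, sum_const, nsmul_eq_mul, mul_comm]
  rw [h1, mul_sum, ← sum_sub_distrib, mul_comm ((k : ℝ) * B), ← nsmul_eq_mul, ← sum_const,
    sum_filter]
  refine sum_le_sum fun f hf => ?_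
  have h0 := hW0 f hf
  have hB := hWB f hf
  have hk : ((univ.filter (fun j => p j f)).card : ℝ) ≤ k := by
    have := card_le_univ (univ.filter (fun j => p j f))
    rw [Fintype.card_fin] at this
    exact_mod_cast this
  have hm0 : (0 : ℝ) ≤ m := Nat.cast_nonneg _
  have hk0 : (0 : ℝ) ≤ k := Nat.cast_nonneg _
  generalize hρ : (univ.filter (fun j => p j f)).card = ρ at hk
  by_cases h : m ≤ ρ
  · rw [if_pos h]
    have h2 : W f * (ρ : ℝ) ≤ B * k := mul_le_mul hB hk (Nat.cast_nonneg _) (h0.trans hB)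
    nlinarith
  · rw [if_neg h]
    have h2 : (ρ : ℝ) ≤ m := by
      have : ρ ≤ m := by omega
      exact_mod_cast this
    nlinarith

/-- the comparison of the two estimates -/
lemma real_fin {X D Q V V1 z T dd S1 n W1 W0 θ Λ E1 m k : ℝ} (hX : 0 ≤ X) (hD : 0 < D)
    (hQ : 0 < Q) (hV : 0 ≤ V) (hz : 0 < z) (hn : 1 ≤ n) (hθ : 0 < θ) (hm : 0 ≤ m) (hk : 0 ≤ k)
    (hE : 0 ≤ E1) (hV1 : V * Q * z ≤ V1) (hdd : 1 ≤ dd) (hT : θ * n / 10 ≤ T)
    (hΛ : Λ = 1000 * (m + 2) / θ) (hS : Λ * (T / z) * dd ≤ S1)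
    (hlow : X / (D * Q) * (V1 * S1 / 16) - k * E1 ≤ n * W1)
    (hup : W0 ≤ X / D * (2 * V * dd) + E1) :
    X / D * V - (k + m) * E1 ≤ W1 - m * W0 := by
  have ha : 0 ≤ X / D := by positivity
  have hT0 : 0 ≤ T := le_trans (by positivity) hT
  have hΛ0 : 0 ≤ Λ := by
    rw [hΛ]
    positivity
  have h1 : (V * Q * z) * (Λ * (T / z) * dd) ≤ V1 * S1 :=
    mul_le_mul hV1 hS (by positivity) (le_trans (by positivity) hV1)
  have h2 : X / D * V * dd * (Λ * T) / 16 ≤ X / (D * Q) * (V1 * S1 / 16) := by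
    calc X / D * V * dd * (Λ * T) / 16
        = X / (D * Q) * ((V * Q * z) * (Λ * (T / z) * dd) / 16) := by
          field_simp
      _ ≤ _ := by
          refine mul_le_mul_of_nonneg_left ?_ (by positivity)
          linarith
  have h3 : 100 * (m + 2) * n ≤ Λ * T := by
    calc 100 * (m + 2) * n = Λ * (θ * n / 10) := by
          rw [hΛ]
          field_simp
          ring
      _ ≤ Λ * T := mul_le_mul_of_nonneg_left hT hΛ0
  have hc : 0 ≤ X / D * V * dd := by positivity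
  have h4 : X / D * V * dd * (2 * m + 1) * n ≤ X / D * V * dd * (Λ * T) / 16 := by
    have h5 : (2 * m + 1) * n ≤ (Λ * T) / 16 := by nlinarith
    calc X / D * V * dd * (2 * m + 1) * n = X / D * V * dd * ((2 * m + 1) * n) := by ring
      _ ≤ X / D * V * dd * ((Λ * T) / 16) := mul_le_mul_of_nonneg_left h5 hc
      _ = _ := by ring
  have h6 : n * (X / D * V * dd * (2 * m + 1) - k * E1) ≤ n * W1 := by
    have h7 : k * E1 ≤ n * (k * E1) := by
      have : 0 ≤ k * E1 := by positivity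
      nlinarith
    calc n * (X / D * V * dd * (2 * m + 1) - k * E1)
        = X / D * V * dd * (2 * m + 1) * n - n * (k * E1) := by ring
      _ ≤ X / (D * Q) * (V1 * S1 / 16) - k * E1 := by linarith
      _ ≤ _ := hlow
  have h8 := le_of_mul_le_mul_left h6 (by linarith : 0 < n)
  have h9 := mul_le_mul_of_nonneg_left hup hm
  have h10 : X / D * V ≤ X / D * V * dd := by
    have : 0 ≤ X / D * V := by positivity
    nlinarith
  have h11 : m * (X / D * (2 * V * dd) + E1) = X / D * V * dd * (2 * m) + m * E1 := by ring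
  rw [h11] at h9
  nlinarith

lemma real_fin3 {X D c n N k m B : ℝ} (s κ : ℕ) (hs : s ≤ κ) (hX : 0 ≤ X) (hD : 0 < D)
    (hn : 1 ≤ n) (hk : 1 ≤ k) (hB : 0 < B) (hm : 0 ≤ m) (hc0 : 0 < c)
    (hc : 2 * D * (k + m) ≤ c * n)
    (h : X / D * (c / n ^ s) - (k + m) * (X / n ^ (κ + 1)) ≤ k * B * N) :
    c / (2 * D * k * B) * X / n ^ s ≤ N := by
  have hn0 : 0 < n := by linarith
  have h1 : X / n ^ (κ + 1) ≤ X / n ^ (s + 1) :=
    div_le_div_of_nonneg_left hX (by positivity) (pow_le_pow_right₀ hn (by omega))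
  have h2 : (k + m) * (X / n ^ (κ + 1)) ≤ (k + m) * (X / n ^ (s + 1)) :=
    mul_le_mul_of_nonneg_left h1 (by linarith)
  have h3 : (k + m) * (X / n ^ (s + 1)) ≤ c * X / (2 * D * n ^ s) := by
    rw [mul_div_assoc', div_le_div_iff₀ (by positivity) (by positivity), pow_succ]
    have h4 : (2 * D * (k + m)) * (X * n ^ s) ≤ (c * n) * (X * n ^ s) :=
      mul_le_mul_of_nonneg_right hc (by positivity)
    calc (k + m) * X * (2 * D * n ^ s) = (2 * D * (k + m)) * (X * n ^ s) := by ring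
      _ ≤ (c * n) * (X * n ^ s) := h4
      _ = c * X * (n ^ s * n) := by ring
  have h5 : X / D * (c / n ^ s) = 2 * (c * X / (2 * D * n ^ s)) := by
    field_simp
  have h6 : c * X / (2 * D * n ^ s) ≤ k * B * N := by linarith
  have h7 : c / (2 * D * k * B) * X / n ^ s = (c * X / (2 * D * n ^ s)) / (k * B) := by
    field_simp
  rw [h7, div_le_iff₀ (by positivity)]
  linarith

end one

end MayuL

open MayuL in
set_option maxHeartbeats 4000000 in
/-- **Task MAYU.** -/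
theorem mayu : S_tmayu := by
  intro hmasp hupp hbhk hresg hmert hopt hvrl K _ _ _ m
  obtain ⟨θ₁, hθ₁, hmasp⟩ := hmasp K
  obtain ⟨θ₂, hθ₂, hupp⟩ := hupp K
  obtain ⟨θ, hθ, hθa, hθb, hθc⟩ : ∃ θ : ℝ, 0 < θ ∧ θ ≤ θ₁ ∧ θ ≤ θ₂ ∧ θ ≤ 1 :=
    ⟨min (min θ₁ θ₂) 1, by positivity, (min_le_left _ _).trans (min_le_left _ _),
      (min_le_left _ _).trans (min_le_right _ _), min_le_right _ _⟩
  obtain ⟨C₁, hC₁, hm1, hm2⟩ := hmert K
  obtain ⟨Λ, hΛ⟩ : ∃ Λ : ℝ, Λ = 1000 * ((m : ℝ) + 2) / θ := ⟨_, rfl⟩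
  obtain ⟨k, η₀, hk, hη₀, hy⟩ := hopt K Λ
  refine ⟨k, hk, ?_⟩
  intro g κ hg
  have hk0 : 0 < k := hk
  -- the modulus
  obtain ⟨w, hw⟩ : ∃ w : ℕ, w = 16 * (κ + 2) + ∑ i, ∑ j, (g i - g j).natDegree +
    ∑ i, (g i).natDegree := ⟨_, rfl⟩
  have hw1 : 16 * (κ + 2) ≤ w := by omega
  have hw2 : ∀ i j, (g i - g j).natDegree ≤ w := by
    intro i j
    have h1 : (g i - g j).natDegree ≤ ∑ j, (g i - g j).natDegree :=
      single_le_sum (f := fun j => (g i - g j).natDegree) (fun _ _ => Nat.zero_le _) (mem_univ j)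
    have h2 : ∑ j, (g i - g j).natDegree ≤ ∑ i, ∑ j, (g i - g j).natDegree :=
      single_le_sum (f := fun i => ∑ j, (g i - g j).natDegree) (fun _ _ => Nat.zero_le _)
        (mem_univ i)
    omega
  have hw3 : ∀ i, (g i).natDegree ≤ w := by
    intro i
    have h1 : (g i).natDegree ≤ ∑ i, (g i).natDegree :=
      single_le_sum (f := fun i => (g i).natDegree) (fun _ _ => Nat.zero_le _) (mem_univ i)
    omega
  obtain ⟨M, hM⟩ : ∃ M : K[X], M = MM K w := ⟨_, rfl⟩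
  have hbig : ∀ P : K[X], P.Monic → Irreducible P → ¬ P ∣ M →
      16 * (κ + 2) ≤ Fintype.card K ^ P.natDegree := by
    intro P hP hi hd
    rw [hM, dvd_MM hP hi, not_le] at hd
    have h1 : P.natDegree < Fintype.card K ^ P.natDegree := Nat.lt_pow_self Fintype.one_lt_card
    omega
  have hMm : M.Monic := by
    rw [hM]
    exact MM_monic w
  have hAdu : Adu κ g M := by
    refine ⟨hMm, ?_, ?_, ?_, hbig⟩
    · have h1 : (X : K[X]) ∣ M := by
        rw [hM, dvd_MM monic_X irreducible_X, natDegree_X]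
        omega
      have h2 := natDegree_le_of_dvd h1 hMm.ne_zero
      rw [natDegree_X] at h2
      omega
    · rw [hM]
      exact Pool.Agent.H524.MT.MertL.pr_sq (PU_mi w)
    · intro P hP i j hij hd
      obtain ⟨Q, hQm, hQi, hQa, hQd⟩ := mon_of_irr hP
      refine hQa.symm.dvd.trans ?_
      rw [hM, dvd_MM hQm hQi, hQd]
      exact (natDegree_le_of_dvd hd (sub_ne_zero.2 (fun h => hij (hg h)))).trans (hw2 i j)
  have hbig' : ∀ z : ℕ, ∀ P ∈ PS K M z, 16 * (κ + 2) ≤ Fintype.card K ^ P.natDegree := by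
    intro z P hP
    unfold PS at hP
    rw [mem_filter, mem_PU] at hP
    exact hbig P hP.1.1 hP.1.2.1 hP.2
  -- the lower bound of the densities
  obtain ⟨c, hc0, hcV⟩ : ∃ c : ℝ, 0 < c ∧ ∀ s : ℕ, s ≤ κ → ∀ z : ℕ, 1 ≤ z →
      c / (z : ℝ) ^ s ≤ VR M z (fun _ => s) := by
    have h1 : ∀ s : Fin (κ + 1), ∃ c : ℝ, 0 < c ∧ ∀ z : ℕ, 1 ≤ z →
        c / (z : ℝ) ^ (s : ℕ) ≤ VR M z (fun _ => (s : ℕ)) := by
      intro s
      refine hvrl K s M hMm fun P hP hi hd => ?_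
      have h2 := hbig P hP hi hd
      have h3 := s.2
      omega
    choose cs hcs0 hcs using h1
    obtain ⟨s₀, hs₀⟩ := Finite.exists_min cs
    refine ⟨cs s₀, hcs0 s₀, fun s hs z hz => ?_⟩
    refine le_trans ?_ (hcs ⟨s, by omega⟩ z hz)
    exact div_le_div_of_nonneg_right (hs₀ _) (by positivity)
  obtain ⟨A, hA, hBH⟩ := hbhk K (κ + 2)
  have hA0 : (0 : ℝ) < A := by exact_mod_cast hA
  -- the constant `η`
  obtain ⟨η, hη, hηA, hη1, hη2⟩ : ∃ η : ℝ, 0 < η ∧ η * (8 * A) ≤ θ ∧ η * 20 ≤ η₀ * θ ∧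
      η * 20 ≤ θ := by
    refine ⟨min (min (θ / (8 * A)) (η₀ * θ / 20)) (θ / 20), by positivity, ?_, ?_, ?_⟩
    · rw [← le_div_iff₀ (by positivity)]
      exact (min_le_left _ _).trans (min_le_left _ _)
    · rw [← le_div_iff₀ (by positivity)]
      exact (min_le_left _ _).trans (min_le_right _ _)
    · rw [← le_div_iff₀ (by positivity)]
      exact min_le_right _ _
  choose nn hnn using fun i => hmasp κ k g i M η (κ + 1) hη hg hAdu
  obtain ⟨n₂, hn₂⟩ := hupp κ k g M η (κ + 1) hη hg hAdu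
  obtain ⟨D, hD⟩ : ∃ D : ℝ, D = (Fintype.card K : ℝ) ^ M.natDegree := ⟨_, rfl⟩
  have hq2 := q_ge (k := K)
  have hD0 : 0 < D := by
    rw [hD]
    positivity
  -- the bound of the weights
  obtain ⟨N₀, hN₀⟩ : ∃ N₀ : ℕ, N₀ = ⌈1 / η⌉₊ := ⟨_, rfl⟩
  obtain ⟨Sg, hSg⟩ : ∃ Sg : ℝ, Sg = C₁ * θ / (8 * η) := ⟨_, rfl⟩
  have hC₁0 : 0 < C₁ := by linarith
  have hSg0 : 0 < Sg := by
    rw [hSg]
    positivity
  obtain ⟨B, hBdef⟩ : ∃ B : ℝ, B = (((2 : ℝ) ^ N₀) ^ k * (2 * Sg) ^ k) ^ 2 := ⟨_, rfl⟩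
  have hB0 : 0 < B := by
    rw [hBdef]
    positivity
  obtain ⟨n₃, hn₃⟩ : ∃ n₃ : ℕ, ∀ n : ℕ, n₃ ≤ n → (n : ℝ) * ((2 : ℝ) ^ (-η)) ^ n < 1 := by
    have h := tendsto_self_mul_const_pow_of_lt_one (r := (2 : ℝ) ^ (-η)) (by positivity)
      (Real.rpow_lt_one_of_one_lt_of_neg (by norm_num) (by linarith))
    exact Filter.eventually_atTop.1 (h.eventually_lt_const one_pos)
  refine ⟨η, c / (2 * D * k * B), ∑ i, nn i + n₂ + n₃ + w + 2 + ⌈(1 + w + C₁) / η⌉₊ +
    ⌈(40 + 8 * A) / θ⌉₊ + ⌈2 * D * ((k : ℝ) + m) / c⌉₊, hη, ?_, ?_⟩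
  · have : (0 : ℝ) < k := by exact_mod_cast hk0
    positivity
  intro n hn S b σ hSκ hSn hgb hadm hσ
  have hSne : S.Nonempty := ⟨g ⟨0, hk0⟩, (hgb ⟨0, hk0⟩).1⟩
  have hSpos : 1 ≤ S.card := card_pos.2 hSne
  -- the residue class
  choose! b' hb' using hadm
  obtain ⟨a₀, ha₀⟩ := crt_ex (PU K w) (PU_mi w) b'
  have ha₀' : ∀ P : K[X], P.Monic → Irreducible P → P ∣ M → ∀ s ∈ S, ¬ P ∣ a₀ + s := by
    intro P hP hi hd s hs h
    rw [hM, dvd_MM hP hi] at hd
    have h1 := ha₀ P (mem_PU.2 ⟨hP, hi, hd⟩)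
    apply hb' P hi s hs
    have h2 : b' P + s = (a₀ + s) - (a₀ - b' P) := by ring
    rw [h2]
    exact dvd_sub h h1
  have hcop : ∀ s ∈ S, IsCoprime (a₀ + s) M := by
    intro s hs
    apply isCoprime_of_irreducible_dvd
    · rintro ⟨_, h⟩
      exact hMm.ne_zero h
    · intro P hP hd hd'
      obtain ⟨Q, hQm, hQi, hQa, _⟩ := mon_of_irr hP
      exact ha₀' Q hQm hQi (hQa.dvd.trans hd') s hs (hQa.dvd.trans hd)
  have hnni : ∀ i, nn i ≤ n := by
    intro i
    have : nn i ≤ ∑ i, nn i := single_le_sum (f := nn) (fun _ _ => Nat.zero_le _) (mem_univ i)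
    omega
  have hnw : w < n := by omega
  have hn1 : 1 ≤ n := by omega
  have hnr : (1 : ℝ) ≤ n := by exact_mod_cast hn1
  have hn0 : (0 : ℝ) < n := by linarith
  have hn3 : (1 + w + C₁) ≤ η * n := by
    have h0 : ⌈(1 + (w : ℝ) + C₁) / η⌉₊ ≤ n := by omega
    have h1 : (⌈(1 + (w : ℝ) + C₁) / η⌉₊ : ℝ) ≤ n := Nat.cast_le.2 h0
    have h2 := (Nat.le_ceil _).trans h1
    rw [div_le_iff₀ hη] at h2
    linarith
  have hn4 : (40 + 8 * A) ≤ θ * n := by
    have h0 : ⌈(40 + 8 * (A : ℝ)) / θ⌉₊ ≤ n := by omega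
    have h1 : (⌈(40 + 8 * (A : ℝ)) / θ⌉₊ : ℝ) ≤ n := Nat.cast_le.2 h0
    have h2 := (Nat.le_ceil _).trans h1
    rw [div_le_iff₀ hθ] at h2
    linarith
  have hn5 : 2 * D * ((k : ℝ) + m) ≤ c * n := by
    have h0 : ⌈2 * D * ((k : ℝ) + m) / c⌉₊ ≤ n := by omega
    have h1 : (⌈2 * D * ((k : ℝ) + m) / c⌉₊ : ℝ) ≤ n := Nat.cast_le.2 h0
    have h2 := (Nat.le_ceil _).trans h1
    rw [div_le_iff₀ hc0] at h2
    linarith
  have hw0 : (0 : ℝ) ≤ w := Nat.cast_nonneg _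
  -- `z` and `T`
  obtain ⟨z, hz⟩ : ∃ z : ℕ, z = ⌈η * n⌉₊ := ⟨_, rfl⟩
  obtain ⟨T, hT⟩ : ∃ T : ℕ, T = ⌊θ * n / 8⌋₊ := ⟨_, rfl⟩
  have hz1 : η * n ≤ z := by
    rw [hz]
    exact Nat.le_ceil _
  have hz2 : (z : ℝ) ≤ η * n + 1 := by
    rw [hz]
    exact (Nat.ceil_lt_add_one (by positivity)).le
  have hz3 : (z : ℝ) ≤ 2 * (η * n) := by linarith
  have hT1 : (T : ℝ) ≤ θ * n / 8 := by
    rw [hT]
    exact Nat.floor_le (by positivity)
  have hT2 : θ * n / 10 ≤ T := by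
    have h1 : θ * n / 8 < T + 1 := by
      rw [hT]
      exact Nat.lt_floor_add_one _
    linarith
  have hηn : η * n * 20 ≤ θ * n := by nlinarith
  have hηn' : η * n * 20 ≤ η₀ * (θ * n) := by nlinarith
  have hzT : z ≤ T := by
    have : (z : ℝ) ≤ T := by linarith
    exact_mod_cast this
  have hzη : (z : ℝ) ≤ η₀ * T := by
    have h1 : η₀ * (θ * n / 10) ≤ η₀ * T := mul_le_mul_of_nonneg_left hT2 hη₀.le
    linarith
  have hz4 : 1 ≤ z := by
    have : (1 : ℝ) ≤ z := by linarith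
    exact_mod_cast this
  have hz0 : (0 : ℝ) < z := by exact_mod_cast hz4
  have hzw : w ≤ z := by
    have : (w : ℝ) ≤ z := by linarith
    exact_mod_cast this
  have hzn : (z : ℝ) ≤ n := by nlinarith
  have hTn' : 2 * (T : ℝ) ≤ n := by nlinarith
  have hTn : T < n := by
    have : (T : ℝ) < n := by nlinarith
    exact_mod_cast this
  have hAzT : ((A * z + 3 * T : ℕ) : ℝ) ≤ θ * n := by
    push_cast
    have h1 : (A : ℝ) * z ≤ A * (η * n + 1) := mul_le_mul_of_nonneg_left hz2 hA0.le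
    have h2 : η * (8 * A) * n ≤ θ * n := mul_le_mul_of_nonneg_right hηA hn0.le
    nlinarith
  have hAz1 : ((A * z + 3 * T : ℕ) : ℝ) ≤ θ₁ * n :=
    hAzT.trans (mul_le_mul_of_nonneg_right hθa hn0.le)
  have hAz2 : ((A * z + 3 * T : ℕ) : ℝ) ≤ θ₂ * n :=
    hAzT.trans (mul_le_mul_of_nonneg_right hθb hn0.le)
  obtain ⟨Vm, Vp, hV⟩ := hBH z hz4
  obtain ⟨y, hy01, hyT, hy1, hyS⟩ := hy z T hz4 hzη
  obtain ⟨R, hR⟩ : ∃ R : Fin k → Finset K[X], R = fun _ => Rz K z T := ⟨_, rfl⟩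
  rw [← hR] at hyS
  have hsum : ∑ r ∈ Rz K z T, 1 / ph r ≤ 2 * (T + 1) := by
    refine (hm2 z T hz4 hzT).2.trans ?_
    rw [div_le_iff₀ hz0]
    have hT0 : (0 : ℝ) ≤ T := Nat.cast_nonneg _
    have h1 : C₁ ≤ z := by linarith
    nlinarith
  have hsumS : ∑ r ∈ Rz K z T, 1 / ph r ≤ Sg := by
    refine (hm2 z T hz4 hzT).2.trans ?_
    rw [hSg, div_le_div_iff₀ hz0 (by positivity)]
    have h1 : C₁ * (8 * η * T) ≤ C₁ * (θ * z) := by
      refine mul_le_mul_of_nonneg_left ?_ hC₁0.le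
      have h2 : η * (8 * T) ≤ η * (θ * n) := mul_le_mul_of_nonneg_left (by linarith) hη.le
      have h3 : θ * (η * n) ≤ θ * z := mul_le_mul_of_nonneg_left hz1 hθ.le
      linarith
    linarith
  have hWd : Wd z T R y := by
    rw [hR]
    exact wd_all hzT y hy01 hyT
  have hWdi : ∀ i, Wd z T (Function.update R i {1}) (yr i R y) := by
    intro i
    rw [hR]
    exact wd_res hzT y hy01 hyT i hsum
  have hRi : ∀ i, Function.update R i {1} i = {1} := fun i => Function.update_self i {1} R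
  have hDc : ∀ j, Dc (R j) := by
    intro j
    exact Pool.Agent.H524.MT.RWMG.Dc_of (z := z) (T := T) (R := R)
      (fun j => Or.inl (by rw [hR])) j
  have hRT : ∀ j, ∀ r ∈ R j, r.natDegree ≤ T := by
    intro j r hr
    rw [hR] at hr
    exact (Pool.Agent.H524.MT.RWMG.mem_Rz.1 hr).2.1
  have hR1 : ∀ i, (1 : K[X]) ∈ R i := by
    intro i
    rw [hR]
    exact Pool.Agent.H524.MT.RWMG.one_mem_Rz z T
  have hfg : ∀ f ∈ Mn K n, ∀ i, (f + g i).natDegree = n := by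
    intro f hf i
    have hfM := mem_Mn.1 hf
    rw [natDegree_add_eq_left_of_natDegree_lt, hfM.2]
    rw [hfM.2]
    exact lt_of_le_of_lt (hw3 i) hnw
  -- the family
  obtain ⟨F, hF⟩ : ∃ F : Finset K[X], F = (Ac K n M a₀).filter
    (fun f => ∀ P ∈ PS K M z, ¬ Ra S P f) := ⟨_, rfl⟩
  obtain ⟨W, hWdef⟩ : ∃ W : K[X] → ℝ, W = fun f => wV R y (fun j => f + g j) := ⟨_, rfl⟩
  have hup := hn₂ S a₀ n z A T Vm Vp R y hSκ (fun j => (hgb j).1) hcop (by omega) hA hV hz1 hAz2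
    hWd
  have hW0 : ∀ f, 0 ≤ W f := by
    intro f
    rw [hWdef]
    exact sq_nonneg _
  have hFM : ∀ f ∈ F, f ∈ Mn K n ∧ M ∣ f - a₀ ∧ ∀ P ∈ PS K M z, ¬ Ra S P f := by
    intro f hf
    rw [hF, mem_filter] at hf
    have h1 := hf.1
    unfold Ac at h1
    rw [mem_filter] at h1
    exact ⟨h1.1, h1.2, hf.2⟩
  have hTq : 2 * (T : ℝ) ≤ (Fintype.card K : ℝ) ^ z := by
    have h1 := hn₃ n (by omega)
    have h2 : ((2 : ℝ) ^ (-η)) ^ n = ((2 : ℝ) ^ (η * n))⁻¹ := by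
      rw [← Real.rpow_natCast, ← Real.rpow_mul (by norm_num), ← Real.rpow_neg (by norm_num)]
      congr 1
      ring
    rw [h2, ← div_eq_mul_inv, div_lt_one (by positivity)] at h1
    have h3 : (2 : ℝ) ^ (η * n) ≤ (2 : ℝ) ^ (z : ℝ) :=
      Real.rpow_le_rpow_of_exponent_le (by norm_num) hz1
    rw [Real.rpow_natCast] at h3
    have h4 : (2 : ℝ) ^ z ≤ (Fintype.card K : ℝ) ^ z := pow_le_pow_left₀ (by norm_num) hq2 z
    linarith
  have hWB : ∀ f ∈ Mn K n, W f ≤ B := by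
    intro f hf
    rw [hWdef, hBdef, hR]
    refine Pool.Agent.H524.MT.Sh.wV_leS (K := K) (k := k) (z := z) (T := T) hTq hSg0.le hsumS
      (fun r => ?_) (by omega) (N := N₀) (fun j => ?_) (fun j => ?_)
    · rw [abs_of_nonneg (hy01 r).1]
      exact (hy01 r).2
    · intro h0
      have h1 := hfg f hf j
      rw [h0, natDegree_zero] at h1
      omega
    · show (f + g j).natDegree ≤ N₀ * z
      rw [hfg f hf j]
      have h1 : (n : ℝ) ≤ N₀ * z := by
        have h2 : 1 / η ≤ N₀ := by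
          rw [hN₀]
          exact Nat.le_ceil _
        have h3 : (1 / η) * (η * n) ≤ N₀ * z :=
          mul_le_mul h2 hz1 (by positivity) (Nat.cast_nonneg _)
        have h4 : (1 / η) * (η * n) = n := by
          field_simp
        linarith
      exact_mod_cast h1
  have hlow : ∀ i, (Fintype.card K : ℝ) ^ n / (D * Pm M) *
      (VR M z (fun P => nr S P - 1) * dia (Function.update R i {1}) (yr i R y) / 16) -
        (Fintype.card K : ℝ) ^ n / (n : ℝ) ^ (κ + 1) ≤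
      (n : ℝ) * ∑ f ∈ F.filter (fun f => Irreducible (f + g i) ∧ mob (f + b i) = σ i), W f := by
    intro i
    have h1 := hnn i S (b i) a₀ n z A T (σ i) Vm Vp (Function.update R i {1}) (yr i R y) hSκ hSn
      (fun j => (hgb j).1) (hgb i).2.1 (hgb i).2.2 hcop (hnni i) hA hV hz1 hAz1 (hWdi i) (hRi i)
      (hσ i)
    rw [hD]
    refine h1.trans (le_of_eq ?_)
    congr 1
    refine sum_congr ?_ ?_
    · ext f
      rw [mem_filter, mem_filter, hF, mem_filter]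
      tauto
    · intro f hf
      rw [mem_filter] at hf
      rw [hWdef]
      have hfF := hFM f hf.1
      refine (hresg K k i R y (fun j => f + g j) T hDc hRT hf.2.1 ?_ (hR1 i)).symm
      show T < (f + g i).natDegree
      rw [hfg f hfF.1 i]
      exact hTn
  have hlow' : (Fintype.card K : ℝ) ^ n / (D * Pm M) *
      (VR M z (fun P => nr S P - 1) *
        (∑ i, dia (Function.update R i {1}) (yr i R y)) / 16) -
        k * ((Fintype.card K : ℝ) ^ n / (n : ℝ) ^ (κ + 1)) ≤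
      (n : ℝ) * ∑ i, ∑ f ∈ F.filter (fun f => Irreducible (f + g i) ∧ mob (f + b i) = σ i),
        W f := by
    have h1 := sum_le_sum (s := (univ : Finset (Fin k))) fun i _ => hlow i
    rw [sum_sub_distrib, ← mul_sum, ← mul_sum, ← sum_div, ← mul_sum, sum_const, card_univ,
      Fintype.card_fin, nsmul_eq_mul] at h1
    exact h1
  have hupF : ∑ f ∈ F, W f ≤ (Fintype.card K : ℝ) ^ n / D *
      (2 * VR M z (nr S) * dia R y) +
        (Fintype.card K : ℝ) ^ n / (n : ℝ) ^ (κ + 1) := by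
    rw [hD, hF, hWdef]
    exact hup
  have hratio : VR M z (nr S) * Pm M * z ≤ VR M z (fun P => nr S P - 1) := by
    have h1 := hbig' z
    rw [hM] at h1 ⊢
    refine VR_ratio (κ := κ) (nr S) (fun P hP => ?_) (fun P => (nr_le S P).trans hSκ) hzw h1
      (hm1 z hz4).1
    unfold PS at hP
    rw [mem_filter, mem_PU] at hP
    exact one_le_nr hSne hP.1.1
  have hVRge : c / (n : ℝ) ^ S.card ≤ VR M z (nr S) := by
    have h1 := hcV S.card hSκ z hz4
    have h2 := VR_mono (M := M) (z := z) (κ := κ) (r := nr S) (r' := fun _ => S.card)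
      (nr_le S) (fun _ => hSκ) (hbig' z)
    refine le_trans ?_ (h1.trans h2)
    gcongr
  have hVR0 : 0 ≤ VR M z (nr S) := le_trans (by positivity) hVRge
  have hPm0 : 0 < Pm M := by
    rw [hM]
    exact Pm_pos w
  have hdia : 1 ≤ dia R y := by
    rw [hR]
    exact dia_ge z T y hy1
  have hX0 : (0 : ℝ) ≤ (Fintype.card K : ℝ) ^ n := by positivity
  have hfin := real_fin (k := (k : ℝ)) (m := (m : ℝ)) hX0 hD0 hPm0 hVR0 hz0 hnr hθ
    (Nat.cast_nonneg m) (Nat.cast_nonneg k)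
    (by positivity : (0 : ℝ) ≤ (Fintype.card K : ℝ) ^ n / (n : ℝ) ^ (κ + 1))
    hratio hdia hT2 hΛ hyS hlow' hupF
  have hcount := count m F W (fun i f => Irreducible (f + g i) ∧ mob (f + b i) = σ i)
    B (fun f _ => hW0 f) (fun f hf => hWB f (hFM f hf).1)
  obtain ⟨G, hG⟩ : ∃ G : Finset K[X], G = F.filter (fun f => m ≤ (univ.filter
    (fun j => Irreducible (f + g j) ∧ mob (f + b j) = σ j)).card) := ⟨_, rfl⟩
  have hcount' : (∑ i, ∑ f ∈ F.filter (fun f => Irreducible (f + g i) ∧ mob (f + b i) = σ i),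
      W f) - m * ∑ f ∈ F, W f ≤ k * B * (G.card : ℝ) := by
    rw [hG]
    exact hcount
  have hkr : (1 : ℝ) ≤ k := by exact_mod_cast hk
  have hmain := real_fin3 (X := (Fintype.card K : ℝ) ^ n) (D := D) (c := c) (n := (n : ℝ))
    (N := (G.card : ℝ)) (k := (k : ℝ)) (m := (m : ℝ)) (B := B) S.card κ hSκ hX0 hD0 hnr hkr hB0
    (Nat.cast_nonneg m) hc0 hn5 (by
      refine le_trans ?_ (hfin.trans hcount')
      have h1 : (Fintype.card K : ℝ) ^ n / D * (c / (n : ℝ) ^ S.card) ≤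
          (Fintype.card K : ℝ) ^ n / D * VR M z (nr S) :=
        mul_le_mul_of_nonneg_left hVRge (by positivity)
      linarith)
  refine hmain.trans ?_
  have hsub : G ⊆ (Mn K n).filter (fun f =>
      m ≤ (Finset.univ.filter (fun j => Irreducible (f + g j) ∧ mob (f + b j) = σ j)).card ∧
      ∀ s ∈ S, ∀ P : K[X], Irreducible P → P ∣ f + s → η * n ≤ P.natDegree) := by
    intro f hf
    rw [hG, mem_filter] at hf
    obtain ⟨hfF, hfm⟩ := hf
    obtain ⟨h1, h2, h3⟩ := hFM f hfF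
    rw [mem_filter]
    refine ⟨h1, hfm, ?_⟩
    intro s hs P' hP' hd'
    obtain ⟨P, hPm, hPi, hPa, hPd⟩ := mon_of_irr hP'
    rw [← hPd]
    have hd : P ∣ f + s := hPa.dvd.trans hd'
    by_contra hlt
    rw [not_le] at hlt
    have hlt' : (P.natDegree : ℝ) ≤ z := hlt.le.trans hz1
    have hlt2 : P.natDegree ≤ z := by exact_mod_cast hlt'
    by_cases hPM : P ∣ M
    · apply ha₀' P hPm hPi hPM s hs
      have h4 : a₀ + s = (f + s) - (f - a₀) := by ring
      rw [h4]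
      exact dvd_sub hd (hPM.trans h2)
    · apply h3 P
      · unfold PS
        rw [mem_filter, mem_PU]
        exact ⟨⟨hPm, hPi, hlt2⟩, hPM⟩
      · exact ⟨s, hs, hd⟩
  exact_mod_cast card_le_card hsub

end Pool.Agent.H251.MY

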