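import Mathlib
import Pool.Agent.H251.MY.StmQ

/-!
# A positive proportion of the tuples, with parity, from `S_mayq` (helper441, after H524/MT/Prop.lean)
-/

set_option autoImplicit false

namespace Pool.Agent.H251.MY

open Polynomial
open scoped Classical
open Pool.Agent.H985.Chow (mob)
open Pool.Agent.H694.Typ (Mn PU mem_Mn mem_PU card_Mn)

namespace PropQ

variable {K : Type} [Field K] [Fintype K]

/-- The product of the primes of degree at most `L`. -/
noncomputable def WW (K : Type) [Field K] [Fintype K] (L : ℕ) : K[X] := ∏ P ∈ PU K L, P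

theorem WW_monic (L : ℕ) : (WW K L).Monic :=
  monic_prod_of_monic _ _ fun P hP => (mem_PU.1 hP).1

theorem dvd_WW {L : ℕ} {P : K[X]} (hI : Irreducible P) (hd : P.natDegree ≤ L) : P ∣ WW K L := by
  have h1 : (normalize P).Monic := monic_normalize hI.ne_zero
  have h3 : Irreducible (normalize P) := (normalize_associated P).symm.irreducible hI
  have h4 : (normalize P).natDegree = P.natDegree :=
    natDegree_eq_of_degree_eq (degree_eq_degree_of_associated (normalize_associated P))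
  refine (dvd_normalize_iff.2 dvd_rfl : P ∣ normalize P).trans ?_
  exact Finset.dvd_prod_of_mem (fun P => P) (mem_PU.2 ⟨h1, h3, by rw [h4]; exact hd⟩)

theorem adm {k : ℕ} (c : Fin k → K[X]) (hc : ∀ j, WW K (2 * k) ∣ c j) (a : K[X])
    (ha : ∀ P : K[X], Irreducible P → ∃ x : K[X], ¬ P ∣ x ∧ ¬ P ∣ x + a) (P : K[X])
    (hI : Irreducible P) : ∃ f : K[X], ∀ j, ¬ P ∣ f + c j ∧ ¬ P ∣ f + (c j + a) := by
  by_cases hd : P.natDegree ≤ 2 * k
  · obtain ⟨x, hx, hxa⟩ := ha P hI
    have h5 := dvd_WW hI hd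
    refine ⟨x, fun j => ⟨fun h => hx ?_, fun h => hxa ?_⟩⟩
    · have h6 := dvd_sub h (h5.trans (hc j))
      rwa [add_sub_cancel_right] at h6
    · have h6 := dvd_sub h (h5.trans (hc j))
      have e : x + (c j + a) - c j = x + a := by ring
      rwa [e] at h6
  · by_contra hcon
    push Not at hcon hd
    have hcon' : ∀ i : Fin (2 * k + 1), ∃ jb : Fin k × Bool,
        P ∣ (X ^ (i : ℕ) : K[X]) + (c jb.1 + if jb.2 then a else 0) := by
      intro i
      obtain ⟨j, hj⟩ := hcon (X ^ (i : ℕ))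
      by_cases h1 : P ∣ (X ^ (i : ℕ) : K[X]) + c j
      · refine ⟨(j, false), ?_⟩
        simpa using h1
      · exact ⟨(j, true), by simpa using hj h1⟩
    choose j hj using hcon'
    obtain ⟨i, i', hne, hij⟩ := Fintype.exists_ne_map_eq_of_card_lt j (by
      rw [Fintype.card_prod, Fintype.card_fin, Fintype.card_bool, Fintype.card_fin]; omega)
    apply hne
    have h3 := dvd_sub (hj i) (hj i')
    rw [hij, add_sub_add_right_eq_sub] at h3
    have h6 : (X ^ (i : ℕ) - X ^ (i' : ℕ) : K[X]) = 0 := by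
      by_contra h7
      have h8 := natDegree_le_of_dvd h3 h7
      have h9 : (X ^ (i : ℕ) - X ^ (i' : ℕ) : K[X]).natDegree ≤ 2 * k := by
        refine (natDegree_sub_le _ _).trans ?_
        rw [natDegree_X_pow, natDegree_X_pow]
        have := i.2
        have := i'.2
        omega
      omega
    have h7 := congrArg natDegree (sub_eq_zero.1 h6)
    rw [natDegree_X_pow, natDegree_X_pow] at h7
    exact Fin.ext h7

/-- The shifts. -/
noncomputable def SS (K : Type) [Field K] [Fintype K] (k e : ℕ) : Finset K[X] :=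
  (Mn K e).image (fun g => WW K (2 * k) * g)

theorem card_SS (k e : ℕ) : (SS K k e).card = Fintype.card K ^ e := by
  unfold SS
  rw [Finset.card_image_of_injective, card_Mn]
  intro g g' h
  exact mul_left_cancel₀ (WW_monic (K := K) (2 * k)).ne_zero h

theorem dvd_SS {k e : ℕ} {f : K[X]} (hf : f ∈ SS K k e) : WW K (2 * k) ∣ f := by
  unfold SS at hf
  rw [Finset.mem_image] at hf
  obtain ⟨g, -, rfl⟩ := hf
  exact dvd_mul_right _ _

theorem fin_deg (n : ℕ) : {f : K[X] | f.degree < (n : WithBot ℕ)}.Finite := by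
  have h : ({f : K[X] | f.degree < (n : WithBot ℕ)} : Set K[X]) = (degreeLT K n : Set K[X]) := by
    ext f
    exact mem_degreeLT.symm
  rw [h]
  haveI : Finite (degreeLT K n) := Module.finite_of_finite K
  exact Set.toFinite _

/-- Pigeonhole over the arguments. -/
theorem ex_sub {k m : ℕ} {a : K[X]} {sg : ℤ}
    (H : ∀ (S : Finset K[X]) (g b : Fin k → K[X]), Function.Injective g →
      (∀ j, g j ∈ S ∧ b j ∈ S ∧ b j ≠ g j) →
      (∀ P : K[X], Irreducible P → ∃ f : K[X], ∀ s ∈ S, ¬ P ∣ f + s) →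
      ∃ (δ c : ℝ) (n₀ : ℕ), 0 < δ ∧ 0 < c ∧ ∀ n : ℕ, n₀ ≤ n → ∀ σ : Fin k → ℤ,
        (∀ j, σ j = 1 ∨ σ j = -1) →
        c * (Fintype.card K : ℝ) ^ n / (n : ℝ) ^ S.card ≤
          (((Mn K n).filter (fun f =>
            m ≤ (Finset.univ.filter (fun j => Irreducible (f + g j) ∧ mob (f + b j) = σ j)).card ∧
            ∀ s ∈ S, ∀ P : K[X], Irreducible P → P ∣ f + s → δ * n ≤ P.natDegree)).card : ℝ))
    (ha0 : a ≠ 0) (ha : ∀ P : K[X], Irreducible P → ∃ x : K[X], ¬ P ∣ x ∧ ¬ P ∣ x + a)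
    (hsg : sg = 1 ∨ sg = -1)
    (c : Fin k → K[X]) (hc : Function.Injective c) (hS : ∀ j, WW K (2 * k) ∣ c j) :
    ∃ τ : Fin m → Fin k, Function.Injective τ ∧
      {f : K[X] | ∀ i, Irreducible (f + c (τ i)) ∧ mob (f + c (τ i) + a) = sg}.Infinite := by
  obtain ⟨δ, c₁, d₀, hδ, hc₁, H1⟩ := H
    (Finset.univ.image c ∪ Finset.univ.image (fun j => c j + a)) c (fun j => c j + a) hc
    (fun j => ⟨Finset.mem_union_left _ (Finset.mem_image_of_mem c (Finset.mem_univ j)),
      Finset.mem_union_right _ (Finset.mem_image_of_mem (fun j => c j + a) (Finset.mem_univ j)),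
      fun h => ha0 (by simpa using h)⟩)
    (fun P hP => by
      obtain ⟨f, hf⟩ := adm c hS a ha P hP
      refine ⟨f, fun s hs => ?_⟩
      rw [Finset.mem_union, Finset.mem_image, Finset.mem_image] at hs
      rcases hs with ⟨j, -, rfl⟩ | ⟨j, -, rfl⟩
      · exact (hf j).1
      · exact (hf j).2)
  have hex : ∀ n : ℕ, ∃ f : K[X], f.natDegree = d₀ + 1 + n ∧
      ∃ τ : Fin m → Fin k, Function.Injective τ ∧
        ∀ i, Irreducible (f + c (τ i)) ∧ mob (f + c (τ i) + a) = sg := by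
    intro n
    have h1 := H1 (d₀ + 1 + n) (by omega) (fun _ => sg) (fun _ => hsg)
    have hn0 : (0 : ℝ) < ((d₀ + 1 + n : ℕ) : ℝ) := by
      exact_mod_cast (by omega : 0 < d₀ + 1 + n)
    have hq0 : (0 : ℝ) < (Fintype.card K : ℝ) := by
      exact_mod_cast (Fintype.card_pos (α := K))
    have h3 : (0 : ℝ) < c₁ * (Fintype.card K : ℝ) ^ (d₀ + 1 + n) / ((d₀ + 1 + n : ℕ) : ℝ) ^
        (Finset.univ.image c ∪ Finset.univ.image (fun j => c j + a)).card := by
      positivity
    have h4 := Finset.card_pos.1 (by exact_mod_cast h3.trans_le h1)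
    obtain ⟨f, hf⟩ := h4
    rw [Finset.mem_filter, mem_Mn] at hf
    refine ⟨f, hf.1.2, ?_⟩
    obtain ⟨T, hT, hTc⟩ := Finset.exists_subset_card_eq hf.2.1
    refine ⟨fun i => T.orderEmbOfFin hTc i, fun i j hij => (T.orderEmbOfFin hTc).injective hij,
      fun i => ?_⟩
    have h5 := (Finset.mem_filter.1 (hT (T.orderEmbOfFin_mem hTc i))).2
    rw [add_assoc f _ a]
    exact h5
  choose f hf τ hτ hirr using hex
  obtain ⟨τ₀, hτ₀⟩ := Finite.exists_infinite_fiber τ
  have hne : (τ ⁻¹' {τ₀}).Nonempty := by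
    have := hτ₀
    exact Set.nonempty_coe_sort.1 inferInstance
  obtain ⟨n₀, hn₀⟩ := hne
  refine ⟨τ₀, ?_, ?_⟩
  · have h1 : τ n₀ = τ₀ := hn₀
    rw [← h1]
    exact hτ n₀
  · have h1 : (τ ⁻¹' {τ₀}).Infinite := Set.infinite_coe_iff.1 hτ₀
    have h3 : Set.InjOn f (τ ⁻¹' {τ₀}) := by
      intro n _ n' _ h
      have h4 := hf n
      rw [h, hf n'] at h4
      omega
    refine (h1.image h3).mono ?_
    rintro _ ⟨n, hn, rfl⟩ i
    have h4 : τ n = τ₀ := hn
    rw [← h4]
    exact hirr n i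

end PropQ

open PropQ in
/-- **Task PROPQ.** -/
theorem propq : S_tpropq := by
  intro hM K _ _ _ m
  obtain ⟨k, hk, H⟩ := hM K m
  obtain ⟨w, hw⟩ : ∃ w, w = (WW K (2 * k)).natDegree := ⟨_, rfl⟩
  obtain ⟨q, hq⟩ : ∃ q, q = Fintype.card K := ⟨_, rfl⟩
  have hq2 : 2 ≤ q := by rw [hq]; exact Fintype.one_lt_card
  have hqr : (0 : ℝ) < (q : ℝ) := by exact_mod_cast (by omega : 0 < q)
  have hkr : (0 : ℝ) < (k : ℝ) := by exact_mod_cast hk
  refine ⟨1 / (2 ^ k * (k : ℝ) ^ m * ((q : ℝ) ^ (w + 1)) ^ m), by positivity, fun a ha0 ha =>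
    ⟨w + 1 + 2 * k, fun n hn sg hsg => ?_⟩⟩
  rw [← hq]
  obtain ⟨e, he⟩ : ∃ e, n = e + (w + 1) := ⟨n - (w + 1), by omega⟩
  obtain ⟨N, hN⟩ : ∃ N, N = (SS K k e).card := ⟨_, rfl⟩
  have hNq : N = q ^ e := by rw [hN, card_SS, hq]
  have hNk : 2 * k ≤ N := by
    rw [hNq]
    have h1 : 2 * k ≤ e := by omega
    exact (h1.trans (Nat.lt_pow_self hq2).le)
  obtain ⟨Gd, hGd⟩ : ∃ Gd : Set (Fin m → K[X]), Gd = {c : Fin m → K[X] |
      (∀ i, (c i).degree < (n : WithBot ℕ)) ∧ Function.Injective c ∧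
        {f : K[X] | ∀ i, Irreducible (f + c i) ∧ mob (f + c i + a) = sg}.Infinite} := ⟨_, rfl⟩
  rw [← hGd]
  have hfin : Gd.Finite := by
    have h1 : (Set.pi Set.univ (fun _ : Fin m => {f : K[X] | f.degree < (n : WithBot ℕ)})).Finite :=
      Set.Finite.pi fun _ => fin_deg n
    refine h1.subset fun c hc i _ => ?_
    rw [hGd] at hc
    exact hc.1 i
  have hdegS : ∀ f ∈ SS K k e, f.degree < (n : WithBot ℕ) := by
    intro f hf
    unfold SS at hf
    rw [Finset.mem_image] at hf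
    obtain ⟨g, hg, rfl⟩ := hf
    rw [mem_Mn] at hg
    refine degree_le_natDegree.trans_lt ?_
    have h1 : (WW K (2 * k) * g).natDegree = w + e := by
      rw [(WW_monic (2 * k)).natDegree_mul hg.1, hg.2, ← hw]
    rw [h1]
    exact_mod_cast (by omega : w + e < n)
  -- the choice
  have hex : ∀ c : Fin k ↪ (SS K k e), ∃ σ : Fin m → Fin k, Function.Injective σ ∧
      {f : K[X] | ∀ i, Irreducible (f + (c (σ i) : K[X])) ∧
        mob (f + (c (σ i) : K[X]) + a) = sg}.Infinite := fun c =>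
    ex_sub H ha0 ha hsg (fun j => (c j : K[X])) (fun i j h => c.injective (Subtype.ext h))
      (fun j => dvd_SS (c j).2)
  choose σ hσ hinf using hex
  obtain ⟨Ψ, hΨ⟩ : ∃ Ψ : (Fin k ↪ (SS K k e)) → (Fin m → Fin k) × (Fin m → K[X]),
      ∀ c, Ψ c = (σ c, fun i => (c (σ c i) : K[X])) := ⟨fun c => (σ c, fun i => (c (σ c i) : K[X])),
        fun _ => rfl⟩
  have hfib : ∀ p ∈ Finset.univ.image Ψ, (Finset.univ.filter (fun c => Ψ c = p)).card ≤
      N ^ (k - m) := by
    intro p hp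
    rw [Finset.mem_image] at hp
    obtain ⟨c₀, -, hc₀⟩ := hp
    have hinj0 := hσ c₀
    have hcard : Fintype.card {j : Fin k // j ∉ Set.range (σ c₀)} = k - m := by
      have h1 := Set.card_range_of_injective hinj0
      rw [Fintype.card_fin] at h1
      have h2 : Fintype.card {j : Fin k // j ∈ Set.range (σ c₀)} = m :=
        (Fintype.card_congr (Equiv.refl _)).trans h1
      rw [Fintype.card_subtype_compl, Fintype.card_fin, h2]
    have h2 : Fintype.card ({j : Fin k // j ∉ Set.range (σ c₀)} → (SS K k e)) = N ^ (k - m) := by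
      rw [Fintype.card_fun, hcard, Fintype.card_coe, ← hN]
    rw [← h2, ← Finset.card_univ]
    refine Finset.card_le_card_of_injOn (fun c j => c j.1) (fun _ _ => Finset.mem_coe.2 (Finset.mem_univ _)) ?_
    intro c hc c' hc' h
    rw [Finset.mem_coe, Finset.mem_filter, hΨ, ← hc₀, hΨ, Prod.mk.injEq] at hc hc'
    ext1 j
    by_cases hj : j ∈ Set.range (σ c₀)
    · obtain ⟨i, rfl⟩ := hj
      have h3 := congrFun hc.2.2 i
      have h4 := congrFun hc'.2.2 i
      simp only [hc.2.1] at h3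
      simp only [hc'.2.1] at h4
      exact Subtype.ext (h3.trans h4.symm)
    · exact congrFun h ⟨j, hj⟩
  have hmul := Finset.card_le_mul_card_image Finset.univ (N ^ (k - m)) hfib
  have himg : (Finset.univ.image Ψ).card ≤ k ^ m * Gd.ncard := by
    have h1 : Finset.univ.image Ψ ⊆ (Finset.univ : Finset (Fin m → Fin k)) ×ˢ hfin.toFinset := by
      intro p hp
      rw [Finset.mem_image] at hp
      obtain ⟨c, -, rfl⟩ := hp
      rw [hΨ, Finset.mem_product]
      refine ⟨Finset.mem_univ _, ?_⟩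
      rw [Set.Finite.mem_toFinset, hGd]
      refine ⟨fun i => hdegS _ (c (σ c i)).2, fun i j h => ?_, hinf c⟩
      exact hσ c (c.injective (Subtype.ext h))
    refine (Finset.card_le_card h1).trans ?_
    rw [Finset.card_product, Finset.card_univ, Fintype.card_fun, Fintype.card_fin, Fintype.card_fin,
      Set.ncard_eq_toFinset_card _ hfin]
  have hE : (N + 1 - k) ^ k ≤ N ^ (k - m) * (k ^ m * Gd.ncard) := by
    have h1 : (Finset.univ : Finset (Fin k ↪ (SS K k e))).card = N.descFactorial k := by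
      rw [Finset.card_univ, Fintype.card_embedding_eq, Fintype.card_fin, Fintype.card_coe, ← hN]
    rw [h1] at hmul
    exact (Nat.pow_sub_le_descFactorial N k).trans (hmul.trans (Nat.mul_le_mul_left _ himg))
  have hmk : m ≤ k := by
    have h1 : 0 < N.descFactorial k := Nat.descFactorial_pos.2 (by omega)
    have h3 : 0 < Fintype.card (Fin k ↪ (SS K k e)) := by
      rw [Fintype.card_embedding_eq, Fintype.card_fin, Fintype.card_coe, ← hN]
      exact h1
    obtain ⟨c⟩ := Fintype.card_pos_iff.1 h3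
    have h4 := Fintype.card_le_of_injective _ (hσ c)
    rwa [Fintype.card_fin, Fintype.card_fin] at h4
  have hNr : (0 : ℝ) < (N : ℝ) := by
    have : 0 < N := by omega
    exact_mod_cast this
  have hE' : ((N : ℝ) / 2) ^ k ≤ (N : ℝ) ^ (k - m) * ((k : ℝ) ^ m * (Gd.ncard : ℝ)) := by
    have h1 : (N : ℝ) / 2 ≤ ((N + 1 - k : ℕ) : ℝ) := by
      rw [Nat.cast_sub (by omega)]
      push_cast
      have : (2 * k : ℝ) ≤ N := by exact_mod_cast hNk
      linarith
    refine (pow_le_pow_left₀ (by positivity) h1 k).trans ?_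
    exact_mod_cast hE
  have hsplit : ((N : ℝ) / 2) ^ k = (N : ℝ) ^ (k - m) * ((N : ℝ) ^ m / 2 ^ k) := by
    rw [div_pow, ← mul_div_assoc, ← pow_add, Nat.sub_add_cancel hmk]
  rw [hsplit] at hE'
  have h3 := le_of_mul_le_mul_left hE' (pow_pos hNr (k - m))
  have h4 : 1 / (2 ^ k * (k : ℝ) ^ m * ((q : ℝ) ^ (w + 1)) ^ m) * ((q : ℝ) ^ n) ^ m =
      (N : ℝ) ^ m / 2 ^ k / (k : ℝ) ^ m := by
    have h5 : (N : ℝ) = (q : ℝ) ^ e := by rw [hNq]; push_cast; rfl
    obtain ⟨Q, hQ⟩ : ∃ Q : ℝ, Q = (q : ℝ) ^ (w + 1) := ⟨_, rfl⟩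
    have hQ0 : Q ≠ 0 := by rw [hQ]; positivity
    rw [he, pow_add (q : ℝ) e (w + 1), ← h5, ← hQ, mul_pow]
    field_simp
  rw [h4, div_le_iff₀ (by positivity)]
  linarith

end Pool.Agent.H251.MY
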