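import Pool.Agent.H251.MY.StmU
import Pool.Agent.H524.MT.RwmG

/-!
# Task REPRU: the sieve weights times Maynard's weights as class-dependent weights, uniformly in the
set of the shifts (adapted by helper415 from the task REPR of helper80)
-/

set_option autoImplicit false
set_option linter.all false

namespace Pool.Agent.H251.MY

open Polynomial
open scoped Classical
open Pool.Agent.H985.Chow (mob)
open Pool.Agent.H985.KP (PA)
open Pool.Agent.H694.Typ (Mn Irn PU mem_Mn mem_PU)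
open Pool.Agent.H985.CH (Hh SqM)
open Pool.Agent.H524.MT (GW PS sw Rz lam wV rd)
open Pool.Agent.H524.MT.RWMG (pf mem_pf rd_monic rd_sq rd_dvd rd_self prod_pf rd_dvd_iff rd_prod
  natDegree_prod_pf qq q2 q0 mem_Rz one_mem_Rz lam_le lam_zero poly_le cnt_div)

namespace REPRU

/-- the triples -/
abbrev Tr (K : Type) [Field K] (k : ℕ) : Type := Finset K[X] × (Fin k → K[X]) × (Fin k → K[X])

variable {K : Type} [Field K] [Fintype K] {k : ℕ}

/-- the modulus of a triple -/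
noncomputable def EX (M : K[X]) (x : Tr K k) : K[X] :=
  M * (∏ P ∈ x.1, P) * ∏ j, rd (x.2.1 j * x.2.2 j)

/-- the weight of a triple -/
noncomputable def wt (V : Finset K[X] → ℝ) (R : Fin k → Finset K[X]) (y : (Fin k → K[X]) → ℝ)
    (x : Tr K k) : ℝ := V x.1 * (lam R y x.2.1 * lam R y x.2.2)

/-- the conditions -/
def cond (S : Finset K[X]) (g : Fin k → K[X]) (i : Fin k) (M a₀ p : K[X]) (x : Tr K k) : Prop :=
  M ∣ p - g i - a₀ ∧ (∀ P ∈ x.1, Ru S (g i) P (p - g i)) ∧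
    (∀ j, x.2.1 j ∣ p - g i + g j) ∧ ∀ j, x.2.2 j ∣ p - g i + g j

/-- all the triples -/
noncomputable def TT (M : K[X]) (z : ℕ) (R : Fin k → Finset K[X]) : Finset (Tr K k) :=
  (PS K M z).powerset ×ˢ (Fintype.piFinset R ×ˢ Fintype.piFinset R)

/-- the triples which occur -/
noncomputable def XX (S : Finset K[X]) (g : Fin k → K[X]) (i : Fin k) (M a₀ : K[X]) (z : ℕ)
    (V : Finset K[X] → ℝ) (R : Fin k → Finset K[X]) (y : (Fin k → K[X]) → ℝ) (p : K[X]) :
    Finset (Tr K k) :=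
  (TT M z R).filter (fun x => cond S g i M a₀ p x ∧ wt V R y x ≠ 0)

/-- the coefficients -/
noncomputable def coef (S : Finset K[X]) (g : Fin k → K[X]) (i : Fin k) (M a₀ : K[X]) (z : ℕ)
    (V : Finset K[X] → ℝ) (R : Fin k → Finset K[X]) (y : (Fin k → K[X]) → ℝ) (E p : K[X]) : ℝ :=
  ∑ x ∈ (XX S g i M a₀ z V R y p).filter (fun x => EX M x = E), wt V R y x

theorem mem_PS {M : K[X]} {z : ℕ} {P : K[X]} :
    P ∈ PS K M z ↔ (P.Monic ∧ Irreducible P ∧ P.natDegree ≤ z) ∧ ¬ P ∣ M := by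
  unfold PS
  rw [Finset.mem_filter, mem_PU]

section

variable {S : Finset K[X]} {g : Fin k → K[X]} {i : Fin k} {M a₀ : K[X]} {z T : ℕ}
  {V : Finset K[X] → ℝ} {R : Fin k → Finset K[X]} {y : (Fin k → K[X]) → ℝ}

theorem mem_TT {x : Tr K k} : x ∈ TT M z R ↔ x.1 ⊆ PS K M z ∧ (∀ j, x.2.1 j ∈ R j) ∧
    ∀ j, x.2.2 j ∈ R j := by
  unfold TT
  rw [Finset.mem_product, Finset.mem_product, Finset.mem_powerset, Fintype.mem_piFinset,
    Fintype.mem_piFinset]

/-- the sum over the triples is the product of the weights -/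
theorem sum_XX (p : K[X]) :
    (if M ∣ p - g i - a₀ then sw M (Ru S (g i)) z V (p - g i) *
      wV R y (fun j => p - g i + g j) else 0) = ∑ x ∈ XX S g i M a₀ z V R y p, wt V R y x := by
  have e0 : ∑ x ∈ XX S g i M a₀ z V R y p, wt V R y x =
      ∑ x ∈ (TT M z R).filter (fun x => cond S g i M a₀ p x), wt V R y x := by
    unfold XX
    rw [← Finset.filter_filter, Finset.sum_filter_ne_zero]
  rw [e0]
  by_cases hM : M ∣ p - g i - a₀
  · rw [if_pos hM]
    have e1 : (TT M z R).filter (fun x => cond S g i M a₀ p x) =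
        ((PS K M z).filter (fun P => Ru S (g i) P (p - g i))).powerset ×ˢ
          ((Fintype.piFinset R).filter (fun e => ∀ j, e j ∣ p - g i + g j) ×ˢ
            (Fintype.piFinset R).filter (fun e => ∀ j, e j ∣ p - g i + g j)) := by
      ext x
      rw [Finset.mem_filter, mem_TT, Finset.mem_product, Finset.mem_product, Finset.mem_powerset,
        Finset.mem_filter, Finset.mem_filter, Fintype.mem_piFinset, Fintype.mem_piFinset]
      unfold cond
      constructor
      · rintro ⟨⟨h1, h2, h3⟩, -, h4, h5, h6⟩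
        exact ⟨fun P hP => Finset.mem_filter.2 ⟨h1 hP, h4 P hP⟩, ⟨h2, h5⟩, h3, h6⟩
      · rintro ⟨h1, ⟨h2, h5⟩, h3, h6⟩
        exact ⟨⟨fun P hP => (Finset.mem_filter.1 (h1 hP)).1, h2, h3⟩, hM,
          fun P hP => (Finset.mem_filter.1 (h1 hP)).2, h5, h6⟩
    rw [e1, Finset.sum_product]
    unfold sw wV
    rw [Finset.sum_mul]
    refine Finset.sum_congr rfl fun U _ => ?_
    rw [Finset.sum_product, sq, Finset.sum_mul_sum, Finset.mul_sum]
    refine Finset.sum_congr rfl fun e _ => ?_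
    rw [Finset.mul_sum]
    rfl
  · rw [if_neg hM]
    symm
    refine Finset.sum_eq_zero fun x hx => ?_
    exact absurd (Finset.mem_filter.1 hx).2.1 hM

/-- the primes dividing the modulus -/
theorem prime_EX (hR : ∀ j, R j ⊆ Rz K z T) {x : Tr K k} (hx : x ∈ TT M z R) {Q : K[X]}
    (hQ : Irreducible Q) (h : Q ∣ EX M x) :
    Q ∣ M ∨ (∃ P ∈ x.1, Q ∣ P) ∨ ∃ j, Q ∣ rd (x.2.1 j * x.2.2 j) := by
  unfold EX at h
  rcases hQ.prime.dvd_or_dvd h with h1 | h1
  · rcases hQ.prime.dvd_or_dvd h1 with h2 | h2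
    · exact Or.inl h2
    · obtain ⟨P, hP, h3⟩ := (Prime.dvd_finset_prod_iff hQ.prime _).1 h2
      exact Or.inr (Or.inl ⟨P, hP, h3⟩)
  · obtain ⟨j, -, hj⟩ := (Prime.dvd_finset_prod_iff hQ.prime _).1 h1
    exact Or.inr (Or.inr ⟨j, hj⟩)

theorem ne_mul (hR : ∀ j, R j ⊆ Rz K z T) {x : Tr K k} (hx : x ∈ TT M z R) (j : Fin k) :
    x.2.1 j * x.2.2 j ≠ 0 := by
  rw [mem_TT] at hx
  exact mul_ne_zero (mem_Rz.1 (hR j (hx.2.1 j))).1.ne_zero (mem_Rz.1 (hR j (hx.2.2 j))).1.ne_zero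

/-- a prime factor of one of the `rd` has large degree -/
theorem prime_rd' (hR : ∀ j, R j ⊆ Rz K z T) {x : Tr K k} (hx : x ∈ TT M z R) {Q : K[X]}
    (hQ : Irreducible Q) {j : Fin k} (h : Q ∣ rd (x.2.1 j * x.2.2 j)) :
    z < Q.natDegree ∧ (Q ∣ x.2.1 j ∨ Q ∣ x.2.2 j) := by
  have h0 := ne_mul hR hx j
  rw [mem_TT] at hx
  obtain ⟨P, hP, h1, -⟩ := Pool.Agent.H524.MT.RWMG.prime_rd (hR j (hx.2.1 j)) (hR j (hx.2.2 j)) hQ h
  have h2 := Pool.Agent.H524.MT.RWMG.mem_PP.1 hP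
  refine ⟨?_, hQ.prime.dvd_or_dvd (h.trans (rd_dvd h0))⟩
  rw [← natDegree_eq_of_degree_eq (degree_eq_degree_of_associated h1)]
  exact h2.2.2.2

theorem EX_monic (hM : M.Monic) (hR : ∀ j, R j ⊆ Rz K z T) {x : Tr K k} (hx : x ∈ TT M z R) :
    (EX M x).Monic := by
  unfold EX
  refine (hM.mul (monic_prod_of_monic _ _ fun P hP => ?_)).mul
    (monic_prod_of_monic _ _ fun j _ => rd_monic (ne_mul hR hx j))
  exact (mem_PS.1 ((mem_TT.1 hx).1 hP)).1.1

/-- `T'` is determined by the modulus -/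
theorem fst_eq (hM : M.Monic) (hR : ∀ j, R j ⊆ Rz K z T) {x : Tr K k} (hx : x ∈ TT M z R) :
    x.1 = (PS K M z).filter (fun P => P ∣ EX M x) := by
  ext P
  rw [Finset.mem_filter]
  constructor
  · intro hP
    refine ⟨(mem_TT.1 hx).1 hP, ?_⟩
    unfold EX
    exact ((Finset.dvd_prod_of_mem _ hP).mul_left _).mul_right _
  · rintro ⟨hP, h1⟩
    have hP' := mem_PS.1 hP
    rcases prime_EX hR hx hP'.1.2.1 h1 with h2 | ⟨Q, hQ, h2⟩ | ⟨j, h2⟩
    · exact absurd h2 hP'.2
    · have hQ' := mem_PS.1 ((mem_TT.1 hx).1 hQ)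
      have h3 : Associated P Q := hP'.1.2.1.associated_of_dvd hQ'.1.2.1 h2
      rw [eq_of_monic_of_associated hP'.1.1 hQ'.1.1 h3]
      exact hQ
    · have h3 := (prime_rd' hR hx hP'.1.2.1 h2).1
      omega

theorem EX_deg (hM : M.Monic) (hR : ∀ j, R j ⊆ Rz K z T) {x : Tr K k} (hx : x ∈ TT M z R) :
    (EX M x).natDegree ≤ M.natDegree + ∑ P ∈ x.1, P.natDegree +
      (∑ j, (x.2.1 j).natDegree + ∑ j, (x.2.2 j).natDegree) := by
  have hm1 : ∀ P ∈ x.1, P.Monic := fun P hP => (mem_PS.1 ((mem_TT.1 hx).1 hP)).1.1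
  have hm2 : ∀ j ∈ (Finset.univ : Finset (Fin k)), (rd (x.2.1 j * x.2.2 j)).Monic :=
    fun j _ => rd_monic (ne_mul hR hx j)
  unfold EX
  rw [(hM.mul (monic_prod_of_monic _ _ hm1)).natDegree_mul (monic_prod_of_monic _ _ hm2),
    hM.natDegree_mul (monic_prod_of_monic _ _ hm1), natDegree_prod_of_monic _ _ hm1,
    natDegree_prod_of_monic _ _ hm2, ← Finset.sum_add_distrib]
  refine Nat.add_le_add_left (Finset.sum_le_sum fun j _ => ?_) _
  have h0 := ne_mul hR hx j
  have h1 := natDegree_le_of_dvd (rd_dvd h0) h0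
  rw [mem_TT] at hx
  rwa [(mem_Rz.1 (hR j (hx.2.1 j))).1.natDegree_mul (mem_Rz.1 (hR j (hx.2.2 j))).1] at h1

/-- the modulus is squarefree -/
theorem EX_sq (hM : M.Monic) (hMs : Squarefree M) (hMz : M.natDegree ≤ z)
    (hdif : ∀ P : K[X], Irreducible P → ∀ i j, i ≠ j → P ∣ g i - g j → P ∣ M)
    (hR : ∀ j, R j ⊆ Rz K z T) {x : Tr K k} (hx : x ∈ TT M z R) {p : K[X]}
    (hc : cond S g i M a₀ p x) : Squarefree (EX M x) := by
  have hx' := mem_TT.1 hx
  have hm1 : ∀ P ∈ x.1, P.Monic ∧ Irreducible P ∧ P.natDegree ≤ z ∧ ¬ P ∣ M := fun P hP => by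
    have := mem_PS.1 (hx'.1 hP)
    exact ⟨this.1.1, this.1.2.1, this.1.2.2, this.2⟩
  have hrdM : ∀ {Q : K[X]} {j : Fin k}, Irreducible Q → Q ∣ rd (x.2.1 j * x.2.2 j) → ¬ Q ∣ M := by
    intro Q j hQ h1 h2
    have h3 := (prime_rd' hR hx hQ h1).1
    have h4 := natDegree_le_of_dvd h2 hM.ne_zero
    omega
  have hs1 : Squarefree (∏ P ∈ x.1, P) := by
    refine Finset.squarefree_prod_of_pairwise_isCoprime ?_ fun P hP => (hm1 P hP).2.1.squarefree
    intro P hP Q hQ hPQ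
    have h1 := hm1 P hP
    have h2 := hm1 Q hQ
    refine ((h1.2.1.coprime_iff_not_dvd).2 fun h3 => hPQ ?_).isRelPrime
    exact eq_of_monic_of_associated h1.1 h2.1 (h1.2.1.associated_of_dvd h2.2.1 h3)
  have hs2 : Squarefree (∏ j, rd (x.2.1 j * x.2.2 j)) := by
    refine Finset.squarefree_prod_of_pairwise_isCoprime ?_ fun j _ => rd_sq (ne_mul hR hx j)
    intro j _ l _ hjl
    refine IsCoprime.isRelPrime ?_
    refine isCoprime_of_irreducible_dvd (fun h => (rd_monic (ne_mul hR hx j)).ne_zero h.1) ?_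
    intro Q hQ h1 h2
    have h3 : Q ∣ p - g i + g j := by
      rcases (prime_rd' hR hx hQ h1).2 with h | h
      · exact h.trans (hc.2.2.1 j)
      · exact h.trans (hc.2.2.2 j)
    have h4 : Q ∣ p - g i + g l := by
      rcases (prime_rd' hR hx hQ h2).2 with h | h
      · exact h.trans (hc.2.2.1 l)
      · exact h.trans (hc.2.2.2 l)
    have h5 : Q ∣ g j - g l := by
      have := dvd_sub h3 h4
      rwa [add_sub_add_left_eq_sub] at this
    exact hrdM hQ h1 (hdif Q hQ j l hjl h5)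
  have hc1 : IsCoprime M (∏ P ∈ x.1, P) := by
    refine IsCoprime.prod_right fun P hP => ?_
    exact (((hm1 P hP).2.1.coprime_iff_not_dvd).2 (hm1 P hP).2.2.2).symm
  have hc2 : IsCoprime (M * ∏ P ∈ x.1, P) (∏ j, rd (x.2.1 j * x.2.2 j)) := by
    refine IsCoprime.prod_right fun j _ => ?_
    refine isCoprime_of_irreducible_dvd (fun h => (rd_monic (ne_mul hR hx j)).ne_zero h.2) ?_
    intro Q hQ h1 h2
    rcases hQ.prime.dvd_or_dvd h1 with h3 | h3
    · exact hrdM hQ h2 h3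
    · obtain ⟨P, hP, h4⟩ := (Prime.dvd_finset_prod_iff hQ.prime _).1 h3
      have h5 := (prime_rd' hR hx hQ h2).1
      have h6 := natDegree_le_of_dvd h4 (hm1 P hP).1.ne_zero
      have h7 := (hm1 P hP).2.2.1
      omega
  unfold EX
  rw [squarefree_mul_iff]
  refine ⟨hc2.isRelPrime, ?_, hs2⟩
  rw [squarefree_mul_iff]
  exact ⟨hc1.isRelPrime, hMs, hs1⟩

/-- the modulus divides the product -/
theorem EX_dvd (hM : M.Monic) (hMs : Squarefree M) (hMz : M.natDegree ≤ z)
    (hg : Function.Injective g) (hgS : ∀ j, g j ∈ S)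
    (hdif : ∀ P : K[X], Irreducible P → ∀ i j, i ≠ j → P ∣ g i - g j → P ∣ M)
    (hR : ∀ j, R j ⊆ Rz K z T) (hRi : R i = {1}) {m : ℕ} {h : Fin m → K[X]}
    (hh : ∀ s ∈ S, s ≠ g i → ∃ t, h t = s - g i) (hh0 : ∃ t, h t = -(g i + a₀))
    {x : Tr K k} (hx : x ∈ TT M z R) {p : K[X]}
    (hc : cond S g i M a₀ p x) : EX M x ∣ Hh h p := by
  have hx' := mem_TT.1 hx
  have hEm := EX_monic hM hR hx
  have hEs := EX_sq hM hMs hMz hdif hR hx hc
  have key : ∀ Q : K[X], Irreducible Q → Q ∣ EX M x → Q ∣ Hh h p := by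
    intro Q hQ hQE
    have hdt : ∀ t, Q ∣ p + h t → Q ∣ Hh h p := fun t ht => by
      unfold Hh
      exact ht.trans (Finset.dvd_prod_of_mem (fun i => p + h i) (Finset.mem_univ t))
    rcases prime_EX hR hx hQ hQE with h1 | ⟨P, hP, h1⟩ | ⟨j, h1⟩
    · obtain ⟨t, ht⟩ := hh0
      refine hdt t ?_
      rw [ht]
      have h2 := h1.trans hc.1
      have e : p + -(g i + a₀) = p - g i - a₀ := by ring
      rwa [e]
    · obtain ⟨⟨s, hs, h2⟩, h2'⟩ := hc.2.1 P hP
      have hsi : s ≠ g i := by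
        rintro rfl
        exact h2' h2
      obtain ⟨t, ht⟩ := hh s hs hsi
      refine hdt t ?_
      rw [ht]
      have e : p + (s - g i) = p - g i + s := by ring
      rw [e]
      exact h1.trans h2
    · have h2 := (prime_rd' hR hx hQ h1).2
      have h3 : Q ∣ p - g i + g j := by
        rcases h2 with h | h
        · exact h.trans (hc.2.2.1 j)
        · exact h.trans (hc.2.2.2 j)
      by_cases hji : j = i
      · exfalso
        subst hji
        have e1 := hx'.2.1 j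
        have e2 := hx'.2.2 j
        rw [hRi, Finset.mem_singleton] at e1 e2
        rw [e1, e2, or_self] at h2
        exact hQ.not_isUnit (isUnit_of_dvd_one h2)
      · obtain ⟨t, ht⟩ := hh (g j) (hgS j) (fun h => hji (hg h))
        refine hdt t ?_
        rw [ht]
        have e : p + (g j - g i) = p - g i + g j := by ring
        rwa [e]
  by_cases hH : Hh h p = 0
  · rw [hH]
    exact dvd_zero _
  · rw [← rd_self hEm hEs, Pool.Agent.H524.MT.RWMG.rd_eq hEm.ne_zero,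
      UniqueFactorizationMonoid.radical_dvd_iff_primeFactors_subset hH]
    intro P hP
    have hP' := (mem_pf hEm.ne_zero).1 hP
    exact (mem_pf hH).2 ⟨hP'.1, hP'.2.1, key P hP'.2.1 hP'.2.2⟩

/-- the coefficients depend only on the class -/
theorem coef_congr (hR : ∀ j, R j ⊆ Rz K z T) {E p p' : K[X]} (hE : E ∣ p - p') :
    coef S g i M a₀ z V R y E p = coef S g i M a₀ z V R y E p' := by
  have key : ∀ {p p' : K[X]}, E ∣ p - p' → ∀ x ∈ TT M z R, EX M x = E →
      cond S g i M a₀ p x → cond S g i M a₀ p' x := by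
    intro p p' hpp x hx hxE hc
    have hx' := mem_TT.1 hx
    have hd : ∀ {D f : K[X]}, D ∣ E → D ∣ p - f → D ∣ p' - f := by
      intro D f h1 h2
      have := dvd_sub h2 (h1.trans hpp)
      have e : p - f - (p - p') = p' - f := by ring
      rwa [e] at this
    have hME : M ∣ E := by
      rw [← hxE]
      unfold EX
      exact (dvd_mul_right _ _).mul_right _
    have hPE : ∀ P ∈ x.1, P ∣ E := by
      intro P hP
      rw [← hxE]
      unfold EX
      exact ((Finset.dvd_prod_of_mem _ hP).mul_left _).mul_right _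
    have hrE : ∀ j, rd (x.2.1 j * x.2.2 j) ∣ E := by
      intro j
      rw [← hxE]
      unfold EX
      exact (Finset.dvd_prod_of_mem (fun j => rd (x.2.1 j * x.2.2 j)) (Finset.mem_univ j)).mul_left _
    have hr2 : ∀ j, x.2.1 j ∣ E ∧ x.2.2 j ∣ E := by
      intro j
      have h1 := mem_Rz.1 (hR j (hx'.2.1 j))
      have h2 := mem_Rz.1 (hR j (hx'.2.2 j))
      exact (rd_dvd_iff h1.2.2.1 h2.2.2.1 h1.1.ne_zero h2.1.ne_zero).1 (hrE j)
    refine ⟨?_, ?_, ?_, ?_⟩
    · have h1 := hd (f := g i + a₀) hME (by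
        have := hc.1
        rwa [sub_sub] at this)
      rwa [sub_sub]
    · intro P hP
      obtain ⟨⟨s, hs, h2⟩, h2'⟩ := hc.2.1 P hP
      refine ⟨⟨s, hs, ?_⟩, fun h3 => h2' ?_⟩
      · have e : ∀ p : K[X], p - g i + s = p - (g i - s) := fun p => by ring
        rw [e] at h2 ⊢
        exact hd (hPE P hP) h2
      · have e : ∀ p : K[X], p - g i + g i = p - 0 := fun p => by ring
        rw [e] at h3 ⊢
        have h4 := dvd_add h3 ((hPE P hP).trans hpp)
        have e' : p' - 0 + (p - p') = p - 0 := by ring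
        rwa [e'] at h4
    · intro j
      have h2 := hc.2.2.1 j
      have e : ∀ p : K[X], p - g i + g j = p - (g i - g j) := fun p => by ring
      rw [e] at h2 ⊢
      exact hd (hr2 j).1 h2
    · intro j
      have h2 := hc.2.2.2 j
      have e : ∀ p : K[X], p - g i + g j = p - (g i - g j) := fun p => by ring
      rw [e] at h2 ⊢
      exact hd (hr2 j).2 h2
  unfold coef
  refine Finset.sum_congr ?_ fun _ _ => rfl
  ext x
  unfold XX
  rw [Finset.mem_filter, Finset.mem_filter, Finset.mem_filter, Finset.mem_filter]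
  constructor
  · rintro ⟨⟨h1, h2, h3⟩, h4⟩
    exact ⟨⟨h1, key hE x h1 h4 h2, h3⟩, h4⟩
  · rintro ⟨⟨h1, h2, h3⟩, h4⟩
    have hE' : E ∣ p' - p := by
      rw [← neg_sub, dvd_neg]
      exact hE
    exact ⟨⟨h1, key hE' x h1 h4 h2, h3⟩, h4⟩

/-- the degree of the modulus of a triple which occurs -/
theorem EX_deg' (hM : M.Monic) (hR : ∀ j, R j ⊆ Rz K z T) {D : ℕ} (hV : GW K z D V)
    (hy : ∀ r ∈ Fintype.piFinset R, T < ∑ j, (r j).natDegree → y r = 0)
    {x : Tr K k} (hx : x ∈ TT M z R) (hw : wt V R y x ≠ 0) :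
    (EX M x).natDegree ≤ M.natDegree + D + 2 * T := by
  have h1 := EX_deg hM hR hx
  unfold wt at hw
  have hV0 : V x.1 ≠ 0 := left_ne_zero_of_mul hw
  have hl := right_ne_zero_of_mul hw
  have hl1 : lam R y x.2.1 ≠ 0 := left_ne_zero_of_mul hl
  have hl2 : lam R y x.2.2 ≠ 0 := right_ne_zero_of_mul hl
  have hm : ∀ j, ∀ r ∈ R j, r.Monic := fun j r hr => (mem_Rz.1 (hR j hr)).1
  have h2 := (hV.2 x.1 hV0).2
  have h3 : ∑ j, (x.2.1 j).natDegree ≤ T := by
    by_contra h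
    exact hl1 (lam_zero hm hy (not_le.1 h))
  have h4 : ∑ j, (x.2.2 j).natDegree ≤ T := by
    by_contra h
    exact hl2 (lam_zero hm hy (not_le.1 h))
  omega

/-- the bound for the coefficients -/
theorem coef_le (hM : M.Monic) (hR : ∀ j, R j ⊆ Rz K z T) {D N : ℕ} (hV : GW K z D V)
    (hT : 2 * (T : ℝ) ≤ qq K ^ z)
    (hy1 : ∀ r ∈ Fintype.piFinset R, |y r| ≤ 2 * (T + 1))
    (hy : ∀ r ∈ Fintype.piFinset R, T < ∑ j, (r j).natDegree → y r = 0) (hz : 0 < z)
    (hN : M.natDegree + D + 2 * T ≤ N * z) (E p : K[X]) :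
    |coef S g i M a₀ z V R y E p| ≤
      ((2 : ℝ) ^ N) ^ (2 * k) * (4 * ((T : ℝ) + 1)) ^ (2 * k + 2) := by
  unfold coef
  set X' := (XX S g i M a₀ z V R y p).filter (fun x => EX M x = E) with hX'
  have hmem : ∀ x ∈ X', x ∈ TT M z R ∧ wt V R y x ≠ 0 ∧ EX M x = E := by
    intro x hx
    rw [hX', Finset.mem_filter] at hx
    have h1 := Finset.mem_filter.1 hx.1
    exact ⟨h1.1, h1.2.2, hx.2⟩
  have hcard : (X'.card : ℝ) ≤ ((2 : ℝ) ^ N) ^ (2 * k) := by
    rcases Finset.eq_empty_or_nonempty X' with h0 | ⟨x₀, hx₀⟩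
    · rw [h0, Finset.card_empty, Nat.cast_zero]
      positivity
    · obtain ⟨h1, h2, h3⟩ := hmem x₀ hx₀
      have hE0 : E ≠ 0 := by
        rw [← h3]
        exact (EX_monic hM hR h1).ne_zero
      have hEd : E.natDegree ≤ N * z := by
        rw [← h3]
        exact (EX_deg' hM hR hV hy h1 h2).trans hN
      have h4 : X'.card ≤ (Fintype.piFinset (fun _ : Fin k => (Rz K z T).filter (fun e => e ∣ E)) ×ˢ
          Fintype.piFinset (fun _ : Fin k => (Rz K z T).filter (fun e => e ∣ E))).card := by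
        refine Finset.card_le_card_of_injOn (fun x => x.2) ?_ ?_
        · intro x hx
          obtain ⟨g1, g2, g3⟩ := hmem x hx
          have g1' := mem_TT.1 g1
          have hr : ∀ j, x.2.1 j ∣ E ∧ x.2.2 j ∣ E := by
            intro j
            have k1 := mem_Rz.1 (hR j (g1'.2.1 j))
            have k2 := mem_Rz.1 (hR j (g1'.2.2 j))
            refine (rd_dvd_iff k1.2.2.1 k2.2.2.1 k1.1.ne_zero k2.1.ne_zero).1 ?_
            rw [← g3]
            unfold EX
            exact (Finset.dvd_prod_of_mem (fun j => rd (x.2.1 j * x.2.2 j))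
              (Finset.mem_univ j)).mul_left _
          rw [Finset.mem_coe, Finset.mem_product, Fintype.mem_piFinset, Fintype.mem_piFinset]
          exact ⟨fun j => Finset.mem_filter.2 ⟨hR j (g1'.2.1 j), (hr j).1⟩,
            fun j => Finset.mem_filter.2 ⟨hR j (g1'.2.2 j), (hr j).2⟩⟩
        · intro x hx x' hx' hxx
          obtain ⟨g1, -, g3⟩ := hmem x hx
          obtain ⟨g1', -, g3'⟩ := hmem x' hx'
          have e1 := fst_eq hM hR g1
          have e2 := fst_eq hM hR g1'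
          rw [g3] at e1
          rw [g3'] at e2
          exact Prod.ext (e1.trans e2.symm) hxx
      have h5 := cnt_div (T := T) hz hE0 hEd
      rw [Finset.card_product, Fintype.card_piFinset_const] at h4
      have h6 : X'.card ≤ (2 ^ N) ^ (2 * k) := by
        refine h4.trans ?_
        rw [two_mul, pow_add]
        exact Nat.mul_le_mul (Nat.pow_le_pow_left h5 k) (Nat.pow_le_pow_left h5 k)
      exact_mod_cast h6
  calc |∑ x ∈ X', wt V R y x| ≤ ∑ x ∈ X', |wt V R y x| := Finset.abs_sum_le_sum_abs _ _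
    _ ≤ ∑ x ∈ X', (4 * ((T : ℝ) + 1)) ^ (2 * k + 2) := by
        refine Finset.sum_le_sum fun x hx => ?_
        have g1 := mem_TT.1 (hmem x hx).1
        have h1 := lam_le hT hR hy1 (Fintype.mem_piFinset.2 g1.2.1)
        have h2 := lam_le hT hR hy1 (Fintype.mem_piFinset.2 g1.2.2)
        have h3 := hV.1 x.1
        unfold wt
        rw [abs_mul, abs_mul]
        calc |V x.1| * (|lam R y x.2.1| * |lam R y x.2.2|)
            ≤ 1 * ((4 * ((T : ℝ) + 1)) ^ (k + 1) * (4 * ((T : ℝ) + 1)) ^ (k + 1)) := by gcongr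
          _ = (4 * ((T : ℝ) + 1)) ^ (2 * k + 2) := by
              rw [one_mul, ← pow_add]
              congr 1
              ring
    _ = (X'.card : ℝ) * (4 * ((T : ℝ) + 1)) ^ (2 * k + 2) := by
        rw [Finset.sum_const, nsmul_eq_mul]
    _ ≤ _ := by gcongr

end

end REPRU

open REPRU in
theorem repru : S_repru := by
  intro K _ _ _ κ k g i M η hη hAdm hg
  have hq2 := q2 (K := K)
  have hq0 := q0 (K := K)
  set r : ℝ := qq K ^ η with hr
  have hr1 : 1 < r := Real.one_lt_rpow (by linarith) hη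
  obtain ⟨d1, h1⟩ := poly_le hr1 2 1
  obtain ⟨N, hNd⟩ : ∃ N, N = ⌈2 / η⌉₊ := ⟨_, rfl⟩
  refine ⟨2 * k + 3, max 1 (max d1 (max ⌈(M.natDegree : ℝ) / η⌉₊ (max M.natDegree
    ((2 ^ N) ^ (2 * k) * 8 ^ (2 * k + 2))))), ?_⟩
  intro S n z A T V R y a₀ h hgS hSκ hn hz hTn hV hW hRi hh hh0
  simp only [max_le_iff] at hn
  obtain ⟨g0, g1, g2, g3, g4⟩ := hn
  have hnr : (1 : ℝ) ≤ n := by exact_mod_cast g0
  have hTn' : T ≤ n := by omega
  have hTr : (T : ℝ) ≤ n := by exact_mod_cast hTn'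
  have hT0 : (0 : ℝ) ≤ T := Nat.cast_nonneg _
  have hR : ∀ j, R j ⊆ Rz K z T := by
    intro j
    rcases hW.Rj j with h | h
    · rw [h]
    · rw [h, Finset.singleton_subset_iff]
      exact one_mem_Rz z T
  have hrd : r ^ n ≤ qq K ^ z := by
    rw [hr, ← Real.rpow_mul_natCast hq0.le, ← Real.rpow_natCast]
    exact Real.rpow_le_rpow_of_exponent_le (by linarith) hz
  have hT : 2 * (T : ℝ) ≤ qq K ^ z := by
    have := h1 n g1
    rw [pow_one] at this
    linarith
  have hMz : M.natDegree ≤ z := by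
    have e3 : (M.natDegree : ℝ) / η ≤ n := (Nat.le_ceil _).trans (by exact_mod_cast g2)
    rw [div_le_iff₀ hη] at e3
    have e2 : (M.natDegree : ℝ) ≤ z := by linarith
    exact_mod_cast e2
  have hz0 : 0 < z := by
    have : (0 : ℝ) < z := lt_of_lt_of_le (by positivity) hz
    exact_mod_cast this
  have hNz : M.natDegree + A * z + 2 * T ≤ N * z := by
    have e1 : M.natDegree + A * z + 2 * T ≤ 2 * n := by omega
    refine e1.trans ?_
    have e2 : (2 * n : ℝ) ≤ N * z := by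
      have e4 : 2 / η ≤ (N : ℝ) := by
        rw [hNd]
        exact Nat.le_ceil _
      have e5 : (0 : ℝ) ≤ z := Nat.cast_nonneg _
      calc (2 * n : ℝ) = 2 / η * (η * n) := by field_simp
        _ ≤ 2 / η * z := by gcongr
        _ ≤ N * z := by gcongr
    exact_mod_cast e2
  have hnC : (0 : ℝ) < (n : ℝ) ^ (2 * k + 3) := by positivity
  have hbd : ∀ E p, |coef S g i M a₀ z V R y E p| ≤ (n : ℝ) ^ (2 * k + 3) := by
    intro E p
    refine (coef_le hAdm.mon hR hV hT hW.yb hW.y0 hz0 hNz E p).trans ?_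
    have e6 : (4 * ((T : ℝ) + 1)) ≤ 8 * n := by linarith
    have e7 : ((2 : ℝ) ^ N) ^ (2 * k) * 8 ^ (2 * k + 2) ≤ n := by exact_mod_cast g4
    calc ((2 : ℝ) ^ N) ^ (2 * k) * (4 * ((T : ℝ) + 1)) ^ (2 * k + 2)
        ≤ ((2 : ℝ) ^ N) ^ (2 * k) * (8 * (n : ℝ)) ^ (2 * k + 2) := by gcongr
      _ = (((2 : ℝ) ^ N) ^ (2 * k) * 8 ^ (2 * k + 2)) * (n : ℝ) ^ (2 * k + 2) := by
          rw [mul_pow]
          ring
      _ ≤ n * (n : ℝ) ^ (2 * k + 2) := by gcongr
      _ = (n : ℝ) ^ (2 * k + 3) := by ring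
  refine ⟨fun E p => coef S g i M a₀ z V R y E p / (n : ℝ) ^ (2 * k + 3), ⟨?_, ?_⟩, ?_⟩
  · intro E p
    rw [abs_div, abs_of_pos hnC, div_le_one hnC]
    exact hbd E p
  · intro E p p' hE
    simp only
    rw [coef_congr hR hE]
  · intro p
    unfold Wc
    rw [sum_XX, ← Finset.sum_div, mul_div_cancel₀ _ hnC.ne']
    unfold coef
    rw [Finset.sum_fiberwise_of_maps_to]
    intro x hx
    obtain ⟨hx1, hx2, hx3⟩ := Finset.mem_filter.1 hx
    rw [Finset.mem_filter]
    refine ⟨?_, EX_dvd hAdm.mon hAdm.sq hMz hg hgS hAdm.dif hR hRi hh hh0 hx1 hx2⟩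
    unfold SqM
    rw [Finset.mem_filter, Finset.mem_biUnion]
    refine ⟨⟨(EX M x).natDegree, ?_, mem_Mn.2 ⟨EX_monic hAdm.mon hR hx1, rfl⟩⟩,
      EX_sq hAdm.mon hAdm.sq hMz hAdm.dif hR hx1 hx2⟩
    rw [Finset.mem_range]
    have := EX_deg' hAdm.mon hR hV hW.y0 hx1 hx3
    omega

end Pool.Agent.H251.MY
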