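import Mathlib
import Pool.Agent.H251.MY.StmU

set_option autoImplicit false

/-!
# Task UPPU (helper336 after helper640's UPP, for helper251): the uniform upper bound
-/

namespace Pool.Agent.H251.MY

open Polynomial Finset
open scoped Classical
open Pool.Agent.H985.KP (PA)
open Pool.Agent.H694.Typ (Mn Irn PU)
open Pool.Agent.H524.MT (Ac Pm GW BH PS Loc sw rwt RW QQ VR er Rz ph lam dia wV yr S_one S_bhk S_resg
  S_rwmx S_mert S_opt)

namespace UppuN

variable {K : Type} [Field K] [Fintype K]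

/-- The sifted classes are the classes of the `-s`. -/
theorem loc_Ru {κ k : ℕ} {g : Fin k → K[X]} {S : Finset K[X]} {M : K[X]} (hA : Adu κ g M)
    (hS : S.card ≤ κ) : Loc M (Ra S) (nr S) κ := by
  refine ⟨?_, ?_, fun _ => (min_le_right _ _).trans hS, hA.big⟩
  · intro P a u
    unfold Ra
    have h : ∀ s : K[X], P ∣ a + P * u + s ↔ P ∣ a + s := by
      intro s
      have e : a + P * u + s = P * u + (a + s) := by ring
      rw [e]
      exact dvd_add_right (dvd_mul_right P u)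
    simp only [h]
  · intro P hPm hPi hPM
    have hset : {c : K[X] | c.degree < P.degree ∧ Ra S P c} =
        ↑(S.image (fun s => (-s) %ₘ P)) := by
      ext c
      simp only [Set.mem_ofPred_eq, Finset.coe_image, Set.mem_image, Finset.mem_coe]
      constructor
      · rintro ⟨hc, s, hs, hd⟩
        refine ⟨s, hs, ?_⟩
        have h1 : (-s) %ₘ P = c %ₘ P := by
          apply (modByMonic_eq_of_dvd_sub hPm _).symm
          have e : c - -s = c + s := by ring
          rw [e]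
          exact hd
        rw [h1, (modByMonic_eq_self_iff hPm).2 hc]
      · rintro ⟨s, hs, rfl⟩
        refine ⟨degree_modByMonic_lt _ hPm, s, hs, ?_⟩
        have h := modByMonic_add_div (-s) P
        exact ⟨-((-s) /ₘ P), by linear_combination h⟩
    have hle : nu S P ≤ S.card := by
      unfold nu
      rw [hset, Set.ncard_coe_finset]
      exact Finset.card_image_le
    have hnr : nr S P = nu S P := by
      unfold nr
      exact min_eq_left hle
    rw [hnr]
    rfl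

theorem VR_mem {M : K[X]} {Rt : K[X] → K[X] → Prop} {r : K[X] → ℕ} {κ : ℕ}
    (hL : Loc M Rt r κ) (z : ℕ) : 0 ≤ VR M z r ∧ VR M z r ≤ 1 := by
  have hfac : ∀ P ∈ PS K M z, 0 ≤ 1 - (r P : ℝ) / (Fintype.card K : ℝ) ^ P.natDegree ∧
      1 - (r P : ℝ) / (Fintype.card K : ℝ) ^ P.natDegree ≤ 1 := by
    intro P hP
    unfold PS at hP
    rw [Finset.mem_filter, Pool.Agent.H694.Typ.mem_PU] at hP
    have hb : (16 * (κ + 2) : ℝ) ≤ (Fintype.card K : ℝ) ^ P.natDegree := by
      exact_mod_cast hL.big P hP.1.1 hP.1.2.1 hP.2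
    have hr : (r P : ℝ) ≤ κ := by exact_mod_cast hL.bd P
    have hr0 : (0 : ℝ) ≤ r P := Nat.cast_nonneg _
    have hκ : (0 : ℝ) ≤ κ := Nat.cast_nonneg _
    generalize (Fintype.card K : ℝ) ^ P.natDegree = n at hb ⊢
    have hn0 : 0 < n := by linarith
    have h1 : (r P : ℝ) / n ≤ 1 := by
      rw [div_le_one hn0]
      linarith
    have h2 : 0 ≤ (r P : ℝ) / n := by positivity
    exact ⟨by linarith, by linarith⟩
  refine ⟨Finset.prod_nonneg fun P hP => (hfac P hP).1, ?_⟩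
  exact Finset.prod_le_one (fun P hP => (hfac P hP).1) (fun P hP => (hfac P hP).2)

theorem poly_le {r : ℝ} (hr : 1 < r) (m : ℕ) :
    ∃ d₀ : ℕ, ∀ d : ℕ, d₀ ≤ d → 2 * (d : ℝ) ^ m ≤ r ^ d := by
  have h1 := tendsto_pow_const_div_const_pow_of_one_lt m hr
  obtain ⟨d₀, hd₀⟩ := Filter.eventually_atTop.1
    (h1.eventually (gt_mem_nhds (by norm_num : (0 : ℝ) < 1 / 2)))
  refine ⟨d₀, fun d hd => ?_⟩
  have h2 := hd₀ d hd
  have h3 : 0 < r ^ d := pow_pos (by linarith) _
  rw [div_lt_div_iff₀ h3 (by norm_num)] at h2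
  linarith

end UppuN

open UppuN in
/-- **Task UPPU.** -/
theorem uppu : S_tuppu := by
  intro hone hrwm K _ _ _
  refine ⟨1 / 2, by norm_num, ?_⟩
  intro κ k g M η A₁ hη hg hA
  have hM := hA.mon
  have hdiff : ∃ N : K[X], N ≠ 0 ∧ ∀ (P a : K[X]) (i j : Fin k), Irreducible P → ¬ P ∣ N → i ≠ j →
      P ∣ (1 : K[X]) * a ^ 1 + g i → ¬ P ∣ (1 : K[X]) * a ^ 1 + g j := by
    refine ⟨M, hM.ne_zero, ?_⟩
    intro P a i j hP hPM hij h1 h2
    apply hPM
    refine hA.dif P hP i j hij ?_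
    have h := dvd_sub h1 h2
    have e : (1 : K[X]) * a ^ 1 + g i - (1 * a ^ 1 + g j) = g i - g j := by ring
    rwa [e] at h
  obtain ⟨d₀, hd₀⟩ := hrwm K k (fun _ => 1) (fun _ => 1) g (fun _ => one_ne_zero)
    (fun _ => Or.inl rfl) hdiff η hη
  have hr1 : (1 : ℝ) < (2 : ℝ) ^ (η / 2) := Real.one_lt_rpow (by norm_num) (by linarith)
  obtain ⟨n₁, hn₁⟩ := poly_le hr1 A₁
  obtain ⟨n₂, hn₂⟩ := exists_nat_ge ((M.natDegree : ℝ) / η)
  refine ⟨d₀ + n₁ + n₂ + 2 * M.natDegree + 1, ?_⟩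
  intro S a₀ n z A T Vm Vp R y hS hgS ha₀ hn hA1 hB hz hD hW
  have hL := loc_Ru hA hS
  have hq : (2 : ℝ) ≤ (Fintype.card K : ℝ) := Pool.Agent.H694.Typ.q_ge (k := K)
  have hqp : (0 : ℝ) < (Fintype.card K : ℝ) := by linarith
  have hn1 : (1 : ℝ) ≤ n := by
    have : 1 ≤ n := by omega
    exact_mod_cast this
  have hD' : (A : ℝ) * z + 3 * T ≤ 1 / 2 * n := by
    have := hD
    push_cast at this
    exact this
  have hAz : (0 : ℝ) ≤ (A : ℝ) * z := by positivity
  have hTn : T ≤ n := by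
    have : (T : ℝ) ≤ n := by
      have hT0 : (0 : ℝ) ≤ T := Nat.cast_nonneg _
      linarith
    exact_mod_cast this
  have hMz : M.natDegree ≤ z := by
    have h1 : (M.natDegree : ℝ) ≤ η * n₂ := by
      rw [div_le_iff₀ hη] at hn₂
      linarith
    have h2 : (n₂ : ℝ) ≤ n := by
      have : n₂ ≤ n := by omega
      exact_mod_cast this
    have h3 : η * (n₂ : ℝ) ≤ η * n := mul_le_mul_of_nonneg_left h2 hη.le
    have h4 : (M.natDegree : ℝ) ≤ z := by linarith
    exact_mod_cast h4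
  have hdeg : A * z + 3 * T + M.natDegree ≤ n := by
    have h1 : 2 * (M.natDegree : ℝ) ≤ n := by
      have : 2 * M.natDegree ≤ n := by omega
      exact_mod_cast this
    have h2 : ((A * z + 3 * T + M.natDegree : ℕ) : ℝ) ≤ n := by
      push_cast
      linarith
    exact_mod_cast h2
  obtain ⟨ι, I, E, cc, φ, hRW, -, hwt, hbd, hQd⟩ := hd₀ n z T R y (by omega) hz hW.zT hTn hW.Rj
    hW.yb hW.y0
  have hfun : ∀ f : K[X], (fun j : Fin k => (1 : K[X]) * f ^ 1 + g j) = fun j => f + g j := by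
    intro f
    funext j
    rw [one_mul, pow_one]
  obtain ⟨hQ0, hsum⟩ := hone K κ M (Ra S) (nr S) a₀ n z A (3 * T)
    ((n : ℝ) ^ (5 * k + 5)) Vm Vp ι I E cc φ hM hL hMz hB hdeg hRW
  have e1 : ∀ f : K[X], rwt I E cc φ f = wV R y (fun j => f + g j) := by
    intro f
    rw [hwt f, hfun f]
  simp only [e1] at hsum
  refine hsum.trans ?_
  obtain ⟨hV0, hV1⟩ := VR_mem hL z
  have hQ1 : QQ I E φ ≤ dia R y + er K z := by
    have := (abs_le.1 hQd).2
    linarith
  have her0 : 0 ≤ er K z := by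
    unfold er
    positivity
  have her : er K z ≤ 1 / (2 * (n : ℝ) ^ A₁) := by
    unfold er
    rw [neg_div, Real.rpow_neg hqp.le, ← one_div]
    apply one_div_le_one_div_of_le (by positivity)
    have h1 := hn₁ n (by omega)
    refine h1.trans ?_
    rw [← Real.rpow_natCast, ← Real.rpow_mul (by norm_num)]
    calc (2 : ℝ) ^ (η / 2 * (n : ℝ)) ≤ (2 : ℝ) ^ ((z : ℝ) / 2) :=
          Real.rpow_le_rpow_of_exponent_le (by norm_num) (by linarith)
      _ ≤ (Fintype.card K : ℝ) ^ ((z : ℝ) / 2) :=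
          Real.rpow_le_rpow (by norm_num) hq (by positivity)
  have hn0 : (0 : ℝ) < (n : ℝ) ^ A₁ := by positivity
  have hqn : (0 : ℝ) < (Fintype.card K : ℝ) ^ n := by positivity
  have hqM : (1 : ℝ) ≤ (Fintype.card K : ℝ) ^ M.natDegree := one_le_pow₀ (by linarith)
  set C0 : ℝ := (Fintype.card K : ℝ) ^ n / (Fintype.card K : ℝ) ^ M.natDegree with hC0
  have hC0p : 0 ≤ C0 := by positivity
  have hC0le : C0 ≤ (Fintype.card K : ℝ) ^ n := div_le_self hqn.le hqM
  have h3 : 2 * VR M z (nr S) * QQ I E φ ≤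
      2 * VR M z (nr S) * dia R y + 2 * er K z := by
    have h4 : 2 * VR M z (nr S) * QQ I E φ ≤
        2 * VR M z (nr S) * (dia R y + er K z) :=
      mul_le_mul_of_nonneg_left hQ1 (by positivity)
    have h5 : VR M z (nr S) * er K z ≤ 1 * er K z :=
      mul_le_mul_of_nonneg_right hV1 her0
    linarith
  have h6 : C0 * (2 * VR M z (nr S) * QQ I E φ) ≤
      C0 * (2 * VR M z (nr S) * dia R y + 2 * er K z) :=
    mul_le_mul_of_nonneg_left h3 hC0p
  have h7 : C0 * (2 * er K z) ≤ (Fintype.card K : ℝ) ^ n / (n : ℝ) ^ A₁ := by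
    have h8 : C0 * (2 * er K z) ≤ (Fintype.card K : ℝ) ^ n * (2 * (1 / (2 * (n : ℝ) ^ A₁))) :=
      mul_le_mul hC0le (by linarith) (by positivity) hqn.le
    have e : (Fintype.card K : ℝ) ^ n * (2 * (1 / (2 * (n : ℝ) ^ A₁))) =
        (Fintype.card K : ℝ) ^ n / (n : ℝ) ^ A₁ := by
      field_simp
    rw [e] at h8
    exact h8
  linarith

end Pool.Agent.H251.MY
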