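import Mathlib
import Pool.Agent.H251.MY.StmQ
import Pool.Agent.H524.MT.Mert

/-!
# The lower bound of the right order for the product of the densities (task VRL, helper546)
-/

set_option autoImplicit false
set_option linter.all false

namespace Pool.Agent.H251.MY

open Polynomial
open scoped Classical
open Pool.Agent.H694.Typ (Mn PU Irn mem_Mn card_Mn mem_PU mem_Irn irn_one_le)
open Pool.Agent.H524.MT (VR PS)
open Pool.Agent.H524.MT.MertL (w w_pos w_le_half two_le_q)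

namespace VRL

variable {K : Type} [Field K] [Fintype K]

/-- the sums of `1 / |P|` and of `1 / |P| ^ 2` over the primes of degree at most `z` -/
theorem sums {z : ℕ} (hz : 1 ≤ z) {a b : ℝ} (ha : 0 ≤ a) (hb : 0 ≤ b) :
    ∑ P ∈ PU K z, (a * w P + b * w P ^ 2) ≤ a * (1 + Real.log z) + b := by
  have hq := two_le_q (K := K)
  have h2 : ∑ P ∈ PU K z, (a * w P + b * w P ^ 2) ≤
      ∑ j ∈ Finset.Icc 1 z, (a * (j : ℝ)⁻¹ + b * (1 / 2) ^ j) := by
    rw [Pool.Agent.H694.Typ.sum_PU]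
    refine Finset.sum_le_sum fun j hj => ?_
    rw [Finset.mem_Icc] at hj
    have h3 : ∀ P ∈ Irn K j, a * w P + b * w P ^ 2 =
        a * (1 / (Fintype.card K : ℝ) ^ j) + b * (1 / (Fintype.card K : ℝ) ^ j) ^ 2 := by
      intro P hP
      unfold w
      rw [(mem_Irn.1 hP).2.1]
    rw [Finset.sum_congr rfl h3, Finset.sum_const, nsmul_eq_mul]
    have h4 : (j : ℝ) * (Irn K j).card ≤ (Fintype.card K : ℝ) ^ j := by
      exact_mod_cast irn_one_le (k := K) (d := j) (by omega)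
    have hj0 : (1 : ℝ) ≤ j := by exact_mod_cast hj.1
    have hpos : (0 : ℝ) < (Fintype.card K : ℝ) ^ j := by positivity
    have h5 : ((Irn K j).card : ℝ) ≤ (Fintype.card K : ℝ) ^ j * (j : ℝ)⁻¹ := by
      rw [← div_eq_mul_inv, le_div_iff₀ (by linarith)]
      linarith
    have h6 : 1 / (Fintype.card K : ℝ) ^ j ≤ (1 / 2) ^ j := by
      rw [one_div_pow]
      exact one_div_le_one_div_of_le (by positivity) (pow_le_pow_left₀ (by norm_num) hq j)
    have h7 : (j : ℝ)⁻¹ ≤ 1 := inv_le_one_of_one_le₀ hj0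
    have h8 : 0 ≤ (j : ℝ)⁻¹ := by positivity
    set Y := (Fintype.card K : ℝ) ^ j with hY
    calc ((Irn K j).card : ℝ) * (a * (1 / Y) + b * (1 / Y) ^ 2) ≤
        (Y * (j : ℝ)⁻¹) * (a * (1 / Y) + b * (1 / Y) ^ 2) :=
          mul_le_mul_of_nonneg_right h5 (by positivity)
      _ = a * (j : ℝ)⁻¹ + b * ((j : ℝ)⁻¹ * (1 / Y)) := by
          field_simp
      _ ≤ a * (j : ℝ)⁻¹ + b * (1 * (1 / 2) ^ j) := by
          have := mul_le_mul_of_nonneg_left (mul_le_mul h7 h6 (by positivity) (by norm_num)) hb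
          linarith
      _ = _ := by rw [one_mul]
  have h3 : ∑ j ∈ Finset.Icc 1 z, (1 / 2 : ℝ) ^ j ≤ 1 := by
    have := Pool.Agent.H694.Typ.geo_half_le 0 z
    simpa using this
  have h4 : ∑ j ∈ Finset.Icc 1 z, (j : ℝ)⁻¹ ≤ 1 + Real.log z := by
    have h5 := harmonic_le_one_add_log z
    rw [harmonic_eq_sum_Icc] at h5
    push_cast at h5
    exact h5
  refine h2.trans ?_
  rw [Finset.sum_add_distrib, ← Finset.mul_sum, ← Finset.mul_sum]
  have h6 := mul_le_mul_of_nonneg_left h4 ha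
  have h7 := mul_le_mul_of_nonneg_left h3 hb
  linarith

theorem exp_le {t : ℝ} (h0 : 0 ≤ t) (h1 : t ≤ 1 / 2) : Real.exp (-(t + 2 * t ^ 2)) ≤ 1 - t := by
  have h2 := Pool.Agent.H524.MT.MertL.inv_le_exp h0 h1
  have h3 : 0 < 1 - t := by linarith
  rw [Real.exp_neg]
  rw [inv_le_comm₀ (Real.exp_pos _) h3]
  exact h2

end VRL

open VRL in
theorem vrl : S_vrl := by
  intro K _ _ s M hM hP
  refine ⟨Real.exp (-((s : ℝ) + 2 * (s : ℝ) ^ 2)), Real.exp_pos _, fun z hz => ?_⟩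
  have hs : (0 : ℝ) ≤ s := Nat.cast_nonneg s
  have hz0 : (0 : ℝ) < z := by exact_mod_cast hz
  have h1 : Real.exp (-∑ P ∈ PS K M z, ((s : ℝ) * w P + 2 * (s : ℝ) ^ 2 * w P ^ 2)) ≤
      VR M z (fun _ => s) := by
    rw [← Finset.sum_neg_distrib, Real.exp_sum]
    unfold VR
    refine Finset.prod_le_prod (fun P _ => (Real.exp_pos _).le) fun P hPS => ?_
    have hPS' : P ∈ PU K z ∧ ¬ P ∣ M := by
      unfold PS at hPS
      exact Finset.mem_filter.1 hPS
    have hm := (mem_PU.1 hPS'.1)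
    have h2 := hP P hm.1 hm.2.1 hPS'.2
    have h3 : (16 : ℝ) * ((s : ℝ) + 2) ≤ (Fintype.card K : ℝ) ^ P.natDegree := by exact_mod_cast h2
    have h4 : (s : ℝ) * w P ≤ 1 / 2 := by
      unfold w
      rw [mul_one_div, div_le_iff₀ (by linarith)]
      linarith
    have h5 := exp_le (mul_nonneg hs (w_pos P).le) h4
    have e1 : (s : ℝ) / (Fintype.card K : ℝ) ^ P.natDegree = (s : ℝ) * w P := by
      unfold w
      rw [mul_one_div]
    rw [e1]
    have e2 : -((s : ℝ) * w P + 2 * (s : ℝ) ^ 2 * w P ^ 2) =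
        -((s : ℝ) * w P + 2 * ((s : ℝ) * w P) ^ 2) := by ring
    rw [e2]
    exact h5
  refine le_trans ?_ h1
  have h6 : ∑ P ∈ PS K M z, ((s : ℝ) * w P + 2 * (s : ℝ) ^ 2 * w P ^ 2) ≤
      ∑ P ∈ PU K z, ((s : ℝ) * w P + 2 * (s : ℝ) ^ 2 * w P ^ 2) := by
    refine Finset.sum_le_sum_of_subset_of_nonneg ?_ ?_
    · intro P hPS
      unfold PS at hPS
      exact (Finset.mem_filter.1 hPS).1
    · intro P _ _
      have := w_pos P
      positivity
  have h7 := sums (K := K) hz hs (by positivity : (0 : ℝ) ≤ 2 * (s : ℝ) ^ 2)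
  have h8 : Real.exp (-((s : ℝ) + 2 * (s : ℝ) ^ 2)) / (z : ℝ) ^ s =
      Real.exp (-((s : ℝ) * (1 + Real.log z) + 2 * (s : ℝ) ^ 2)) := by
    have e1 : -((s : ℝ) * (1 + Real.log z) + 2 * (s : ℝ) ^ 2) =
        -((s : ℝ) + 2 * (s : ℝ) ^ 2) - (s : ℝ) * Real.log z := by ring
    rw [e1, Real.exp_sub, Real.exp_nat_mul, Real.exp_log hz0]
  rw [h8]
  apply Real.exp_le_exp.2
  linarith

end Pool.Agent.H251.MY
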