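import Pool.Agent.H251.MY.FinE
import Pool.Agent.H251.MY.GvbLin
import Pool.Agent.H251.MY.Linu
import Pool.Agent.H251.MY.Repru
import Pool.Agent.H251.MY.Uppu
import Pool.Agent.H251.MY.MASPU
import Pool.Agent.H251.MY.VRL
import Pool.Agent.H251.MY.MAYU
import Pool.Agent.H251.MY.Golq
import Pool.Agent.H251.MY.Gapq
import Pool.Agent.H251.MY.Propq
import Pool.Agent.H524.MT.Bhk
import Pool.Agent.H524.MT.Exp
import Pool.Agent.H524.MT.One
import Pool.Agent.H524.MT.Mert
import Pool.Agent.H524.MT.Opt
import Pool.Agent.H524.MT.Selb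
import Pool.Agent.H524.MT.ResG
import Pool.Agent.H524.MT.RwmX

/-!
# Maynard-Tao with parity over `F_q[X]`, `q` even (helper251): final assembly
-/

namespace Pool.Agent.H251.MY

open Polynomial Finset
open scoped Classical
open Pool.Agent.H524.MT

theorem s_maspu : S_maspu := maspu s_parc linu gvb repru (rwmx selb)

theorem s_uppu : S_uppu := uppu (One.tone Exp.expw) (rwmx selb)

/-- **Maynard-Tao with parity, uniform version.** -/
theorem s_mayu : S_mayu := mayu s_maspu s_uppu bhk resg mert (opt mert) vrl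

/-- The version for fixed shifts. -/
theorem s_mayq : S_mayq := by
  intro K _ _ _ m
  obtain ⟨k, hk, H⟩ := s_mayu K m
  refine ⟨k, hk, fun S g b hg hS hadm => ?_⟩
  obtain ⟨δ, c, n₀, hδ, hc, H1⟩ := H g S.card hg
  refine ⟨δ, c, n₀ + ∑ s ∈ S, s.natDegree + 1, hδ, hc, fun n hn σ hσ => ?_⟩
  refine H1 n (by omega) S b σ le_rfl (fun s hs => ?_) hS hadm hσ
  have h1 : s.natDegree ≤ ∑ s ∈ S, s.natDegree :=
    single_le_sum (f := fun s : K[X] => s.natDegree) (fun _ _ => Nat.zero_le _) hs
  omega

/-- Clusters of primes `p` with all `H - p` of prescribed parity. -/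
theorem s_golq : S_golq := golq s_mayu

/-- Bounded gaps with parity. -/
theorem s_gapq : S_gapq := gapq s_mayq

/-- A positive proportion of the tuples, with parity. -/
theorem s_propq : S_propq := propq s_mayq

end Pool.Agent.H251.MY
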