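import Pool.Agent.H251.MY.MAYU
import Pool.Agent.H524.MT.OptQ

/-!
# Maynard-Tao with parity, uniformly in the shifts, with an explicit size of `k`

The proof is that of MAYU (helper864, helper791) with the quantitative choice of the weights OPTQ.
-/

set_option autoImplicit false
set_option linter.unusedSectionVars false
set_option linter.unusedVariables false

namespace Pool.Agent.H251.MY

open Polynomial Finset
open scoped Classical
open Pool.Agent.H985.Chow (mob)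
open Pool.Agent.H985.KP (PA)
open Pool.Agent.H694.Typ (Mn PU mem_Mn mem_PU q_ge sum_PU irn_one_le mem_Irn Irn coprime_of_ne)
open Pool.Agent.H524.MT (Ac Pm GW BH PS Loc sw rwt RW QQ VR er Rz ph lam dia wV yr S_one S_bhk S_resg
  S_rwmx S_mert S_optq Dc)

/-- `S_mayu` with an explicit size of `k`: every `k ≥ exp (A (m + 1))` will do. -/
def S_mayuq : Prop :=
  ∀ (K : Type) [Field K] [Fintype K] [CharP K 2], ∃ A : ℝ, 0 < A ∧ ∀ m k : ℕ,
    Real.exp (A * (m + 1)) ≤ k →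
    ∀ (g : Fin k → K[X]) (κ : ℕ), Function.Injective g →
      ∃ (δ c : ℝ) (n₀ : ℕ), 0 < δ ∧ 0 < c ∧ ∀ n : ℕ, n₀ ≤ n →
      ∀ (S : Finset K[X]) (b : Fin k → K[X]) (σ : Fin k → ℤ), S.card ≤ κ →
        (∀ s ∈ S, s.natDegree < n) → (∀ j, g j ∈ S ∧ b j ∈ S ∧ b j ≠ g j) →
        (∀ P : K[X], Irreducible P → ∃ f : K[X], ∀ s ∈ S, ¬ P ∣ f + s) →
        (∀ j, σ j = 1 ∨ σ j = -1) →
        c * (Fintype.card K : ℝ) ^ n / (n : ℝ) ^ S.card ≤
          (((Mn K n).filter (fun f =>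
            m ≤ (Finset.univ.filter (fun j => Irreducible (f + g j) ∧ mob (f + b j) = σ j)).card ∧
            ∀ s ∈ S, ∀ P : K[X], Irreducible P → P ∣ f + s → δ * n ≤ P.natDegree)).card : ℝ)

def S_tmayuq : Prop := S_maspu → S_uppu → S_bhk → S_resg → S_mert → S_optq → S_vrl → S_mayuq

/-- `S_mayuq` contains `S_mayu`. -/
theorem mayu_of_mayuq (h : S_mayuq) : S_mayu := by
  intro K _ _ _ m
  obtain ⟨A, hA, h⟩ := h K
  refine ⟨⌈Real.exp (A * (m + 1))⌉₊, Nat.ceil_pos.2 (Real.exp_pos _), ?_⟩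
  exact h m _ (Nat.le_ceil _)

open MayuL in
set_option maxHeartbeats 4000000 in
/-- **MAYU, quantitative version.** -/
theorem mayuq : S_tmayuq := by
  intro hmasp hupp hbhk hresg hmert hopt hvrl K _ _ _
  obtain ⟨θ₁, hθ₁, hmasp⟩ := hmasp K
  obtain ⟨θ₂, hθ₂, hupp⟩ := hupp K
  obtain ⟨θ, hθ, hθa, hθb, hθc⟩ : ∃ θ : ℝ, 0 < θ ∧ θ ≤ θ₁ ∧ θ ≤ θ₂ ∧ θ ≤ 1 :=
    ⟨min (min θ₁ θ₂) 1, by positivity, (min_le_left _ _).trans (min_le_left _ _),
      (min_le_left _ _).trans (min_le_right _ _), min_le_right _ _⟩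
  obtain ⟨C₁, hC₁, hm1, hm2⟩ := hmert K
  obtain ⟨A₀, hA₀, hopt⟩ := hopt K
  refine ⟨A₀ * (2000 / θ + 1), by positivity, fun m k hkA => ?_⟩
  obtain ⟨Λ, hΛ⟩ : ∃ Λ : ℝ, Λ = 1000 * ((m : ℝ) + 2) / θ := ⟨_, rfl⟩
  have hm00 : (0 : ℝ) ≤ m := Nat.cast_nonneg _
  have hΛ00 : 0 ≤ Λ := by rw [hΛ]; positivity
  have hkΛ : Real.exp (A₀ * (Λ + 1)) ≤ k := by
    refine le_trans (Real.exp_le_exp.2 ?_) hkA
    rw [mul_assoc]
    refine mul_le_mul_of_nonneg_left ?_ hA₀.le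
    have e1 : Λ ≤ 2000 / θ * (m + 1) := by
      rw [hΛ, div_mul_eq_mul_div, div_le_div_iff_of_pos_right hθ]
      linarith
    have e2 : (2000 / θ + 1) * ((m : ℝ) + 1) = 2000 / θ * (m + 1) + (m + 1) := by ring
    rw [e2]
    linarith
  have hk : 1 ≤ k := by
    have h1 : (1 : ℝ) ≤ k := by
      refine le_trans ?_ hkΛ
      rw [← Real.exp_zero]
      exact Real.exp_le_exp.2 (by positivity)
    exact_mod_cast h1
  obtain ⟨η₀, hη₀, hy⟩ := hopt Λ k hΛ00 hkΛ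
  intro g κ hg
  have hk0 : 0 < k := hk
  -- the modulus
  obtain ⟨w, hw⟩ : ∃ w : ℕ, w = 16 * (κ + 2) + ∑ i, ∑ j, (g i - g j).natDegree +
    ∑ i, (g i).natDegree := ⟨_, rfl⟩
  have hw1 : 16 * (κ + 2) ≤ w := by omega
  have hw2 : ∀ i j, (g i - g j).natDegree ≤ w := by
    intro i j
    have h1 : (g i - g j).natDegree ≤ ∑ j, (g i - g j).natDegree :=
      single_le_sum (f := fun j => (g i - g j).natDegree) (fun _ _ => Nat.zero_le _) (mem_univ j)
    have h2 : ∑ j, (g i - g j).natDegree ≤ ∑ i, ∑ j, (g i - g j).natDegree :=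
      single_le_sum (f := fun i => ∑ j, (g i - g j).natDegree) (fun _ _ => Nat.zero_le _)
        (mem_univ i)
    omega
  have hw3 : ∀ i, (g i).natDegree ≤ w := by
    intro i
    have h1 : (g i).natDegree ≤ ∑ i, (g i).natDegree :=
      single_le_sum (f := fun i => (g i).natDegree) (fun _ _ => Nat.zero_le _) (mem_univ i)
    omega
  obtain ⟨M, hM⟩ : ∃ M : K[X], M = MM K w := ⟨_, rfl⟩
  have hbig : ∀ P : K[X], P.Monic → Irreducible P → ¬ P ∣ M →
      16 * (κ + 2) ≤ Fintype.card K ^ P.natDegree := by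
    intro P hP hi hd
    rw [hM, dvd_MM hP hi, not_le] at hd
    have h1 : P.natDegree < Fintype.card K ^ P.natDegree := Nat.lt_pow_self Fintype.one_lt_card
    omega
  have hMm : M.Monic := by
    rw [hM]
    exact MM_monic w
  have hAdu : Adu κ g M := by
    refine ⟨hMm, ?_, ?_, ?_, hbig⟩
    · have h1 : (X : K[X]) ∣ M := by
        rw [hM, dvd_MM monic_X irreducible_X, natDegree_X]
        omega
      have h2 := natDegree_le_of_dvd h1 hMm.ne_zero
      rw [natDegree_X] at h2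
      omega
    · rw [hM]
      exact Pool.Agent.H524.MT.MertL.pr_sq (PU_mi w)
    · intro P hP i j hij hd
      obtain ⟨Q, hQm, hQi, hQa, hQd⟩ := mon_of_irr hP
      refine hQa.symm.dvd.trans ?_
      rw [hM, dvd_MM hQm hQi, hQd]
      exact (natDegree_le_of_dvd hd (sub_ne_zero.2 (fun h => hij (hg h)))).trans (hw2 i j)
  have hbig' : ∀ z : ℕ, ∀ P ∈ PS K M z, 16 * (κ + 2) ≤ Fintype.card K ^ P.natDegree := by
    intro z P hP
    unfold PS at hP
    rw [mem_filter, mem_PU] at hP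
    exact hbig P hP.1.1 hP.1.2.1 hP.2
  -- the lower bound of the densities
  obtain ⟨c, hc0, hcV⟩ : ∃ c : ℝ, 0 < c ∧ ∀ s : ℕ, s ≤ κ → ∀ z : ℕ, 1 ≤ z →
      c / (z : ℝ) ^ s ≤ VR M z (fun _ => s) := by
    have h1 : ∀ s : Fin (κ + 1), ∃ c : ℝ, 0 < c ∧ ∀ z : ℕ, 1 ≤ z →
        c / (z : ℝ) ^ (s : ℕ) ≤ VR M z (fun _ => (s : ℕ)) := by
      intro s
      refine hvrl K s M hMm fun P hP hi hd => ?_
      have h2 := hbig P hP hi hd
      have h3 := s.2
      omega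
    choose cs hcs0 hcs using h1
    obtain ⟨s₀, hs₀⟩ := Finite.exists_min cs
    refine ⟨cs s₀, hcs0 s₀, fun s hs z hz => ?_⟩
    refine le_trans ?_ (hcs ⟨s, by omega⟩ z hz)
    exact div_le_div_of_nonneg_right (hs₀ _) (by positivity)
  obtain ⟨A, hA, hBH⟩ := hbhk K (κ + 2)
  have hA0 : (0 : ℝ) < A := by exact_mod_cast hA
  -- the constant `η`
  obtain ⟨η, hη, hηA, hη1, hη2⟩ : ∃ η : ℝ, 0 < η ∧ η * (8 * A) ≤ θ ∧ η * 20 ≤ η₀ * θ ∧
      η * 20 ≤ θ := by
    refine ⟨min (min (θ / (8 * A)) (η₀ * θ / 20)) (θ / 20), by positivity, ?_, ?_, ?_⟩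
    · rw [← le_div_iff₀ (by positivity)]
      exact (min_le_left _ _).trans (min_le_left _ _)
    · rw [← le_div_iff₀ (by positivity)]
      exact (min_le_left _ _).trans (min_le_right _ _)
    · rw [← le_div_iff₀ (by positivity)]
      exact min_le_right _ _
  choose nn hnn using fun i => hmasp κ k g i M η (κ + 1) hη hg hAdu
  obtain ⟨n₂, hn₂⟩ := hupp κ k g M η (κ + 1) hη hg hAdu
  obtain ⟨D, hD⟩ : ∃ D : ℝ, D = (Fintype.card K : ℝ) ^ M.natDegree := ⟨_, rfl⟩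
  have hq2 := q_ge (k := K)
  have hD0 : 0 < D := by
    rw [hD]
    positivity
  -- the bound of the weights
  obtain ⟨N₀, hN₀⟩ : ∃ N₀ : ℕ, N₀ = ⌈1 / η⌉₊ := ⟨_, rfl⟩
  obtain ⟨Sg, hSg⟩ : ∃ Sg : ℝ, Sg = C₁ * θ / (8 * η) := ⟨_, rfl⟩
  have hC₁0 : 0 < C₁ := by linarith
  have hSg0 : 0 < Sg := by
    rw [hSg]
    positivity
  obtain ⟨B, hBdef⟩ : ∃ B : ℝ, B = (((2 : ℝ) ^ N₀) ^ k * (2 * Sg) ^ k) ^ 2 := ⟨_, rfl⟩
  have hB0 : 0 < B := by
    rw [hBdef]
    positivity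
  obtain ⟨n₃, hn₃⟩ : ∃ n₃ : ℕ, ∀ n : ℕ, n₃ ≤ n → (n : ℝ) * ((2 : ℝ) ^ (-η)) ^ n < 1 := by
    have h := tendsto_self_mul_const_pow_of_lt_one (r := (2 : ℝ) ^ (-η)) (by positivity)
      (Real.rpow_lt_one_of_one_lt_of_neg (by norm_num) (by linarith))
    exact Filter.eventually_atTop.1 (h.eventually_lt_const one_pos)
  refine ⟨η, c / (2 * D * k * B), ∑ i, nn i + n₂ + n₃ + w + 2 + ⌈(1 + w + C₁) / η⌉₊ +
    ⌈(40 + 8 * A) / θ⌉₊ + ⌈2 * D * ((k : ℝ) + m) / c⌉₊, hη, ?_, ?_⟩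
  · have : (0 : ℝ) < k := by exact_mod_cast hk0
    positivity
  intro n hn S b σ hSκ hSn hgb hadm hσ
  have hSne : S.Nonempty := ⟨g ⟨0, hk0⟩, (hgb ⟨0, hk0⟩).1⟩
  have hSpos : 1 ≤ S.card := card_pos.2 hSne
  -- the residue class
  choose! b' hb' using hadm
  obtain ⟨a₀, ha₀⟩ := crt_ex (PU K w) (PU_mi w) b'
  have ha₀' : ∀ P : K[X], P.Monic → Irreducible P → P ∣ M → ∀ s ∈ S, ¬ P ∣ a₀ + s := by
    intro P hP hi hd s hs h
    rw [hM, dvd_MM hP hi] at hd
    have h1 := ha₀ P (mem_PU.2 ⟨hP, hi, hd⟩)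
    apply hb' P hi s hs
    have h2 : b' P + s = (a₀ + s) - (a₀ - b' P) := by ring
    rw [h2]
    exact dvd_sub h h1
  have hcop : ∀ s ∈ S, IsCoprime (a₀ + s) M := by
    intro s hs
    apply isCoprime_of_irreducible_dvd
    · rintro ⟨_, h⟩
      exact hMm.ne_zero h
    · intro P hP hd hd'
      obtain ⟨Q, hQm, hQi, hQa, _⟩ := mon_of_irr hP
      exact ha₀' Q hQm hQi (hQa.dvd.trans hd') s hs (hQa.dvd.trans hd)
  have hnni : ∀ i, nn i ≤ n := by
    intro i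
    have : nn i ≤ ∑ i, nn i := single_le_sum (f := nn) (fun _ _ => Nat.zero_le _) (mem_univ i)
    omega
  have hnw : w < n := by omega
  have hn1 : 1 ≤ n := by omega
  have hnr : (1 : ℝ) ≤ n := by exact_mod_cast hn1
  have hn0 : (0 : ℝ) < n := by linarith
  have hn3 : (1 + w + C₁) ≤ η * n := by
    have h0 : ⌈(1 + (w : ℝ) + C₁) / η⌉₊ ≤ n := by omega
    have h1 : (⌈(1 + (w : ℝ) + C₁) / η⌉₊ : ℝ) ≤ n := Nat.cast_le.2 h0
    have h2 := (Nat.le_ceil _).trans h1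
    rw [div_le_iff₀ hη] at h2
    linarith
  have hn4 : (40 + 8 * A) ≤ θ * n := by
    have h0 : ⌈(40 + 8 * (A : ℝ)) / θ⌉₊ ≤ n := by omega
    have h1 : (⌈(40 + 8 * (A : ℝ)) / θ⌉₊ : ℝ) ≤ n := Nat.cast_le.2 h0
    have h2 := (Nat.le_ceil _).trans h1
    rw [div_le_iff₀ hθ] at h2
    linarith
  have hn5 : 2 * D * ((k : ℝ) + m) ≤ c * n := by
    have h0 : ⌈2 * D * ((k : ℝ) + m) / c⌉₊ ≤ n := by omega
    have h1 : (⌈2 * D * ((k : ℝ) + m) / c⌉₊ : ℝ) ≤ n := Nat.cast_le.2 h0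
    have h2 := (Nat.le_ceil _).trans h1
    rw [div_le_iff₀ hc0] at h2
    linarith
  have hw0 : (0 : ℝ) ≤ w := Nat.cast_nonneg _
  -- `z` and `T`
  obtain ⟨z, hz⟩ : ∃ z : ℕ, z = ⌈η * n⌉₊ := ⟨_, rfl⟩
  obtain ⟨T, hT⟩ : ∃ T : ℕ, T = ⌊θ * n / 8⌋₊ := ⟨_, rfl⟩
  have hz1 : η * n ≤ z := by
    rw [hz]
    exact Nat.le_ceil _
  have hz2 : (z : ℝ) ≤ η * n + 1 := by
    rw [hz]
    exact (Nat.ceil_lt_add_one (by positivity)).le
  have hz3 : (z : ℝ) ≤ 2 * (η * n) := by linarith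
  have hT1 : (T : ℝ) ≤ θ * n / 8 := by
    rw [hT]
    exact Nat.floor_le (by positivity)
  have hT2 : θ * n / 10 ≤ T := by
    have h1 : θ * n / 8 < T + 1 := by
      rw [hT]
      exact Nat.lt_floor_add_one _
    linarith
  have hηn : η * n * 20 ≤ θ * n := by nlinarith
  have hηn' : η * n * 20 ≤ η₀ * (θ * n) := by nlinarith
  have hzT : z ≤ T := by
    have : (z : ℝ) ≤ T := by linarith
    exact_mod_cast this
  have hzη : (z : ℝ) ≤ η₀ * T := by
    have h1 : η₀ * (θ * n / 10) ≤ η₀ * T := mul_le_mul_of_nonneg_left hT2 hη₀.le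
    linarith
  have hz4 : 1 ≤ z := by
    have : (1 : ℝ) ≤ z := by linarith
    exact_mod_cast this
  have hz0 : (0 : ℝ) < z := by exact_mod_cast hz4
  have hzw : w ≤ z := by
    have : (w : ℝ) ≤ z := by linarith
    exact_mod_cast this
  have hzn : (z : ℝ) ≤ n := by nlinarith
  have hTn' : 2 * (T : ℝ) ≤ n := by nlinarith
  have hTn : T < n := by
    have : (T : ℝ) < n := by nlinarith
    exact_mod_cast this
  have hAzT : ((A * z + 3 * T : ℕ) : ℝ) ≤ θ * n := by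
    push_cast
    have h1 : (A : ℝ) * z ≤ A * (η * n + 1) := mul_le_mul_of_nonneg_left hz2 hA0.le
    have h2 : η * (8 * A) * n ≤ θ * n := mul_le_mul_of_nonneg_right hηA hn0.le
    nlinarith
  have hAz1 : ((A * z + 3 * T : ℕ) : ℝ) ≤ θ₁ * n :=
    hAzT.trans (mul_le_mul_of_nonneg_right hθa hn0.le)
  have hAz2 : ((A * z + 3 * T : ℕ) : ℝ) ≤ θ₂ * n :=
    hAzT.trans (mul_le_mul_of_nonneg_right hθb hn0.le)
  obtain ⟨Vm, Vp, hV⟩ := hBH z hz4
  obtain ⟨y, hy01, hyT, hy1, hyS⟩ := hy z T hz4 hzη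
  obtain ⟨R, hR⟩ : ∃ R : Fin k → Finset K[X], R = fun _ => Rz K z T := ⟨_, rfl⟩
  rw [← hR] at hyS
  have hsum : ∑ r ∈ Rz K z T, 1 / ph r ≤ 2 * (T + 1) := by
    refine (hm2 z T hz4 hzT).2.trans ?_
    rw [div_le_iff₀ hz0]
    have hT0 : (0 : ℝ) ≤ T := Nat.cast_nonneg _
    have h1 : C₁ ≤ z := by linarith
    nlinarith
  have hsumS : ∑ r ∈ Rz K z T, 1 / ph r ≤ Sg := by
    refine (hm2 z T hz4 hzT).2.trans ?_
    rw [hSg, div_le_div_iff₀ hz0 (by positivity)]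
    have h1 : C₁ * (8 * η * T) ≤ C₁ * (θ * z) := by
      refine mul_le_mul_of_nonneg_left ?_ hC₁0.le
      have h2 : η * (8 * T) ≤ η * (θ * n) := mul_le_mul_of_nonneg_left (by linarith) hη.le
      have h3 : θ * (η * n) ≤ θ * z := mul_le_mul_of_nonneg_left hz1 hθ.le
      linarith
    linarith
  have hWd : Wd z T R y := by
    rw [hR]
    exact wd_all hzT y hy01 hyT
  have hWdi : ∀ i, Wd z T (Function.update R i {1}) (yr i R y) := by
    intro i
    rw [hR]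
    exact wd_res hzT y hy01 hyT i hsum
  have hRi : ∀ i, Function.update R i {1} i = {1} := fun i => Function.update_self i {1} R
  have hDc : ∀ j, Dc (R j) := by
    intro j
    exact Pool.Agent.H524.MT.RWMG.Dc_of (z := z) (T := T) (R := R)
      (fun j => Or.inl (by rw [hR])) j
  have hRT : ∀ j, ∀ r ∈ R j, r.natDegree ≤ T := by
    intro j r hr
    rw [hR] at hr
    exact (Pool.Agent.H524.MT.RWMG.mem_Rz.1 hr).2.1
  have hR1 : ∀ i, (1 : K[X]) ∈ R i := by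
    intro i
    rw [hR]
    exact Pool.Agent.H524.MT.RWMG.one_mem_Rz z T
  have hfg : ∀ f ∈ Mn K n, ∀ i, (f + g i).natDegree = n := by
    intro f hf i
    have hfM := mem_Mn.1 hf
    rw [natDegree_add_eq_left_of_natDegree_lt, hfM.2]
    rw [hfM.2]
    exact lt_of_le_of_lt (hw3 i) hnw
  -- the family
  obtain ⟨F, hF⟩ : ∃ F : Finset K[X], F = (Ac K n M a₀).filter
    (fun f => ∀ P ∈ PS K M z, ¬ Ra S P f) := ⟨_, rfl⟩
  obtain ⟨W, hWdef⟩ : ∃ W : K[X] → ℝ, W = fun f => wV R y (fun j => f + g j) := ⟨_, rfl⟩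
  have hup := hn₂ S a₀ n z A T Vm Vp R y hSκ (fun j => (hgb j).1) hcop (by omega) hA hV hz1 hAz2
    hWd
  have hW0 : ∀ f, 0 ≤ W f := by
    intro f
    rw [hWdef]
    exact sq_nonneg _
  have hFM : ∀ f ∈ F, f ∈ Mn K n ∧ M ∣ f - a₀ ∧ ∀ P ∈ PS K M z, ¬ Ra S P f := by
    intro f hf
    rw [hF, mem_filter] at hf
    have h1 := hf.1
    unfold Ac at h1
    rw [mem_filter] at h1
    exact ⟨h1.1, h1.2, hf.2⟩
  have hTq : 2 * (T : ℝ) ≤ (Fintype.card K : ℝ) ^ z := by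
    have h1 := hn₃ n (by omega)
    have h2 : ((2 : ℝ) ^ (-η)) ^ n = ((2 : ℝ) ^ (η * n))⁻¹ := by
      rw [← Real.rpow_natCast, ← Real.rpow_mul (by norm_num), ← Real.rpow_neg (by norm_num)]
      congr 1
      ring
    rw [h2, ← div_eq_mul_inv, div_lt_one (by positivity)] at h1
    have h3 : (2 : ℝ) ^ (η * n) ≤ (2 : ℝ) ^ (z : ℝ) :=
      Real.rpow_le_rpow_of_exponent_le (by norm_num) hz1
    rw [Real.rpow_natCast] at h3
    have h4 : (2 : ℝ) ^ z ≤ (Fintype.card K : ℝ) ^ z := pow_le_pow_left₀ (by norm_num) hq2 z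
    linarith
  have hWB : ∀ f ∈ Mn K n, W f ≤ B := by
    intro f hf
    rw [hWdef, hBdef, hR]
    refine Pool.Agent.H524.MT.Sh.wV_leS (K := K) (k := k) (z := z) (T := T) hTq hSg0.le hsumS
      (fun r => ?_) (by omega) (N := N₀) (fun j => ?_) (fun j => ?_)
    · rw [abs_of_nonneg (hy01 r).1]
      exact (hy01 r).2
    · intro h0
      have h1 := hfg f hf j
      rw [h0, natDegree_zero] at h1
      omega
    · show (f + g j).natDegree ≤ N₀ * z
      rw [hfg f hf j]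
      have h1 : (n : ℝ) ≤ N₀ * z := by
        have h2 : 1 / η ≤ N₀ := by
          rw [hN₀]
          exact Nat.le_ceil _
        have h3 : (1 / η) * (η * n) ≤ N₀ * z :=
          mul_le_mul h2 hz1 (by positivity) (Nat.cast_nonneg _)
        have h4 : (1 / η) * (η * n) = n := by
          field_simp
        linarith
      exact_mod_cast h1
  have hlow : ∀ i, (Fintype.card K : ℝ) ^ n / (D * Pm M) *
      (VR M z (fun P => nr S P - 1) * dia (Function.update R i {1}) (yr i R y) / 16) -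
        (Fintype.card K : ℝ) ^ n / (n : ℝ) ^ (κ + 1) ≤
      (n : ℝ) * ∑ f ∈ F.filter (fun f => Irreducible (f + g i) ∧ mob (f + b i) = σ i), W f := by
    intro i
    have h1 := hnn i S (b i) a₀ n z A T (σ i) Vm Vp (Function.update R i {1}) (yr i R y) hSκ hSn
      (fun j => (hgb j).1) (hgb i).2.1 (hgb i).2.2 hcop (hnni i) hA hV hz1 hAz1 (hWdi i) (hRi i)
      (hσ i)
    rw [hD]
    refine h1.trans (le_of_eq ?_)
    congr 1
    refine sum_congr ?_ ?_
    · ext f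
      rw [mem_filter, mem_filter, hF, mem_filter]
      tauto
    · intro f hf
      rw [mem_filter] at hf
      rw [hWdef]
      have hfF := hFM f hf.1
      refine (hresg K k i R y (fun j => f + g j) T hDc hRT hf.2.1 ?_ (hR1 i)).symm
      show T < (f + g i).natDegree
      rw [hfg f hfF.1 i]
      exact hTn
  have hlow' : (Fintype.card K : ℝ) ^ n / (D * Pm M) *
      (VR M z (fun P => nr S P - 1) *
        (∑ i, dia (Function.update R i {1}) (yr i R y)) / 16) -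
        k * ((Fintype.card K : ℝ) ^ n / (n : ℝ) ^ (κ + 1)) ≤
      (n : ℝ) * ∑ i, ∑ f ∈ F.filter (fun f => Irreducible (f + g i) ∧ mob (f + b i) = σ i),
        W f := by
    have h1 := sum_le_sum (s := (univ : Finset (Fin k))) fun i _ => hlow i
    rw [sum_sub_distrib, ← mul_sum, ← mul_sum, ← sum_div, ← mul_sum, sum_const, card_univ,
      Fintype.card_fin, nsmul_eq_mul] at h1
    exact h1
  have hupF : ∑ f ∈ F, W f ≤ (Fintype.card K : ℝ) ^ n / D *
      (2 * VR M z (nr S) * dia R y) +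
        (Fintype.card K : ℝ) ^ n / (n : ℝ) ^ (κ + 1) := by
    rw [hD, hF, hWdef]
    exact hup
  have hratio : VR M z (nr S) * Pm M * z ≤ VR M z (fun P => nr S P - 1) := by
    have h1 := hbig' z
    rw [hM] at h1 ⊢
    refine VR_ratio (κ := κ) (nr S) (fun P hP => ?_) (fun P => (nr_le S P).trans hSκ) hzw h1
      (hm1 z hz4).1
    unfold PS at hP
    rw [mem_filter, mem_PU] at hP
    exact one_le_nr hSne hP.1.1
  have hVRge : c / (n : ℝ) ^ S.card ≤ VR M z (nr S) := by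
    have h1 := hcV S.card hSκ z hz4
    have h2 := VR_mono (M := M) (z := z) (κ := κ) (r := nr S) (r' := fun _ => S.card)
      (nr_le S) (fun _ => hSκ) (hbig' z)
    refine le_trans ?_ (h1.trans h2)
    gcongr
  have hVR0 : 0 ≤ VR M z (nr S) := le_trans (by positivity) hVRge
  have hPm0 : 0 < Pm M := by
    rw [hM]
    exact Pm_pos w
  have hdia : 1 ≤ dia R y := by
    rw [hR]
    exact dia_ge z T y hy1
  have hX0 : (0 : ℝ) ≤ (Fintype.card K : ℝ) ^ n := by positivity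
  have hfin := real_fin (k := (k : ℝ)) (m := (m : ℝ)) hX0 hD0 hPm0 hVR0 hz0 hnr hθ
    (Nat.cast_nonneg m) (Nat.cast_nonneg k)
    (by positivity : (0 : ℝ) ≤ (Fintype.card K : ℝ) ^ n / (n : ℝ) ^ (κ + 1))
    hratio hdia hT2 hΛ hyS hlow' hupF
  have hcount := count m F W (fun i f => Irreducible (f + g i) ∧ mob (f + b i) = σ i)
    B (fun f _ => hW0 f) (fun f hf => hWB f (hFM f hf).1)
  obtain ⟨G, hG⟩ : ∃ G : Finset K[X], G = F.filter (fun f => m ≤ (univ.filter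
    (fun j => Irreducible (f + g j) ∧ mob (f + b j) = σ j)).card) := ⟨_, rfl⟩
  have hcount' : (∑ i, ∑ f ∈ F.filter (fun f => Irreducible (f + g i) ∧ mob (f + b i) = σ i),
      W f) - m * ∑ f ∈ F, W f ≤ k * B * (G.card : ℝ) := by
    rw [hG]
    exact hcount
  have hkr : (1 : ℝ) ≤ k := by exact_mod_cast hk
  have hmain := real_fin3 (X := (Fintype.card K : ℝ) ^ n) (D := D) (c := c) (n := (n : ℝ))
    (N := (G.card : ℝ)) (k := (k : ℝ)) (m := (m : ℝ)) (B := B) S.card κ hSκ hX0 hD0 hnr hkr hB0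
    (Nat.cast_nonneg m) hc0 hn5 (by
      refine le_trans ?_ (hfin.trans hcount')
      have h1 : (Fintype.card K : ℝ) ^ n / D * (c / (n : ℝ) ^ S.card) ≤
          (Fintype.card K : ℝ) ^ n / D * VR M z (nr S) :=
        mul_le_mul_of_nonneg_left hVRge (by positivity)
      linarith)
  refine hmain.trans ?_
  have hsub : G ⊆ (Mn K n).filter (fun f =>
      m ≤ (Finset.univ.filter (fun j => Irreducible (f + g j) ∧ mob (f + b j) = σ j)).card ∧
      ∀ s ∈ S, ∀ P : K[X], Irreducible P → P ∣ f + s → η * n ≤ P.natDegree) := by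
    intro f hf
    rw [hG, mem_filter] at hf
    obtain ⟨hfF, hfm⟩ := hf
    obtain ⟨h1, h2, h3⟩ := hFM f hfF
    rw [mem_filter]
    refine ⟨h1, hfm, ?_⟩
    intro s hs P' hP' hd'
    obtain ⟨P, hPm, hPi, hPa, hPd⟩ := mon_of_irr hP'
    rw [← hPd]
    have hd : P ∣ f + s := hPa.dvd.trans hd'
    by_contra hlt
    rw [not_le] at hlt
    have hlt' : (P.natDegree : ℝ) ≤ z := hlt.le.trans hz1
    have hlt2 : P.natDegree ≤ z := by exact_mod_cast hlt'
    by_cases hPM : P ∣ M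
    · apply ha₀' P hPm hPi hPM s hs
      have h4 : a₀ + s = (f + s) - (f - a₀) := by ring
      rw [h4]
      exact dvd_sub hd (hPM.trans h2)
    · apply h3 P
      · unfold PS
        rw [mem_filter, mem_PU]
        exact ⟨⟨hPm, hPi, hlt2⟩, hPM⟩
      · exact ⟨s, hs, hd⟩
  exact_mod_cast card_le_card hsub

end Pool.Agent.H251.MY

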