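import Mathlib
import Pool.Agent.H251.MY.MAYUQ
import Pool.Agent.H251.MY.Gapq
import Pool.Agent.H524.MT.GapR

/-!
# Windows `deg h ≤ B (m + 1)`: clusters of primes with neighbours of prescribed parity

The quantitative forms of `S_golq` and `S_gapq`, from `S_mayuq` (helper524).
-/

set_option autoImplicit false

namespace Pool.Agent.H251.MY

open Polynomial
open scoped Classical
open Pool.Agent.H985.Chow (mob)
open Pool.Agent.H694.Typ (Mn PU mem_Mn mem_PU card_Mn)
open Pool.Agent.H524.MT.GapA (WW WW_monic)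
open Pool.Agent.H524.MT.May (fin_deg)
open Pool.Agent.H524.MT.GapQ (rep rep_mem rep_eq large sizes)

/-- Clusters of primes `p` such that all `p + H` have prescribed parity and no small prime factor, in
windows `deg h ≤ B (m + 1)`, uniformly in `H`.  `B` depends only on `K`. -/
def S_goluq : Prop :=
  ∀ (K : Type) [Field K] [Fintype K] [CharP K 2], ∃ B : ℕ, ∀ m : ℕ,
    ∃ (C : ℕ) (δ c : ℝ) (n₀ : ℕ), 0 < δ ∧ 0 < c ∧ ∀ n : ℕ, n₀ ≤ n → ∀ H : K[X], H ≠ 0 →
    H.natDegree < n → (∀ P : K[X], Irreducible P → ∃ x : K[X], ¬ P ∣ x ∧ ¬ P ∣ x + H) →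
    ∀ σ : ℤ, (σ = 1 ∨ σ = -1) →
      c * (Fintype.card K : ℝ) ^ n / (n : ℝ) ^ C ≤
        (((Mn K n).filter (fun f =>
          m ≤ {h : K[X] | h.natDegree ≤ B * (m + 1) ∧ Irreducible (f + h) ∧
            mob (f + h + H) = σ ∧
            ∀ P : K[X], Irreducible P → P ∣ f + h + H → δ * n ≤ P.natDegree}.ncard)).card : ℝ)

/-- Bounded gaps between primes whose neighbours have prescribed parity, in windows
`deg h ≤ B (m + 1)`; `B` depends only on `K`. -/
def S_gapuq : Prop :=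
  ∀ (K : Type) [Field K] [Fintype K] [CharP K 2], ∃ B : ℕ, ∀ m : ℕ, ∀ a : K[X], a ≠ 0 →
    (∀ P : K[X], Irreducible P → ∃ x : K[X], ¬ P ∣ x ∧ ¬ P ∣ x + a) →
    ∃ (δ : ℝ) (n₀ : ℕ), 0 < δ ∧ ∀ n : ℕ, n₀ ≤ n → ∀ σ : ℤ, (σ = 1 ∨ σ = -1) →
      ∃ f : K[X], f.Monic ∧ f.natDegree = n ∧
        m ≤ {h : K[X] | h.natDegree ≤ B * (m + 1) ∧ Irreducible (f + h) ∧ mob (f + h + a) = σ ∧
          ∀ P : K[X], Irreducible P → P ∣ f + h + a → δ * n ≤ P.natDegree}.ncard

namespace GapuQ

theorem sizes2 (A C : ℝ) (e : ℕ) (hA : 0 < A) (hC : 1 ≤ C) : ∃ B : ℕ, ∀ m : ℕ, ∀ q : ℝ,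
    2 ≤ q → ∃ k w D : ℕ, Real.exp (A * (m + 1)) ≤ k ∧ 1 ≤ k ∧ 1 ≤ w ∧ 2 * k < 2 ^ w ∧
      (k : ℝ) * (C * w) ^ 3 ≤ q ^ D ∧ D + e ≤ B * (m + 1) := by
  obtain ⟨B, hB⟩ := sizes A C hA hC
  refine ⟨3 * B + 3 + e, fun m q hq => ?_⟩
  obtain ⟨k, w, D, h1, h2, h3, h4, h5⟩ := hB (m + 1) (by omega) q hq
  have hm0 : (0 : ℝ) ≤ m := Nat.cast_nonneg m
  have hk1 : (1 : ℝ) ≤ k := by
    refine le_trans ?_ h1
    rw [← Real.exp_zero]
    exact Real.exp_le_exp.2 (by positivity)
  have hw1 : (1 : ℝ) ≤ w := by exact_mod_cast h2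
  refine ⟨k, w + 1, 3 * D + 3, ?_, by exact_mod_cast hk1, by omega, ?_, ?_, ?_⟩
  · refine le_trans (Real.exp_le_exp.2 ?_) h1
    apply mul_le_mul_of_nonneg_left _ hA.le
    push_cast
    linarith
  · rw [pow_succ]
    omega
  · have e1 : C * ((w + 1 : ℕ) : ℝ) ≤ 2 * (C * w) := by
      push_cast
      have := mul_le_mul_of_nonneg_left hw1 (by linarith : (0 : ℝ) ≤ C)
      linarith
    have e2 : (C * ((w + 1 : ℕ) : ℝ)) ^ 3 ≤ (2 * (C * w)) ^ 3 :=
      pow_le_pow_left₀ (by positivity) e1 3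
    have e3 : (k : ℝ) ≤ k ^ 3 := by
      have : (k : ℝ) ^ 1 ≤ k ^ 3 := pow_le_pow_right₀ hk1 (by norm_num)
      rwa [pow_one] at this
    calc (k : ℝ) * (C * ((w + 1 : ℕ) : ℝ)) ^ 3 ≤ k ^ 3 * (2 * (C * w)) ^ 3 :=
          mul_le_mul e3 e2 (by positivity) (by positivity)
      _ = 8 * ((k : ℝ) * (C * w)) ^ 3 := by ring
      _ ≤ q ^ 3 * (q ^ D) ^ 3 := by
          apply mul_le_mul _ (pow_le_pow_left₀ (by positivity) h4 3) (by positivity)
            (by positivity)
          have : (2 : ℝ) ^ 3 ≤ q ^ 3 := pow_le_pow_left₀ (by norm_num) hq 3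
          linarith
      _ = q ^ (3 * D + 3) := by ring
  · calc 3 * D + 3 + e ≤ 3 * (B * (m + 1)) + (3 + e) * (m + 1) := by
          have : 3 + e ≤ (3 + e) * (m + 1) := Nat.le_mul_of_pos_right _ (by omega)
          omega
      _ = (3 * B + 3 + e) * (m + 1) := by ring

variable {K : Type} [Field K] [Fintype K]

/-- Removing the two residue classes of `u` and `u - a` for every prime. -/
theorem greedy2 (a : K[X]) (s : Finset K[X])
    (hs : ∀ P ∈ s, P.Monic ∧ 2 ≤ Fintype.card K ^ P.natDegree) (H₀ : Finset K[X]) :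
    ∃ H ⊆ H₀, (∀ P ∈ s, ∃ u : K[X], ∀ h ∈ H, ¬ P ∣ h - u ∧ ¬ P ∣ h + a - u) ∧
      (H₀.card : ℝ) * ∏ P ∈ s, (1 - 2 / (Fintype.card K : ℝ) ^ P.natDegree) ≤ H.card := by
  induction s using Finset.induction_on with
  | empty => exact ⟨H₀, subset_rfl, by simp, by simp⟩
  | insert P s hPs ih =>
    obtain ⟨H, hH, h1, h2⟩ := ih fun Q hQ => hs Q (Finset.mem_insert_of_mem hQ)
    obtain ⟨hP, hP2⟩ := hs P (Finset.mem_insert_self _ _)
    have hP2' : (2 : ℝ) ≤ (Fintype.card K : ℝ) ^ P.natDegree := by exact_mod_cast hP2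
    have hq : (0 : ℝ) < (Fintype.card K : ℝ) ^ P.natDegree := by linarith
    have hcard : ((Mn K P.natDegree).card : ℝ) = (Fintype.card K : ℝ) ^ P.natDegree := by
      rw [card_Mn]; push_cast; rfl
    have f1 := Finset.card_eq_sum_card_fiberwise (s := H) (t := Mn K P.natDegree) (f := rep P)
      (fun h _ => Finset.mem_coe.2 (rep_mem hP h))
    have f2 := Finset.card_eq_sum_card_fiberwise (s := H) (t := Mn K P.natDegree)
      (f := fun h => rep P (h + a)) (fun h _ => Finset.mem_coe.2 (rep_mem hP (h + a)))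
    obtain ⟨y, hy, hy1⟩ := Finset.exists_le_of_sum_le (s := Mn K P.natDegree)
      (f := fun y => ((H.filter (fun h => rep P h = y)).card : ℝ) +
        (H.filter (fun h => rep P (h + a) = y)).card)
      (g := fun _ => 2 * (H.card : ℝ) / (Fintype.card K : ℝ) ^ P.natDegree)
      ⟨P, mem_Mn.2 ⟨hP, rfl⟩⟩ (by
        rw [Finset.sum_const, nsmul_eq_mul, hcard, mul_div_cancel₀ _ hq.ne',
          Finset.sum_add_distrib]
        have g1 : ∑ y ∈ Mn K P.natDegree, ((H.filter (fun h => rep P h = y)).card : ℝ) =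
            H.card := by exact_mod_cast f1.symm
        have g2 : ∑ y ∈ Mn K P.natDegree, ((H.filter (fun h => rep P (h + a) = y)).card : ℝ) =
            H.card := by exact_mod_cast f2.symm
        rw [g1, g2]
        linarith)
    refine ⟨H.filter (fun h => rep P h ≠ y ∧ rep P (h + a) ≠ y),
      (Finset.filter_subset _ _).trans hH, ?_, ?_⟩
    · intro Q hQ
      rcases Finset.mem_insert.1 hQ with rfl | hQ
      · refine ⟨y, fun h hh => ⟨fun hd => ?_, fun hd => ?_⟩⟩
        · exact (Finset.mem_filter.1 hh).2.1 (rep_eq hP hy hd)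
        · exact (Finset.mem_filter.1 hh).2.2 (rep_eq hP hy hd)
      · obtain ⟨u, hu⟩ := h1 Q hQ
        exact ⟨u, fun h hh => hu h (Finset.mem_filter.1 hh).1⟩
    · rw [Finset.prod_insert hPs]
      have h3 : H.card ≤ (H.filter (fun h => rep P h ≠ y ∧ rep P (h + a) ≠ y)).card +
          ((H.filter (fun h => rep P h = y)).card +
            (H.filter (fun h => rep P (h + a) = y)).card) := by
        refine le_trans (Finset.card_le_card ?_) ((Finset.card_union_le _ _).trans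
          (Nat.add_le_add_left (Finset.card_union_le _ _) _))
        intro h hh
        rw [Finset.mem_union, Finset.mem_union, Finset.mem_filter, Finset.mem_filter,
          Finset.mem_filter]
        by_cases c1 : rep P h = y
        · exact Or.inr (Or.inl ⟨hh, c1⟩)
        · by_cases c2 : rep P (h + a) = y
          · exact Or.inr (Or.inr ⟨hh, c2⟩)
          · exact Or.inl ⟨hh, c1, c2⟩
      have h4 : (H.card : ℝ) ≤ (H.filter (fun h => rep P h ≠ y ∧ rep P (h + a) ≠ y)).card +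
          (((H.filter (fun h => rep P h = y)).card : ℝ) +
            (H.filter (fun h => rep P (h + a) = y)).card) := by exact_mod_cast h3
      have h5 : (0 : ℝ) ≤ 1 - 2 / (Fintype.card K : ℝ) ^ P.natDegree := by
        rw [sub_nonneg, div_le_one hq]
        exact hP2'
      calc (H₀.card : ℝ) * ((1 - 2 / (Fintype.card K : ℝ) ^ P.natDegree) *
            ∏ P ∈ s, (1 - 2 / (Fintype.card K : ℝ) ^ P.natDegree))
          = (1 - 2 / (Fintype.card K : ℝ) ^ P.natDegree) * ((H₀.card : ℝ) *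
            ∏ P ∈ s, (1 - 2 / (Fintype.card K : ℝ) ^ P.natDegree)) := by ring
        _ ≤ (1 - 2 / (Fintype.card K : ℝ) ^ P.natDegree) * H.card :=
            mul_le_mul_of_nonneg_left h2 h5
        _ = H.card - 2 * H.card / (Fintype.card K : ℝ) ^ P.natDegree := by ring
        _ ≤ _ := by linarith

theorem one_sub_cube {x : ℝ} (hx : 4 ≤ x) : (1 - 1 / x) ^ 3 ≤ 1 - 2 / x := by
  have hx0 : 0 < x := by linarith
  have h1 : (1 - 1 / x) ^ 3 = (x - 1) ^ 3 / x ^ 3 := by
    rw [← div_pow]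
    congr 1
    field_simp
  have h2 : 1 - 2 / x = (x - 2) * x ^ 2 / x ^ 3 := by
    field_simp
  rw [h1, h2]
  apply div_le_div_of_nonneg_right _ (by positivity)
  nlinarith

/-- An admissible tuple of small degree which stays admissible together with its translate. -/
theorem tuple2 (a : K[X]) (hadm : ∀ P : K[X], Irreducible P → ∃ x : K[X], ¬ P ∣ x ∧ ¬ P ∣ x + a)
    (C : ℝ) (k w D : ℕ) (hkw : 2 * k < 2 ^ w)
    (hC : ∏ P ∈ PU K w, (1 - 1 / (Fintype.card K : ℝ) ^ P.natDegree)⁻¹ ≤ C * w)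
    (hD : (k : ℝ) * (C * w) ^ 3 ≤ (Fintype.card K : ℝ) ^ D) :
    ∃ g : Fin k → K[X], Function.Injective g ∧
      (∀ j, (g j).natDegree = D + (WW K 1).natDegree) ∧
      ∀ S : Finset K[X], (∀ s ∈ S, ∃ j, s = g j ∨ s = g j + a) → S.card ≤ 2 * k →
        ∀ P : K[X], Irreducible P → ∃ f : K[X], ∀ s ∈ S, ¬ P ∣ f + s := by
  have hW := WW_monic (K := K) 1
  have hq2 : 2 ≤ Fintype.card K := Fintype.one_lt_card
  have hq2' : (2 : ℝ) ≤ (Fintype.card K : ℝ) := by exact_mod_cast hq2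
  obtain ⟨s, hsd⟩ : ∃ s : Finset K[X], s = (PU K w).filter (fun P => 2 ≤ P.natDegree) := ⟨_, rfl⟩
  have hs : ∀ P ∈ s, P.Monic ∧ 2 ≤ Fintype.card K ^ P.natDegree := by
    intro P hP
    rw [hsd, Finset.mem_filter, mem_PU] at hP
    refine ⟨hP.1.1, ?_⟩
    calc 2 ≤ Fintype.card K ^ 1 := by rw [pow_one]; exact hq2
      _ ≤ Fintype.card K ^ P.natDegree :=
        Nat.pow_le_pow_right (by omega) (by omega)
  obtain ⟨H, hH, h1, h2⟩ := greedy2 a s hs ((Mn K D).image (fun h => WW K 1 * h))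
  have hpos : ∀ P ∈ PU K w, 0 < 1 - 1 / (Fintype.card K : ℝ) ^ P.natDegree ∧
      1 - 1 / (Fintype.card K : ℝ) ^ P.natDegree ≤ 1 := by
    intro P hP
    have h3 : (1 : ℝ) < (Fintype.card K : ℝ) ^ P.natDegree :=
      one_lt_pow₀ (by linarith) (mem_PU.1 hP).2.1.natDegree_pos.ne'
    constructor
    · rw [sub_pos, div_lt_one (by linarith)]
      exact h3
    · have : 0 ≤ 1 / (Fintype.card K : ℝ) ^ P.natDegree := by positivity
      linarith
  have hprod : (∏ P ∈ PU K w, (1 - 1 / (Fintype.card K : ℝ) ^ P.natDegree)) ^ 3 ≤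
      ∏ P ∈ s, (1 - 2 / (Fintype.card K : ℝ) ^ P.natDegree) := by
    rw [← Finset.prod_pow]
    have e1 : ∏ P ∈ PU K w, (1 - 1 / (Fintype.card K : ℝ) ^ P.natDegree) ^ 3 ≤
        ∏ P ∈ s, (1 - 1 / (Fintype.card K : ℝ) ^ P.natDegree) ^ 3 := by
      rw [← Finset.prod_filter_mul_prod_filter_not (PU K w) (fun P => 2 ≤ P.natDegree), ← hsd]
      have e2 : 0 ≤ ∏ P ∈ s, (1 - 1 / (Fintype.card K : ℝ) ^ P.natDegree) ^ 3 := by
        refine Finset.prod_nonneg fun P hP => pow_nonneg (hpos P ?_).1.le 3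
        rw [hsd, Finset.mem_filter] at hP
        exact hP.1
      refine mul_le_of_le_one_right e2 (Finset.prod_le_one (fun P hP => ?_) fun P hP => ?_)
      · exact pow_nonneg (hpos P (Finset.mem_filter.1 hP).1).1.le 3
      · exact pow_le_one₀ (hpos P (Finset.mem_filter.1 hP).1).1.le
          (hpos P (Finset.mem_filter.1 hP).1).2
    refine e1.trans (Finset.prod_le_prod (fun P hP => ?_) fun P hP => ?_)
    · rw [hsd, Finset.mem_filter] at hP
      exact pow_nonneg (hpos P hP.1).1.le 3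
    · rw [hsd, Finset.mem_filter] at hP
      apply one_sub_cube
      calc (4 : ℝ) = 2 ^ 2 := by norm_num
        _ ≤ (Fintype.card K : ℝ) ^ 2 := pow_le_pow_left₀ (by norm_num) hq2' 2
        _ ≤ (Fintype.card K : ℝ) ^ P.natDegree := pow_le_pow_right₀ (by linarith) hP.2
  have hpp : 0 < ∏ P ∈ PU K w, (1 - 1 / (Fintype.card K : ℝ) ^ P.natDegree) :=
    Finset.prod_pos fun P hP => (hpos P hP).1
  have hinjW : Function.Injective (fun h : K[X] => WW K 1 * h) :=
    fun x y hxy => mul_left_cancel₀ hW.ne_zero hxy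
  have hkH : k ≤ H.card := by
    have h3 : (k : ℝ) ≤ H.card := by
      refine le_trans ?_ h2
      rw [Finset.card_image_of_injective _ hinjW, card_Mn]
      push_cast
      rw [Finset.prod_inv_distrib] at hC
      have h4 : 1 ≤ (C * w) * ∏ P ∈ PU K w, (1 - 1 / (Fintype.card K : ℝ) ^ P.natDegree) := by
        calc (1 : ℝ) = (∏ P ∈ PU K w, (1 - 1 / (Fintype.card K : ℝ) ^ P.natDegree))⁻¹ *
              ∏ P ∈ PU K w, (1 - 1 / (Fintype.card K : ℝ) ^ P.natDegree) :=
            (inv_mul_cancel₀ hpp.ne').symm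
          _ ≤ _ := mul_le_mul_of_nonneg_right hC hpp.le
      have h5 : 1 ≤ ((C * w) * ∏ P ∈ PU K w,
          (1 - 1 / (Fintype.card K : ℝ) ^ P.natDegree)) ^ 3 := one_le_pow₀ h4
      rw [mul_pow] at h5
      calc (k : ℝ) = k * 1 := by ring
        _ ≤ k * ((C * w) ^ 3 *
            (∏ P ∈ PU K w, (1 - 1 / (Fintype.card K : ℝ) ^ P.natDegree)) ^ 3) :=
            mul_le_mul_of_nonneg_left h5 (Nat.cast_nonneg k)
        _ = (k * (C * w) ^ 3) *
            (∏ P ∈ PU K w, (1 - 1 / (Fintype.card K : ℝ) ^ P.natDegree)) ^ 3 := by ring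
        _ ≤ (Fintype.card K : ℝ) ^ D *
            (∏ P ∈ PU K w, (1 - 1 / (Fintype.card K : ℝ) ^ P.natDegree)) ^ 3 :=
            mul_le_mul_of_nonneg_right hD (pow_nonneg hpp.le 3)
        _ ≤ _ := mul_le_mul_of_nonneg_left hprod (by positivity)
    exact_mod_cast h3
  obtain ⟨H', hH', hcard⟩ := Finset.exists_subset_card_eq hkH
  have e := (Finset.equivFinOfCardEq hcard).symm
  have hmem : ∀ j, ((e j : H') : K[X]) ∈ H := fun j => hH' (e j).2
  have him : ∀ j, ∃ h ∈ Mn K D, WW K 1 * h = ((e j : H') : K[X]) := fun j =>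
    Finset.mem_image.1 (hH (hmem j))
  refine ⟨fun j => ((e j : H') : K[X]), fun i j hij => e.injective (Subtype.ext hij), fun j => ?_,
    fun S hS hSc P hI => ?_⟩
  · obtain ⟨h, hh, hj⟩ := him j
    show ((e j : H') : K[X]).natDegree = _
    rw [← hj, hW.natDegree_mul (mem_Mn.1 hh).1, (mem_Mn.1 hh).2, add_comm]
  · have g1 : (normalize P).Monic := monic_normalize hI.ne_zero
    have g2 : Irreducible (normalize P) := (normalize_associated P).symm.irreducible hI
    have g3 : ∀ a : K[X], P ∣ a → normalize P ∣ a := fun a ha => normalize_dvd_iff.2 ha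
    have g4 : (normalize P).natDegree = P.natDegree :=
      natDegree_eq_of_degree_eq (degree_eq_degree_of_associated (normalize_associated P))
    by_cases hd1 : P.natDegree ≤ 1
    · obtain ⟨x, hx1, hx2⟩ := hadm P hI
      refine ⟨x, fun t ht hP => ?_⟩
      obtain ⟨j, hj⟩ := hS t ht
      have h3 : P ∣ ((e j : H') : K[X]) := by
        obtain ⟨h, hh, hj⟩ := him j
        rw [← hj]
        exact (GapQ.dvd_WW hI hd1).mul_right h
      rcases hj with rfl | rfl
      · exact hx1 ((dvd_add_left h3).1 hP)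
      · apply hx2
        have e1 : x + (((e j : H') : K[X]) + a) = x + a + ((e j : H') : K[X]) := by ring
        rw [e1] at hP
        exact (dvd_add_left h3).1 hP
    · by_cases hd : (normalize P).natDegree ≤ w
      · obtain ⟨u, hu⟩ := h1 (normalize P) (by
          rw [hsd, Finset.mem_filter, mem_PU]
          exact ⟨⟨g1, g2, hd⟩, by omega⟩)
        refine ⟨-u, fun t ht hP => ?_⟩
        obtain ⟨j, hj⟩ := hS t ht
        have h3 := hu _ (hmem j)
        rcases hj with rfl | rfl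
        · apply h3.1
          have e1 : -u + ((e j : H') : K[X]) = ((e j : H') : K[X]) - u := by ring
          rw [e1] at hP
          exact g3 _ hP
        · apply h3.2
          have e1 : -u + (((e j : H') : K[X]) + a) = ((e j : H') : K[X]) + a - u := by ring
          rw [e1] at hP
          exact g3 _ hP
      · rw [not_le] at hd
        have h6 : S.card < Fintype.card K ^ (normalize P).natDegree := by
          calc S.card ≤ 2 * k := hSc
            _ < 2 ^ w := hkw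
            _ ≤ 2 ^ (normalize P).natDegree := Nat.pow_le_pow_right (by norm_num) hd.le
            _ ≤ Fintype.card K ^ (normalize P).natDegree := Nat.pow_le_pow_left hq2 _
        obtain ⟨u, hu⟩ := large (fun j : Fin S.card => ((S.equivFin.symm j : S) : K[X])) g1 h6
        refine ⟨-u, fun t ht hP => ?_⟩
        have h7 := hu (S.equivFin ⟨t, ht⟩)
        rw [Equiv.symm_apply_apply] at h7
        apply h7
        have e1 : -u + t = t - u := by ring
        rw [e1] at hP
        exact g3 _ hP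

theorem exists_pos_le {ι : Type*} [Finite ι] (f : ι → ℝ) (hf : ∀ i, 0 < f i) :
    ∃ δ : ℝ, 0 < δ ∧ ∀ i, δ ≤ f i := by
  cases isEmpty_or_nonempty ι with
  | inl h => exact ⟨1, one_pos, fun i => isEmptyElim i⟩
  | inr h =>
    obtain ⟨i, hi⟩ := Finite.exists_min f
    exact ⟨f i, hf i, hi⟩

theorem exists_nat_ge {ι : Type*} [Finite ι] (f : ι → ℕ) : ∃ n : ℕ, ∀ i, f i ≤ n := by
  obtain ⟨n, hn⟩ := (Set.finite_range f).bddAbove
  exact ⟨n, fun i => hn ⟨i, rfl⟩⟩

end GapuQ

open GapuQ in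
/-- **GOLUQ.** -/
theorem goluq (hM : S_mayuq) : S_goluq := by
  intro K _ _ _
  obtain ⟨A, hA, HA⟩ := hM K
  obtain ⟨C₀, hC₀, hm1, -⟩ := Pool.Agent.H524.MT.mert K
  obtain ⟨B, hB⟩ := sizes2 A C₀ (WW K 1).natDegree hA hC₀
  refine ⟨B, fun m => ?_⟩
  have hq2 : (2 : ℝ) ≤ (Fintype.card K : ℝ) := by
    exact_mod_cast (Fintype.one_lt_card (α := K))
  obtain ⟨k, w, D, hk, hk1, hw, hkw, hkD, hDB⟩ := hB m _ hq2
  -- the finite set of the tuples
  obtain ⟨N, hN⟩ : ∃ N : ℕ, N = D + (WW K 1).natDegree := ⟨_, rfl⟩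
  have hfin : {h : K[X] | h.natDegree = N}.Finite := by
    refine (fin_deg (K := K) (N + 1)).subset fun h hh => ?_
    refine lt_of_le_of_lt degree_le_natDegree ?_
    have h1 : h.natDegree = N := hh
    rw [h1]
    exact_mod_cast Nat.lt_succ_self N
  have : Finite {h : K[X] | h.natDegree = N} := hfin
  obtain ⟨ι, hι⟩ : ∃ ι : Type, ι = {g : Fin k → {h : K[X] | h.natDegree = N} //
      Function.Injective (fun j => ((g j : {h : K[X] | h.natDegree = N}) : K[X]))} := ⟨_, rfl⟩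
  subst hι
  have H1 := fun g : {g : Fin k → {h : K[X] | h.natDegree = N} //
      Function.Injective (fun j => ((g j : {h : K[X] | h.natDegree = N}) : K[X]))} =>
    HA m k hk (fun j => ((g.1 j : {h : K[X] | h.natDegree = N}) : K[X])) (2 * k) g.2
  choose δ' c' n' hδ' hc' H2 using H1
  obtain ⟨δ, hδ, hδle⟩ := exists_pos_le δ' hδ'
  obtain ⟨c, hc, hcle⟩ := exists_pos_le c' hc'
  obtain ⟨n₁, hn₁⟩ := exists_nat_ge n'
  refine ⟨2 * k, δ, c, max n₁ (B * (m + 1) + 1), hδ, hc, fun n hn a ha hadeg hadm σ hσ => ?_⟩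
  have hnn1 : n₁ ≤ n := (le_max_left _ _).trans hn
  have hnn2 : B * (m + 1) + 1 ≤ n := (le_max_right _ _).trans hn
  obtain ⟨g, hinj, hgdeg, hgadm⟩ := tuple2 a hadm C₀ k w D hkw (hm1 w hw).2 hkD
  have hdeg : ∀ j, (g j).natDegree ≤ B * (m + 1) := fun j => by
    rw [hgdeg j]
    exact hDB
  obtain ⟨S, hSd⟩ : ∃ S : Finset K[X], S = Finset.univ.image g ∪
      Finset.univ.image (fun j => g j + a) := ⟨_, rfl⟩
  have hcard : S.card ≤ 2 * k := by
    rw [hSd]
    refine (Finset.card_union_le _ _).trans ?_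
    have h1 := Finset.card_image_le (s := (Finset.univ : Finset (Fin k))) (f := g)
    have h2 := Finset.card_image_le (s := (Finset.univ : Finset (Fin k))) (f := fun j => g j + a)
    rw [Finset.card_univ, Fintype.card_fin] at h1 h2
    omega
  have hS : ∀ s ∈ S, ∃ j, s = g j ∨ s = g j + a := by
    intro s hs
    rw [hSd, Finset.mem_union, Finset.mem_image, Finset.mem_image] at hs
    rcases hs with ⟨j, -, hj⟩ | ⟨j, -, hj⟩
    · exact ⟨j, Or.inl hj.symm⟩
    · exact ⟨j, Or.inr hj.symm⟩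
  have hS1 : ∀ j, g j ∈ S := fun j => by
    rw [hSd]
    exact Finset.mem_union_left _ (Finset.mem_image_of_mem _ (Finset.mem_univ _))
  have hS2 : ∀ j, g j + a ∈ S := fun j => by
    rw [hSd]
    exact Finset.mem_union_right _ (Finset.mem_image.2 ⟨j, Finset.mem_univ _, rfl⟩)
  have hSn : ∀ s ∈ S, s.natDegree < n := by
    intro s hs
    obtain ⟨j, hj⟩ := hS s hs
    have h1 := hdeg j
    rcases hj with rfl | rfl
    · omega
    · refine lt_of_le_of_lt (natDegree_add_le _ _) (max_lt (by omega) hadeg)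
  have hG := H2 ⟨fun j => ⟨g j, by
    show (g j).natDegree = N
    rw [hN]
    exact hgdeg j⟩, hinj⟩ n ((hn₁ _).trans hnn1) S (fun j => g j + a) (fun _ => σ) hcard hSn
    (fun j => ⟨hS1 j, hS2 j, fun h => ha (by simpa using h)⟩)
    (fun P hP => hgadm S hS hcard P hP) (fun _ => hσ)
  have hn0 : (1 : ℝ) ≤ n := by
    have : 1 ≤ n := by omega
    exact_mod_cast this
  have hq0 : (0 : ℝ) < (Fintype.card K : ℝ) := by linarith
  have hcl := hcle ⟨fun j => ⟨g j, by
    show (g j).natDegree = N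
    rw [hN]
    exact hgdeg j⟩, hinj⟩
  have hδl := hδle ⟨fun j => ⟨g j, by
    show (g j).natDegree = N
    rw [hN]
    exact hgdeg j⟩, hinj⟩
  generalize hgg : (⟨fun j => ⟨g j, by
    show (g j).natDegree = N
    rw [hN]
    exact hgdeg j⟩, hinj⟩ : {g : Fin k → {h : K[X] | h.natDegree = N} //
      Function.Injective (fun j => ((g j : {h : K[X] | h.natDegree = N}) : K[X]))}) = gg at hG hcl hδl
  have hgj : ∀ j, ((gg.1 j : {h : K[X] | h.natDegree = N}) : K[X]) = g j := by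
    intro j
    rw [← hgg]
  simp only [hgj] at hG
  have h2 : c * (Fintype.card K : ℝ) ^ n / (n : ℝ) ^ (2 * k) ≤
      c' gg * (Fintype.card K : ℝ) ^ n / (n : ℝ) ^ S.card := by
    calc c * (Fintype.card K : ℝ) ^ n / (n : ℝ) ^ (2 * k) ≤
          c' gg * (Fintype.card K : ℝ) ^ n / (n : ℝ) ^ (2 * k) := by gcongr
      _ ≤ _ := div_le_div_of_nonneg_left (by have := hc' gg; positivity) (by positivity)
        (pow_le_pow_right₀ hn0 hcard)
  refine h2.trans (hG.trans ?_)
  have h3 : ((Mn K n).filter (fun f =>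
      m ≤ (Finset.univ.filter (fun j => Irreducible (f + g j) ∧ mob (f + (g j + a)) = σ)).card ∧
      ∀ s ∈ S, ∀ P : K[X], Irreducible P → P ∣ f + s → δ' gg * n ≤ P.natDegree)).card ≤
      ((Mn K n).filter (fun f =>
        m ≤ {h : K[X] | h.natDegree ≤ B * (m + 1) ∧ Irreducible (f + h) ∧
          mob (f + h + a) = σ ∧
          ∀ P : K[X], Irreducible P → P ∣ f + h + a → δ * n ≤ P.natDegree}.ncard)).card := by
    refine Finset.card_le_card fun f hf => ?_
    rw [Finset.mem_filter] at hf ⊢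
    refine ⟨hf.1, hf.2.1.trans ?_⟩
    have hfin : {h : K[X] | h.natDegree ≤ B * (m + 1) ∧ Irreducible (f + h) ∧
        mob (f + h + a) = σ ∧ ∀ P : K[X], Irreducible P → P ∣ f + h + a →
          δ * n ≤ P.natDegree}.Finite := by
      refine (fin_deg (K := K) (B * (m + 1) + 1)).subset fun h hh => ?_
      refine lt_of_le_of_lt degree_le_natDegree ?_
      have := hh.1
      exact_mod_cast Nat.lt_succ_of_le this
    rw [← Finset.card_image_of_injective _ hinj, ← Set.ncard_coe_finset]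
    refine Set.ncard_le_ncard ?_ hfin
    intro h hh
    rw [Finset.mem_coe, Finset.mem_image] at hh
    obtain ⟨j, hj, rfl⟩ := hh
    have h5 := (Finset.mem_filter.1 hj).2
    refine ⟨hdeg j, h5.1, ?_, fun P hP hPd => ?_⟩
    · rw [add_assoc]
      exact h5.2
    · rw [add_assoc] at hPd
      refine le_trans ?_ (hf.2.2 _ (hS2 j) P hP hPd)
      exact mul_le_mul_of_nonneg_right hδl (Nat.cast_nonneg n)
  exact_mod_cast h3

/-- **GAPUQ.** -/
theorem gapuq_of (h : S_goluq) : S_gapuq := by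
  intro K _ _ _
  obtain ⟨B, hB⟩ := h K
  refine ⟨B, fun m a ha hadm => ?_⟩
  obtain ⟨C, δ, c, n₀, hδ, hc, H⟩ := hB m
  refine ⟨δ, max n₀ (a.natDegree + 1), hδ, fun n hn σ hσ => ?_⟩
  have hn1 : n₀ ≤ n := (le_max_left _ _).trans hn
  have hn2 : a.natDegree + 1 ≤ n := (le_max_right _ _).trans hn
  have h1 := H n hn1 a ha (by omega) hadm σ hσ
  have hn0 : (0 : ℝ) < n := by
    have : 1 ≤ n := by omega
    exact_mod_cast this
  have hq0 : (0 : ℝ) < (Fintype.card K : ℝ) := by
    exact_mod_cast (Fintype.card_pos (α := K))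
  have h2 : (0 : ℝ) < c * (Fintype.card K : ℝ) ^ n / (n : ℝ) ^ C := by positivity
  obtain ⟨f, hf⟩ := Finset.card_pos.1 (by exact_mod_cast h2.trans_le h1)
  rw [Finset.mem_filter, mem_Mn] at hf
  exact ⟨f, hf.1.1, hf.1.2, hf.2⟩

theorem gapuq (hM : S_mayuq) : S_gapuq := gapuq_of (goluq hM)

end Pool.Agent.H251.MY
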