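import Pool.Agent.H251.MY.FinUQ
import Pool.Agent.H251.MY.Gapuq

/-!
# Maynard-Tao with parity over `F_q[X]`, `q` even (helper251): windows of size `B (m + 1)`
-/

namespace Pool.Agent.H251.MY

theorem s_goluq : S_goluq := goluq s_mayuq

theorem s_gapuq : S_gapuq := gapuq s_mayuq

end Pool.Agent.H251.MY
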