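import Pool.Agent.H251.MY.FinU
import Pool.Agent.H251.MY.MAYUQ

/-!
# Maynard-Tao with parity over `F_q[X]`, `q` even (helper251): the quantitative version, assembled
-/

namespace Pool.Agent.H251.MY

open Pool.Agent.H524.MT

theorem s_mayuq : S_mayuq := mayuq s_maspu s_uppu bhk resg mert (optq mert) vrl

end Pool.Agent.H251.MY
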