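import Mathlib
import Pool.Agent.H251.MY.StmE
import Pool.Agent.H985.CG.Stm

/-!
# The diagonal Moebius-twisted Elliott-Halberstam sum over `F_q[X]`, `q` even, at a positive level
(helper251): statements
-/

namespace Pool.Agent.H251.MY

open Polynomial Finset
open scoped Classical
open Pool.Agent.H985.Chow (mob)
open Pool.Agent.H694.Typ (Mn Irn PU)
open Pool.Agent.H251.SP (Rgh S_sp S_comb)
open Pool.Agent.H985.CH (SqM)
open Pool.Agent.H985.CG (S_mainag S_mainbg)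

/-- **Task DEHC.**  A fixed factor `c` of the modulus, and a squarefree factor `a`. -/
def S_dehc : Prop :=
  ∀ (K : Type) [Field K] [Fintype K] [CharP K 2] (c : K[X]) (ε : ℝ), c.Monic → 0 < ε →
    ∃ θ : ℝ, 0 < θ ∧ ∃ n₀ : ℕ, ∀ n : ℕ, n₀ ≤ n → ∀ (y : ℕ) (H : K[X]), (y : ℝ) ≤ θ * n →
      H ≠ 0 → H.natDegree < n →
      ∑ a ∈ (SqM K y).filter (fun a => IsCoprime a c ∧ IsCoprime (a * c) H),
        |∑ p ∈ (Irn K n).filter (fun p => a * c ∣ p + H), (mob (p + H) : ℝ)| ≤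
        ε * ((y + 1) * (Fintype.card K : ℝ) ^ n / n)

def S_tdehc : Prop := S_comb → S_mainag → S_mainbg → S_fewc → S_dehc

/-- The number of the reduced residue classes. -/
noncomputable def eph {K : Type} [Field K] [Fintype K] (E : K[X]) : ℝ :=
  ({c : K[X] | c.degree < E.degree ∧ IsCoprime c E}.ncard : ℝ)

/-- **Task DEH.**  All moduli. -/
def S_deh : Prop :=
  ∀ (K : Type) [Field K] [Fintype K] [CharP K 2] (ε : ℝ), 0 < ε →
    ∃ θ : ℝ, 0 < θ ∧ ∃ n₀ : ℕ, ∀ n : ℕ, n₀ ≤ n → ∀ (y : ℕ) (H : K[X]), (y : ℝ) ≤ θ * n →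
      H ≠ 0 → H.natDegree < n →
      ∑ i ∈ range (y + 1), ∑ E ∈ (Mn K i).filter (fun E => IsCoprime E H),
        |∑ p ∈ (Irn K n).filter (fun p => E ∣ p + H), (mob (p + H) : ℝ) -
          1 / eph E * ∑ p ∈ Irn K n, (mob (p + H) : ℝ)| ≤
        ε * ((y + 1) * (Fintype.card K : ℝ) ^ n / n)

def S_tdeh : Prop := S_dehc → S_sp → S_deh

end Pool.Agent.H251.MY
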